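import Pool.Agent.H71.HT2.Fin
import Pool.Agent.H51.F4.Hc

/-!
# H71-HT2-FIN4: theorem HT for hypercentral `T`, from `APm4 p`, `APu3 p`, without the condition `CT` (MP_b39724_nt, think 1829)

* `ht2_4`: the asymptotic formula for all `K ⊇ K₀`, if `G / Z_j(G)` is `1`, `S_3` or `A_4`.
-/

set_option autoImplicit false

open scoped NumberField
open IsDedekindDomain Filter Topology H38.ML
open scoped Classical

noncomputable section

namespace H71.HT2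

open H63.MA H38.BB H38.BG H57.PC H57.BRA H63.BU H77.PC3 H57.CC H38.AS H77.S0T H77.AB H77.GN
  H77.UX H77.FLD H77.PLF H51.PF H51.NS H51.F3 H12.S3 H51.HC H51.F4

theorem ht2_4 (hA : ∀ p : ℕ, p.Prime → APm4 p) (hU : ∀ p : ℕ, p.Prime → APu3 p) (n : ℕ)
    (hn : 2 ≤ n) (G : Subgroup (Equiv.Perm (Fin n))) (hG : MulAction.IsPretransitive G (Fin n))
    (k : ℕ) (hk : Subgroup.closure (Li G) ≤ Subgroup.upperCentralSeries G k) (hJ : CJ G) :
    ∃ K₀ : IntermediateField ℚ (AlgebraicClosure ℚ), NumberField K₀ ∧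
      ∀ K : IntermediateField ℚ (AlgebraicClosure ℚ), ∀ _ : NumberField K, K₀ ≤ K →
        Asy G K := by
  obtain ⟨p, N, P, H, iP, iH, fP, fH, hp, hN, hL, ⟨F⟩⟩ := hgfr n hn G hG k hk
  have hp0 := hp.pos
  have hfU : Finite (UU F.Q) := uu_fin F.Q
  have hpgU := uu_pg F.Q F.pg
  obtain ⟨M₁, hM₁, h₁⟩ := plf4 hp (hA p hp) (hU p hp) (UU F.Q) hpgU
  have hPL : PLf p M₁ (cU F.Q) := h₁ N _ hN
  obtain ⟨M₂, hM₂⟩ := pus_ex hp (hU p hp) (UU F.Q) hpgU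
  obtain ⟨M₃, hM₃⟩ := hqu hp (hU p hp) hN F k hk hJ
  obtain ⟨M, hM⟩ : ∃ M, M = M₁ + M₂ + M₃ := ⟨_, rfl⟩
  have hM2 : 2 ≤ M := by omega
  have hLi : PLimT p M (cU F.Q) (Tc (cU F.Q)) := plim_mono hp (by omega) hPL.lim
  have hPo : PPosT p M (cU F.Q) (Tc (cU F.Q)) := ppos_mono hp (by omega) hPL.pos
  have hUs : PUs p M (UU F.Q) := hM₂ M (by omega)
  obtain ⟨K₀, hK₀, h0⟩ := fbp F (p ^ M * 3) (by positivity)
  refine ⟨K₀, hK₀, fun K hKn hK => ?_⟩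
  obtain ⟨⟨φ₀, ψ₀, hs, hφ₀, hs', hψ₀, hr⟩, z, hz⟩ := h0 K hK hKn
  have hm : 0 < Nat.card G * (p ^ M * 3) := by
    have : 0 < Nat.card G := Nat.card_pos
    positivity
  have hz1 : ∃ z : K, IsPrimitiveRoot z (Nat.card G) := ⟨z ^ (p ^ M * 3), hz.pow hm (by ring)⟩
  have hzM : ∃ z : K, IsPrimitiveRoot z (p ^ M) := ⟨z ^ (Nat.card G * 3), hz.pow hm (by ring)⟩
  obtain ⟨-, -, hmin, -, -⟩ := pidx_pos hn G hG
  obtain ⟨j, hj⟩ := hJ
  refine asy_h hn hG hp hN F M hM2 hLi hPo hUs (hM₃ M (by omega)) φ₀ hs hφ₀ ψ₀ hs' hψ₀ hr hz1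
    hzM 1 zero_le_one (rbq F.Q.ph F.Q.phs j ?_ hj (z ^ (Nat.card G * p ^ M))
      (hz.pow hm (by ring))) fun g hg => ?_
  · rw [F.ker]
    refine hk.trans ?_
    rcases hj with h | ⟨⟨e⟩⟩ | ⟨⟨e⟩⟩
    · rw [h]
      exact le_top
    · exact H86.HS.ucs_le j (H86.HS.cen_of e H86.HS.s3_cen) k
    · exact H86.HS.ucs_le j (H86.HS.cen_of e H86.HS.a4_cen) k
  · have hne : g ≠ 1 := fun h => hg (by rw [h, map_one])
    have h1 : indG G ≤ ind (g : Equiv.Perm (Fin n)) := hmin g hne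
    have h2 : indG G ≠ ind (g : Equiv.Perm (Fin n)) := fun h => hg (by
      rw [← MonoidHom.mem_ker, F.ker]
      exact Subgroup.subset_closure ⟨hne, h.symm⟩)
    rw [one_mul]
    exact_mod_cast lt_of_le_of_ne h1 h2

end H71.HT2
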