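import Pool.Agent.H71.HT2.Sdp
import Pool.Agent.H48.MF.Ing
import Pool.Agent.H35.AC.Trv

/-!
# [H71 HT2 ABS] homomorphisms to a `p`-group, surjective modulo the centraliser of the classes (MP_b39724_nt, think 1829)

`q : P → P₁`, `ker q` commutes with the `c.g i`; `ψ ∈ PQ L c q E Y`: `q ψ` surjective, typed outside `S0` and `E`.
PROOF of `abs1`. Let `J = ψ.range`. `q` maps `J` onto `P₁`. If `ψ (t_v) = g c_i g⁻¹` (`g ∈ P`), choose `j ∈ J` with `q j = q g`: `g c_i g⁻¹ = j c_i j⁻¹`, so `c_i ∈ J` and `ψ (t_v)` is conjugate to `c_i` in `J`. So `ψ.rangeRestrict ∈ PU L c' E Y`, `c'` = the family of the `c_i ∈ J` (`N' ≤ N` of them, `CL p N' J`; reindex by `Fin N'`: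
`abs_sub`). If `1 ≤ N'`: `hU J N' c'`. If `N' = 0`: no prime is typed, `ψ` is unramified outside `S0 ∪ E`; if `J = ⊥` there is one `ψ`, otherwise take an element of order `p` of `J` (`exists_prime_orderOf_dvd_card`; `CL p 1 J`), `ψ.rangeRestrict ∈ PU L c'' E 1`. Sum over the finitely many subgroups `J` (the map `ψ ↦ ψ.rangeRestrict` is injective for given `J`;
`Finset.card_eq_sum_card_fiberwise` over `Finset.univ : Finset (Subgroup P)`); `1 + log Y ≥ 1`.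
PROOF of `abs2`. If all `c_i ∈ J` then `J` contains the conjugates of the `c_i` (as above: conjugates under `P` are conjugates under `J`), so `Tc c ≤ J` and `J = ⊤`. So `N' < N` for these `J`: `(1 + log Y)^(N'-1) (1 + log Y) ≤ (1 + log Y)^(N-1)` if `1 ≤ N'`, and `1 + log Y ≤ Y` if `N' = 0` (`Real.add_one_le_exp`, `Real.log_le_sub_one_of_pos`).
`pq_fin`: a set all of whose finite subsets have bounded cardinality is finite (as `pu_fin`, H51/PF).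
-/

set_option autoImplicit false

open scoped NumberField
open IsDedekindDomain H38.ML
open scoped Classical

noncomputable section

namespace H71.HT2

open H63.MA H38.BB H38.BG H57.PC H57.BRA H63.BU H77.PC3 H57.CC H38.AS H77.S0T H77.FLD H77.PLF
  H51.PF H51.F3

/-- the classes contained in a subgroup which meets every class in a class -/
theorem abs_sub {p N : ℕ} {P : Type} [Group P] (c : CL p N P) (J : Subgroup P) :
    ∃ (N' : ℕ) (c' : CL p N' J), N' ≤ N ∧ ((∃ i, c.g i ∉ J) → N' < N) ∧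
      (∀ i, c.g i ∈ J → ∃ k, ((c'.g k : J) : P) = c.g i) ∧
      ∀ k, ∃ i, ((c'.g k : J) : P) = c.g i := by
  obtain ⟨e⟩ : Nonempty (Fin (Fintype.card {i : Fin N // c.g i ∈ J}) ≃ {i : Fin N // c.g i ∈ J}) :=
    ⟨(Fintype.equivFin _).symm⟩
  refine ⟨Fintype.card {i : Fin N // c.g i ∈ J}, ⟨fun k => ⟨c.g (e k).1, (e k).2⟩, ?_, ?_, ?_⟩,
    ?_, ?_, ?_, ?_⟩
  · intro k
    exact Subtype.ext (c.pow _)
  · intro k h
    exact c.ne (e k).1 (congrArg Subtype.val h)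
  · intro k k' h
    obtain ⟨x, hx⟩ := isConj_iff.1 h
    have h1 : IsConj (c.g (e k).1) (c.g (e k').1) :=
      isConj_iff.2 ⟨(x : P), congrArg Subtype.val hx⟩
    exact e.injective (Subtype.ext (c.uni _ _ h1))
  · exact (Fintype.card_subtype_le _).trans_eq (Fintype.card_fin N)
  · rintro ⟨i, hi⟩
    exact (Fintype.card_subtype_lt (p := fun i : Fin N => c.g i ∈ J) (x := i) hi).trans_eq
      (Fintype.card_fin N)
  · intro i hi
    refine ⟨e.symm ⟨i, hi⟩, ?_⟩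
    show c.g (e (e.symm ⟨i, hi⟩)).1 = c.g i
    rw [e.apply_symm_apply]
  · intro k
    exact ⟨(e k).1, rfl⟩

private theorem cj_J {p N : ℕ} {P P₁ : Type} [Group P] [Group P₁] {c : CL p N P} {q : P →* P₁}
    (hq : ∀ g, q g = 1 → ∀ i, g * c.g i = c.g i * g) {J : Subgroup P}
    (hJ : ∀ g : P, ∃ j ∈ J, q j = q g) (g : P) (i : Fin N) :
    ∃ j ∈ J, g * c.g i * g⁻¹ = j * c.g i * j⁻¹ := by
  obtain ⟨j, hj, hjg⟩ := hJ g
  refine ⟨j, hj, ?_⟩
  have h1 : q (j⁻¹ * g) = 1 := by rw [map_mul, map_inv, hjg, inv_mul_cancel]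
  have h2 := hq _ h1 i
  calc g * c.g i * g⁻¹ = j * ((j⁻¹ * g) * c.g i) * (j⁻¹ * g)⁻¹ * j⁻¹ := by group
    _ = j * (c.g i * (j⁻¹ * g)) * (j⁻¹ * g)⁻¹ * j⁻¹ := by rw [h2]
    _ = j * c.g i * j⁻¹ := by group

/-- the size -/
private def bd (n : ℕ) (Y : ℝ) : ℝ := if n = 0 then 1 else Y * (1 + Real.log Y) ^ (n - 1)

private theorem bd_le {n N : ℕ} {Y : ℝ} (hY : 1 ≤ Y) (hn : n ≤ N) :
    bd n Y ≤ Y * (1 + Real.log Y) ^ (N - 1) := by
  have h1 : 1 ≤ 1 + Real.log Y := by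
    have := Real.log_nonneg hY
    linarith
  unfold bd
  split_ifs with h
  · have h2 : (1 : ℝ) ≤ (1 + Real.log Y) ^ (N - 1) := one_le_pow₀ h1
    nlinarith
  · exact mul_le_mul_of_nonneg_left (pow_le_pow_right₀ h1 (by omega)) (by linarith)

private theorem bd_lt {n N : ℕ} {Y : ℝ} (hY : 1 ≤ Y) (hn : n < N) :
    bd n Y * (1 + Real.log Y) ≤ Y * (1 + Real.log Y) ^ (N - 1) := by
  have h0 := Real.log_nonneg hY
  have h1 : 1 ≤ 1 + Real.log Y := by linarith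
  unfold bd
  split_ifs with h
  · have h2 : (1 : ℝ) ≤ (1 + Real.log Y) ^ (N - 1) := one_le_pow₀ h1
    have h3 : Real.log Y ≤ Y - 1 := Real.log_le_sub_one_of_pos (by linarith)
    nlinarith
  · rw [mul_assoc, ← pow_succ]
    exact mul_le_mul_of_nonneg_left (pow_le_pow_right₀ h1 (by omega)) (by linarith)

section abs

variable {K : IntermediateField ℚ QBar} [NumberField K] {p N M : ℕ} {ζ z₂ : K} {P P₁ : Type}
  [Group P] [Group P₁]

/-- restriction of the target -/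
private def rst (J : Subgroup P) (ψ : Gal(QBar/K) →* P) : Gal(QBar/K) →* J :=
  if h : ∀ σ, ψ σ ∈ J then ψ.codRestrict J h else 1

private theorem rst_val {J : Subgroup P} {ψ : Gal(QBar/K) →* P} (h : ψ.range = J)
    (σ : Gal(QBar/K)) : ((rst J ψ σ : J) : P) = ψ σ := by
  have h1 : ∀ σ, ψ σ ∈ J := fun σ => by rw [← h]; exact ⟨σ, rfl⟩
  unfold rst
  rw [dif_pos h1]
  rfl

private theorem rst_one {J : Subgroup P} {ψ : Gal(QBar/K) →* P} (h : ψ.range = J)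
    (σ : Gal(QBar/K)) : rst J ψ σ = 1 ↔ ψ σ = 1 := by
  rw [← rst_val h σ]
  exact ⟨fun h1 => by rw [h1]; rfl, fun h1 => Subtype.ext h1⟩

private theorem rst_ft {J : Subgroup P} {ψ : Gal(QBar/K) →* P} (h : ψ.range = J)
    (hψ : H38.ML.FT ψ) : H38.ML.FT (rst J ψ) := by
  obtain ⟨E, hE, hk⟩ := hψ
  refine ⟨E, hE, fun σ hσ => ?_⟩
  rw [MonoidHom.mem_ker, rst_one h]
  exact MonoidHom.mem_ker.1 (hk hσ)

private theorem rst_srj {J : Subgroup P} {ψ : Gal(QBar/K) →* P} (h : ψ.range = J) :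
    Function.Surjective (rst J ψ) := by
  rintro ⟨x, hx⟩
  rw [← h] at hx
  obtain ⟨σ, rfl⟩ := hx
  exact ⟨σ, Subtype.ext (rst_val h σ)⟩

private theorem rst_inj {J : Subgroup P} {ψ ψ' : Gal(QBar/K) →* P} (h : ψ.range = J)
    (h' : ψ'.range = J) (he : rst J ψ = rst J ψ') : ψ = ψ' := by
  ext σ
  rw [← rst_val h σ, ← rst_val h' σ, he]

private theorem pq_jq {c : CL p N P} {q : P →* P₁} {D : RD0 K p ζ} {L : LDs D QBar}
    {E : Finset (Pl K)} {Y : ℝ} {ψ : Gal(QBar/K) →* P} (hψ : ψ ∈ PQ L c q E Y) (g : P) :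
    ∃ j ∈ ψ.range, q j = q g := by
  obtain ⟨σ, hσ⟩ := hψ.2.1 (q g)
  exact ⟨ψ σ, ⟨σ, rfl⟩, hσ⟩

private theorem pq_ty {c : CL p N P} {q : P →* P₁}
    (hq : ∀ g, q g = 1 → ∀ i, g * c.g i = c.g i * g) {D : RD0 K p ζ} {L : LDs D QBar}
    {E : Finset (Pl K)} {Y : ℝ} {ψ : Gal(QBar/K) →* P} (hψ : ψ ∈ PQ L c q E Y) {i : Fin N}
    {v : Pl K} (h : TyC c L ψ i v) : ∃ j ∈ ψ.range, j * ψ (L.t v) * j⁻¹ = c.g i := by
  obtain ⟨g, hg⟩ := isConj_iff.1 h.2.1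
  obtain ⟨j, hj, h1⟩ := cj_J hq (pq_jq hψ) g⁻¹ i
  refine ⟨j⁻¹, Subgroup.inv_mem _ hj, ?_⟩
  have h2 : ψ (L.t v) = g⁻¹ * c.g i * g⁻¹⁻¹ := by rw [← hg]; group
  rw [h2, h1]
  group

private theorem pq_pu {c : CL p N P} {q : P →* P₁}
    (hq : ∀ g, q g = 1 → ∀ i, g * c.g i = c.g i * g) {D : RD0 K p ζ} {L : LDs D QBar}
    {E : Finset (Pl K)} {Y : ℝ} {ψ : Gal(QBar/K) →* P} (hψ : ψ ∈ PQ L c q E Y)
    {J : Subgroup P} (hJ : ψ.range = J) {N' : ℕ} (c' : CL p N' J)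
    (hc : ∀ i, c.g i ∈ J → ∃ k, ((c'.g k : J) : P) = c.g i) : rst J ψ ∈ PU L c' E Y := by
  refine ⟨rst_ft hJ hψ.1, rst_srj hJ, fun v hv hvE => ?_, fun T hT => ?_⟩
  · rcases hψ.2.2.1 v hv hvE with h | ⟨i, hi⟩
    · exact Or.inl fun τ hτ => (rst_one hJ τ).2 (h τ hτ)
    · right
      obtain ⟨j, hj, h1⟩ := pq_ty hq hψ hi
      rw [hJ] at hj
      have h2 : ψ (L.t v) ∈ J := by rw [← hJ]; exact ⟨_, rfl⟩
      have h3 : c.g i ∈ J := by
        rw [← h1]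
        exact J.mul_mem (J.mul_mem hj h2) (J.inv_mem hj)
      obtain ⟨k, hk⟩ := hc i h3
      refine ⟨k, hi.1, isConj_iff.2 ⟨⟨j, hj⟩, Subtype.ext ?_⟩, fun τ hτ => Subtype.ext ?_⟩
      · show j * ((rst J ψ (L.t v) : J) : P) * j⁻¹ = _
        rw [rst_val hJ, h1, hk]
      · show ((rst J ψ τ : J) : P) ^ p = 1
        rw [rst_val hJ]
        exact hi.2.2 τ hτ
  · refine hψ.2.2.2 T fun v hv => ⟨(hT v hv).1, (hT v hv).2.1, fun h => (hT v hv).2.2 ?_⟩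
    exact fun τ hτ => (rst_one hJ τ).2 (h τ hτ)

private theorem pq_un {c : CL p N P} {q : P →* P₁}
    (hq : ∀ g, q g = 1 → ∀ i, g * c.g i = c.g i * g) {D : RD0 K p ζ} {L : LDs D QBar}
    {E : Finset (Pl K)} {Y : ℝ} {ψ : Gal(QBar/K) →* P} (hψ : ψ ∈ PQ L c q E Y)
    {J : Subgroup P} (hJ : ψ.range = J) (hc : ∀ i, c.g i ∉ J) {N' : ℕ} (c' : CL p N' J) :
    rst J ψ ∈ PU L c' E 1 := by
  have h0 : ∀ v, v ∉ D.S0 → v ∉ E → ∀ τ ∈ inr L v, ψ τ = 1 := by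
    intro v hv hvE
    rcases hψ.2.2.1 v hv hvE with h | ⟨i, hi⟩
    · exact h
    · exfalso
      obtain ⟨j, hj, h1⟩ := pq_ty hq hψ hi
      rw [hJ] at hj
      have h2 : ψ (L.t v) ∈ J := by rw [← hJ]; exact ⟨_, rfl⟩
      apply hc i
      rw [← h1]
      exact J.mul_mem (J.mul_mem hj h2) (J.inv_mem hj)
  refine ⟨rst_ft hJ hψ.1, rst_srj hJ, fun v hv hvE => Or.inl fun τ hτ =>
    (rst_one hJ τ).2 (h0 v hv hvE τ hτ), fun T hT => ?_⟩
  have hTe : T = ∅ := by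
    apply Finset.eq_empty_of_forall_notMem
    intro v hv
    exact (hT v hv).2.2 fun τ hτ => (rst_one hJ τ).2 (h0 v (hT v hv).1 (hT v hv).2.1 τ hτ)
  rw [hTe, Finset.prod_empty]

private theorem nr_one (E : Finset (Pl K)) : 1 ≤ nr E :=
  (one_le_pow₀ (by norm_num : (1 : ℝ) ≤ 2)).trans (two_pow_le_nr E)

private theorem key [Finite P] (hp : p.Prime) (hζ : IsPrimitiveRoot ζ p)
    (hz2 : IsPrimitiveRoot z₂ (p ^ M)) (hP : IsPGroup p P) (c : CL p N P)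
    (q : P →* P₁) (hq : ∀ g, q g = 1 → ∀ i, g * c.g i = c.g i * g) (hU : PUs p M P)
    (D : RD K p ζ) (L : LDs D.toRD0 QBar) (η : ℝ) (hη : 0 < η) (J : Subgroup P) :
    ∃ (C : ℝ) (N' : ℕ), 0 < C ∧ N' ≤ N ∧ ((∃ i, c.g i ∉ J) → N' < N) ∧
      ∀ (E : Finset (Pl K)) (Y : ℝ), 1 ≤ Y → ∀ Rs : Finset (Gal(QBar/K) →* P),
        (∀ ψ ∈ Rs, ψ ∈ PQ L c q E Y ∧ ψ.range = J) →
          (Rs.card : ℝ) ≤ C * nr E ^ η * bd N' Y := by
  obtain ⟨N', c', h1, h2, h3, h4⟩ := abs_sub c J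
  have hcd : ∀ Rs : Finset (Gal(QBar/K) →* P), (∀ ψ ∈ Rs, ψ.range = J) →
      (Rs.image (rst J)).card = Rs.card := by
    intro Rs hRs
    exact Finset.card_image_of_injOn fun ψ hψ ψ' hψ' h => rst_inj (hRs ψ hψ) (hRs ψ' hψ') h
  by_cases hN' : N' = 0
  · have hc : ∀ i, c.g i ∉ J := by
      intro i hi
      obtain ⟨k, -⟩ := h3 i hi
      rw [hN'] at k
      exact k.elim0
    by_cases hJ : J = ⊥
    · refine ⟨1, N', one_pos, h1, h2, fun E Y hY Rs hRs => ?_⟩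
      have h5 : Rs.card ≤ 1 := by
        rw [Finset.card_le_one]
        intro ψ hψ ψ' hψ'
        ext σ
        have h6 : ∀ ψ ∈ Rs, ψ σ = 1 := by
          intro ψ hψ
          have h7 : ψ σ ∈ ψ.range := ⟨σ, rfl⟩
          rw [(hRs ψ hψ).2, hJ] at h7
          exact Subgroup.mem_bot.1 h7
        rw [h6 ψ hψ, h6 ψ' hψ']
      have h6 : (1 : ℝ) ≤ nr E ^ η := Real.one_le_rpow (nr_one E) hη.le
      unfold bd
      rw [if_pos hN', one_mul, mul_one]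
      have h7 : (Rs.card : ℝ) ≤ 1 := by exact_mod_cast h5
      linarith
    · -- an element of order `p`
      have hnt : Nontrivial J := (Subgroup.nontrivial_iff_ne_bot J).2 hJ
      have hpf : Fact p.Prime := ⟨hp⟩
      obtain ⟨n, hn, hcard⟩ := (hP.to_subgroup J).nontrivial_iff_card.1 hnt
      obtain ⟨x, hx⟩ := exists_prime_orderOf_dvd_card' (G := J) p
        (by rw [hcard]; exact dvd_pow_self p (Nat.pos_iff_ne_zero.1 hn))
      have hx1 : x ≠ 1 := by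
        intro h
        rw [h, orderOf_one] at hx
        exact hp.one_lt.ne hx
      let c'' : CL p 1 J := ⟨fun _ => x, fun _ => by rw [← hx]; exact pow_orderOf_eq_one x,
        fun _ => hx1, fun i j _ => Subsingleton.elim i j⟩
      obtain ⟨C, hC, hb⟩ := hU J 1 c'' le_rfl K ζ hζ z₂ hz2 D L η hη
      refine ⟨C, N', hC, h1, h2, fun E Y hY Rs hRs => ?_⟩
      have h5 := hb E 1 le_rfl (Rs.image (rst J)) (by
        intro φ hφ
        obtain ⟨ψ, hψ, rfl⟩ := Finset.mem_image.1 hφ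
        exact pq_un hq (hRs ψ hψ).1 (hRs ψ hψ).2 hc c'')
      rw [hcd Rs fun ψ hψ => (hRs ψ hψ).2, Real.log_one, add_zero, one_pow, mul_one] at h5
      unfold bd
      rw [if_pos hN']
      exact h5
  · obtain ⟨C, hC, hb⟩ := hU J N' c' (Nat.one_le_iff_ne_zero.2 hN') K ζ hζ z₂ hz2 D L η hη
    refine ⟨C, N', hC, h1, h2, fun E Y hY Rs hRs => ?_⟩
    have h5 := hb E Y hY (Rs.image (rst J)) (by
      intro φ hφ
      obtain ⟨ψ, hψ, rfl⟩ := Finset.mem_image.1 hφ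
      exact pq_pu hq (hRs ψ hψ).1 (hRs ψ hψ).2 c' h3)
    rw [hcd Rs fun ψ hψ => (hRs ψ hψ).2] at h5
    unfold bd
    rw [if_neg hN', ← mul_assoc]
    exact h5

theorem abs1 [Finite P] (hp : p.Prime) (hζ : IsPrimitiveRoot ζ p)
    (hz2 : IsPrimitiveRoot z₂ (p ^ M)) (hP : IsPGroup p P) (hN : 1 ≤ N) (c : CL p N P)
    (q : P →* P₁) (hq : ∀ g, q g = 1 → ∀ i, g * c.g i = c.g i * g) (hU : PUs p M P)
    (D : RD K p ζ) (L : LDs D.toRD0 QBar) (η : ℝ) (hη : 0 < η) :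
    ∃ C : ℝ, 0 < C ∧ ∀ (E : Finset (Pl K)) (Y : ℝ), 1 ≤ Y → ∀ Rs : Finset (Gal(QBar/K) →* P),
      (∀ ψ ∈ Rs, ψ ∈ PQ L c q E Y) →
        (Rs.card : ℝ) ≤ C * nr E ^ η * Y * (1 + Real.log Y) ^ (N - 1) := by
  choose C N' hC hN' hN'' hb using key hp hζ hz2 hP c q hq hU D L η hη
  have : Fintype (Subgroup P) := Fintype.ofFinite _
  refine ⟨∑ J, C J, Finset.sum_pos (fun J _ => hC J) ⟨⊤, Finset.mem_univ _⟩,
    fun E Y hY Rs hRs => ?_⟩
  have h1 : (Rs.card : ℝ) = ∑ J : Subgroup P, ((Rs.filter fun ψ => ψ.range = J).card : ℝ) := by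
    rw [Finset.card_eq_sum_card_fiberwise (f := fun ψ : Gal(QBar/K) →* P => ψ.range)
      (t := Finset.univ) (fun _ _ => Finset.mem_coe.2 (Finset.mem_univ _))]
    push_cast
    rfl
  have hE : (0 : ℝ) ≤ nr E ^ η := Real.rpow_nonneg (zero_le_one.trans (nr_one E)) _
  rw [h1, mul_assoc, mul_assoc, Finset.sum_mul]
  refine Finset.sum_le_sum fun J _ => ?_
  have h2 := hb J E Y hY (Rs.filter fun ψ => ψ.range = J) fun ψ hψ => by
    obtain ⟨h3, h4⟩ := Finset.mem_filter.1 hψ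
    exact ⟨hRs ψ h3, h4⟩
  refine h2.trans ?_
  rw [mul_assoc]
  exact mul_le_mul_of_nonneg_left (mul_le_mul_of_nonneg_left (bd_le hY (hN' J)) hE) (hC J).le

theorem abs2 [Finite P] (hp : p.Prime) (hζ : IsPrimitiveRoot ζ p)
    (hz2 : IsPrimitiveRoot z₂ (p ^ M)) (hP : IsPGroup p P) (hN : 1 ≤ N) (c : CL p N P)
    (q : P →* P₁) (hq : ∀ g, q g = 1 → ∀ i, g * c.g i = c.g i * g) (hU : PUs p M P)
    (D : RD K p ζ) (L : LDs D.toRD0 QBar) (η : ℝ) (hη : 0 < η) :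
    ∃ C : ℝ, 0 < C ∧ ∀ (E : Finset (Pl K)) (Y : ℝ), 1 ≤ Y → ∀ Rs : Finset (Gal(QBar/K) →* P),
      (∀ ψ ∈ Rs, ψ ∈ PQ L c q E Y ∧ ¬ Function.Surjective ψ ∧ Tc c ⊔ ψ.range = ⊤) →
        (Rs.card : ℝ) * (1 + Real.log Y) ≤
          C * nr E ^ η * Y * (1 + Real.log Y) ^ (N - 1) := by
  choose C N' hC hN' hN'' hb using key hp hζ hz2 hP c q hq hU D L η hη
  have : Fintype (Subgroup P) := Fintype.ofFinite _
  refine ⟨∑ J, C J, Finset.sum_pos (fun J _ => hC J) ⟨⊤, Finset.mem_univ _⟩,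
    fun E Y hY Rs hRs => ?_⟩
  have h1 : (Rs.card : ℝ) = ∑ J : Subgroup P, ((Rs.filter fun ψ => ψ.range = J).card : ℝ) := by
    rw [Finset.card_eq_sum_card_fiberwise (f := fun ψ : Gal(QBar/K) →* P => ψ.range)
      (t := Finset.univ) (fun _ _ => Finset.mem_coe.2 (Finset.mem_univ _))]
    push_cast
    rfl
  have hE : (0 : ℝ) ≤ nr E ^ η := Real.rpow_nonneg (zero_le_one.trans (nr_one E)) _
  have hY1 : 1 ≤ 1 + Real.log Y := by
    have := Real.log_nonneg hY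
    linarith
  rw [h1, mul_assoc, mul_assoc, Finset.sum_mul, Finset.sum_mul]
  refine Finset.sum_le_sum fun J _ => ?_
  have h2 := hb J E Y hY (Rs.filter fun ψ => ψ.range = J) fun ψ hψ => by
    obtain ⟨h3, h4⟩ := Finset.mem_filter.1 hψ
    exact ⟨(hRs ψ h3).1, h4⟩
  rcases (Rs.filter fun ψ => ψ.range = J).eq_empty_or_nonempty with he | ⟨ψ, hψ⟩
  · rw [he, Finset.card_empty, Nat.cast_zero, zero_mul]
    have h5 : (0 : ℝ) ≤ (1 + Real.log Y) ^ (N - 1) := pow_nonneg (by linarith) _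
    exact mul_nonneg (hC J).le (mul_nonneg hE (mul_nonneg (by linarith) h5))
  · obtain ⟨hψ1, hψ2⟩ := Finset.mem_filter.1 hψ
    obtain ⟨g1, g2, g3⟩ := hRs ψ hψ1
    have h4 : ∃ i, c.g i ∉ J := by
      by_contra hcon
      push Not at hcon
      apply g2
      rw [← MonoidHom.range_eq_top]
      have h5 : Tc c ≤ ψ.range := by
        refine (Subgroup.closure_le _).2 fun x hx => ?_
        obtain ⟨a, ⟨i, rfl⟩, hax⟩ := Group.mem_conjugatesOfSet_iff.1 hx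
        obtain ⟨g, hg⟩ := isConj_iff.1 hax
        obtain ⟨j, hj, h6⟩ := cj_J hq (pq_jq g1) g i
        rw [hψ2] at hj ⊢
        rw [SetLike.mem_coe, ← hg, h6]
        exact J.mul_mem (J.mul_mem hj (hcon i)) (J.inv_mem hj)
      rwa [sup_eq_right.2 h5] at g3
    calc ((Rs.filter fun ψ => ψ.range = J).card : ℝ) * (1 + Real.log Y)
        ≤ (C J * nr E ^ η * bd (N' J) Y) * (1 + Real.log Y) :=
          mul_le_mul_of_nonneg_right h2 (by linarith)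
      _ = C J * (nr E ^ η * (bd (N' J) Y * (1 + Real.log Y))) := by ring
      _ ≤ _ := mul_le_mul_of_nonneg_left
          (mul_le_mul_of_nonneg_left (bd_lt hY (hN'' J h4)) hE) (hC J).le

theorem pq_fin [Finite P] (hp : p.Prime) (hζ : IsPrimitiveRoot ζ p)
    (hz2 : IsPrimitiveRoot z₂ (p ^ M)) (hP : IsPGroup p P) (hN : 1 ≤ N) (c : CL p N P)
    (q : P →* P₁) (hq : ∀ g, q g = 1 → ∀ i, g * c.g i = c.g i * g) (hU : PUs p M P)
    (D : RD K p ζ) (L : LDs D.toRD0 QBar) (E : Finset (Pl K)) (Y : ℝ) :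
    (PQ L c q E Y).Finite := by
  obtain ⟨C, -, h⟩ := abs1 hp hζ hz2 hP hN c q hq hU D L 1 one_pos
  have hsub : PQ L c q E Y ⊆ PQ L c q E (max Y 1) := fun ψ hψ =>
    ⟨hψ.1, hψ.2.1, hψ.2.2.1, fun T hT => (hψ.2.2.2 T hT).trans (le_max_left _ _)⟩
  refine Set.Finite.subset ?_ hsub
  by_contra hinf
  obtain ⟨F, hF1, hF2⟩ := Set.Infinite.exists_subset_card_eq hinf
    (⌊C * nr E ^ (1 : ℝ) * max Y 1 * (1 + Real.log (max Y 1)) ^ (N - 1)⌋₊ + 1)
  have h2 := h E (max Y 1) (le_max_right _ _) F fun ψ hψ => hF1 hψ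
  rw [hF2] at h2
  push_cast at h2
  have h3 := Nat.lt_floor_add_one
    (C * nr E ^ (1 : ℝ) * max Y 1 * (1 + Real.log (max Y 1)) ^ (N - 1))
  linarith

end abs

end H71.HT2
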