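import Pool.Agent.H24.RK.Loc
import Pool.Agent.H48.MF.Ing
import Pool.Agent.H63.BU.UInr
import Pool.Agent.H57.BRA.Grp

/-!
# [H71 HT2 ADJ] a cochain which is trivial on the inertia groups where the class is unramified (MP_b39724_nt, think 1829)

`m` of finite level with coboundary `pb e ρ` (`m (σ τ) = m σ + m τ + e (ρ σ) (ρ τ)`). If `ρ = 1` on the inertia groups outside `S0 ∪ S'` then `m` can be changed by a character so that it is `0` there.
PROOF. `φ : Γ → Xt e he`, `σ ↦ ⟨ρ σ, m σ⟩` is a homomorphism of finite type (see the proof of `ty_fin`, H77/WD/Tyf.lean, or H48/MF, for the same construction). `A` = the finite set (`uinr_fin`, H63/BU/UInr.lean) of the `v ∉ D.S0`, `v ∉ S'` with `φ` ramified (`Rm L φ v`). For `v ∈ A` let `z_v = m (L.t v)`. `x = ∏ v ∈ A, D.pi v ^ (z_v).val`; `kk x (L.t v) = ord v x = z_v`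
(`ld_kk_t`, `D.pi_self`, `D.pi_ne`) for `v ∈ A`, `0` for `v ∉ A`. `m' = m - kk x` (finite level: `kc` is of finite type, see `c2_cu`/`lev_kk`; the same coboundary since `kk x` is a homomorphism: `kk_mul`). `φ' = ⟨ρ, m'⟩` is again a homomorphism; for `v ∉ D.S0`, `v ∉ S'`: `φ' (L.t v) = 1` (for `v ∉ A`: `φ (L.t v) = 1`, `L.t v ∈ inr L v`), and `φ' τ ^ p = 1` on `inr L v`
(`ρ τ = 1`), so `φ' τ = 1` (`ing_inr`, third part, with `k = 1`), that is `m' τ = 0`. (`Xt e he` is finite: `Fintype`/`Finite` from `R × ZMod p`, see `uu_fin` or `xt_fin` in H48/MF, H57/BRA.)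
-/

set_option autoImplicit false

open scoped NumberField
open IsDedekindDomain
open scoped Classical

noncomputable section

namespace H71.HT2

open H63.MA H38.BB H38.BG H57.PC H57.BRA H63.BU H48.MF

variable {K : Type} [Field K] [NumberField K] {Ω : Type} [Field Ω] [Algebra K Ω] [IsAlgClosure K Ω]
  {p : ℕ} {ζ : K}

section aux

variable {R : Type} [Group R] {e : R → R → ZMod p}

omit [NumberField K] [IsAlgClosure K Ω] in
private theorem adj_m1 (he : Coc p e) (ρ : Gal(Ω/K) →* R) (m : Gal(Ω/K) → ZMod p)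
    (hd : ∀ σ τ, m (σ * τ) = m σ + m τ + pb e ρ σ τ) : m 1 = 0 := by
  have h := hd 1 1
  rw [mul_one, pb, map_one, he.l1, add_zero] at h
  exact left_eq_add.1 h

/-- the homomorphism to the extension -/
private def adjH (he : Coc p e) (ρ : Gal(Ω/K) →* R) (m : Gal(Ω/K) → ZMod p)
    (hd : ∀ σ τ, m (σ * τ) = m σ + m τ + pb e ρ σ τ) : Gal(Ω/K) →* Xt e he :=
  MonoidHom.mk' (fun σ => ⟨ρ σ, m σ⟩) (fun σ τ => by
    rw [xt_mul]
    ext
    · exact map_mul ρ σ τ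
    · exact hd σ τ)

omit [NumberField K] [IsAlgClosure K Ω] in
private theorem adjH_ft (he : Coc p e) (ρ : Gal(Ω/K) →* R) (hρ : H38.ML.FT ρ)
    (m : Gal(Ω/K) → ZMod p) (hm : Lev m)
    (hd : ∀ σ τ, m (σ * τ) = m σ + m τ + pb e ρ σ τ) : H38.ML.FT (adjH he ρ m hd) := by
  obtain ⟨E1, hE1, h1⟩ := hρ
  obtain ⟨E2, hE2, h2⟩ := hm
  refine ⟨E1 ⊔ E2, inferInstance, fun u hu => ?_⟩
  have a1 : u ∈ E1.fixingSubgroup := IntermediateField.fixingSubgroup_antitone le_sup_left hu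
  have a2 : u ∈ E2.fixingSubgroup := IntermediateField.fixingSubgroup_antitone le_sup_right hu
  have b1 : ρ u = 1 := MonoidHom.mem_ker.1 (h1 a1)
  have b2 : m u = 0 := by
    have := h2 1 u a2
    rw [one_mul, adj_m1 he ρ m hd] at this
    exact this
  rw [MonoidHom.mem_ker, xt_one]
  change (⟨ρ u, m u⟩ : Xt e he) = ⟨1, 0⟩
  rw [b1, b2]

private theorem adj_fin [NeZero p] [Finite R] (he : Coc p e) : Finite (Xt e he) := by
  refine Finite.of_injective (fun x : Xt e he => (x.r, x.z)) ?_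
  intro x y h
  exact Xt.ext (congrArg Prod.fst h) (congrArg Prod.snd h)

private theorem adj_pow (he : Coc p e) (z : ZMod p) : (⟨1, z⟩ : Xt e he) ^ p = 1 := by
  refine grp_pw_zero he (one_pow p) ?_ z
  unfold pw
  exact Finset.sum_eq_zero fun k _ => he.r1 _

end aux

omit [NumberField K] [IsAlgClosure K Ω] in
private theorem adj_lev_sub {m k : Gal(Ω/K) → ZMod p} (hm : Lev m) (hk : Lev k) :
    Lev (fun σ => m σ - k σ) := by
  obtain ⟨E1, hE1, h1⟩ := hm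
  obtain ⟨E2, hE2, h2⟩ := hk
  refine ⟨E1 ⊔ E2, inferInstance, fun σ u hu => ?_⟩
  have a1 : u ∈ E1.fixingSubgroup := IntermediateField.fixingSubgroup_antitone le_sup_left hu
  have a2 : u ∈ E2.fixingSubgroup := IntermediateField.fixingSubgroup_antitone le_sup_right hu
  change m (σ * u) - k (σ * u) = m σ - k σ
  rw [h1 σ u a1, h2 σ u a2]

private theorem adj_lev_kk (hp : p.Prime) (hζ : IsPrimitiveRoot ζ p) (x : Kˣ) :
    Lev (fun σ : Gal(Ω/K) => kk p ζ x σ) := by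
  obtain ⟨E, hE, h⟩ := (kc_is (Ω := Ω) hp hζ x).1
  refine ⟨E, hE, fun σ u hu => ?_⟩
  have h1 : kc p ζ Ω x u = 1 := MonoidHom.mem_ker.1 (h hu)
  change kk p ζ x (σ * u) = kk p ζ x σ
  rw [kk_mul]
  have h2 : kk p ζ x u = 0 := by
    unfold kk
    rw [h1, toAdd_one]
  rw [h2, add_zero]

theorem madj (hp : p.Prime) (hζ : IsPrimitiveRoot ζ p) {D : RD0 K p ζ} (L : LDs D Ω) {R : Type}
    [Group R] [Finite R] {e : R → R → ZMod p} (he : Coc p e) (ρ : Gal(Ω/K) →* R)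
    (hρ : H38.ML.FT ρ) (m : Gal(Ω/K) → ZMod p) (hm : Lev m)
    (hd : ∀ σ τ, m (σ * τ) = m σ + m τ + pb e ρ σ τ) (S' : Finset (Pl K))
    (hur : ∀ v, v ∉ D.S0 → v ∉ S' → ∀ τ ∈ inr L v, ρ τ = 1) :
    ∃ m' : Gal(Ω/K) → ZMod p, Lev m' ∧ (∀ σ τ, m' (σ * τ) = m' σ + m' τ + pb e ρ σ τ) ∧
      ∀ v, v ∉ D.S0 → v ∉ S' → ∀ τ ∈ inr L v, m' τ = 0 := by
  have hp0 : NeZero p := ⟨hp.ne_zero⟩
  have hfin : Finite (Xt e he) := adj_fin he
  have hφ := adjH_ft he ρ hρ m hm hd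
  set φ := adjH he ρ m hd with hφd
  have hφa : ∀ σ, φ σ = ⟨ρ σ, m σ⟩ := fun σ => rfl
  obtain ⟨A, hA⟩ : ∃ A : Finset (Pl K), ∀ v, v ∈ A ↔ Rm L φ v ∧ v ∉ S' := by
    refine ⟨(uinr_fin L φ hφ).toFinset.filter (fun v => v ∉ S'), fun v => ?_⟩
    rw [Finset.mem_filter, Set.Finite.mem_toFinset, Set.mem_ofPred_eq]
  obtain ⟨x, hx⟩ : ∃ x : Kˣ, x = ∏ v ∈ A, D.pi v ^ (m (L.t v)).val := ⟨_, rfl⟩
  have hord : ∀ v, v ∉ D.S0 → ord v x = if v ∈ A then ((m (L.t v)).val : ℤ) else 0 := by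
    intro v hv
    rw [hx, ord_prod]
    by_cases h : v ∈ A
    · rw [if_pos h, Finset.sum_eq_single v]
      · rw [ord_pow, D.pi_self v hv, mul_one]
      · intro w hw hne
        rw [ord_pow, D.pi_ne w v ((hA w).1 hw).1.1 hv hne.symm, mul_zero]
      · intro h'
        exact absurd h h'
    · rw [if_neg h]
      refine Finset.sum_eq_zero fun w hw => ?_
      rw [ord_pow, D.pi_ne w v ((hA w).1 hw).1.1 hv (by rintro rfl; exact h hw), mul_zero]
  have hd' : ∀ σ τ, m (σ * τ) - kk p ζ x (σ * τ) =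
      (m σ - kk p ζ x σ) + (m τ - kk p ζ x τ) + pb e ρ σ τ := by
    intro σ τ
    rw [hd, kk_mul]
    ring
  have hm' : Lev (fun σ => m σ - kk p ζ x σ) := adj_lev_sub hm (adj_lev_kk hp hζ x)
  refine ⟨fun σ => m σ - kk p ζ x σ, hm', hd', ?_⟩
  intro v hv hvS τ hτ
  have hφ' := adjH_ft he ρ hρ (fun σ => m σ - kk p ζ x σ) hm' hd'
  have hkt : kk p ζ x (L.t v) = ord v x := by
    have h2 : L.t v = (L.ld v hv).t := by
      unfold LDs.t
      rw [dif_pos hv]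
    rw [h2]
    exact ld_kk_t hp hζ (fun h => hv (D.above v h)) (D.pi_self v hv) (L.ld v hv) x
  have hmt : m (L.t v) - kk p ζ x (L.t v) = 0 := by
    rw [hkt, hord v hv]
    by_cases h : v ∈ A
    · rw [if_pos h, Int.cast_natCast, ZMod.natCast_zmod_val, sub_self]
    · rw [if_neg h, Int.cast_zero, sub_zero]
      by_contra hne
      apply h
      rw [hA]
      refine ⟨⟨hv, L.t v, uinr_t L v, fun h1 => hne ?_⟩, hvS⟩
      rw [hφa, xt_one] at h1
      exact congrArg Xt.z h1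
  have hone : adjH he ρ (fun σ => m σ - kk p ζ x σ) hd' (L.t v) = 1 := by
    rw [xt_one]
    change (⟨ρ (L.t v), m (L.t v) - kk p ζ x (L.t v)⟩ : Xt e he) = ⟨1, 0⟩
    rw [hmt, hur v hv hvS _ (uinr_t L v)]
  have h3 := (ing_inr hp hζ L hv (adjH he ρ (fun σ => m σ - kk p ζ x σ) hd') hφ' (by
    intro σ hσ
    refine ⟨1, ?_⟩
    rw [pow_one]
    change (⟨ρ σ, m σ - kk p ζ x σ⟩ : Xt e he) ^ p = 1
    rw [hur v hv hvS σ hσ]
    exact adj_pow he _)).2.2 hone τ hτ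
  rw [xt_one] at h3
  exact congrArg Xt.z h3


end H71.HT2
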