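import Mathlib.NumberTheory.NumberField.CanonicalEmbedding.Basic
import Mathlib.NumberTheory.NumberField.Ideal.Basic
import Mathlib.RingTheory.Ideal.Norm.AbsNorm

/-!
# [H71 HT2 BOX] small elements of an ideal: the box principle (MP_b39724_nt, think 1829)

PROOF of `box_pair`. `b : Basis (Fin n) ℤ (𝓞 K)` (`RingOfIntegers.basis K`, `n = finrank ℚ K`, `RingOfIntegers.rank`), `M₀ ≥ 1` with `‖σ (b i)‖ ≤ M₀` for all `i` and all `σ : K →+* ℂ` (finitely many); `C = n M₀ + 1`. Let `N₁ = ⌊R₁⌋₊`, `N₂ = ⌊R₂⌋₊`.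
The map `(x, y) ↦ (∑ x_i b_i - β ∑ y_i b_i) mod I` from `(Fin n → Fin (N₁+1)) × (Fin n → Fin (N₂+1))` to `𝓞 K ⧸ I` is not injective: `((N₁+1)(N₂+1))^n > (R₁ R₂)^n ≥ absNorm I = card (𝓞 K ⧸ I)` (`Ideal.absNorm_apply`, `Submodule.cardQuot_apply`; the quotient is finite: `Ideal.finiteQuotientOfFreeOfNeBot` or
`absNorm ≠ 0`; `Fintype.exists_ne_map_eq_of_card_lt`). The differences `u = ∑ (x_i - x'_i) b_i`, `w = ∑ (y_i - y'_i) b_i`: not both `0` (basis), `u - β w ∈ I`, `‖σ u‖ ≤ n N₁ M₀ ≤ C R₁`.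
PROOF of `box_one`. `C` from `box_pair`, `β = 0`, `R₂ = 1 / (2 C)`, `R₁ = 2 C (absNorm I)^(1/n)`: `‖σ w‖ ≤ 1/2` for all `σ`, so `|norm w| < 1` and `w = 0` (`Algebra.norm_eq_prod_embeddings`, the norm of an integer is an integer). The constant is `2 C ^ 2`.
-/

set_option autoImplicit false

open scoped NumberField

noncomputable section

namespace H71.HT2

theorem box_pair (K : Type) [Field K] [NumberField K] : ∃ C : ℝ, 1 ≤ C ∧
    ∀ I : Ideal (𝓞 K), I ≠ ⊥ → ∀ (β : 𝓞 K) (R₁ R₂ : ℝ), 0 < R₁ → 0 < R₂ →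
      (Ideal.absNorm I : ℝ) ≤ (R₁ * R₂) ^ Module.finrank ℚ K →
      ∃ u w : 𝓞 K, (u ≠ 0 ∨ w ≠ 0) ∧ u - β * w ∈ I ∧
        (∀ σ : K →+* ℂ, ‖σ (u : K)‖ ≤ C * R₁) ∧ ∀ σ : K →+* ℂ, ‖σ (w : K)‖ ≤ C * R₂ := by
  classical
  let b := NumberField.RingOfIntegers.basis K
  have hcard : Fintype.card (Module.Free.ChooseBasisIndex ℤ (𝓞 K)) = Module.finrank ℚ K := by
    rw [← NumberField.RingOfIntegers.rank K, Module.finrank_eq_card_chooseBasisIndex]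
  obtain ⟨M, hM0, hM⟩ : ∃ M : ℝ, 0 ≤ M ∧
      ∀ (i : Module.Free.ChooseBasisIndex ℤ (𝓞 K)) (σ : K →+* ℂ), ‖σ (b i : K)‖ ≤ M := by
    refine ⟨∑ i, ∑ σ : K →+* ℂ, ‖σ (b i : K)‖,
      Finset.sum_nonneg fun _ _ => Finset.sum_nonneg fun _ _ => norm_nonneg _, fun i σ => ?_⟩
    calc ‖σ (b i : K)‖ ≤ ∑ σ : K →+* ℂ, ‖σ (b i : K)‖ :=
          Finset.single_le_sum (f := fun σ : K →+* ℂ => ‖σ (b i : K)‖)
            (fun _ _ => norm_nonneg _) (Finset.mem_univ σ)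
      _ ≤ _ := Finset.single_le_sum
            (f := fun i : Module.Free.ChooseBasisIndex ℤ (𝓞 K) => ∑ σ : K →+* ℂ, ‖σ (b i : K)‖)
            (fun _ _ => Finset.sum_nonneg fun _ _ => norm_nonneg _) (Finset.mem_univ i)
  have hn0 : (0 : ℝ) ≤ (Module.finrank ℚ K : ℝ) := Nat.cast_nonneg _
  have hnM : 0 ≤ (Module.finrank ℚ K : ℝ) * M := mul_nonneg hn0 hM0
  -- the linear form and its size
  let lin : (Module.Free.ChooseBasisIndex ℤ (𝓞 K) → ℤ) → 𝓞 K := fun z => ∑ i, z i • b i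
  have hlin_sub : ∀ z z' : Module.Free.ChooseBasisIndex ℤ (𝓞 K) → ℤ,
      lin z - lin z' = lin (fun i => z i - z' i) := by
    intro z z'
    simp only [lin, sub_smul, Finset.sum_sub_distrib]
  have hlin_zero : ∀ z : Module.Free.ChooseBasisIndex ℤ (𝓞 K) → ℤ, lin z = 0 → ∀ i, z i = 0 := by
    intro z hz i
    exact (Fintype.linearIndependent_iff.1 b.linearIndependent) z hz i
  have hsize : ∀ (z : Module.Free.ChooseBasisIndex ℤ (𝓞 K) → ℤ) (R : ℝ), 0 ≤ R →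
      (∀ i, |(z i : ℝ)| ≤ R) → ∀ σ : K →+* ℂ,
        ‖σ ((lin z : 𝓞 K) : K)‖ ≤ ((Module.finrank ℚ K : ℝ) * M + 1) * R := by
    intro z R hR hz σ
    have h1 : σ ((lin z : 𝓞 K) : K) = ∑ i, (z i : ℂ) * σ (b i : K) := by
      simp only [lin, map_sum, zsmul_eq_mul, map_mul, map_intCast]
    rw [h1]
    calc ‖∑ i, (z i : ℂ) * σ (b i : K)‖ ≤ ∑ i, ‖(z i : ℂ) * σ (b i : K)‖ := norm_sum_le _ _
      _ ≤ ∑ _i : Module.Free.ChooseBasisIndex ℤ (𝓞 K), R * M := by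
          refine Finset.sum_le_sum fun i _ => ?_
          rw [norm_mul, Complex.norm_intCast]
          exact mul_le_mul (hz i) (hM i σ) (norm_nonneg _) hR
      _ = (Module.finrank ℚ K : ℝ) * (R * M) := by
          rw [Finset.sum_const, Finset.card_univ, hcard, nsmul_eq_mul]
      _ ≤ ((Module.finrank ℚ K : ℝ) * M + 1) * R := by nlinarith
  refine ⟨(Module.finrank ℚ K : ℝ) * M + 1, by linarith, ?_⟩
  intro I hI β R₁ R₂ hR₁ hR₂ hle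
  have : Finite (𝓞 K ⧸ I) := Ideal.finiteQuotientOfFreeOfNeBot I hI
  let _ : Fintype (𝓞 K ⧸ I) := Fintype.ofFinite _
  let f : (Module.Free.ChooseBasisIndex ℤ (𝓞 K) → Fin (⌊R₁⌋₊ + 1)) ×
      (Module.Free.ChooseBasisIndex ℤ (𝓞 K) → Fin (⌊R₂⌋₊ + 1)) → 𝓞 K ⧸ I := fun p =>
    Ideal.Quotient.mk I (lin (fun i => ((p.1 i : ℕ) : ℤ)) - β * lin (fun i => ((p.2 i : ℕ) : ℤ)))
  have hlt : Fintype.card (𝓞 K ⧸ I) < Fintype.card
      ((Module.Free.ChooseBasisIndex ℤ (𝓞 K) → Fin (⌊R₁⌋₊ + 1)) ×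
      (Module.Free.ChooseBasisIndex ℤ (𝓞 K) → Fin (⌊R₂⌋₊ + 1))) := by
    rw [Fintype.card_prod, Fintype.card_fun, Fintype.card_fun, Fintype.card_fin, Fintype.card_fin,
      hcard, ← mul_pow, ← Nat.card_eq_fintype_card]
    have h1 : Nat.card (𝓞 K ⧸ I) = Ideal.absNorm I := by
      rw [Ideal.absNorm_apply, Submodule.cardQuot_apply]
    rw [h1]
    have h2 : (Ideal.absNorm I : ℝ) < (((⌊R₁⌋₊ + 1) * (⌊R₂⌋₊ + 1) : ℕ) : ℝ) ^
        Module.finrank ℚ K := by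
      refine lt_of_le_of_lt hle ?_
      have h3 : R₁ * R₂ < (((⌊R₁⌋₊ + 1) * (⌊R₂⌋₊ + 1) : ℕ) : ℝ) := by
        push_cast
        exact mul_lt_mul'' (Nat.lt_floor_add_one R₁) (Nat.lt_floor_add_one R₂) hR₁.le hR₂.le
      exact pow_lt_pow_left₀ h3 (by positivity) (Module.finrank_pos).ne'
    exact_mod_cast h2
  obtain ⟨p, q, hpq, hf⟩ := Fintype.exists_ne_map_eq_of_card_lt f hlt
  have hfl : ∀ (R : ℝ), 0 < R → ∀ x y : Fin (⌊R⌋₊ + 1),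
      |((((x : ℕ) : ℤ) - ((y : ℕ) : ℤ) : ℤ) : ℝ)| ≤ R := by
    intro R hR x y
    have hx : ((x : ℕ) : ℝ) ≤ R :=
      le_trans (by exact_mod_cast Nat.lt_succ_iff.1 x.2) (Nat.floor_le hR.le)
    have hy : ((y : ℕ) : ℝ) ≤ R :=
      le_trans (by exact_mod_cast Nat.lt_succ_iff.1 y.2) (Nat.floor_le hR.le)
    have hx0 : (0 : ℝ) ≤ ((x : ℕ) : ℝ) := Nat.cast_nonneg _
    have hy0 : (0 : ℝ) ≤ ((y : ℕ) : ℝ) := Nat.cast_nonneg _
    push_cast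
    rw [abs_le]
    constructor <;> linarith
  refine ⟨lin (fun i => ((p.1 i : ℕ) : ℤ) - ((q.1 i : ℕ) : ℤ)),
    lin (fun i => ((p.2 i : ℕ) : ℤ) - ((q.2 i : ℕ) : ℤ)), ?_, ?_, ?_, ?_⟩
  · by_contra hcon
    rw [not_or, not_not, not_not] at hcon
    apply hpq
    refine Prod.ext (funext fun i => ?_) (funext fun i => ?_)
    · have := hlin_zero _ hcon.1 i
      apply Fin.ext
      have h : ((p.1 i : ℕ) : ℤ) = ((q.1 i : ℕ) : ℤ) := sub_eq_zero.1 this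
      exact_mod_cast h
    · have := hlin_zero _ hcon.2 i
      apply Fin.ext
      have h : ((p.2 i : ℕ) : ℤ) = ((q.2 i : ℕ) : ℤ) := sub_eq_zero.1 this
      exact_mod_cast h
  · have h1 := Ideal.Quotient.eq.1 hf
    rw [← hlin_sub, ← hlin_sub]
    convert h1 using 1
    ring
  · exact hsize _ R₁ hR₁.le fun i => hfl R₁ hR₁ _ _
  · exact hsize _ R₂ hR₂.le fun i => hfl R₂ hR₂ _ _

theorem box_one (K : Type) [Field K] [NumberField K] : ∃ C : ℝ, 1 ≤ C ∧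
    ∀ I : Ideal (𝓞 K), I ≠ ⊥ → ∃ u : 𝓞 K, u ≠ 0 ∧ u ∈ I ∧ ∀ σ : K →+* ℂ,
      ‖σ (u : K)‖ ≤ C * (Ideal.absNorm I : ℝ) ^ (1 / (Module.finrank ℚ K : ℝ)) := by
  obtain ⟨C, hC1, hC⟩ := box_pair K
  have hC0 : 0 < C := by linarith
  refine ⟨2 * C ^ 2, by nlinarith, ?_⟩
  intro I hI
  have hnpos : 0 < Module.finrank ℚ K := Module.finrank_pos
  have hI0 : (0 : ℝ) < (Ideal.absNorm I : ℝ) := by
    have : Ideal.absNorm I ≠ 0 := by
      rw [Ne, Ideal.absNorm_eq_zero_iff]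
      exact hI
    exact_mod_cast Nat.pos_of_ne_zero this
  have hrt0 : (0 : ℝ) < (Ideal.absNorm I : ℝ) ^ (1 / (Module.finrank ℚ K : ℝ)) :=
    Real.rpow_pos_of_pos hI0 _
  obtain ⟨u, w, hne, hmem, hu, hw⟩ := hC I hI 0
    (2 * C * (Ideal.absNorm I : ℝ) ^ (1 / (Module.finrank ℚ K : ℝ))) (1 / (2 * C))
    (by positivity) (by positivity) (by
      have h1 : 2 * C * (Ideal.absNorm I : ℝ) ^ (1 / (Module.finrank ℚ K : ℝ)) * (1 / (2 * C)) =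
          (Ideal.absNorm I : ℝ) ^ (1 / (Module.finrank ℚ K : ℝ)) := by
        field_simp
      rw [h1, one_div, Real.rpow_inv_natCast_pow hI0.le hnpos.ne'])
  have hw0 : w = 0 := by
    by_contra hw0
    have h1 : (1 : ℝ) ≤ |((Algebra.norm ℤ w : ℤ) : ℝ)| := by
      have h2 : Algebra.norm ℤ w ≠ 0 := by
        rw [Ne, Algebra.norm_eq_zero_iff]
        exact hw0
      have h3 : 1 ≤ |Algebra.norm ℤ w| := Int.one_le_abs h2
      exact_mod_cast h3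
    have h2 : ((algebraMap ℚ ℂ) (Algebra.norm ℚ (w : K))) = ∏ σ : K →ₐ[ℚ] ℂ, σ (w : K) :=
      Algebra.norm_eq_prod_embeddings ℚ ℂ (w : K)
    have h3 : ((Algebra.norm ℤ w : ℤ) : ℚ) = Algebra.norm ℚ (w : K) := Algebra.coe_norm_int w
    have h4 : ‖∏ σ : K →ₐ[ℚ] ℂ, σ (w : K)‖ = |((Algebra.norm ℤ w : ℤ) : ℝ)| := by
      rw [← h2, ← h3]
      simp
    have h5 : ‖∏ σ : K →ₐ[ℚ] ℂ, σ (w : K)‖ < 1 := by
      rw [norm_prod]
      have h6 : ∏ σ : K →ₐ[ℚ] ℂ, ‖σ (w : K)‖ ≤ ∏ _σ : K →ₐ[ℚ] ℂ, (1 / 2 : ℝ) := by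
        refine Finset.prod_le_prod (fun _ _ => norm_nonneg _) fun σ _ => ?_
        have h7 := hw (σ : K →+* ℂ)
        have h8 : C * (1 / (2 * C)) = 1 / 2 := by field_simp
        rw [h8] at h7
        exact h7
      refine lt_of_le_of_lt h6 ?_
      rw [Finset.prod_const, Finset.card_univ, AlgHom.card]
      exact pow_lt_one₀ (by norm_num) (by norm_num) hnpos.ne'
    rw [h4] at h5
    linarith
  refine ⟨u, ?_, ?_, fun σ => ?_⟩
  · rcases hne with h | h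
    · exact h
    · exact absurd hw0 h
  · simpa using hmem
  · refine le_trans (hu σ) (le_of_eq ?_)
    ring

end H71.HT2
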