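import Pool.Agent.H71.HT2.Klp
import Pool.Agent.H24.RK.Kil

/-!
# [H71 HT2 KLR] a class is killed by a symbol `(a, d)`, `a` ramified where `ρ` is; image with a normal `p`-subgroup of index prime to `p` (MP_b39724_nt, think 1829)

PROOF. (As `hasfK`, H24/RK/Has.lean, with `V` in the place of the Sylow subgroup, and `bq` at the end as in `kil`.) `U = ρ⁻¹(V)`, open normal, index prime to `p` (`U.index = V.relIndex ρ.range ∣ V.index`: `Subgroup.relIndex_dvd_index_of_normal`, `Subgroup.index_comap`). `L` = the fixed field of `U`, `hrange` as in `hasfK`. `klp` over `L` for `ρ.comp (rsK K L Ω)` (exponent `p ^ k`: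
`hV`), `S_L` = the places over `S` (`over_finite`), `a_L = inc K L a` (or `Units.map (algebraMap K L)`): `kk p (algebraMap K L ζ) a_L σ' = kk p ζ a (rsK σ')` (look for `bcp_kk`, `kk_rs` in H57/BRA/Bcp.lean, Bca.lean, H48/MF; otherwise from `kk_root` for a root of `a` in `Ω`). `hra` over `L`: `P` over `w` over `v ∉ S`: if `ρ = 1` on `P.inertia Gal(Ω/K)` clear (`bcp_inertia`); if `kk a τ ≠ 0`, `τ ∈
P.inertia Gal(Ω/K)`: `τ ^ m ∈ U`, `m = U.index` (`Subgroup.pow_index_mem`, `U` normal) and `kk a (τ ^ m) = m kk a τ ≠ 0` (`p ∤ m`), and `τ ^ m = rsK τ'` with `τ' ∈ P.inertia Gal(Ω/L)` (same action on `𝓞 Ω`). So `Kl (pb e ρ) {σ | σ ∈ U ∧ kk a σ = 0}` (`bca_lev'` for `L`; see the end of `hasfK`).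
`M` = the field of `bca_exists` for `a` (`ha`); `ρ_M = ρ.comp (rsK K M Ω)`, `U_M` = the preimage of `V` under `ρ_M`, index prime to `p` as before; `Kl (pb e ρ_M) U_M` (restriction of the `l` above: `l ∘ rsK`, finite level: `bca_lev` or `lev_rs`); `H48.MF.tv_desc` over `M`: `Tv (pb e ρ_M)`. Then `Kl (pb e ρ) {σ | kk a σ = 0}` (`bca_lev'`, `bca_range`) and `bq hp hζ (c2_pb he hρ) ha`.
-/

set_option autoImplicit false

open scoped NumberField Pointwise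
open IsDedekindDomain

noncomputable section

namespace H71.HT2

open H63.MA H38.BB H38.BG H57.PC H57.BRA H89.BRG H24.RK

variable {K : Type} [Field K] [NumberField K] {Ω : Type} [Field Ω] [Algebra K Ω] [IsAlgClosure K Ω]
  {p : ℕ} {ζ : K}

private theorem klr_fix {U : Subgroup Gal(Ω/K)} {E : IntermediateField K Ω}
    (hE : FiniteDimensional K E) (hEU : E.fixingSubgroup ≤ U) :
    ∃ M : IntermediateField K Ω, FiniteDimensional K M ∧
      ∀ σ : Gal(Ω/K), σ ∈ U ↔ ∃ σ' : Gal(Ω/M), rsK K M Ω σ' = σ := by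
  obtain ⟨hfix, hfin⟩ := H38.ML.fixing_fixedField U E hEU
  obtain ⟨M, hM⟩ : ∃ M : IntermediateField K Ω, M = IntermediateField.fixedField U := ⟨_, rfl⟩
  rw [← hM] at hfix hfin
  refine ⟨M, hfin, fun σ => ?_⟩
  rw [← hfix]
  constructor
  · intro hσ
    refine ⟨AlgEquiv.ofRingEquiv (f := (σ : Ω ≃+* Ω)) fun x => ?_, ?_⟩
    · exact (IntermediateField.mem_fixingSubgroup_iff M σ).1 hσ x x.2
    · ext x
      rw [rsK_apply]
      rfl
  · rintro ⟨σ', rfl⟩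
    rw [IntermediateField.mem_fixingSubgroup_iff]
    intro x hx
    rw [rsK_apply]
    exact σ'.commutes ⟨x, hx⟩

omit [NumberField K] [IsAlgClosure K Ω] in
private theorem klr_idx {R : Type} [Group R] [Finite R] (ρ : Gal(Ω/K) →* R) (V : Subgroup R) [V.Normal]
    (hVi : ¬ p ∣ V.index) : (V.comap ρ).index ≠ 0 ∧ ¬ p ∣ (V.comap ρ).index := by
  have h1 : (V.comap ρ).index ∣ V.index := by
    rw [Subgroup.index_comap]
    exact Subgroup.relIndex_dvd_index_of_normal V ρ.range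
  have h2 : V.index ≠ 0 := Subgroup.FiniteIndex.index_ne_zero
  exact ⟨fun h => h2 (zero_dvd_iff.1 (h ▸ h1)), fun h => hVi (h.trans h1)⟩

/-- the class is killed on the elements of the preimage of `V` which fix the root of `a` -/
private theorem klr_kl {k : ℕ} (hk : 0 < k) (hp : p.Prime) (hp2 : MOne p K) (hζ : IsPrimitiveRoot ζ p)
    (hz : Zn p (k + 1) K) {R : Type} [Group R] [Finite R] {e : R → R → ZMod p} (he : Coc p e)
    {ρ : Gal(Ω/K) →* R} (hρ : H38.ML.FT ρ) (V : Subgroup R) [V.Normal]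
    (hV : ∀ x ∈ V, x ^ (p ^ k) = 1) (hVi : ¬ p ∣ V.index)
    (S : Finset (Pl K)) (hSa : ∀ v, Above p v → v ∈ S)
    (hSd : ∀ v ∈ S, ∀ P : Ideal (𝓞 Ω), P.IsPrime → P.under (𝓞 K) = v.asIdeal →
      Kl (pb e ρ) (Dc K P : Set Gal(Ω/K)))
    (a : Kˣ)
    (hra : ∀ v, v ∉ S → ∀ P : Ideal (𝓞 Ω), P.IsPrime → P.under (𝓞 K) = v.asIdeal →
      (∀ τ ∈ P.inertia Gal(Ω/K), ρ τ = 1) ∨ ∃ τ ∈ P.inertia Gal(Ω/K), kk p ζ a τ ≠ 0) :
    Kl (pb e ρ) {σ : Gal(Ω/K) | ρ σ ∈ V ∧ kk p ζ a σ = 0} := by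
  classical
  have hpf : Fact p.Prime := ⟨hp⟩
  obtain ⟨E, hE, hEk⟩ := hρ
  obtain ⟨U, hU⟩ : ∃ U : Subgroup Gal(Ω/K), U = V.comap ρ := ⟨_, rfl⟩
  have hUn : U.Normal := by
    rw [hU]
    infer_instance
  have hmemU : ∀ σ, σ ∈ U ↔ ρ σ ∈ V := by
    intro σ
    rw [hU, Subgroup.mem_comap]
  have hEU : E.fixingSubgroup ≤ U := by
    intro u hu
    rw [hmemU, MonoidHom.mem_ker.1 (hEk hu)]
    exact one_mem _
  have hidx : ¬ p ∣ U.index := by
    rw [hU]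
    exact (klr_idx ρ V hVi).2
  obtain ⟨M, hfin, hrange⟩ := klr_fix hE hEU
  have hclo : IsAlgClosure M Ω := bca_clo K M Ω
  have hnf : NumberField M := NumberField.of_module_finite K M
  have hfinS : {w : Pl M | ∃ v ∈ S, Over w v}.Finite := by
    have h1 : {w : Pl M | ∃ v ∈ S, Over w v} = ⋃ v ∈ S, {w : Pl M | Over w v} := by
      ext w
      simp only [Set.mem_ofPred_eq, Set.mem_iUnion, exists_prop]
    rw [h1]
    exact Set.Finite.biUnion S.finite_toSet fun v _ => over_finite v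
  have hmem : ∀ w : Pl M, w ∈ hfinS.toFinset ↔ ∃ v ∈ S, Over w v := by
    intro w
    rw [Set.Finite.mem_toFinset]
    rfl
  have hT : Kl (pb e (ρ.comp (rsK K M Ω)))
      {σ : Gal(Ω/M) | kk p (algebraMap K M ζ) (inc K M a) σ = 0} := by
    refine klp hk hp (mone_map hp2 M) (GBase_zeta hζ) (hz.map M) he (bca_ft ⟨E, hE, hEk⟩) ?_
      hfinS.toFinset ?_ ?_ (inc K M a) ?_
    · intro σ
      exact hV _ ((hmemU _).1 ((hrange _).2 ⟨σ, rfl⟩))
    · intro w hw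
      obtain ⟨v, hv⟩ := exists_below (K := K) w
      exact (hmem w).2 ⟨v, hSa v ((above_over hv p).1 hw), hv⟩
    · intro w hw P hP hPw
      obtain ⟨v, hvS, hv⟩ := (hmem w).1 hw
      exact dc_kl_rs (hSd v hvS P hP (bcp_under hv hPw))
    · intro w hw P hP hPw
      obtain ⟨v, hv⟩ := exists_below (K := K) w
      have hvS : v ∉ S := fun h => hw ((hmem w).2 ⟨v, h, hv⟩)
      rcases hra v hvS P hP (bcp_under hv hPw) with h | ⟨τ, hτ, h⟩
      · exact Or.inl fun τ hτ => h _ (bcp_inertia hτ)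
      · right
        obtain ⟨τ', hτ'⟩ := (hrange (τ ^ U.index)).1 (Subgroup.pow_index_mem U τ)
        have hin : τ ^ U.index ∈ P.inertia Gal(Ω/K) := pow_mem hτ _
        refine ⟨τ', fun x => ?_, ?_⟩
        · have h1 := hin x
          rwa [← hτ', bcp_smul (K := K)] at h1
        · rw [bca_kk hp hζ a τ', hτ']
          have h1 : kk p ζ a (τ ^ U.index) = (U.index : ZMod p) * kk p ζ a τ := by
            show Multiplicative.toAdd (kc p ζ Ω a (τ ^ U.index)) =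
              (U.index : ZMod p) * Multiplicative.toAdd (kc p ζ Ω a τ)
            rw [map_pow, toAdd_pow, nsmul_eq_mul]
          rw [h1]
          refine mul_ne_zero (fun h2 => hidx ?_) h
          exact (ZMod.natCast_eq_zero_iff _ _).1 h2
  obtain ⟨g, hg, hg2⟩ := hT
  obtain ⟨f, hf, hfg⟩ := bca_lev' (K := K) hg
  refine ⟨f, hf, fun σ hσ τ hτ => ?_⟩
  obtain ⟨hσ1, hσ2⟩ := hσ
  obtain ⟨hτ1, hτ2⟩ := hτ
  obtain ⟨σ', rfl⟩ := (hrange σ).1 ((hmemU σ).2 hσ1)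
  obtain ⟨τ', rfl⟩ := (hrange τ).1 ((hmemU τ).2 hτ1)
  rw [← map_mul, hfg, hfg, hfg]
  refine hg2 σ' ?_ τ' ?_
  · show kk p (algebraMap K M ζ) (inc K M a) σ' = 0
    rw [bca_kk hp hζ a σ']
    exact hσ2
  · show kk p (algebraMap K M ζ) (inc K M a) τ' = 0
    rw [bca_kk hp hζ a τ']
    exact hτ2

theorem klr {k : ℕ} (hk : 0 < k) (hp : p.Prime) (hp2 : MOne p K) (hζ : IsPrimitiveRoot ζ p)
    (hz : Zn p (k + 1) K) {R : Type} [Group R] [Finite R] {e : R → R → ZMod p} (he : Coc p e)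
    {ρ : Gal(Ω/K) →* R} (hρ : H38.ML.FT ρ) (V : Subgroup R) [V.Normal]
    (hV : ∀ x ∈ V, x ^ (p ^ k) = 1) (hVi : ¬ p ∣ V.index)
    (S : Finset (Pl K)) (hSa : ∀ v, Above p v → v ∈ S)
    (hSd : ∀ v ∈ S, ∀ P : Ideal (𝓞 Ω), P.IsPrime → P.under (𝓞 K) = v.asIdeal →
      Kl (pb e ρ) (Dc K P : Set Gal(Ω/K)))
    (a : Kˣ) (ha : ¬ IsPow p a)
    (hra : ∀ v, v ∉ S → ∀ P : Ideal (𝓞 Ω), P.IsPrime → P.under (𝓞 K) = v.asIdeal →
      (∀ τ ∈ P.inertia Gal(Ω/K), ρ τ = 1) ∨ ∃ τ ∈ P.inertia Gal(Ω/K), kk p ζ a τ ≠ 0) :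
    ∃ d : Kˣ, Tv (fun σ τ : Gal(Ω/K) => pb e ρ σ τ + cu p ζ a d σ τ) := by
  classical
  have hpf : Fact p.Prime := ⟨hp⟩
  obtain ⟨g, hg, hg2⟩ := klr_kl hk hp hp2 hζ hz he hρ V hV hVi S hSa hSd a hra
  obtain ⟨M, _, _, _, _, _, ⟨H⟩⟩ := bca_exists Ω hp hζ ha
  have hclo : IsAlgClosure M Ω := bca_clo K M Ω
  have hρM : H38.ML.FT (ρ.comp (rsK K M Ω)) := bca_ft hρ
  have hM : Tv (pb e (ρ.comp (rsK K M Ω))) := by
    have hX := c2_pb he hρM
    obtain ⟨E, hE, hEk⟩ := hρM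
    obtain ⟨h1, h2⟩ := klr_idx (ρ.comp (rsK K M Ω)) V hVi
    refine H48.MF.tv_desc hp hX (V.comap (ρ.comp (rsK K M Ω))) ⟨E, hE, fun u hu => ?_⟩ ⟨h1⟩ h2 ?_
    · rw [Subgroup.mem_comap, MonoidHom.mem_ker.1 (hEk hu)]
      exact one_mem _
    · refine ⟨fun σ => g (rsK K M Ω σ), bca_lev hg, fun σ hσ τ hτ => ?_⟩
      show g (rsK K M Ω (σ * τ)) = g (rsK K M Ω σ) + g (rsK K M Ω τ) +
        pb e ρ (rsK K M Ω σ) (rsK K M Ω τ)
      rw [map_mul]
      exact hg2 _ ⟨hσ, (bca_range hp hζ H _).2 ⟨σ, rfl⟩⟩ _ ⟨hτ, (bca_range hp hζ H _).2 ⟨τ, rfl⟩⟩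
  obtain ⟨l', hl1, hl2⟩ := hM
  obtain ⟨l, hl3, hl4⟩ := bca_lev' (K := K) (L := M) hl1
  exact bq hp hζ (c2_pb he hρ) ha ⟨l, hl3, fun σ hσ τ hτ => by
    obtain ⟨σ', rfl⟩ := (bca_range hp hζ H σ).1 hσ
    obtain ⟨τ', rfl⟩ := (bca_range hp hζ H τ).1 hτ
    rw [← map_mul, hl4, hl4, hl4]
    exact hl2 σ' τ'⟩

end H71.HT2
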