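import Pool.Agent.H71.HT2.Box
import Pool.Agent.H89.BRG.NrA
import Pool.Agent.H57.BRA.Loc
import Pool.Agent.H57.BRA.Bca

/-!
# [H71 HT2 THU] a symbol with few ramified primes: auxiliary lemmas and the proof of `thu`
-/

set_option autoImplicit false

open scoped NumberField
open IsDedekindDomain

noncomputable section

namespace H71.HT2

open H63.MA H57.BRA

/-- the exponent of `v` in an integer -/
theorem thb_ord {K : Type} [Field K] [NumberField K] (y : 𝓞 K) (u : Kˣ) (h : (y : K) = (u : K))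
    (v : Pl K) (k : ℕ) : (k : ℤ) ≤ ord v u ↔ v.asIdeal ^ k ∣ Ideal.span {y} := by
  rw [← v.intValuation_le_pow_iff_dvd, ← v.valuation_of_algebraMap (K := K)]
  change _ ↔ v.valuation K (y : K) ≤ _
  rw [h, val_eq, WithZero.exp_le_exp, neg_le_neg_iff]

/-- the norm of an integer with small conjugates -/
theorem thb_norm {K : Type} [Field K] [NumberField K] (z : 𝓞 K) {M : ℝ}
    (hM : ∀ σ : K →+* ℂ, ‖σ (z : K)‖ ≤ M) :
    (Ideal.absNorm (Ideal.span {z}) : ℝ) ≤ M ^ Module.finrank ℚ K := by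
  have h1 : (Ideal.absNorm (Ideal.span {z}) : ℝ) = ‖(algebraMap ℚ ℂ) (Algebra.norm ℚ (z : K))‖ := by
    rw [Ideal.absNorm_span_singleton, ← Algebra.coe_norm_int, Nat.cast_natAbs]
    simp
  rw [h1, Algebra.norm_eq_prod_embeddings ℚ ℂ, norm_prod]
  calc ∏ σ : K →ₐ[ℚ] ℂ, ‖σ (z : K)‖ ≤ ∏ _σ : K →ₐ[ℚ] ℂ, M :=
        Finset.prod_le_prod (fun σ _ => norm_nonneg _) fun σ _ => hM (σ : K →+* ℂ)
    _ = M ^ Module.finrank ℚ K := by
        rw [Finset.prod_const, Finset.card_univ, AlgHom.card]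

/-- `a` is a square modulo `v` -/
theorem thb_sq {K : Type} [Field K] [NumberField K] {ζ : K} (hζ : IsPrimitiveRoot ζ 2) {v : Pl K}
    (hv : ¬ Above 2 v) {a : Kˣ} {a' : 𝓞 K} (ha' : (a' : K) = (a : K)) (ha : ord v a = 0) {x : Kˣ}
    (hx : ¬ (2 : ℤ) ∣ ord v x) (hB : B 2 ζ v a x = 0) : ∃ β : 𝓞 K, β ^ 2 - a' ∈ v.asIdeal := by
  rw [B_unit Nat.prime_two hζ hv ha] at hB
  have h1 : ((ord v x : ℤ) : ZMod 2) = 1 := by
    have h2 : ((ord v x : ℤ) : ZMod 2) ≠ 0 := fun h => hx ((ZMod.intCast_zmod_eq_zero_iff_dvd _ _).1 h)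
    revert h2
    generalize ((ord v x : ℤ) : ZMod 2) = t
    revert t
    decide
  rw [h1, one_mul, lg_eq_zero_iff Nat.prime_two hζ hv ha] at hB
  obtain ⟨y, hy, hy1⟩ := hB
  have vy : v.valuation K (y : K) = 1 := (ord_eq_zero_iff v y).1 hy
  obtain ⟨β, hβ⟩ := symb_exists v (y : K) vy.le
  refine ⟨β, ?_⟩
  rw [← symb_mem]
  have h2 : v.valuation K ((y : K) ^ 2 - (a : K)) < 1 := by
    have h3 : (y : K) ^ 2 - (a : K) = -((((a * (y ^ 2)⁻¹ : Kˣ) : K) - 1) * (y : K) ^ 2) := by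
      push_cast
      field_simp
      ring
    rw [h3, Valuation.map_neg, map_mul, map_pow, vy, one_pow, mul_one]
    exact hy1
  have h4 : v.valuation K ((algebraMap (𝓞 K) K β) + (y : K)) ≤ 1 := by
    refine (Valuation.map_add _ _ _).trans (max_le ?_ vy.le)
    exact v.valuation_le_one β
  have h5 : algebraMap (𝓞 K) K (β ^ 2 - a') =
      (algebraMap (𝓞 K) K β - (y : K)) * (algebraMap (𝓞 K) K β + (y : K)) + ((y : K) ^ 2 - (a : K)) := by
    rw [map_sub, map_pow]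
    change _ - (a' : K) = _
    rw [ha']
    ring
  rw [h5]
  refine Valuation.map_add_lt _ ?_ h2
  rw [map_mul]
  exact mul_lt_one_of_lt_of_le hβ h4

/-- a product of different primes divides -/
theorem thb_dvd {K : Type} [Field K] [NumberField K] (T : Finset (Pl K)) {J : Ideal (𝓞 K)}
    (h : ∀ v ∈ T, v.asIdeal ∣ J) : ∏ v ∈ T, v.asIdeal ∣ J := by
  refine Finset.prod_dvd_of_coprime ?_ h
  intro v _ w _ hvw
  have h1 := v.isMaximal
  have h2 := w.isMaximal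
  exact Ideal.isCoprime_of_isMaximal fun h3 => hvw (HeightOneSpectrum.ext h3)

theorem thb_mem {K : Type} [Field K] [NumberField K] (T : Finset (Pl K)) {v : Pl K}
    (h : v.asIdeal ∣ ∏ w ∈ T, w.asIdeal) : v ∈ T := by
  obtain ⟨w, hw, hvw⟩ := (Prime.dvd_finsetProd_iff v.prime _).1 h
  have h1 : w.asIdeal ≤ v.asIdeal := Ideal.dvd_iff_le.1 hvw
  have h2 := w.isMaximal
  have h3 : w = v := HeightOneSpectrum.ext (h2.eq_of_le v.isPrime.ne_top h1)
  rwa [← h3]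

theorem thb_nr {K : Type} [Field K] [NumberField K] (T : Finset (Pl K)) :
    (Ideal.absNorm (∏ v ∈ T, v.asIdeal) : ℝ) = nr T := by
  unfold nr nm
  rw [map_prod, Nat.cast_prod]

/-- the exponents of an element whose ideal is `I * J` -/
theorem thb_val {K : Type} [Field K] [NumberField K] (T : Finset (Pl K)) {J : Ideal (𝓞 K)} {y : 𝓞 K} {u : Kˣ}
    (h : (y : K) = (u : K)) (hJ : Ideal.span {y} = (∏ v ∈ T, v.asIdeal) * J) {v : Pl K} (hv : ¬ v.asIdeal ∣ J) :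
    (v ∈ T → ord v u = 1) ∧ (v ∉ T → ord v u = 0) := by
  classical
  constructor
  · intro hvT
    have h1 : (1 : ℤ) ≤ ord v u := by
      have := (thb_ord y u h v 1).2 (by
        rw [pow_one, hJ]
        exact (Finset.dvd_prod_of_mem _ hvT).mul_right _)
      exact_mod_cast this
    have h2 : ¬ (2 : ℤ) ≤ ord v u := by
      intro h3
      have h4 := (thb_ord y u h v 2).1 (by exact_mod_cast h3)
      rw [hJ, ← Finset.mul_prod_erase T (fun v => v.asIdeal) hvT, pow_two, mul_assoc] at h4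
      have h5 := (mul_dvd_mul_iff_left v.prime.ne_zero).1 h4
      rcases v.prime.dvd_or_dvd h5 with h6 | h6
      · exact Finset.notMem_erase v T (thb_mem _ h6)
      · exact hv h6
    omega
  · intro hvT
    have h1 : (0 : ℤ) ≤ ord v u := by
      have := (thb_ord y u h v 0).2 (by rw [pow_zero]; exact one_dvd _)
      exact_mod_cast this
    have h2 : ¬ (1 : ℤ) ≤ ord v u := by
      intro h3
      have h4 := (thb_ord y u h v 1).1 (by exact_mod_cast h3)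
      rw [pow_one, hJ] at h4
      rcases v.prime.dvd_or_dvd h4 with h6 | h6
      · exact hvT (thb_mem _ h6)
      · exact hv h6
    omega

/-- the symbol of `a` and `u ^ 2 - a w ^ 2` is trivial -/
theorem thb_tv {K : Type} [Field K] [NumberField K] {ζ : K} (hζ : IsPrimitiveRoot ζ 2) (Ω : Type)
    [Field Ω] [Algebra K Ω] [IsAlgClosure K Ω] {a : Kˣ} (hna : ¬ IsPow 2 a) (u w : K) (U : Kˣ)
    (hU : (U : K) = u ^ 2 - a * w ^ 2) : Tv (fun σ τ : Gal(Ω/K) => cu 2 ζ a U σ τ) := by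
  obtain ⟨L, i1, i2, i3, i4, i5, ⟨H⟩⟩ := bca_exists Ω Nat.prime_two hζ hna
  have i6 : IsAlgClosure L Ω := bca_clo K L Ω
  have hne : algebraMap K L u + algebraMap K L w * (H.γ : L) ≠ 0 := by
    intro h0
    have h1 : algebraMap K L (U : K) = (algebraMap K L u + algebraMap K L w * (H.γ : L)) *
        (algebraMap K L u - algebraMap K L w * (H.γ : L)) := by
      rw [hU, map_sub, map_mul, map_pow, map_pow, ← H.hγ]
      ring
    rw [h0, zero_mul] at h1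
    exact U.ne_zero ((map_eq_zero _).1 h1)
  obtain ⟨y0, hy0⟩ : ∃ y0 : Lˣ, (y0 : L) = algebraMap K L u + algebraMap K L w * (H.γ : L) :=
    ⟨Units.mk0 _ hne, rfl⟩
  have hsum : (y0 : L) = ∑ i ∈ Finset.range 2,
      algebraMap K L ((fun i : ℕ => if i = 0 then u else w) i) * (H.γ : L) ^ i := by
    rw [hy0]
    simp [Finset.sum_range_succ]
  have h1 := H89.BRG.nra_tv (Ω := Ω) Nat.prime_two hζ H _ y0 hsum
  have h2 := H89.BRG.nra_norm (Ω := Ω) Nat.prime_two hζ H _ y0 hsum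
  have hγ : (algebraMap L Ω (H.γ : L)) ^ 2 = algebraMap K Ω (a : K) := by
    rw [← map_pow, H.hγ, ← IsScalarTower.algebraMap_apply K L Ω]
  have h3 : Nm K L y0 = U := by
    apply Units.ext
    apply (algebraMap K Ω).injective
    rw [h2, hU]
    simp only [Finset.prod_range_succ, Finset.prod_range_zero, Finset.sum_range_succ, Finset.sum_range_zero, if_pos,
      if_neg one_ne_zero, pow_zero, pow_one, one_mul, mul_one, zero_add]
    have hz : algebraMap K Ω ζ = -1 := by rw [hζ.eq_neg_one_of_two_right, map_neg, map_one]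
    rw [hz, map_sub, map_mul, map_pow, map_pow, ← hγ]
    ring
  rw [h3] at h1
  exact h1

theorem thb_main (K : Type) [Field K] [NumberField K] : ∃ C : ℝ, 1 ≤ C ∧
    ∀ (ζ : K) (_ : IsPrimitiveRoot ζ 2) (Ω : Type) [Field Ω] [Algebra K Ω] [IsAlgClosure K Ω]
      (S : Finset (Pl K)) (_ : ∀ v, Above 2 v → v ∈ S) (a : Kˣ) (a' : 𝓞 K)
      (_ : (a' : K) = (a : K)) (_ : ¬ IsPow 2 a) (A : ℝ) (_ : 1 ≤ A)
      (_ : ∀ σ : K →+* ℂ, ‖σ (a : K)‖ ≤ A) (_ : ∀ v, v ∉ S → ord v a = 0) (x : Kˣ)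
      (_ : ∀ v, v ∉ S → B 2 ζ v a x = 0),
      ∃ (y : Kˣ) (F : Finset (Pl K)), (∀ v, v ∉ S → v ∉ F → (2 : ℤ) ∣ ord v y) ∧
        nr F ≤ C * A ^ Module.finrank ℚ K ∧
        Tv (fun σ τ : Gal(Ω/K) => cu 2 ζ a x σ τ + cu 2 ζ a y σ τ) := by
  obtain ⟨C₂, hC₂, hbox⟩ := box_pair K
  refine ⟨(2 * C₂ ^ 2) ^ Module.finrank ℚ K, one_le_pow₀ (by nlinarith), ?_⟩
  intro ζ hζ Ω _ _ _ S hS a a' ha' hna A hA hσa hord x hB
  classical
  have hn : Module.finrank ℚ K ≠ 0 := Module.finrank_pos.ne'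
  have hfin : {v : Pl K | v ∉ S ∧ ¬ (2 : ℤ) ∣ ord v x}.Finite :=
    (finite_ord x).subset fun v hv h0 => hv.2 (by rw [h0]; exact dvd_zero _)
  obtain ⟨T, hT⟩ : ∃ T : Finset (Pl K), ∀ v, v ∈ T ↔ v ∉ S ∧ ¬ (2 : ℤ) ∣ ord v x :=
    ⟨hfin.toFinset, fun v => by rw [Set.Finite.mem_toFinset]; rfl⟩
  have hsq : ∀ v ∈ T, ∃ β : 𝓞 K, β ^ 2 - a' ∈ v.asIdeal := by
    intro v hv
    obtain ⟨h1, h2⟩ := (hT v).1 hv
    exact thb_sq hζ (fun h => h1 (hS v h)) ha' (hord v h1) h2 (hB v h1)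
  choose! b hb using hsq
  obtain ⟨β, hβ⟩ := IsDedekindDomain.exists_forall_sub_mem_ideal (s := T) (fun v : Pl K => v.asIdeal)
    (fun _ => 1) (fun v _ => v.prime) (fun v _ w _ hvw h => hvw (HeightOneSpectrum.ext h)) (fun v => b v.1)
  have hβ2 : ∀ v ∈ T, β ^ 2 - a' ∈ v.asIdeal := by
    intro v hv
    have h1 := hβ v hv
    rw [pow_one] at h1
    have h2 : β ^ 2 - a' = (β - b v) * (β + b v) + (b v ^ 2 - a') := by ring
    rw [h2]
    exact v.asIdeal.add_mem (v.asIdeal.mul_mem_right _ h1) (hb v hv)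
  obtain ⟨I, hIdef⟩ : ∃ I : Ideal (𝓞 K), I = ∏ v ∈ T, v.asIdeal := ⟨_, rfl⟩
  have hI0 : I ≠ ⊥ := by
    rw [hIdef, ← Ideal.zero_eq_bot, Ne, Finset.prod_eq_zero_iff]
    rintro ⟨v, -, hv⟩
    exact v.ne_bot (by rw [hv, Ideal.zero_eq_bot])
  have hβI : β ^ 2 - a' ∈ I := by
    rw [hIdef, ← Ideal.dvd_span_singleton]
    exact thb_dvd T fun v hv => Ideal.dvd_span_singleton.2 (hβ2 v hv)
  have hNI : (0 : ℝ) < (Ideal.absNorm I : ℝ) := by
    have h1 : Ideal.absNorm I ≠ 0 := fun h => hI0 (Ideal.absNorm_eq_zero_iff.1 h)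
    exact_mod_cast Nat.pos_of_ne_zero h1
  obtain ⟨t, ht⟩ : ∃ t : ℝ, t = (Ideal.absNorm I : ℝ) ^ (1 / (Module.finrank ℚ K : ℝ)) := ⟨_, rfl⟩
  have ht0 : 0 < t := by
    rw [ht]
    exact Real.rpow_pos_of_pos hNI _
  have htn : t ^ Module.finrank ℚ K = (Ideal.absNorm I : ℝ) := by
    rw [ht, one_div]
    exact Real.rpow_inv_natCast_pow hNI.le hn
  have hA0 : 0 < A := zero_lt_one.trans_le hA
  have hR2 : 0 < Real.sqrt (t / A) := Real.sqrt_pos.2 (div_pos ht0 hA0)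
  have hR22 : Real.sqrt (t / A) * Real.sqrt (t / A) = t / A := Real.mul_self_sqrt (div_pos ht0 hA0).le
  obtain ⟨R, hR⟩ : ∃ R : ℝ, R = Real.sqrt (t / A) := ⟨_, rfl⟩
  rw [← hR] at hR2 hR22
  have hAR : A * (R * R) = t := by
    rw [hR22]
    field_simp
  obtain ⟨u, w, huw, huI, hu, hw⟩ := hbox I hI0 β (A * R) R (mul_pos hA0 hR2) hR2 (by
    rw [mul_assoc, hAR, htn])
  have hy0 : u ^ 2 - a' * w ^ 2 ≠ 0 := by
    intro h0
    have h1 : (u : K) ^ 2 = (a : K) * (w : K) ^ 2 := by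
      have h2 := congrArg (algebraMap (𝓞 K) K) (sub_eq_zero.1 h0)
      rw [map_pow, map_mul, map_pow] at h2
      rw [← ha']
      exact h2
    by_cases hw0 : w = 0
    · rw [hw0] at h0
      have hu0 : u = 0 := by
        have : u ^ 2 = 0 := by simpa using h0
        exact pow_eq_zero_iff two_ne_zero |>.1 this
      rcases huw with h | h
      · exact h hu0
      · exact h hw0
    · have hw1 : (w : K) ≠ 0 := fun h => hw0 (NumberField.RingOfIntegers.ext h)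
      have hu1 : (u : K) ≠ 0 := by
        intro h
        rw [h, zero_pow two_ne_zero] at h1
        rcases mul_eq_zero.1 h1.symm with h2 | h2
        · exact a.ne_zero h2
        · exact hw1 ((pow_eq_zero_iff two_ne_zero).1 h2)
      refine hna ⟨Units.mk0 (u : K) hu1 * (Units.mk0 (w : K) hw1)⁻¹, ?_⟩
      apply Units.ext
      push_cast
      rw [Units.val_mk0, Units.val_mk0]
      field_simp
      linear_combination h1
  have hyI : u ^ 2 - a' * w ^ 2 ∈ I := by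
    have h1 : u ^ 2 - a' * w ^ 2 = (u - β * w) * (u + β * w) + (β ^ 2 - a') * w ^ 2 := by ring
    rw [h1]
    exact I.add_mem (I.mul_mem_right _ huI) (I.mul_mem_right _ hβI)
  have hycoe : ((u ^ 2 - a' * w ^ 2 : 𝓞 K) : K) = (u : K) ^ 2 - (a : K) * (w : K) ^ 2 := by
    have h1 : algebraMap (𝓞 K) K (u ^ 2 - a' * w ^ 2) =
        algebraMap (𝓞 K) K u ^ 2 - algebraMap (𝓞 K) K a' * algebraMap (𝓞 K) K w ^ 2 := by
      rw [map_sub, map_mul, map_pow, map_pow]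
    rw [← ha']
    exact h1
  have hyn : (Ideal.absNorm (Ideal.span {u ^ 2 - a' * w ^ 2}) : ℝ) ≤
      (2 * C₂ ^ 2 * (A * t)) ^ Module.finrank ℚ K := by
    refine thb_norm _ fun σ => ?_
    rw [hycoe, map_sub, map_mul, map_pow, map_pow]
    have hC0 : 0 ≤ C₂ := zero_le_one.trans hC₂
    have e1 : ‖σ (u : K)‖ ^ 2 ≤ (C₂ * (A * R)) ^ 2 := pow_le_pow_left₀ (norm_nonneg _) (hu σ) 2
    have e2 : ‖σ (w : K)‖ ^ 2 ≤ (C₂ * R) ^ 2 := pow_le_pow_left₀ (norm_nonneg _) (hw σ) 2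
    have e3 : ‖σ (a : K)‖ * ‖σ (w : K)‖ ^ 2 ≤ A * (C₂ * R) ^ 2 :=
      mul_le_mul (hσa σ) e2 (by positivity) hA0.le
    calc ‖σ (u : K) ^ 2 - σ (a : K) * σ (w : K) ^ 2‖ ≤ ‖σ (u : K)‖ ^ 2 + ‖σ (a : K)‖ * ‖σ (w : K)‖ ^ 2 := by
          refine (norm_sub_le _ _).trans ?_
          rw [norm_pow, norm_mul, norm_pow]
      _ ≤ (C₂ * (A * R)) ^ 2 + A * (C₂ * R) ^ 2 := add_le_add e1 e3
      _ = C₂ ^ 2 * (A * t) + C₂ ^ 2 * t := by
          rw [← hAR]
          ring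
      _ ≤ 2 * C₂ ^ 2 * (A * t) := by
          have e4 : t ≤ A * t := by nlinarith
          have e5 : C₂ ^ 2 * t ≤ C₂ ^ 2 * (A * t) := mul_le_mul_of_nonneg_left e4 (by positivity)
          linarith
  obtain ⟨J, hJ⟩ := Ideal.dvd_span_singleton.2 hyI
  have hJn : (Ideal.absNorm J : ℝ) ≤ (2 * C₂ ^ 2) ^ Module.finrank ℚ K * A ^ Module.finrank ℚ K := by
    rw [hJ, map_mul, Nat.cast_mul, mul_pow (2 * C₂ ^ 2) (A * t), mul_pow A t, htn] at hyn
    have h1 : (Ideal.absNorm I : ℝ) * (Ideal.absNorm J : ℝ) ≤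
        (Ideal.absNorm I : ℝ) * ((2 * C₂ ^ 2) ^ Module.finrank ℚ K * A ^ Module.finrank ℚ K) := by
      linarith
    exact le_of_mul_le_mul_left h1 hNI
  have hJ0 : J ≠ 0 := by
    rintro rfl
    rw [mul_zero, Ideal.zero_eq_bot, Ideal.span_singleton_eq_bot] at hJ
    exact hy0 hJ
  have hFfin : {v : Pl K | v.asIdeal ∣ J}.Finite := Ideal.finite_factors hJ0
  obtain ⟨F, hF⟩ : ∃ F : Finset (Pl K), ∀ v, v ∈ F ↔ v.asIdeal ∣ J :=
    ⟨hFfin.toFinset, fun v => by rw [Set.Finite.mem_toFinset]; rfl⟩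
  have hyK : ((u ^ 2 - a' * w ^ 2 : 𝓞 K) : K) ≠ 0 := fun h => hy0 (NumberField.RingOfIntegers.ext h)
  obtain ⟨U, hU⟩ : ∃ U : Kˣ, (U : K) = ((u ^ 2 - a' * w ^ 2 : 𝓞 K) : K) := ⟨Units.mk0 _ hyK, rfl⟩
  refine ⟨U * x, F, ?_, ?_, ?_⟩
  · intro v hvS hvF
    have h1 := thb_val T hU.symm (by rw [← hIdef]; exact hJ) (v := v) (fun h => hvF ((hF v).2 h))
    rw [ord_mul]
    by_cases hvT : v ∈ T
    · rw [h1.1 hvT]
      have h2 := ((hT v).1 hvT).2
      omega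
    · rw [h1.2 hvT, zero_add]
      by_contra h3
      exact hvT ((hT v).2 ⟨hvS, h3⟩)
  · refine le_trans ?_ hJn
    rw [← thb_nr]
    have h1 : ∏ v ∈ F, v.asIdeal ∣ J := thb_dvd F fun v hv => (hF v).1 hv
    have h2 : Ideal.absNorm (∏ v ∈ F, v.asIdeal) ∣ Ideal.absNorm J := map_dvd _ h1
    have h3 : 0 < Ideal.absNorm J := Nat.pos_of_ne_zero fun h => hJ0 (Ideal.absNorm_eq_zero_iff.1 h)
    exact_mod_cast Nat.le_of_dvd h3 h2
  · have h1 := thb_tv hζ Ω hna (u : K) (w : K) U (by rw [hU, hycoe])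
    have h2 : (fun σ τ : Gal(Ω/K) => cu 2 ζ a x σ τ + cu 2 ζ a (U * x) σ τ) =
        fun σ τ : Gal(Ω/K) => cu 2 ζ a U σ τ := by
      funext σ τ
      unfold cu
      rw [kk_mul_arg Nat.prime_two hζ]
      generalize kk 2 ζ a σ = r
      generalize kk 2 ζ x τ = s
      generalize kk 2 ζ U τ = q
      revert r s q
      decide
    rw [h2]
    exact h1

end H71.HT2
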