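import Pool.Agent.H71.HT2.Box
import Pool.Agent.H89.BRG.NrA
import Pool.Agent.H57.BRA.Loc
import Pool.Agent.H57.BRA.Bca
import Pool.Agent.H71.HT2.ThuB
import Pool.Agent.H63.MA.AFin

/-!
# [H71 HT2 THU] a small element with given odd valuations; a symbol with few ramified primes (MP_b39724_nt, think 1829)

PROOF of `thu_a`. `C₁` from `box_one`; `S₁` = the (finitely many, `nm_finite` or `Ideal.finite_setOf_absNorm_le`) `v` with `nm v ≤ C₁ ^ n`, `n = finrank ℚ K`. `I = ∏ v ∈ T, v.asIdeal`, `absNorm I = nr T` (`map_prod`). `u ∈ I`, `u ≠ 0`, `‖σ u‖ ≤ C₁ (nr T)^(1/n)` for all `σ`: `|norm u| ≤ C₁ ^ n nr T` (`Algebra.norm_eq_prod_embeddings`; see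
`NumberField` files or the proof of `Embeddings`/`norm_le`; `Ideal.absNorm_span_singleton`). `span {u} = I * J` (`Ideal.dvd_span_singleton`, `I ∣ span {u}`), so `absNorm J ≤ C₁ ^ n`, and a `v` outside `S₁` does not divide `J`. So `ord v u = 1` on `T`, `0` elsewhere (`ord` and the multiplicity of `v` in `span {u}`: `ord_eq_count` or look for lemmas on `ord` in H63/MA and H77/S0T:
`HeightOneSpectrum.valuation_of_algebraMap`, `intValuation_if_neg`).

PROOF of `thu`. `C₂` from `box_pair`. `Ξ` = the `v ∉ S` with `ord v x` odd (finite). For `v ∈ Ξ`: `B 2 ζ v a x = lg (a ^ ord v x * (x ^ 0)⁻¹) = ord v x * lg a = lg a` (`ord v a = 0`), so `lg 2 ζ v a = 0`: `a` is a square modulo `v` (`lg_eq_zero_iff`; `lg_zpow`): there is `β_v : 𝓞 K` with `β_v ^ 2 - a ∈ v` (the element given by `lg_eq_zero_iff` is a unit at `v`, congruent to an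
integer modulo `v`: look for `exists_int`/`residue` lemmas in H63/MA/Base.lean, H63/MA/Cop.lean). Chinese remainder theorem (`IsDedekindDomain.exists_forall_sub_mem_ideal` or `Ideal.exists_forall_sub_mem_ideal`): `β : 𝓞 K` with `β ^ 2 - a ∈ I = ∏ v ∈ Ξ, v.asIdeal`. `t = (absNorm I)^(1/n)`, `R₂ = sqrt (t / A)`, `R₁ = A R₂`: `R₁ R₂ = t`. `u, w` from `box_pair`. `y' = u² - a w² =
(u - β w)(u + β w) + (β² - a) w² ∈ I`; `y' ≠ 0`: otherwise `a` is a square (`w ≠ 0`) or `u = w = 0`. `‖σ y'‖ ≤ C₂² R₁² + A C₂² R₂² ≤ 2 C₂² A² R₂² = 2 C₂² A t`, so `|norm y'| ≤ (2 C₂² A)^n absNorm I`; `span {y'} = I * J`, `absNorm J ≤ (2 C₂²)^n A ^ n`. `y = y' * x`. `F` = the `v ∉ S` dividing `J` (finite, `nr F ≤ absNorm J`: `∏ v ∈ F, v.asIdeal ∣ J`,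
`Finset.prod_dvd_of_isRelPrime`, `nr F = absNorm (∏ ..)`). For `v ∉ S`, `v ∉ F`: `ord v y' = 1` if `v ∈ Ξ`, `0` otherwise, so `ord v y = ord v y' + ord v x` is even.
The symbol: `bca_exists` for `a` gives `L`, `H : Kum 2 K ζ a L`; `y' = Nm K L (u + w √(..))`, up to the sign of the root: `nra_norm`/`nra_tv` with `b 0 = u`, `b 1 = w` : `∏_{k<2} (u + w ζ^k γ) = u² - w² γ²` (`ζ = -1`: `hζ` primitive of order 2), so `Tv (cu a y')`. `cu a x + cu a (y' x) = cu a y' + 2 cu a x = cu a y'` (`kk_mul_left`-type lemma for `kk p ζ (x * y) σ`: `kk_mulk`? look in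
H63/MA/KcB or `kk_units`), in `ZMod 2`.
-/

set_option autoImplicit false

open scoped NumberField
open IsDedekindDomain

noncomputable section

namespace H71.HT2

open H63.MA H57.BRA

private theorem thua_norm {K : Type} [Field K] [NumberField K] (u : 𝓞 K) {R : ℝ}
    (h : ∀ σ : K →+* ℂ, ‖σ (u : K)‖ ≤ R) :
    (Ideal.absNorm (Ideal.span {u}) : ℝ) ≤ R ^ Module.finrank ℚ K := by
  rw [Ideal.absNorm_span_singleton]
  have h1 : (((Algebra.norm ℤ u).natAbs : ℕ) : ℝ) = ‖algebraMap ℚ ℂ (Algebra.norm ℚ (u : K))‖ := by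
    rw [← Algebra.coe_norm_int]
    simp only [eq_ratCast, Rat.cast_intCast, Complex.norm_intCast]
    rw [Nat.cast_natAbs, Int.cast_abs]
  rw [h1, Algebra.norm_eq_prod_embeddings ℚ ℂ (u : K), norm_prod]
  refine (Finset.prod_le_prod (fun σ _ => norm_nonneg _) (fun σ _ => h σ.toRingHom)).trans ?_
  rw [Finset.prod_const, Finset.card_univ, AlgHom.card]

private theorem thua_fin (K : Type) [Field K] [NumberField K] (y : ℝ) :
    {v : Pl K | (nm v : ℝ) ≤ y}.Finite := by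
  classical
  refine Set.Finite.preimage (f := fun v : Pl K => ({v} : Finset (Pl K)))
    (fun v _ w _ h => Finset.singleton_injective h) (finite_nr K y) |>.subset ?_
  intro v hv
  show nr {v} ≤ y
  unfold nr
  rw [Finset.prod_singleton]
  exact hv

private theorem thua_dvd {K : Type} [Field K] [NumberField K] {v : Pl K} {I : Ideal (𝓞 K)}
    (hI : I ≠ ⊥) (h : rcm v I ≠ 0) : nm v ≤ Ideal.absNorm I := by
  classical
  have h1 : v.asIdeal ∣ I := (Associates.count_ne_zero_iff_dvd hI v.irreducible).1 h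
  refine Nat.le_of_dvd ?_ (Ideal.absNorm_dvd_absNorm_of_le (Ideal.dvd_iff_le.1 h1))
  exact Nat.pos_of_ne_zero (fun h0 => hI (Ideal.absNorm_eq_zero_iff.1 h0))

theorem thu_a (K : Type) [Field K] [NumberField K] : ∃ (S₁ : Finset (Pl K)) (C : ℝ), 1 ≤ C ∧
    ∀ T : Finset (Pl K), ∃ (a : Kˣ) (a' : 𝓞 K), (a' : K) = (a : K) ∧
      (∀ v, v ∉ S₁ → v ∈ T → ord v a = 1) ∧ (∀ v, v ∉ S₁ → v ∉ T → ord v a = 0) ∧
      ∀ σ : K →+* ℂ, ‖σ (a : K)‖ ≤ C * (nr T) ^ (1 / (Module.finrank ℚ K : ℝ)) := by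
  classical
  obtain ⟨C, hC, hbox⟩ := box_one K
  have hn : 0 < Module.finrank ℚ K := Module.finrank_pos
  refine ⟨(thua_fin K (C ^ Module.finrank ℚ K)).toFinset, C, hC, fun T => ?_⟩
  obtain ⟨u, hu0, huI, hub⟩ := hbox (idl T) (idl_ne T)
  rw [idl_norm] at hub
  have hu0' : (u : K) ≠ 0 := by
    intro h
    exact hu0 (NumberField.RingOfIntegers.ext (by rw [h]; rfl))
  have hT0 : 0 < nr T := lt_of_lt_of_le one_pos (one_le_nr T)
  obtain ⟨J, hJ⟩ : idl T ∣ Ideal.span {u} := Ideal.dvd_span_singleton.2 huI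
  have hJ0 : J ≠ ⊥ := by
    rintro rfl
    rw [Ideal.mul_bot, Ideal.span_singleton_eq_bot] at hJ
    exact hu0 hJ
  have hnJ : (Ideal.absNorm J : ℝ) ≤ C ^ Module.finrank ℚ K := by
    have h1 := thua_norm u hub
    rw [hJ, map_mul, Nat.cast_mul, idl_norm, mul_pow, ← Real.rpow_mul_natCast hT0.le,
      one_div, inv_mul_cancel₀ (Nat.cast_ne_zero.2 hn.ne'), Real.rpow_one, mul_comm] at h1
    exact le_of_mul_le_mul_right h1 hT0
  have hord : ∀ v : Pl K, v ∉ (thua_fin K (C ^ Module.finrank ℚ K)).toFinset →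
      ord v (Units.mk0 (u : K) hu0') = if v ∈ T then 1 else 0 := by
    intro v hv
    rw [Set.Finite.mem_toFinset, Set.mem_ofPred_eq] at hv
    rw [rcm_ord v hu0 (by rfl), hJ, rcm_mul v (idl_ne T) hJ0, af_rcm]
    have h2 : rcm v J = 0 := by
      by_contra h3
      exact hv (le_trans (Nat.cast_le.2 (thua_dvd hJ0 h3)) hnJ)
    rw [h2, add_zero]
    split_ifs <;> simp
  refine ⟨Units.mk0 (u : K) hu0', u, rfl, fun v hv hvT => ?_, fun v hv hvT => ?_, hub⟩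
  · rw [hord v hv, if_pos hvT]
  · rw [hord v hv, if_neg hvT]

theorem thu (K : Type) [Field K] [NumberField K] : ∃ C : ℝ, 1 ≤ C ∧
    ∀ (ζ : K) (_ : IsPrimitiveRoot ζ 2) (Ω : Type) [Field Ω] [Algebra K Ω] [IsAlgClosure K Ω]
      (S : Finset (Pl K)) (_ : ∀ v, Above 2 v → v ∈ S) (a : Kˣ) (a' : 𝓞 K)
      (_ : (a' : K) = (a : K)) (_ : ¬ IsPow 2 a) (A : ℝ) (_ : 1 ≤ A)
      (_ : ∀ σ : K →+* ℂ, ‖σ (a : K)‖ ≤ A) (_ : ∀ v, v ∉ S → ord v a = 0) (x : Kˣ)
      (_ : ∀ v, v ∉ S → B 2 ζ v a x = 0),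
      ∃ (y : Kˣ) (F : Finset (Pl K)), (∀ v, v ∉ S → v ∉ F → (2 : ℤ) ∣ ord v y) ∧
        nr F ≤ C * A ^ Module.finrank ℚ K ∧
        Tv (fun σ τ : Gal(Ω/K) => cu 2 ζ a x σ τ + cu 2 ζ a y σ τ) := thb_main K

end H71.HT2
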