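import Pool.Agent.H71.HT2.Adj
import Pool.Agent.H71.HT2.Klr
import Pool.Agent.H71.HT2.Thu

/-!
# [H71 HT2 BSE] a class of order `2` is killed by a symbol with few ramified primes (MP_b39724_nt, think 1829)

PROOF. `S₁`, `C₁` from `thu_a K`, `C₂` from `thu K`. Given `D` with `S₁ ⊆ D.S0` choose a place `v₀ ∉ D.S0` (there are infinitely many: `D.q_non`/`D.non`, or `Infinite (Pl K)`; see the use of an auxiliary prime in H35/AC or H77/S0T). `n = finrank ℚ K`. `C = nm v₀ * C₂ * C₁ ^ n * nm v₀`.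
Given `ρ`, `E`: `E' = (E ∪ {v₀}) \ D.S0`. `a` from `thu_a` for `E'`: `ord v a = 1` for `v ∈ E'` (`v ∉ S₁` as `S₁ ⊆ D.S0`), `= 0` for `v ∉ D.S0`, `v ∉ E'`. `a` is not a square (`ord v₀ a = 1`; `ord_pow`).
(1) `klr` with `S = D.S0`: `hSd` from `brg_dc he hρ (fun v hv => ⟨Q'.P v, Q'.prime v, Q'.under v, qd_kl (hS v hv)⟩)`; `hra`: for `v ∉ D.S0` and `P` over `v`: `P` is conjugate to `(L.ld v _).P` (`ltr_conj`, see `ltrK`); if `v ∈ E'`: `kk a (L.t v) = ord v a = 1 ≠ 0` (`ld_kk_t`) and the conjugate of `L.t v` is in the inertia group of `P`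
with the same `kk a`; if `v ∉ E'` then `v ∉ E` and `ρ = 1` on `inr L v`, so on `P.inertia`. This gives `d : Kˣ` with `Tv (pb e ρ + cu a d)`.
(2) For `v ∉ D.S0 ∪ E'`: `B 2 ζ v a d = 0`: `locK_one` (`F` from `frob_univK`) with `ρ (L.t v) = 1` (`iv_swap`, `iv_one_left`), as in the proof of `hasK_step`, H24/RK/Has.lean.
(3) `thu` with `S = D.S0 ∪ E'`, `A = C₁ (nr E')^(1/n)` (`≥ 1`), `x = d`: `b`, `F'` with `Tv (cu a d + cu a b)`; add (in `ZMod 2`, `2 cu a d = 0`): `Tv (pb e ρ + cu a b)`. `A ^ n = C₁ ^ n nr E'`, `nr E' ≤ nr E * nm v₀`. `F = F' ∪ {v₀}`: `nr F ≤ nr F' * nm v₀`.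
(4) `kk a τ = 0`, `kk b τ = 0` on `inr L v` for `v ∉ D.S0 ∪ E ∪ F` (`ld_kk`: `ord v a = 0`, `ord v b` even). `madj` for the group `R × Multiplicative (ZMod 2) × Multiplicative (ZMod 2)`, `ρ' σ = (ρ σ, kc a σ, kc b σ)`, `e' x y = e x.1 y.1 + toAdd x.2.1 * toAdd y.2.2` (a normalised cocycle), `S' = E ∪ F`.
-/

set_option autoImplicit false

open scoped NumberField
open IsDedekindDomain
open scoped Classical

noncomputable section

namespace H71.HT2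

open H63.MA H38.BB H38.BG H57.PC H57.BRA H63.BU H24.RK H89.BRG

private theorem bse_pl (K : Type) [Field K] [NumberField K] (S : Finset (Pl K)) :
    ∃ v : Pl K, v ∉ S := by
  by_contra hcon
  push Not at hcon
  obtain ⟨N, hN⟩ : ∃ N : ℕ, N = (∏ v ∈ S, nm v) + 1 := ⟨_, rfl⟩
  have hpos : 0 < ∏ v ∈ S, nm v := Finset.prod_pos fun v _ => lt_trans Nat.zero_lt_one (one_lt_nm v)
  have hN2 : 2 ≤ N := by omega
  have hnu : (N : 𝓞 K) ∈ nonunits (𝓞 K) := by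
    intro hu
    have h1 : IsUnit (Algebra.norm ℤ (algebraMap ℤ (𝓞 K) (N : ℤ))) := by
      have h2 : algebraMap ℤ (𝓞 K) (N : ℤ) = (N : 𝓞 K) := by simp
      rw [h2]
      exact hu.map (Algebra.norm ℤ)
    rw [Algebra.norm_algebraMap] at h1
    have h2 : Module.finrank ℤ (𝓞 K) ≠ 0 := by
      rw [NumberField.RingOfIntegers.rank]
      exact Module.finrank_pos.ne'
    have h3 : IsUnit ((N : ℤ)) := (isUnit_pow_iff h2).1 h1
    rw [Int.isUnit_iff] at h3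
    omega
  obtain ⟨I, hI, hNI⟩ := exists_max_ideal_of_mem_nonunits hnu
  have hN0 : (N : 𝓞 K) ≠ 0 := by
    have : N ≠ 0 := by omega
    exact_mod_cast this
  have hIb : I ≠ ⊥ := by
    rintro rfl
    exact hN0 (Ideal.mem_bot.1 hNI)
  obtain ⟨v, hv⟩ : ∃ v : Pl K, v.asIdeal = I := ⟨⟨I, hI.isPrime, hIb⟩, rfl⟩
  have h1 : ((nm v : ℕ) : 𝓞 K) ∈ I := by
    rw [← hv]
    exact Ideal.absNorm_mem v.asIdeal
  have h2 : (((∏ w ∈ S, nm w) : ℕ) : 𝓞 K) ∈ I := by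
    obtain ⟨m, hm⟩ := Finset.dvd_prod_of_mem nm (hcon v)
    rw [hm, Nat.cast_mul]
    exact I.mul_mem_right _ h1
  apply hI.ne_top
  rw [Ideal.eq_top_iff_one]
  have h3 : (1 : 𝓞 K) = (N : 𝓞 K) - (((∏ w ∈ S, nm w) : ℕ) : 𝓞 K) := by
    rw [hN]
    push_cast
    ring
  rw [h3]
  exact I.sub_mem hNI h2

private theorem bse_nr {K : Type} [Field K] [NumberField K] (E : Finset (Pl K)) (v : Pl K) :
    nr (insert v E) ≤ nr E * nm v := by
  have h1 := one_le_nr E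
  have h2 : (1 : ℝ) ≤ (nm v : ℝ) := by exact_mod_cast (one_lt_nm v).le
  by_cases hv : v ∈ E
  · rw [Finset.insert_eq_of_mem hv]
    nlinarith
  · have h3 : nr (insert v E) = nm v * nr E := by
      unfold nr
      exact Finset.prod_insert hv
    rw [h3, mul_comm]

/-- the cocycle on `R × ZMod 2 × ZMod 2` -/
private def bsE {R : Type} (e : R → R → ZMod 2)
    (x y : R × (Multiplicative (ZMod 2) × Multiplicative (ZMod 2))) : ZMod 2 :=
  e x.1 y.1 + Multiplicative.toAdd x.2.1 * Multiplicative.toAdd y.2.2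

private theorem bsE_coc {R : Type} [Group R] {e : R → R → ZMod 2} (he : Coc 2 e) :
    Coc 2 (bsE e) where
  l1 a := by
    unfold bsE
    rw [Prod.fst_one, he.l1, zero_add]
    change (0 : ZMod 2) * _ = 0
    rw [zero_mul]
  r1 a := by
    unfold bsE
    rw [Prod.fst_one, he.r1, zero_add]
    change _ * (0 : ZMod 2) = 0
    rw [mul_zero]
  co a b c := by
    have h1 := he.co a.1 b.1 c.1
    change e b.1 c.1 + Multiplicative.toAdd b.2.1 * Multiplicative.toAdd c.2.2 +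
      (e a.1 (b.1 * c.1) + Multiplicative.toAdd a.2.1 *
        (Multiplicative.toAdd b.2.2 + Multiplicative.toAdd c.2.2)) =
      e (a.1 * b.1) c.1 + (Multiplicative.toAdd a.2.1 + Multiplicative.toAdd b.2.1) *
        Multiplicative.toAdd c.2.2 +
      (e a.1 b.1 + Multiplicative.toAdd a.2.1 * Multiplicative.toAdd b.2.2)
    linear_combination h1

theorem bse (K : Type) [Field K] [NumberField K] : ∃ S₁ : Finset (Pl K),
    ∀ (ζ : K) (_ : IsPrimitiveRoot ζ 2) (_ : MOne 2 K) (Ω : Type) [Field Ω] [Algebra K Ω]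
      [IsAlgClosure K Ω] (D : RD0 K 2 ζ) (_ : S₁ ⊆ D.S0) (L : LDs D Ω) (Q' : DP K Ω) (k : ℕ)
      (_ : 0 < k) (_ : Zn 2 (k + 1) K), ∃ C : ℝ, 1 ≤ C ∧
      ∀ (R : Type) [Group R] [Finite R] (e : R → R → ZMod 2) (_ : Coc 2 e) (V : Subgroup R)
        [V.Normal] (_ : ∀ x ∈ V, x ^ (2 ^ k) = 1) (_ : ¬ 2 ∣ V.index) (ρ : Gal(Ω/K) →* R)
        (_ : H38.ML.FT ρ) (E : Finset (Pl K))
        (_ : ∀ v, v ∉ D.S0 → v ∉ E → ∀ τ ∈ inr L v, ρ τ = 1)
        (_ : ∀ v ∈ D.S0, Kl (pb e ρ) (dec (K := K) (Q'.P v) : Set Gal(Ω/K))),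
        ∃ (a b : Kˣ) (F : Finset (Pl K)) (m : Gal(Ω/K) → ZMod 2), Lev m ∧
          (∀ σ τ, m (σ * τ) = m σ + m τ + (pb e ρ σ τ + cu 2 ζ a b σ τ)) ∧ nr F ≤ C * nr E ∧
          ∀ v, v ∉ D.S0 → v ∉ E → v ∉ F → ∀ τ ∈ inr L v,
            kk 2 ζ a τ = 0 ∧ kk 2 ζ b τ = 0 ∧ m τ = 0 := by
  obtain ⟨S₁, C₁, hC₁, hA⟩ := thu_a K
  obtain ⟨C₂, hC₂, hT⟩ := thu K
  refine ⟨S₁, fun ζ hζ hp2 Ω _ _ _ D hS₁ L Q' k hk hz => ?_⟩
  have hp : Nat.Prime 2 := Nat.prime_two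
  obtain ⟨v₀, hv₀⟩ := bse_pl K D.S0
  obtain ⟨n, hn⟩ : ∃ n : ℕ, n = Module.finrank ℚ K := ⟨_, rfl⟩
  have hn0 : n ≠ 0 := by
    rw [hn]
    exact Module.finrank_pos.ne'
  have hnv : (1 : ℝ) ≤ (nm v₀ : ℝ) := by exact_mod_cast (one_lt_nm v₀).le
  have hC1n : (1 : ℝ) ≤ C₁ ^ n := one_le_pow₀ hC₁
  have hC : (1 : ℝ) ≤ nm v₀ * C₂ * C₁ ^ n * nm v₀ :=
    one_le_mul_of_one_le_of_one_le (one_le_mul_of_one_le_of_one_le
      (one_le_mul_of_one_le_of_one_le hnv hC₂) hC1n) hnv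
  refine ⟨nm v₀ * C₂ * C₁ ^ n * nm v₀, hC, ?_⟩
  intro R _ _ e he V _ hV hVi ρ hρ E hE hS
  obtain ⟨E', hE'⟩ : ∃ E' : Finset (Pl K), E' = (insert v₀ E) \ D.S0 := ⟨_, rfl⟩
  have hmE' : ∀ v, v ∈ E' ↔ (v = v₀ ∨ v ∈ E) ∧ v ∉ D.S0 := by
    intro v
    rw [hE', Finset.mem_sdiff, Finset.mem_insert]
  obtain ⟨a, a', haa, ha1, ha0, haσ⟩ := hA E'
  have ha1' : ∀ v, v ∈ E' → ord v a = 1 := fun v hv =>
    ha1 v (fun h => ((hmE' v).1 hv).2 (hS₁ h)) hv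
  have ha0' : ∀ v, v ∉ D.S0 → v ∉ E' → ord v a = 0 := fun v hv hv' =>
    ha0 v (fun h => hv (hS₁ h)) hv'
  have hv₀E : v₀ ∈ E' := (hmE' v₀).2 ⟨Or.inl rfl, hv₀⟩
  have hanp : ¬ IsPow 2 a := by
    rintro ⟨y, hy⟩
    have h1 := ha1' v₀ hv₀E
    rw [← hy, ord_pow] at h1
    omega
  -- the first step
  have hSd := brg_dc he hρ (fun v hv => ⟨Q'.P v, Q'.prime v, Q'.under v, qd_kl (hS v hv)⟩)
  have hra : ∀ v, v ∉ D.S0 → ∀ P : Ideal (𝓞 Ω), P.IsPrime → P.under (𝓞 K) = v.asIdeal →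
      (∀ τ ∈ P.inertia Gal(Ω/K), ρ τ = 1) ∨ ∃ τ ∈ P.inertia Gal(Ω/K), kk 2 ζ a τ ≠ 0 := by
    intro v hv P hP hPv
    have hva : ¬ Above 2 v := fun h => hv (D.above v h)
    obtain ⟨g, hg⟩ := ltr_conj (L.ld v hv).prime hP (L.ld v hv).under hPv
    by_cases hvE : v ∈ E'
    · right
      refine ⟨g * (L.ld v hv).t * g⁻¹, ?_, ?_⟩
      · intro x
        refine (hg _).2 ?_
        have h1 : g⁻¹ • ((g * (L.ld v hv).t * g⁻¹) • x - x) =
            (L.ld v hv).t • (g⁻¹ • x) - g⁻¹ • x := by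
          rw [smul_sub, mul_smul, mul_smul, inv_smul_smul]
        rw [h1]
        exact (L.ld v hv).ht (g⁻¹ • x)
      · have h0 : kk 2 ζ a g⁻¹ + kk 2 ζ a g = 0 := by
          rw [← kk_mul, inv_mul_cancel, kk_one]
        have h1 : kk 2 ζ a (g * (L.ld v hv).t * g⁻¹) = kk 2 ζ a (L.ld v hv).t := by
          rw [kk_mul, kk_mul]
          linear_combination h0
        rw [h1, ld_kk_t hp hζ hva (D.pi_self v hv) (L.ld v hv), ha1' v hvE]
        decide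
    · left
      intro τ hτ
      have hvE2 : v ∉ E := fun h => hvE ((hmE' v).2 ⟨Or.inr h, hv⟩)
      have hinr : g⁻¹ * τ * g ∈ (L.ld v hv).P.inertia Gal(Ω/K) := by
        intro x
        have h1 : (g⁻¹ * τ * g) • x - x = g⁻¹ • (τ • (g • x) - g • x) := by
          rw [smul_sub, mul_smul, mul_smul, inv_smul_smul]
        rw [h1]
        exact (hg _).1 (hτ (g • x))
      have h2 : ρ (g⁻¹ * τ * g) = 1 := by
        apply hE v hv hvE2
        rw [inr, dif_pos hv]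
        exact hinr
      rw [map_mul, map_mul, map_inv] at h2
      have h3 : ρ τ = ρ g * ((ρ g)⁻¹ * ρ τ * ρ g) * (ρ g)⁻¹ := by group
      rw [h3, h2, mul_one, mul_inv_cancel]
  obtain ⟨d, hd⟩ := klr hk hp hp2 hζ hz he hρ V hV hVi D.S0 (fun v hv => D.above v hv) hSd a hanp
    hra
  -- the second step
  have hB : ∀ v, v ∉ D.S0 ∪ E' → B 2 ζ v a d = 0 := by
    intro v hv
    rw [Finset.mem_union, not_or] at hv
    obtain ⟨hv, hvE⟩ := hv
    have hvE2 : v ∉ E := fun h => hvE ((hmE' v).2 ⟨Or.inr h, hv⟩)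
    have hva : ¬ Above 2 v := fun h => hv (D.above v h)
    obtain ⟨F, -, hF⟩ := frob_univK hp hζ hz hva (D.pi_self v hv) (L.ld v hv)
    have hr : ∀ τ ∈ (L.ld v hv).P.inertia Gal(Ω/K), ρ τ = 1 := by
      intro τ hτ
      apply hE v hv hvE2
      rw [inr, dif_pos hv]
      exact hτ
    have h1 := locK_one hk hp hζ he hρ a d hva (D.pi_self v hv) (L.ld v hv) hF
      (fun τ hτ => by rw [hr τ hτ, one_pow]) hd
    rw [hr _ (L.ld v hv).ht, iv_swap, iv_one_left he, neg_zero, zero_add] at h1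
    exact h1
  -- the third step
  have hnE : (1 : ℝ) ≤ nr E' := one_le_nr E'
  have hex : (0 : ℝ) ≤ 1 / (n : ℝ) := by positivity
  have hrp : (1 : ℝ) ≤ nr E' ^ (1 / (n : ℝ)) := Real.one_le_rpow hnE hex
  have hA1 : (1 : ℝ) ≤ C₁ * nr E' ^ (1 / (n : ℝ)) := one_le_mul_of_one_le_of_one_le hC₁ hrp
  obtain ⟨b, F', hb2, hF', htv⟩ := hT ζ hζ Ω (D.S0 ∪ E')
    (fun v hv => Finset.mem_union_left _ (D.above v hv)) a a' haa hanp
    (C₁ * nr E' ^ (1 / (n : ℝ))) hA1 (by rw [hn]; exact haσ)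
    (fun v hv => by
      rw [Finset.mem_union, not_or] at hv
      exact ha0' v hv.1 hv.2) d hB
  have hAn : (C₁ * nr E' ^ (1 / (n : ℝ))) ^ n = C₁ ^ n * nr E' := by
    rw [mul_pow, one_div, Real.rpow_inv_natCast_pow (by linarith) hn0]
  rw [← hn, hAn] at hF'
  have hnE2 : nr E' ≤ nr E * nm v₀ := by
    refine le_trans (nr_mono ?_) (bse_nr E v₀)
    rw [hE']
    exact Finset.sdiff_subset
  have hT2 : Tv (fun σ τ : Gal(Ω/K) => pb e ρ σ τ + cu 2 ζ a b σ τ) := by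
    have h1 := tv_add _ _ hd htv
    have h2 : (fun σ τ : Gal(Ω/K) => (pb e ρ σ τ + cu 2 ζ a d σ τ) +
        (cu 2 ζ a d σ τ + cu 2 ζ a b σ τ)) =
        (fun σ τ : Gal(Ω/K) => pb e ρ σ τ + cu 2 ζ a b σ τ) := by
      funext σ τ
      have h3 : cu 2 ζ a d σ τ + cu 2 ζ a d σ τ = 0 := CharTwo.add_self_eq_zero _
      linear_combination h3
    rw [h2] at h1
    exact h1
  obtain ⟨m₀, hm₀, hd₀⟩ := hT2
  -- the fourth step
  have hur : ∀ v, v ∉ D.S0 → v ∉ E ∪ insert v₀ F' → ∀ τ ∈ inr L v,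
      kk 2 ζ a τ = 0 ∧ kk 2 ζ b τ = 0 := by
    intro v hv hvE τ hτ
    rw [Finset.mem_union, not_or, Finset.mem_insert, not_or] at hvE
    obtain ⟨hvE, hvv, hvF⟩ := hvE
    have hva : ¬ Above 2 v := fun h => hv (D.above v h)
    have hvE' : v ∉ E' := by
      rw [hmE']
      rintro ⟨h | h, -⟩
      · exact hvv h
      · exact hvE h
    rw [inr, dif_pos hv] at hτ
    refine ⟨?_, ?_⟩
    · rw [ld_kk hp hζ hva (D.pi_self v hv) (L.ld v hv) τ hτ, ha0' v hv hvE', Int.cast_zero,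
        zero_mul]
    · have h1 := hb2 v (by rw [Finset.mem_union, not_or]; exact ⟨hv, hvE'⟩) hvF
      rw [ld_kk hp hζ hva (D.pi_self v hv) (L.ld v hv) τ hτ]
      have h2 : ((ord v b : ℤ) : ZMod 2) = 0 := (ZMod.intCast_zmod_eq_zero_iff_dvd _ 2).2 (by
        exact_mod_cast h1)
      rw [h2, zero_mul]
  obtain ⟨ρ', hρ'⟩ : ∃ ρ' : Gal(Ω/K) →* R × (Multiplicative (ZMod 2) × Multiplicative (ZMod 2)),
      ρ' = ρ.prod ((kc 2 ζ Ω a).prod (kc 2 ζ Ω b)) := ⟨_, rfl⟩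
  have hft : H38.ML.FT ρ' := by
    rw [hρ']
    exact gtame_ft_prod _ _ hρ (gtame_ft_prod _ _ (kc_is hp hζ a).1 (kc_is hp hζ b).1)
  have hfin : Finite (R × (Multiplicative (ZMod 2) × Multiplicative (ZMod 2))) := by
    have h1 : Finite (Multiplicative (ZMod 2)) := inferInstanceAs (Finite (ZMod 2))
    infer_instance
  have hpb : ∀ σ τ, pb (bsE e) ρ' σ τ = pb e ρ σ τ + cu 2 ζ a b σ τ := by
    intro σ τ
    rw [hρ']
    rfl
  obtain ⟨m, hm, hmd, hmz⟩ := madj hp hζ L (bsE_coc he) ρ' hft m₀ hm₀ (fun σ τ => by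
    rw [hpb]
    exact hd₀ σ τ) (E ∪ insert v₀ F') (fun v hv hvE τ hτ => by
      obtain ⟨h1, h2⟩ := hur v hv hvE τ hτ
      have h3 : ρ τ = 1 := hE v hv (fun h => hvE (Finset.mem_union_left _ h)) τ hτ
      rw [hρ']
      apply Prod.ext
      · exact h3
      · apply Prod.ext
        · exact Multiplicative.toAdd.injective h1
        · exact Multiplicative.toAdd.injective h2)
  refine ⟨a, b, insert v₀ F', m, hm, fun σ τ => ?_, ?_, ?_⟩
  · rw [hmd σ τ, hpb]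
  · have h1 := bse_nr F' v₀
    have h2 : nr F' * nm v₀ ≤ C₂ * (C₁ ^ n * nr E') * nm v₀ :=
      mul_le_mul_of_nonneg_right hF' (by linarith)
    have h3 : C₂ * (C₁ ^ n * nr E') * nm v₀ ≤ C₂ * (C₁ ^ n * (nr E * nm v₀)) * nm v₀ := by
      refine mul_le_mul_of_nonneg_right ?_ (by linarith)
      refine mul_le_mul_of_nonneg_left ?_ (by linarith)
      exact mul_le_mul_of_nonneg_left hnE2 (by linarith)
    have h4 : C₂ * (C₁ ^ n * (nr E * nm v₀)) * nm v₀ = nm v₀ * C₂ * C₁ ^ n * nm v₀ * nr E := by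
      ring
    linarith
  · intro v hv hvE hvF τ hτ
    have hvU : v ∉ E ∪ insert v₀ F' := by
      rw [Finset.mem_union, not_or]
      exact ⟨hvE, hvF⟩
    obtain ⟨h1, h2⟩ := hur v hv hvU τ hτ
    exact ⟨h1, h2, hmz v hv hvU τ hτ⟩

end H71.HT2
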