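import Pool.Agent.H51.HC.Defs
import Pool.Agent.H86.HT.Def
import Pool.Agent.H24.RK.Has
import Mathlib.GroupTheory.SemidirectProduct

/-!
# H71-HT2-DEFS: theorem HT for hypercentral `T` (MP_b39724_nt, stage H2, think 1829): definitions

`G` a finite group, `T = ker ph` the normal closure of the classes `cl`, a `p`-group; `H = G / T`; `P = G / N` a `p`-group, where `N` centralises `T`.
* `HQ p N G H`: `ph : G → H` surjective, `ker ph = Tc cl`, a `p`-group. `SYQ L Q' Q φ₁ Y`: as `SYH` (H51/HC/Defs.lean).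
* `HU p N G P H`: `HQ` with `pr : G → P` surjective, `ker pr` centralises `T`, a subgroup which maps onto `P` and onto `H` is `G`.
* `QLim`: the number of `SYQ L Q' Q φ₁ Y` is asymptotic to a constant times `Y (log Y)^(N-1)` (or the limit is `0`), if there is a surjective homomorphism over `ph φ₁` unramified outside `S0`.
* `QUb`: the uniform upper bound for the surjective homomorphisms to `G` with given `ph φ`, typed outside `S0` and `E`. (`S₁`: finitely many places which `S0` has to contain.)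
* `PQ L c q E Y`: the homomorphisms to `P` with `q φ` surjective, typed outside `S0` and `E`. `PUs p M P`: `PUb` for all subgroups of `P`.
* `sm eP eN`: the sum of two cocycles on `P × N`. `HZ p G P N`: a homomorphism of `G` to the extension of `P × N` by `ZMod p` with the cocycle `sm eP eN`.
-/

set_option autoImplicit false

open scoped NumberField
open IsDedekindDomain H38.ML Filter Topology
open scoped Classical

noncomputable section

namespace H71.HT2

open H63.MA H38.BB H38.BG H57.PC H57.BRA H63.BU H77.PC3 H57.CC H38.AS H77.S0T H77.FLD H77.PLF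
  H51.PF H51.F3

/-- `G` with the normal closure `ker ph` of the classes -/
structure HQ (p N : ℕ) (G H : Type) [Group G] [Group H] where
  ph : G →* H
  phs : Function.Surjective ph
  cl : CL p N G
  hT : ph.ker = Tc cl
  tp : ∀ t, ph t = 1 → ∃ k : ℕ, t ^ p ^ k = 1

/-- with the projection to `P = G / N` -/
structure HU (p N : ℕ) (G P H : Type) [Group G] [Group P] [Group H] extends HQ p N G H where
  pr : G →* P
  prs : Function.Surjective pr
  cen : ∀ n t, pr n = 1 → ph t = 1 → n * t = t * n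
  sur : ∀ S : Subgroup G, S.map pr = ⊤ → S.map ph = ⊤ → S = ⊤

section defs

variable {K : Type} [Field K] [NumberField K] {Ω : Type} [Field Ω] [Algebra K Ω]
  {p N : ℕ} {ζ : K} {G H : Type} [Group G] [Group H]

/-- the surjective homomorphisms equal to `φ₁` modulo `ker ph`, of the type of `φ₁` at `S0` -/
def SYQ {D : RD0 K p ζ} (L : LDs D Ω) (Q' : DP K Ω) (Q : HQ p N G H)
    (φ₁ : Gal(Ω/K) →* G) (Y : ℝ) : Set (Gal(Ω/K) →* G) :=
  {φ | φ ∈ SYT L Q' Q.cl Q.ph.ker φ₁ Y ∧ Q.ph.comp φ = Q.ph.comp φ₁}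

/-- the homomorphisms to `P`, surjective after `q`, typed outside `S0` and `E` -/
def PQ {D : RD0 K p ζ} (L : LDs D Ω) {P P₁ : Type} [Group P] [Group P₁] (c : CL p N P)
    (q : P →* P₁) (E : Finset (Pl K)) (Y : ℝ) : Set (Gal(Ω/K) →* P) :=
  {φ | H38.ML.FT φ ∧ Function.Surjective (q.comp φ) ∧
    (∀ v, v ∉ D.S0 → v ∉ E → (∀ τ ∈ inr L v, φ τ = 1) ∨ ∃ i, TyC c L φ i v) ∧
    ∀ T : Finset (Pl K), (∀ v ∈ T, v ∉ D.S0 ∧ v ∉ E ∧ ¬ ∀ τ ∈ inr L v, φ τ = 1) →
      ∏ v ∈ T, (nm v : ℝ) ≤ Y}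

end defs

/-- `PUb` for all subgroups -/
def PUs (p M : ℕ) (P : Type) [Group P] : Prop :=
  ∀ (J : Subgroup P) (N : ℕ) (c : CL p N J), 1 ≤ N → PUb p M c

/-- the limit for the fibres of `G → H` -/
def QLim (p M : ℕ) {N : ℕ} {G H : Type} [Group G] [Group H] (Q : HQ p N G H) : Prop :=
  ∀ (K : IntermediateField ℚ QBar) [NumberField K] (ζ : K) (_ : IsPrimitiveRoot ζ p) (z : K)
    (_ : IsPrimitiveRoot z (p ^ M)) (D : RD K p ζ) (L : LDs D.toRD0 QBar) (Q' : DP K QBar)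
    (_ : LQ L Q') (φ₁ φb : Gal(QBar/K) →* G) (_ : H38.ML.FT φ₁) (_ : H38.ML.FT φb)
    (_ : Function.Surjective φb) (_ : Q.ph.comp φ₁ = Q.ph.comp φb)
    (_ : ∀ v, v ∉ D.S0 → ∀ τ ∈ inr L v, φb τ = 1),
    (∀ Y, (SYQ L Q' Q φ₁ Y).Finite) ∧
    ∃ L₀ : ℝ, Tendsto (fun Y : ℝ => ((SYQ L Q' Q φ₁ Y).ncard : ℝ) /
      (Y * Real.log Y ^ (N - 1))) atTop (𝓝 L₀)

/-- the uniform upper bound for the fibres of `G → H` -/
def QUb (p M : ℕ) {N : ℕ} {G H : Type} [Group G] [Group H] (Q : HQ p N G H) : Prop :=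
  ∀ (K : IntermediateField ℚ QBar) [NumberField K], ∃ S₁ : Finset (Pl K),
    ∀ (ζ : K) (_ : IsPrimitiveRoot ζ p) (z : K) (_ : IsPrimitiveRoot z (p ^ M)) (D : RD K p ζ)
      (_ : S₁ ⊆ D.S0) (L : LDs D.toRD0 QBar) (η : ℝ), 0 < η →
      ∃ C : ℝ, 0 < C ∧ ∀ (E : Finset (Pl K)) (Y : ℝ) (β : Gal(QBar/K) →* H), 1 ≤ Y →
        ∀ Rs : Finset (Gal(QBar/K) →* G), (∀ φ ∈ Rs, φ ∈ PU L Q.cl E Y ∧ Q.ph.comp φ = β) →
          (Rs.card : ℝ) ≤ C * nr E ^ η * Y * (1 + Real.log Y) ^ (N - 1)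

section coc

variable {p : ℕ} {P N : Type} [Group P] [Group N]

/-- the sum of two cocycles -/
def sm (eP : P → P → ZMod p) (eN : N → N → ZMod p) (a b : P × N) : ZMod p :=
  eP a.1 b.1 + eN a.2 b.2

theorem sm_coc {eP : P → P → ZMod p} {eN : N → N → ZMod p} (hP : Coc p eP) (hN : Coc p eN) :
    Coc p (sm eP eN) where
  l1 a := by
    show eP 1 a.1 + eN 1 a.2 = 0
    rw [hP.l1, hN.l1, add_zero]
  r1 a := by
    show eP a.1 1 + eN a.2 1 = 0
    rw [hP.r1, hN.r1, add_zero]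
  co a b c := by
    show eP b.1 c.1 + eN b.2 c.2 + (eP a.1 (b.1 * c.1) + eN a.2 (b.2 * c.2)) =
      eP (a.1 * b.1) c.1 + eN (a.2 * b.2) c.2 + (eP a.1 b.1 + eN a.2 b.2)
    linear_combination hP.co a.1 b.1 c.1 + hN.co a.2 b.2 c.2

/-- a homomorphism to the extension of `P × N` by `ZMod p` with the cocycle `eP + eN` -/
structure HZ (p : ℕ) (G P N : Type) [Group G] [Group P] [Group N] where
  eP : P → P → ZMod p
  hP : Coc p eP
  eN : N → N → ZMod p
  hN : Coc p eN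
  E : G →* Xt (sm eP eN) (sm_coc hP hN)

end coc

end H71.HT2
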