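import Pool.Agent.H71.HT2.Defs

/-!
# [H71 HT2 HZC] a central product as an extension with cocycle `eP + eN` (MP_b39724_nt, think 1829)

`A = ker qn`, `B = ker pr` commute, `G = A B`, `A ∩ B = ⟨z⟩` of order `p` (central).
PROOF. `sP : P → G` with `pr (sP x) = x`, `qn (sP x) = 1`, `sP 1 = 1` (`x = pr g`, `g = a b`: take `a`); `sN : N₁ → G` with `qn (sN y) = y`, `pr (sN y) = 1`, `sN 1 = 1`. `z` commutes with everything (`z ∈ A ∩ B` and `g = a b`). `sP x * sP x' = sP (x x') * z ^ (eP x x').val`: the element `(sP (x x'))⁻¹ * sP x * sP x'` is in `A ∩ B`, so a power `z ^ k`, `eP x x' = k`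
(well defined modulo `p`: `orderOf z = p`); `eN` in the same way. `eP 1 x = 0`, the cocycle identity from associativity (compare powers of `z`). `θ : Xt (sm eP eN) → G`, `θ ⟨(x, y), t⟩ = sP x * sN y * z ^ t.val` is a homomorphism (`sP x` and `sN y` commute), bijective: injective by `pr`, `qn` and `z ^ t.val = 1 → t = 0`; surjective: `g * (sP (pr g) * sN (qn g))⁻¹ ∈ A ∩ B`. `E = θ⁻¹`
(`MulEquiv.ofBijective`, `.symm.toMonoidHom`).
-/

set_option autoImplicit false

noncomputable section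

namespace H71.HT2

open H57.BRA

section hzc

variable {p : ℕ} {G R : Type} [Group G] [Group R]

/-- the power of `z` with exponent in `ZMod p` -/
def zq (z : G) (t : ZMod p) : G := z ^ t.val

theorem zq_add [NeZero p] {z : G} (hzp : z ^ p = 1) (s t : ZMod p) :
    zq z (s + t) = zq z s * zq z t := by
  unfold zq
  rw [← pow_add, ZMod.val_add]
  conv_rhs => rw [← Nat.mod_add_div (s.val + t.val) p, pow_add, pow_mul, hzp, one_pow, mul_one]

theorem zq_zero [NeZero p] (z : G) : zq z (0 : ZMod p) = 1 := by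
  unfold zq
  rw [ZMod.val_zero, pow_zero]

theorem zq_nat [NeZero p] {z : G} (hzp : z ^ p = 1) (k : ℕ) : z ^ k = zq z (k : ZMod p) := by
  unfold zq
  rw [ZMod.val_natCast]
  conv_lhs => rw [← Nat.mod_add_div k p, pow_add, pow_mul, hzp, one_pow, mul_one]

theorem zq_inj (hp : p.Prime) {z : G} (hz : z ≠ 1) (hzp : z ^ p = 1) {t : ZMod p}
    (h : zq z t = 1) : t = 0 := by
  have : NeZero p := ⟨hp.ne_zero⟩
  have : Fact p.Prime := ⟨hp⟩
  have ho : orderOf z = p := orderOf_eq_prime hzp hz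
  have h0 : orderOf z ∣ t.val := orderOf_dvd_of_pow_eq_one h
  have h1 : p ∣ t.val := ho ▸ h0
  have h2 : t.val = 0 := Nat.eq_zero_of_dvd_of_lt h1 (ZMod.val_lt t)
  exact (ZMod.val_eq_zero t).1 h2

theorem zq_inj2 (hp : p.Prime) {z : G} (hz : z ≠ 1) (hzp : z ^ p = 1) {s t : ZMod p}
    (h : zq z s = zq z t) : s = t := by
  have : NeZero p := ⟨hp.ne_zero⟩
  have h1 : zq z s = zq z (s - t) * zq z t := by
    rw [← zq_add hzp, sub_add_cancel]
  have h2 : zq z (s - t) = 1 := by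
    rw [h] at h1
    exact (mul_eq_right (b := zq z t)).1 h1.symm
  exact sub_eq_zero.1 (zq_inj hp hz hzp h2)

/-- the cocycle of a section -/
theorem coc_of (hp : p.Prime) {z : G} (hz : z ≠ 1) (hzp : z ^ p = 1) (hcz : ∀ g, z * g = g * z)
    {s : R → G} (h1 : s 1 = 1) {e : R → R → ZMod p}
    (he : ∀ a b, s a * s b = s (a * b) * zq z (e a b)) : Coc p e := by
  have : NeZero p := ⟨hp.ne_zero⟩
  have hcq : ∀ (t : ZMod p) (g : G), zq z t * g = g * zq z t := fun t g =>
    ((show Commute z g from hcz g).pow_left t.val)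
  refine ⟨fun a => ?_, fun a => ?_, fun a b c => ?_⟩
  · have h := he 1 a
    rw [h1, one_mul, one_mul] at h
    exact zq_inj hp hz hzp (by simpa using h.symm)
  · have h := he a 1
    rw [h1, mul_one, mul_one] at h
    exact zq_inj hp hz hzp (by simpa using h.symm)
  · have h2 : s a * s b * s c = s (a * b * c) * zq z (e (a * b) c + e a b) := by
      rw [he a b, mul_assoc, hcq, ← mul_assoc, he (a * b) c, mul_assoc, ← zq_add hzp]
    have h3 : s a * (s b * s c) = s (a * b * c) * zq z (e b c + e a (b * c)) := by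
      rw [he b c, ← mul_assoc, he a (b * c), mul_assoc, ← zq_add hzp, mul_assoc a b c,
        add_comm (e a (b * c))]
    rw [mul_assoc] at h2
    rw [h2] at h3
    exact (zq_inj2 hp hz hzp (mul_left_cancel h3)).symm

end hzc

theorem hz_of {p : ℕ} (hp : p.Prime) {G P N₁ : Type} [Group G] [Group P] [Group N₁]
    (pr : G →* P) (hpr : Function.Surjective pr) (qn : G →* N₁) (hqn : Function.Surjective qn)
    (hc : ∀ a b, qn a = 1 → pr b = 1 → a * b = b * a)
    (hs : ∀ g, ∃ a b, qn a = 1 ∧ pr b = 1 ∧ g = a * b) (z : G) (hz : z ≠ 1) (hzp : z ^ p = 1)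
    (hzW : ∀ w, pr w = 1 → qn w = 1 → ∃ k : ℕ, w = z ^ k) (hz1 : pr z = 1) (hz2 : qn z = 1) :
    ∃ Z : HZ p G P N₁, (∀ g, (Z.E g).r = (pr g, qn g)) ∧ ∀ g, Z.E g = 1 → g = 1 := by
  classical
  have : NeZero p := ⟨hp.ne_zero⟩
  have hcz : ∀ g, z * g = g * z := by
    intro g
    obtain ⟨a, b, ha, hb, rfl⟩ := hs g
    rw [← mul_assoc, ← hc a z ha hz1, mul_assoc, hc z b hz2 hb, mul_assoc]
  have hcq : ∀ (t : ZMod p) (g : G), zq z t * g = g * zq z t := fun t g =>
    ((show Commute z g from hcz g).pow_left t.val)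
  have hprq : ∀ t : ZMod p, pr (zq z t) = 1 := fun t => by
    unfold zq
    rw [map_pow, hz1, one_pow]
  have hqnq : ∀ t : ZMod p, qn (zq z t) = 1 := fun t => by
    unfold zq
    rw [map_pow, hz2, one_pow]
  have hW : ∀ w, pr w = 1 → qn w = 1 → ∃ t : ZMod p, w = zq z t := by
    intro w h1 h2
    obtain ⟨k, hk⟩ := hzW w h1 h2
    exact ⟨k, hk.trans (zq_nat hzp k)⟩
  -- sections
  have hsP : ∀ x : P, ∃ g : G, pr g = x ∧ qn g = 1 ∧ (x = 1 → g = 1) := by
    intro x
    by_cases hx : x = 1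
    · exact ⟨1, by rw [map_one, hx], map_one _, fun _ => rfl⟩
    · obtain ⟨g, hg⟩ := hpr x
      obtain ⟨a, b, ha, hb, rfl⟩ := hs g
      exact ⟨a, by rw [← hg, map_mul, hb, mul_one], ha, fun h => absurd h hx⟩
  have hsN : ∀ y : N₁, ∃ g : G, qn g = y ∧ pr g = 1 ∧ (y = 1 → g = 1) := by
    intro y
    by_cases hy : y = 1
    · exact ⟨1, by rw [map_one, hy], map_one _, fun _ => rfl⟩
    · obtain ⟨g, hg⟩ := hqn y
      obtain ⟨a, b, ha, hb, rfl⟩ := hs g
      exact ⟨b, by rw [← hg, map_mul, ha, one_mul], hb, fun h => absurd h hy⟩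
  choose sP hP1 hP2 hP3 using hsP
  choose sN hN1 hN2 hN3 using hsN
  -- cocycles
  have heP : ∀ a b : P, ∃ t : ZMod p, sP a * sP b = sP (a * b) * zq z t := by
    intro a b
    obtain ⟨t, ht⟩ := hW ((sP (a * b))⁻¹ * (sP a * sP b))
      (by rw [map_mul, map_inv, map_mul, hP1, hP1, hP1, inv_mul_cancel])
      (by rw [map_mul, map_inv, map_mul, hP2, hP2, hP2, inv_one, one_mul, one_mul])
    exact ⟨t, by rw [← ht, mul_inv_cancel_left]⟩
  have heN : ∀ a b : N₁, ∃ t : ZMod p, sN a * sN b = sN (a * b) * zq z t := by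
    intro a b
    obtain ⟨t, ht⟩ := hW ((sN (a * b))⁻¹ * (sN a * sN b))
      (by rw [map_mul, map_inv, map_mul, hN2, hN2, hN2, inv_one, one_mul, one_mul])
      (by rw [map_mul, map_inv, map_mul, hN1, hN1, hN1, inv_mul_cancel])
    exact ⟨t, by rw [← ht, mul_inv_cancel_left]⟩
  choose eP heP using heP
  choose eN heN using heN
  have cP : Coc p eP := coc_of hp hz hzp hcz (hP3 1 rfl) heP
  have cN : Coc p eN := coc_of hp hz hzp hcz (hN3 1 rfl) heN
  have hcc : ∀ x y, sP x * sN y = sN y * sP x := fun x y => hc _ _ (hP2 x) (hN2 y)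
  -- the isomorphism
  let θ : Xt (sm eP eN) (sm_coc cP cN) →* G :=
    { toFun := fun w => sP w.r.1 * sN w.r.2 * zq z w.z
      map_one' := by
        show sP 1 * sN 1 * zq z (0 : ZMod p) = 1
        rw [hP3 1 rfl, hN3 1 rfl, zq_zero, mul_one, mul_one]
      map_mul' := by
        intro w w'
        show sP (w.r.1 * w'.r.1) * sN (w.r.2 * w'.r.2) *
            zq z (w.z + w'.z + (eP w.r.1 w'.r.1 + eN w.r.2 w'.r.2)) =
          sP w.r.1 * sN w.r.2 * zq z w.z * (sP w'.r.1 * sN w'.r.2 * zq z w'.z)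
        have h1 : sP w.r.1 * sN w.r.2 * zq z w.z * (sP w'.r.1 * sN w'.r.2 * zq z w'.z) =
            (sP w.r.1 * sP w'.r.1) * (sN w.r.2 * sN w'.r.2) * (zq z w.z * zq z w'.z) := by
          calc sP w.r.1 * sN w.r.2 * zq z w.z * (sP w'.r.1 * sN w'.r.2 * zq z w'.z)
              = sP w.r.1 * sN w.r.2 * (zq z w.z * (sP w'.r.1 * sN w'.r.2)) * zq z w'.z := by
                simp only [mul_assoc]
            _ = sP w.r.1 * sN w.r.2 * ((sP w'.r.1 * sN w'.r.2) * zq z w.z) * zq z w'.z := by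
                rw [hcq]
            _ = sP w.r.1 * (sN w.r.2 * sP w'.r.1) * sN w'.r.2 * (zq z w.z * zq z w'.z) := by
                simp only [mul_assoc]
            _ = sP w.r.1 * (sP w'.r.1 * sN w.r.2) * sN w'.r.2 * (zq z w.z * zq z w'.z) := by
                rw [← hcc]
            _ = _ := by simp only [mul_assoc]
        rw [h1, heP, heN, zq_add hzp, zq_add hzp, zq_add hzp]
        calc sP (w.r.1 * w'.r.1) * sN (w.r.2 * w'.r.2) *
            (zq z w.z * zq z w'.z * (zq z (eP w.r.1 w'.r.1) * zq z (eN w.r.2 w'.r.2)))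
            = sP (w.r.1 * w'.r.1) * (sN (w.r.2 * w'.r.2) *
              ((zq z w.z * zq z w'.z * zq z (eP w.r.1 w'.r.1)) * zq z (eN w.r.2 w'.r.2))) := by
              simp only [mul_assoc]
          _ = sP (w.r.1 * w'.r.1) * (sN (w.r.2 * w'.r.2) *
              ((zq z (eP w.r.1 w'.r.1) * (zq z w.z * zq z w'.z)) * zq z (eN w.r.2 w'.r.2))) := by
              rw [hcq (eP w.r.1 w'.r.1)]
          _ = sP (w.r.1 * w'.r.1) * ((sN (w.r.2 * w'.r.2) * zq z (eP w.r.1 w'.r.1)) *
              ((zq z w.z * zq z w'.z) * zq z (eN w.r.2 w'.r.2))) := by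
              simp only [mul_assoc]
          _ = sP (w.r.1 * w'.r.1) * ((zq z (eP w.r.1 w'.r.1) * sN (w.r.2 * w'.r.2)) *
              (zq z (eN w.r.2 w'.r.2) * (zq z w.z * zq z w'.z))) := by
              rw [hcq (eP w.r.1 w'.r.1), hcq (eN w.r.2 w'.r.2)]
          _ = _ := by simp only [mul_assoc] }
  have hθ : ∀ w, θ w = sP w.r.1 * sN w.r.2 * zq z w.z := fun w => rfl
  have hθP : ∀ w, pr (θ w) = w.r.1 := fun w => by
    rw [hθ, map_mul, map_mul, hP1, hN2, hprq, mul_one, mul_one]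
  have hθN : ∀ w, qn (θ w) = w.r.2 := fun w => by
    rw [hθ, map_mul, map_mul, hP2, hN1, hqnq, one_mul, mul_one]
  have hb : Function.Bijective θ := by
    constructor
    · intro w w' h
      have h1 : w.r.1 = w'.r.1 := by rw [← hθP, ← hθP, h]
      have h2 : w.r.2 = w'.r.2 := by rw [← hθN, ← hθN, h]
      have h3 : w.r = w'.r := Prod.ext h1 h2
      rw [hθ, hθ, h3] at h
      exact Xt.ext h3 (zq_inj2 hp hz hzp (mul_left_cancel h))
    · intro g
      obtain ⟨t, ht⟩ := hW ((sP (pr g) * sN (qn g))⁻¹ * g)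
        (by rw [map_mul, map_inv, map_mul, hP1, hN2, mul_one, inv_mul_cancel])
        (by rw [map_mul, map_inv, map_mul, hP2, hN1, one_mul, inv_mul_cancel])
      exact ⟨⟨(pr g, qn g), t⟩, by
        rw [hθ]
        show sP (pr g) * sN (qn g) * zq z t = g
        rw [← ht, mul_inv_cancel_left]⟩
  let Θ : Xt (sm eP eN) (sm_coc cP cN) ≃* G := MulEquiv.ofBijective θ hb
  have hΘ : ∀ g, θ (Θ.symm g) = g := fun g => Θ.apply_symm_apply g
  refine ⟨⟨eP, cP, eN, cN, Θ.symm.toMonoidHom⟩, fun g => ?_, fun g h => ?_⟩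
  · show (Θ.symm g).r = (pr g, qn g)
    refine Prod.ext ?_ ?_
    · show (Θ.symm g).r.1 = pr g
      rw [← hθP, hΘ]
    · show (Θ.symm g).r.2 = qn g
      rw [← hθN, hΘ]
  · have h' : Θ.symm g = 1 := h
    rw [← hΘ g, h', map_one]

end H71.HT2
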