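import Mathlib.GroupTheory.Transfer
import Mathlib.GroupTheory.Sylow
import Mathlib.GroupTheory.Abelianization.Defs

/-!
# [H71 HT2 TRF] transfer: central `p`-elements of a group generated by `p'`-elements (MP_b39724_nt, think 1829)

PROOF of `trf`. `φ : B →* Abelianization B`; `V = MonoidHom.transfer φ : N →* Abelianization B` (`B` of finite index). `w` is central: `V w = φ ⟨w ^ B.index, _⟩` (`MonoidHom.transfer_eq_pow`, the key hypothesis holds because `w` is central); `w ∈ B` because `w` is a central `p`-element (`⟨w⟩ B` is a `p`-group containing `B`; `Sylow.is_maximal'`, or `IsPGroup.le_sylow`-like lemmas), so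
`V w = φ ⟨w, _⟩ ^ B.index`. `V x = 1` for `x` of order prime to `p` (the target is a `p`-group), so `V = 1` on `⊤ = closure ..`. So `φ w ^ B.index = 1`, `φ w` has `p`-power order, `p ∤ B.index` (`Sylow.not_dvd_index`), so `φ w = 1`: `w ∈ commutator B` (`Abelianization.ker_of` / `QuotientGroup.eq_one_iff`).
PROOF of `comm_pair`. `W` central; the commutator `⁅a, b⁆` of `a, b ∈ B` depends only on `f a`, `f b` if `ker f` is central, and lies in `ker f` as the image of `f` is commutative; it is bimultiplicative: `⁅a b, c⁆ = ⁅a, c⁆ ⁅b, c⁆`. As `(f a)^2 = 1` the element `a^2` is central: `⁅a, b⁆^2 = 1`. If the image of `f` has at most `4` elements: let `a₀, b₀` be a pair with `⁅a₀, b₀⁆ ≠ 1` (otherwise `c = 1`), then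
`1, f a₀, f b₀, f (a₀ b₀)` are different, so they are all the values of `f`; every commutator is `1` or `⁅a₀, b₀⁆ = ⁅a₀, a₀ b₀⁆ = ..` (`⁅a₀, b₀⁆⁻¹ = ⁅a₀, b₀⁆`).
-/

set_option autoImplicit false

noncomputable section

namespace H71.HT2

open scoped commutatorElement

/-- a central `p`-element lies in every Sylow `p`-subgroup -/
private theorem mem_syl {N : Type} [Group N] [Finite N] {p : ℕ} (B : Sylow p N) (w : N)
    (hw : ∀ x, w * x = x * w) (hwp : ∃ j : ℕ, w ^ p ^ j = 1) : w ∈ (B : Subgroup N) := by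
  obtain ⟨j, hj⟩ := hwp
  have hz : (Subgroup.zpowers w).Normal := by
    constructor
    intro n hn g
    obtain ⟨k, hk⟩ := Subgroup.mem_zpowers_iff.1 hn
    have hc : Commute w g := hw g
    have : g * n * g⁻¹ = n := by
      rw [← hk]
      have h2 := (hc.zpow_left k).eq
      rw [← h2, mul_assoc, mul_inv_cancel, mul_one]
    rw [this]
    exact hn
  have hpz : IsPGroup p (Subgroup.zpowers w) := by
    rintro ⟨x, hx⟩
    obtain ⟨k, hk⟩ := Subgroup.mem_zpowers_iff.1 hx
    refine ⟨j, ?_⟩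
    ext
    simp only [Subgroup.coe_pow, Subgroup.coe_one]
    rw [← hk, ← zpow_natCast, ← zpow_mul, mul_comm, zpow_mul, zpow_natCast, hj, one_zpow]
  have hsup : IsPGroup p ((B : Subgroup N) ⊔ Subgroup.zpowers w : Subgroup N) :=
    B.isPGroup'.to_sup_of_normal_right hpz
  have heq := B.is_maximal' hsup le_sup_left
  have hle : Subgroup.zpowers w ≤ (B : Subgroup N) := by
    have h1 : Subgroup.zpowers w ≤ (B : Subgroup N) ⊔ Subgroup.zpowers w := le_sup_right
    rw [heq] at h1
    exact h1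
  exact hle (Subgroup.mem_zpowers w)

theorem trf {N : Type} [Group N] [Finite N] {p : ℕ} (hp : p.Prime)
    (hgen : Subgroup.closure {x : N | ¬ p ∣ orderOf x} = ⊤) (B : Sylow p N) (w : N)
    (hw : ∀ x, w * x = x * w) (hwp : ∃ j : ℕ, w ^ p ^ j = 1) :
    ∃ h : w ∈ (B : Subgroup N), (⟨w, h⟩ : (B : Subgroup N)) ∈ commutator (B : Subgroup N) := by
  have hB := mem_syl B w hw hwp
  refine ⟨hB, ?_⟩
  have : Fact p.Prime := ⟨hp⟩
  set V : N →* Abelianization (B : Subgroup N) :=
    MonoidHom.transfer (Abelianization.of (G := (B : Subgroup N))) with hV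
  -- elements of the target have order a power of `p`
  have htar : ∀ y : Abelianization (B : Subgroup N), ∃ k : ℕ, y ^ p ^ k = 1 := by
    intro y
    obtain ⟨b, rfl⟩ := QuotientGroup.mk_surjective y
    obtain ⟨k, hk⟩ := B.isPGroup' b
    refine ⟨k, ?_⟩
    change (Abelianization.of b) ^ p ^ k = 1
    rw [← map_pow, hk, map_one]
  have hker : V.ker = ⊤ := by
    rw [eq_top_iff, ← hgen, Subgroup.closure_le]
    intro x hx
    rw [SetLike.mem_coe, MonoidHom.mem_ker]
    obtain ⟨k, hk⟩ := htar (V x)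
    have h1 : V x ^ orderOf x = 1 := by rw [← map_pow, pow_orderOf_eq_one, map_one]
    have h2 : orderOf (V x) ∣ orderOf x := orderOf_dvd_of_pow_eq_one h1
    have h3 : orderOf (V x) ∣ p ^ k := orderOf_dvd_of_pow_eq_one hk
    have hcop : Nat.Coprime (orderOf x) (p ^ k) :=
      ((hp.coprime_iff_not_dvd.2 hx).symm).pow_right k
    have h4 : orderOf (V x) = 1 := Nat.eq_one_of_dvd_coprimes hcop h2 h3
    exact orderOf_eq_one_iff.1 h4
  have hkey : ∀ (k : ℕ) (g₀ : N), g₀⁻¹ * w ^ k * g₀ ∈ (B : Subgroup N) →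
      g₀⁻¹ * w ^ k * g₀ = w ^ k := by
    intro k g₀ _
    have hc : Commute w g₀ := hw g₀
    rw [mul_assoc, (hc.pow_left k).eq, ← mul_assoc, inv_mul_cancel, one_mul]
  have hVw : V w = 1 := by
    have : w ∈ V.ker := by rw [hker]; exact Subgroup.mem_top w
    exact this
  rw [hV, MonoidHom.transfer_eq_pow _ w hkey] at hVw
  have h5 : (Abelianization.of (⟨w, hB⟩ : (B : Subgroup N))) ^ (B : Subgroup N).index = 1 := by
    rw [← map_pow]
    exact hVw
  obtain ⟨k, hk⟩ := htar (Abelianization.of (⟨w, hB⟩ : (B : Subgroup N)))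
  have hnd : ¬ p ∣ (B : Subgroup N).index := B.not_dvd_index
  have hcop : Nat.Coprime (B : Subgroup N).index (p ^ k) :=
    ((hp.coprime_iff_not_dvd.2 hnd).symm).pow_right k
  have h6 : orderOf (Abelianization.of (⟨w, hB⟩ : (B : Subgroup N))) = 1 :=
    Nat.eq_one_of_dvd_coprimes hcop (orderOf_dvd_of_pow_eq_one h5) (orderOf_dvd_of_pow_eq_one hk)
  have h7 := orderOf_eq_one_iff.1 h6
  rw [← Abelianization.ker_of, MonoidHom.mem_ker]
  exact h7

section
variable {B V : Type} [Group B] [Group V]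

/-- in a group of exponent two the commutators are trivial -/
private theorem f_comm (f : B →* V) (hV : ∀ x : B, f x ^ 2 = 1) (a b : B) : f ⁅a, b⁆ = 1 := by
  have ha := hV a
  have hb := hV b
  have hab := hV (a * b)
  rw [pow_two] at ha hb hab
  rw [map_mul] at hab
  have ia : (f a)⁻¹ = f a := inv_eq_of_mul_eq_one_left ha
  have ib : (f b)⁻¹ = f b := inv_eq_of_mul_eq_one_left hb
  rw [commutatorElement_def, map_mul, map_mul, map_mul, map_inv, map_inv, ia, ib, mul_assoc]
  exact hab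

private theorem comm_mul (f : B →* V) (hf : ∀ x, f x = 1 → ∀ y, x * y = y * x)
    (hV : ∀ x : B, f x ^ 2 = 1) (a b c : B) : ⁅a * b, c⁆ = ⁅b, c⁆ * ⁅a, c⁆ := by
  have h1 := hf _ (f_comm f hV b c)
  have h2 : ⁅a * b, c⁆ = a * ⁅b, c⁆ * (c * a⁻¹ * c⁻¹) := by
    simp only [commutatorElement_def]
    group
  rw [h2, ← h1 a]
  simp only [commutatorElement_def]
  group

/-- the commutator depends only on the image of the first entry -/
private theorem comm_congr (f : B →* V) (hf : ∀ x, f x = 1 → ∀ y, x * y = y * x) {a a' : B} (c : B)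
    (h : f a = f a') : ⁅a, c⁆ = ⁅a', c⁆ := by
  have hz : f (a'⁻¹ * a) = 1 := by rw [map_mul, map_inv, h, inv_mul_cancel]
  have h1 := hf _ hz
  have h2 : ⁅a, c⁆ = a' * ((a'⁻¹ * a) * c) * (a'⁻¹ * a)⁻¹ * a'⁻¹ * c⁻¹ := by
    simp only [commutatorElement_def]
    group
  rw [h2, h1 c]
  simp only [commutatorElement_def]
  group

private theorem comm_congr' (f : B →* V) (hf : ∀ x, f x = 1 → ∀ y, x * y = y * x) {a a' : B} (c : B)
    (h : f a = f a') : ⁅c, a⁆ = ⁅c, a'⁆ := by
  rw [← commutatorElement_inv a c, ← commutatorElement_inv a' c, comm_congr f hf c h]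

private theorem comm_sq (f : B →* V) (hf : ∀ x, f x = 1 → ∀ y, x * y = y * x)
    (hV : ∀ x : B, f x ^ 2 = 1) (a b : B) : ⁅a, b⁆ * ⁅a, b⁆ = 1 := by
  rw [← comm_mul f hf hV]
  have h1 : f (a * a) = f 1 := by
    have := hV a
    rw [pow_two] at this
    rw [map_mul, this, map_one]
  rw [comm_congr f hf b h1]
  simp [commutatorElement_def]

private theorem comm_of_one (f : B →* V) (hf : ∀ x, f x = 1 → ∀ y, x * y = y * x) {a : B} (b : B)
    (h : f a = 1) : ⁅a, b⁆ = 1 := by
  rw [comm_congr f hf b (h.trans (map_one f).symm)]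
  simp [commutatorElement_def]

end

/-- commutators in a group which is an extension of a subgroup of the four group by a central subgroup -/
theorem comm_pair {B V : Type} [Group B] [Group V] (f : B →* V) (hf : ∀ x, f x = 1 → ∀ y, x * y = y * x)
    (hV : ∀ x : B, f x ^ 2 = 1) (hc : (Set.range f).ncard ≤ 4) (hfin : (Set.range f).Finite) :
    ∃ c : B, c ^ 2 = 1 ∧ ∀ x ∈ commutator B, x = 1 ∨ x = c := by
  classical
  by_cases hall : ∀ a b : B, ⁅a, b⁆ = 1
  · refine ⟨1, one_pow 2, ?_⟩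
    have hbot : commutator B = ⊥ := by
      rw [eq_bot_iff, commutator_def, Subgroup.commutator_le]
      intro a _ b _
      rw [hall a b]
      exact Subgroup.one_mem _
    intro x hx
    rw [hbot, Subgroup.mem_bot] at hx
    exact Or.inl hx
  push Not at hall
  obtain ⟨a₀, b₀, h0⟩ := hall
  have self : ∀ x : B, ⁅x, x⁆ = 1 := fun x => by simp
  have sq := comm_sq f hf hV a₀ b₀
  have hinv : ⁅b₀, a₀⁆ = ⁅a₀, b₀⁆ := by
    rw [← commutatorElement_inv a₀ b₀]
    exact inv_eq_of_mul_eq_one_left sq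
  -- the four values
  have n1 : f a₀ ≠ 1 := fun h => h0 (comm_of_one f hf b₀ h)
  have n2 : f b₀ ≠ 1 := fun h => by
    apply h0
    rw [← hinv]
    exact comm_of_one f hf a₀ h
  have n3 : f a₀ ≠ f b₀ := fun h => by
    apply h0
    rw [comm_congr f hf b₀ h]
    exact self b₀
  have n4 : f (a₀ * b₀) ≠ 1 := fun h => by
    apply h0
    have h1 := comm_of_one f hf b₀ h
    rw [comm_mul f hf hV, self b₀, one_mul] at h1
    exact h1
  have n5 : f (a₀ * b₀) ≠ f a₀ := fun h => by
    apply n2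
    rw [map_mul] at h
    exact mul_eq_left.1 h
  have n6 : f (a₀ * b₀) ≠ f b₀ := fun h => by
    apply n1
    rw [map_mul] at h
    exact mul_eq_right.1 h
  have hsub : ({1, f a₀, f b₀, f (a₀ * b₀)} : Set V) ⊆ Set.range f := by
    rintro y (rfl | rfl | rfl | rfl)
    · exact ⟨1, map_one f⟩
    · exact ⟨a₀, rfl⟩
    · exact ⟨b₀, rfl⟩
    · exact ⟨a₀ * b₀, rfl⟩
  have hcard : ({1, f a₀, f b₀, f (a₀ * b₀)} : Set V).ncard = 4 := by
    rw [Set.ncard_insert_of_notMem, Set.ncard_insert_of_notMem, Set.ncard_insert_of_notMem,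
      Set.ncard_singleton]
    · rw [Set.mem_singleton_iff]
      exact n6.symm
    · rw [Set.mem_insert_iff, Set.mem_singleton_iff, not_or]
      exact ⟨n3, n5.symm⟩
    · rw [Set.mem_insert_iff, Set.mem_insert_iff, Set.mem_singleton_iff, not_or, not_or]
      exact ⟨n1.symm, n2.symm, n4.symm⟩
  have heq : ({1, f a₀, f b₀, f (a₀ * b₀)} : Set V) = Set.range f :=
    Set.eq_of_subset_of_ncard_le hsub (by rw [hcard]; exact hc) hfin
  have hval : ∀ a : B, f a = f 1 ∨ f a = f a₀ ∨ f a = f b₀ ∨ f a = f (a₀ * b₀) := by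
    intro a
    have : f a ∈ ({1, f a₀, f b₀, f (a₀ * b₀)} : Set V) := by
      rw [heq]
      exact ⟨a, rfl⟩
    simpa using this
  have one_l : ∀ x : B, ⁅(1 : B), x⁆ = 1 := fun x => by simp [commutatorElement_def]
  have one_r : ∀ x : B, ⁅x, (1 : B)⁆ = 1 := fun x => by simp [commutatorElement_def]
  have e1 : ⁅a₀ * b₀, a₀⁆ = ⁅a₀, b₀⁆ := by
    rw [comm_mul f hf hV, self a₀, mul_one, hinv]
  have e2 : ⁅a₀ * b₀, b₀⁆ = ⁅a₀, b₀⁆ := by
    rw [comm_mul f hf hV, self b₀, one_mul]
  have cinv : (⁅a₀, b₀⁆)⁻¹ = ⁅a₀, b₀⁆ := inv_eq_of_mul_eq_one_left sq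
  have e3 : ⁅a₀, a₀ * b₀⁆ = ⁅a₀, b₀⁆ := by
    rw [← commutatorElement_inv (a₀ * b₀) a₀, e1, cinv]
  have e4 : ⁅b₀, a₀ * b₀⁆ = ⁅a₀, b₀⁆ := by
    rw [← commutatorElement_inv (a₀ * b₀) b₀, e2, cinv]
  have hcomm : ∀ a b : B, ⁅a, b⁆ = 1 ∨ ⁅a, b⁆ = ⁅a₀, b₀⁆ := by
    intro a b
    rcases hval a with h | h | h | h <;> rcases hval b with h' | h' | h' | h' <;>
      rw [comm_congr f hf b h, comm_congr' f hf _ h'] <;>
      simp only [one_l, one_r, self, e1, e2, e3, e4, hinv, true_or, or_true]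
  refine ⟨⁅a₀, b₀⁆, by rw [pow_two]; exact sq, ?_⟩
  have hle : commutator B ≤ Subgroup.zpowers ⁅a₀, b₀⁆ := by
    rw [commutator_def, Subgroup.commutator_le]
    intro a _ b _
    rcases hcomm a b with h | h
    · rw [h]
      exact Subgroup.one_mem _
    · rw [h]
      exact Subgroup.mem_zpowers _
  intro x hx
  obtain ⟨k, hk⟩ := Subgroup.mem_zpowers_iff.1 (hle hx)
  rcases Int.even_or_odd' k with ⟨m, hm | hm⟩
  · left
    rw [← hk, hm, zpow_mul]
    have : (⁅a₀, b₀⁆ : B) ^ (2 : ℤ) = 1 := by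
      rw [zpow_two]
      exact sq
    rw [this, one_zpow]
  · right
    rw [← hk, hm, zpow_add, zpow_mul, zpow_one]
    have : (⁅a₀, b₀⁆ : B) ^ (2 : ℤ) = 1 := by
      rw [zpow_two]
      exact sq
    rw [this, one_zpow, one_mul]

/-- an extension of a cyclic group by a central subgroup is commutative -/
theorem comm_cyc {B V : Type} [Group B] [Group V] (f : B →* V)
    (hf : ∀ x, f x = 1 → ∀ y, x * y = y * x) (hV : IsCyclic f.range) : commutator B = ⊥ := by
  have hk : f.rangeRestrict.ker ≤ Subgroup.center B := by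
    intro x hx
    rw [MonoidHom.mem_ker] at hx
    have h1 : f x = 1 := by
      have := congrArg Subtype.val hx
      simpa using this
    rw [Subgroup.mem_center_iff]
    intro g
    exact (hf x h1 g).symm
  have hcom : ∀ a b : B, a * b = b * a := fun a b =>
    (f.rangeRestrict.isMulCommutative_of_isCyclic_of_ker_le_center hk).is_comm.comm a b
  rw [eq_bot_iff, commutator_def, Subgroup.commutator_le]
  intro a _ b _
  have : ⁅a, b⁆ = 1 := commutatorElement_eq_one_iff_mul_comm.2 (hcom a b)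
  rw [this]
  exact Subgroup.one_mem _

end H71.HT2
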