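import Pool.Agent.H71.HT2.Hyp
import Pool.Agent.H71.HT2.Hzc
import Pool.Agent.H71.HT2.Trf
import Pool.Agent.H86.HS.Stm
import Mathlib.GroupTheory.SpecificGroups.Alternating.KleinFour

/-!
# [H71 HT2 DIC] the dichotomy: `ker pr ∩ T = 1`, or `p = 2` and `G` is a central product (MP_b39724_nt, think 1829, (G))

`Z = Z_j(G)` with `G / Z` trivial, `S_3` or `A_4`; `T = ker ph ≤ Z` (from `T ≤ Z_k(G)`: `ucs_le`, H86/HS/Stm.lean, as in `rbs_cond`); `N₀ = ker pr = closure {x | ¬ p ∣ orderOf x}`; `A` = the elements of `p`-power order of `Z` (`zp_sub`), `O` = those of order prime to `p` (`zo_sub`), `O ≤ N₀`; `N₀` centralises `A` (`hyp_comm`). `W = A ⊓ N₀`, central in `N₀`. Every element of `Z` is `a o`, `a ∈ A`, `o ∈ O` (powers).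
(1) `B` a Sylow `p`-subgroup of `N₀` (as a group; `N₀` is generated by its elements of order prime to `p`), `f : B → G ⧸ Z` the projection: an element of `B` in `Z` is in `A` (order), so in `W`: `ker f` is central in `B`. By `trf` `W` (its elements are central `p`-elements of `N₀`) is contained in `commutator B`.
(2) If the image of `B` in `G ⧸ Z` is cyclic, `commutator B = ⊥` (`comm_cyc`) and `W = 1`, so `T ∩ N₀ ≤ W = 1` (`T` is a `p`-group in `Z`: `Q.tp`): the first alternative. The image of `B` is a `p`-subgroup of `G ⧸ Z ≃ 1, S_3, A_4`: for `1` and `S_3` every `p`-subgroup is cyclic (the orders of the `p`-subgroups of `S_3` are `1, 2, 3`: prime or trivial); for `A_4` and `p ≠ 2` too (order `1` or `3`: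
`12 = 4 * 3`).
(3) `A_4`, `p = 2`: the image of `B` is a `2`-subgroup of `A_4`, of order `≤ 4`, its elements `x` satisfy `x ^ 2 = 1` (no elements of order `4`: `decide`): `comm_pair`: `commutator B ⊆ {1, c}`, `c ^ 2 = 1`. If `W = 1` first alternative. Otherwise `W = {1, z}`, `z ^ 2 = 1`, `z ≠ 1`.
(4) The second alternative. `Ḡ = G ⧸ O`, `P`, `N₁ = A_4`: `p̄r : Ḡ → P` (`O ≤ N₀ = ker pr`), `q̄n : Ḡ → G ⧸ Z ≃ A_4`. `hz_of` for `Ḡ`: `hc`: `a ∈ Z`, `b ∈ N₀`: `a = a₂ o`, `b a₂ = a₂ b`, and `⁅o, b⁆ ∈ O`. `hs`: `G = A N₀`: the image of `N₀` in `A_4` contains the elements of order prime to `2` of `A_4` (the `3`-cycles generate `A_4`; if `g` maps to a `3`-cycle, some power `g^(2^a m')`-type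
multiple of order prime to `2` maps to the same `3`-cycle), so `G = Z N₀ = A O N₀ = A N₀`. `hzW`: `w̄` with `pr w = 1`, `w ∈ Z`: `w = a o`, `a = w o⁻¹ ∈ N₀ ∩ A = W`, so `w̄ = ā` is a power of `z̄`. `z̄ ≠ 1`: `z ∈ A` of order `2`, not in `O`. `Z.E` composed with `G → Ḡ`: the first coordinate is `pr`, the second coordinate of `t ∈ T ≤ Z` is `1`, and `Z.E t = 1` gives `t ∈ O ∩ T = 1`.
(`HZ 2 G P A_4` from `HZ 2 Ḡ P A_4` with `E := Z̄.E.comp (QuotientGroup.mk' O)`.)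
-/

set_option autoImplicit false

open scoped Classical

noncomputable section

namespace H71.HT2

open H57.BRA

section aux

variable {G : Type} [Group G]

/-- an element as a product of powers of order a power of `p` and of order prime to `p` -/
theorem dic_spl [Finite G] {p : ℕ} (hp : p.Prime) (z : G) : ∃ k l : ℕ, z = z ^ k * z ^ l ∧
    (∃ j : ℕ, (z ^ k) ^ p ^ j = 1) ∧ ¬ p ∣ orderOf (z ^ l) := by
  obtain ⟨e, m, hm, he⟩ := Nat.exists_eq_pow_mul_and_not_dvd (orderOf_pos z).ne' p hp.ne_one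
  have hco : (p ^ e).Coprime m := Nat.Coprime.pow_left e ((hp.coprime_iff_not_dvd).2 hm)
  obtain ⟨k, hk1, hk2⟩ := Nat.chineseRemainder hco 1 0
  obtain ⟨l, hl1, hl2⟩ := Nat.chineseRemainder hco 0 1
  have hmk : m ∣ k := (Nat.modEq_zero_iff_dvd).1 hk2
  have hpl : p ^ e ∣ l := (Nat.modEq_zero_iff_dvd).1 hl1
  refine ⟨k, l, ?_, ⟨e, ?_⟩, fun h => hm ?_⟩
  · rw [← pow_add]
    have h1 : k + l ≡ 1 [MOD p ^ e] := by simpa using hk1.add hl1
    have h2 : k + l ≡ 1 [MOD m] := by simpa using hk2.add hl2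
    have h3 : k + l ≡ 1 [MOD orderOf z] := by
      rw [he]
      exact (Nat.modEq_and_modEq_iff_modEq_mul hco).1 ⟨h1, h2⟩
    conv_lhs => rw [← pow_one z]
    exact (pow_eq_pow_iff_modEq.2 h3).symm
  · rw [← pow_mul, ← orderOf_dvd_iff_pow_eq_one, he, mul_comm]
    exact Nat.mul_dvd_mul hmk dvd_rfl
  · refine h.trans (orderOf_dvd_of_pow_eq_one ?_)
    rw [← pow_mul, ← orderOf_dvd_iff_pow_eq_one, he]
    exact Nat.mul_dvd_mul hpl dvd_rfl

theorem dic_pp {p : ℕ} (hp : p.Prime) (x : G) (h1 : ∃ j : ℕ, x ^ p ^ j = 1)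
    (h2 : ¬ p ∣ orderOf x) : x = 1 := by
  obtain ⟨j, hj⟩ := h1
  obtain ⟨i, -, hi⟩ := (Nat.dvd_prime_pow hp).1 (orderOf_dvd_of_pow_eq_one hj)
  rcases Nat.eq_zero_or_pos i with h0 | h0
  · rw [h0, pow_zero] at hi
    exact orderOf_eq_one_iff.1 hi
  · exact absurd (hi ▸ dvd_pow_self p h0.ne') h2

theorem dic_cyc {p : ℕ} (hp : p.Prime) {Q : Type} [Group Q] [Finite Q] (S : Subgroup Q)
    (hS : IsPGroup p S) (hc : ¬ p ^ 2 ∣ Nat.card Q) : IsCyclic S := by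
  have : Fact p.Prime := ⟨hp⟩
  obtain ⟨n, hn⟩ := IsPGroup.iff_card.1 hS
  refine isCyclic_of_card_dvd_prime (p := p) ?_
  have h1 : n ≤ 1 := by
    by_contra h
    exact hc (((pow_dvd_pow p (by omega : 2 ≤ n)).trans (hn ▸ dvd_rfl)).trans
      (Subgroup.card_subgroup_dvd_card S))
  rw [hn]
  calc p ^ n ∣ p ^ 1 := pow_dvd_pow p h1
    _ = p := pow_one p

/-- the projection of a subgroup of `N₀` -/
def dic_f (Z : Subgroup G) [Z.Normal] (N₀ : Subgroup G) (B : Subgroup N₀) : B →* G ⧸ Z :=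
  (QuotientGroup.mk' Z).comp (N₀.subtype.comp B.subtype)

theorem dic_fc {p : ℕ} (Z : Subgroup G) [Z.Normal] (A N₀ : Subgroup G) (B : Subgroup N₀)
    (hA : ∀ x, x ∈ Z → (∃ j : ℕ, x ^ p ^ j = 1) → x ∈ A)
    (hAN : ∀ a ∈ A, ∀ n ∈ N₀, a * n = n * a) (hB : IsPGroup p B) (x : B)
    (hx : dic_f Z N₀ B x = 1) (y : B) : x * y = y * x := by
  have h1 : ((x : N₀) : G) ∈ Z := (QuotientGroup.eq_one_iff _).1 hx
  obtain ⟨j, hj⟩ := hB x
  have h2 : ((x : N₀) : G) ^ p ^ j = 1 := by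
    have := congrArg (fun b : B => ((b : N₀) : G)) hj
    simpa using this
  refine Subtype.ext (Subtype.ext ?_)
  exact hAN _ (hA _ h1 ⟨j, h2⟩) _ (y : N₀).2

theorem dic_fp {p : ℕ} (Z : Subgroup G) [Z.Normal] (N₀ : Subgroup G) (B : Subgroup N₀)
    (hB : IsPGroup p B) : IsPGroup p (dic_f Z N₀ B).range :=
  hB.of_surjective (dic_f Z N₀ B).rangeRestrict (MonoidHom.rangeRestrict_surjective _)

theorem dic_gen {p : ℕ} (N₀ : Subgroup G) (hN : N₀ = Subgroup.closure {x : G | ¬ p ∣ orderOf x}) :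
    Subgroup.closure {x : N₀ | ¬ p ∣ orderOf x} = ⊤ := by
  subst hN
  have h := Subgroup.closure_closure_coe_preimage (k := {x : G | ¬ p ∣ orderOf x})
  rw [← h]
  congr 1
  ext x
  simp only [Set.mem_ofPred_eq, Set.mem_preimage, Subgroup.orderOf_coe]

theorem dic_a4g : ∀ x : Equiv.Perm (Fin 4), Equiv.Perm.sign x = 1 → ∃ y : Equiv.Perm (Fin 4),
    Equiv.Perm.sign y = 1 ∧ y ^ 3 = 1 ∧ (y⁻¹ * x) ^ 3 = 1 := by
  decide +kernel

theorem dic_a4s : ∀ x : Equiv.Perm (Fin 4), Equiv.Perm.sign x = 1 → x ^ 4 = 1 → x ^ 2 = 1 := by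
  decide +kernel

end aux

section w

variable {G : Type} [Group G] [Finite G] {p : ℕ}

/-- the elements of `A ∩ N₀` are commutators of the Sylow subgroup of `N₀` -/
theorem dic_wc (hp : p.Prime) (A N₀ : Subgroup G)
    (hN : N₀ = Subgroup.closure {x : G | ¬ p ∣ orderOf x})
    (hA : ∀ x ∈ A, ∃ j : ℕ, x ^ p ^ j = 1)
    (hAN : ∀ a ∈ A, ∀ n ∈ N₀, a * n = n * a) (B : Sylow p N₀) (w : G) (hw : w ∈ A)
    (hwN : w ∈ N₀) : ∃ h : (⟨w, hwN⟩ : N₀) ∈ (B : Subgroup N₀),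
      (⟨⟨w, hwN⟩, h⟩ : (B : Subgroup N₀)) ∈ commutator (B : Subgroup N₀) := by
  obtain ⟨j, hj⟩ := hA w hw
  exact trf hp (dic_gen N₀ hN) B ⟨w, hwN⟩ (fun x => Subtype.ext (hAN w hw x x.2))
    ⟨j, Subtype.ext hj⟩

theorem dic_w1 (hp : p.Prime) (Z : Subgroup G) [Z.Normal] (A N₀ : Subgroup G)
    (hN : N₀ = Subgroup.closure {x : G | ¬ p ∣ orderOf x})
    (hA : ∀ x, x ∈ A ↔ x ∈ Z ∧ ∃ j : ℕ, x ^ p ^ j = 1)
    (hAN : ∀ a ∈ A, ∀ n ∈ N₀, a * n = n * a) (B : Sylow p N₀)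
    (hc : IsCyclic (dic_f Z N₀ (B : Subgroup N₀)).range) (w : G) (hw : w ∈ A)
    (hwN : w ∈ N₀) : w = 1 := by
  obtain ⟨h1, h2⟩ := dic_wc hp A N₀ hN (fun x hx => ((hA x).1 hx).2) hAN B w hw hwN
  rw [comm_cyc (dic_f Z N₀ (B : Subgroup N₀)) (dic_fc Z A N₀ _ (fun x hx hj => (hA x).2 ⟨hx, hj⟩)
    hAN B.isPGroup') hc, Subgroup.mem_bot] at h2
  exact congrArg (fun b : (B : Subgroup N₀) => ((b : N₀) : G)) h2

theorem dic_w2 (Z : Subgroup G) [Z.Normal] (A N₀ : Subgroup G)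
    (hN : N₀ = Subgroup.closure {x : G | ¬ 2 ∣ orderOf x})
    (hA : ∀ x, x ∈ A ↔ x ∈ Z ∧ ∃ j : ℕ, x ^ 2 ^ j = 1)
    (hAN : ∀ a ∈ A, ∀ n ∈ N₀, a * n = n * a) (e : G ⧸ Z ≃* alternatingGroup (Fin 4)) :
    ∃ z : G, z ^ 2 = 1 ∧ ∀ w ∈ A, w ∈ N₀ → w = 1 ∨ w = z := by
  obtain ⟨B⟩ := (inferInstance : Nonempty (Sylow 2 N₀))
  have : Fact (Nat.Prime 2) := ⟨Nat.prime_two⟩
  have hS := dic_fp Z N₀ _ B.isPGroup'
  obtain ⟨n, hn⟩ := IsPGroup.iff_card.1 hS
  have h12 : Nat.card (G ⧸ Z) = 12 := by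
    rw [Nat.card_congr e.toEquiv]
    exact alternatingGroup.card_of_card_eq_four (Nat.card_fin 4)
  have hd : 2 ^ n ∣ 12 := by
    rw [← hn, ← h12]
    exact Subgroup.card_subgroup_dvd_card _
  have hn2 : n ≤ 2 := by
    by_contra h
    have h8 : 2 ^ 3 ∣ 12 := (pow_dvd_pow 2 (by omega : 3 ≤ n)).trans hd
    norm_num at h8
  have hn4 : 2 ^ n ≤ 2 ^ 2 := Nat.pow_le_pow_right (by norm_num) hn2
  have hV : ∀ x : (B : Subgroup N₀), dic_f Z N₀ (B : Subgroup N₀) x ^ 2 = 1 := by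
    intro x
    have h1 : (⟨dic_f Z N₀ (B : Subgroup N₀) x, x, rfl⟩ : (dic_f Z N₀ (B : Subgroup N₀)).range) ^ 4
        = 1 := by
      rw [← orderOf_dvd_iff_pow_eq_one]
      refine (orderOf_dvd_natCard _).trans ?_
      rw [hn]
      exact pow_dvd_pow 2 hn2
    have h2 : (dic_f Z N₀ (B : Subgroup N₀) x) ^ 4 = 1 := congrArg Subtype.val h1
    have h3 : (e (dic_f Z N₀ (B : Subgroup N₀) x)) ^ 4 = 1 := by
      rw [← map_pow, h2, map_one]
    have h4 : (e (dic_f Z N₀ (B : Subgroup N₀) x)) ^ 2 = 1 := by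
      refine Subtype.ext (dic_a4s _ (Equiv.Perm.mem_alternatingGroup.1 (e _).2) ?_)
      exact congrArg Subtype.val h3
    rw [← map_pow] at h4
    exact (map_eq_one_iff e e.injective).1 h4
  obtain ⟨c, hc, hc2⟩ := comm_pair (dic_f Z N₀ (B : Subgroup N₀)) (dic_fc Z A N₀ _
    (fun x hx hj => (hA x).2 ⟨hx, hj⟩) hAN B.isPGroup') hV (by
      have h5 : (Set.range (dic_f Z N₀ (B : Subgroup N₀))).ncard = 2 ^ n := by
        rw [← hn, ← MonoidHom.coe_range]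
        rfl
      rw [h5]
      simpa using hn4) (Set.toFinite _)
  refine ⟨((c : N₀) : G), ?_, fun w hw hwN => ?_⟩
  · have := congrArg (fun b : (B : Subgroup N₀) => ((b : N₀) : G)) hc
    simpa using this
  · obtain ⟨h1, h2⟩ := dic_wc Nat.prime_two A N₀ hN (fun x hx => ((hA x).1 hx).2) hAN B w hw hwN
    rcases hc2 _ h2 with h | h
    · exact Or.inl (congrArg (fun b : (B : Subgroup N₀) => ((b : N₀) : G)) h)
    · exact Or.inr (congrArg (fun b : (B : Subgroup N₀) => ((b : N₀) : G)) h)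

/-- `A_4` is generated by the images of the elements of order prime to `2` -/
theorem dic_a4n (N₀ : Subgroup G) (hN : N₀ = Subgroup.closure {x : G | ¬ 2 ∣ orderOf x})
    (q : G →* alternatingGroup (Fin 4)) (hq : Function.Surjective q)
    (x : alternatingGroup (Fin 4)) : ∃ n ∈ N₀, q n = x := by
  have h3 : ∀ x : alternatingGroup (Fin 4), x ^ 3 = 1 → ∃ n ∈ N₀, q n = x := by
    intro x hx
    obtain ⟨g, hg⟩ := hq x
    obtain ⟨e, m, hm, he⟩ := Nat.exists_eq_pow_mul_and_not_dvd (orderOf_pos g).ne' 2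
      (by norm_num)
    refine ⟨g ^ 4 ^ e, ?_, ?_⟩
    · rw [hN]
      refine Subgroup.subset_closure fun h => hm (h.trans (orderOf_dvd_of_pow_eq_one ?_))
      rw [← pow_mul, ← orderOf_dvd_iff_pow_eq_one, he]
      refine Nat.mul_dvd_mul (pow_dvd_pow_of_dvd (by norm_num) e) dvd_rfl
    · rw [map_pow, hg]
      have h1 : 4 ^ e ≡ 1 [MOD 3] := by
        have h2 : 4 ≡ 1 [MOD 3] := by decide
        simpa using h2.pow e
      have h4 : 4 ^ e ≡ 1 [MOD orderOf x] := h1.of_dvd (orderOf_dvd_of_pow_eq_one hx)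
      rw [pow_eq_pow_iff_modEq.2 h4, pow_one]
  obtain ⟨y, hy, hy3, hyx⟩ := dic_a4g x.1 (Equiv.Perm.mem_alternatingGroup.1 x.2)
  obtain ⟨n₁, hn₁, h1⟩ := h3 ⟨y, Equiv.Perm.mem_alternatingGroup.2 hy⟩ (Subtype.ext hy3)
  obtain ⟨n₂, hn₂, h2⟩ := h3 (⟨y, Equiv.Perm.mem_alternatingGroup.2 hy⟩⁻¹ * x)
    (Subtype.ext hyx)
  exact ⟨n₁ * n₂, N₀.mul_mem hn₁ hn₂, by rw [map_mul, h1, h2, mul_inv_cancel_left]⟩

end w

section two

variable {G P : Type} [Group G] [Finite G] [Group P]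

/-- the central product in the case `A_4` -/
theorem dic_hz (Z : Subgroup G) [Z.Normal] (A O N₀ : Subgroup G) [O.Normal]
    (hN : N₀ = Subgroup.closure {x : G | ¬ 2 ∣ orderOf x})
    (hA : ∀ x, x ∈ A ↔ x ∈ Z ∧ ∃ j : ℕ, x ^ 2 ^ j = 1)
    (hO : ∀ x, x ∈ O ↔ x ∈ Z ∧ ¬ 2 ∣ orderOf x)
    (hAN : ∀ a ∈ A, ∀ n ∈ N₀, a * n = n * a) (e : G ⧸ Z ≃* alternatingGroup (Fin 4))
    (pr : G →* P) (hpr : Function.Surjective pr) (hk : pr.ker = N₀) (z : G) (hz : z ≠ 1)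
    (hz2 : z ^ 2 = 1) (hzA : z ∈ A) (hzN : z ∈ N₀) (hW : ∀ w ∈ A, w ∈ N₀ → w = 1 ∨ w = z) :
    ∃ Y : HZ 2 G P (alternatingGroup (Fin 4)), (∀ g, (Y.E g).r.1 = pr g) ∧
      (∀ t ∈ Z, (Y.E t).r.2 = 1) ∧ ∀ t, Y.E t = 1 → t ∈ O := by
  have hON : O ≤ N₀ := fun x hx => by
    rw [hN]
    exact Subgroup.subset_closure ((hO x).1 hx).2
  have hOZ : O ≤ Z := fun x hx => ((hO x).1 hx).1
  have hsp : ∀ x ∈ Z, ∃ a ∈ A, ∃ o ∈ O, x = a * o := by
    intro x hx
    obtain ⟨k, l, h1, h2, h3⟩ := dic_spl Nat.prime_two x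
    exact ⟨x ^ k, (hA _).2 ⟨Z.pow_mem hx k, h2⟩, x ^ l, (hO _).2 ⟨Z.pow_mem hx l, h3⟩, h1⟩
  have hpO : O ≤ pr.ker := by
    rw [hk]
    exact hON
  have hZO : O ≤ (QuotientGroup.mk' Z).ker := by
    rw [QuotientGroup.ker_mk']
    exact hOZ
  have hmk : Function.Surjective (QuotientGroup.mk' O) := QuotientGroup.mk'_surjective O
  set pb : G ⧸ O →* P := QuotientGroup.lift O pr hpO with hpb
  set qb : G ⧸ O →* alternatingGroup (Fin 4) :=
    (e : G ⧸ Z →* alternatingGroup (Fin 4)).comp (QuotientGroup.lift O (QuotientGroup.mk' Z) hZO)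
    with hqb
  have hpb1 : ∀ g, pb (QuotientGroup.mk' O g) = pr g := fun g => rfl
  have hqb1 : ∀ g, qb (QuotientGroup.mk' O g) = e (QuotientGroup.mk' Z g) := fun g => rfl
  have hqbZ : ∀ g, qb (QuotientGroup.mk' O g) = 1 ↔ g ∈ Z := by
    intro g
    rw [hqb1, map_eq_one_iff e e.injective]
    exact QuotientGroup.eq_one_iff g
  have hpbN : ∀ g, pb (QuotientGroup.mk' O g) = 1 ↔ g ∈ N₀ := by
    intro g
    rw [hpb1, ← hk, MonoidHom.mem_ker]
  have hqs : Function.Surjective qb := by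
    intro y
    obtain ⟨x, hx⟩ := e.surjective y
    obtain ⟨g, rfl⟩ := QuotientGroup.mk'_surjective Z x
    exact ⟨QuotientGroup.mk' O g, hx⟩
  obtain ⟨Y, hY1, hY2⟩ := hz_of Nat.prime_two pb (fun y => by
      obtain ⟨g, rfl⟩ := hpr y
      exact ⟨QuotientGroup.mk' O g, rfl⟩) qb hqs (fun a b ha hb => by
      obtain ⟨a, rfl⟩ := hmk a
      obtain ⟨b, rfl⟩ := hmk b
      rw [hqbZ] at ha
      rw [hpbN] at hb
      obtain ⟨a, haA, o, ho, rfl⟩ := hsp a ha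
      have h1 : QuotientGroup.mk' O o = 1 := (QuotientGroup.eq_one_iff o).2 ho
      rw [map_mul, h1, mul_one, ← map_mul, ← map_mul, hAN a haA b hb]) (fun g => by
      obtain ⟨g, rfl⟩ := hmk g
      obtain ⟨n, hn, hn2⟩ := dic_a4n N₀ hN ((e : G ⧸ Z →* alternatingGroup (Fin 4)).comp
        (QuotientGroup.mk' Z)) (e.surjective.comp (QuotientGroup.mk'_surjective Z))
        (e (QuotientGroup.mk' Z g))
      refine ⟨QuotientGroup.mk' O (g * n⁻¹), QuotientGroup.mk' O n, ?_, (hpbN n).2 hn, ?_⟩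
      · rw [hqb1, map_mul, map_mul, map_inv, map_inv]
        have h2 : e (QuotientGroup.mk' Z n) = e (QuotientGroup.mk' Z g) := hn2
        rw [h2, mul_inv_cancel]
      · rw [← map_mul, inv_mul_cancel_right]) (QuotientGroup.mk' O z) (fun h => by
      have h1 := ((hO z).1 ((QuotientGroup.eq_one_iff z).1 h)).2
      exact hz (dic_pp Nat.prime_two z ⟨1, by rw [pow_one]; exact hz2⟩ h1)) (by
      rw [← map_pow, hz2, map_one]) (fun w h1 h2 => by
      obtain ⟨w, rfl⟩ := hmk w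
      rw [hpbN] at h1
      rw [hqbZ] at h2
      obtain ⟨a, haA, o, ho, rfl⟩ := hsp w h2
      have haN : a ∈ N₀ := by
        have h3 := N₀.mul_mem h1 (N₀.inv_mem (hON ho))
        rwa [mul_inv_cancel_right] at h3
      have h4 : QuotientGroup.mk' O o = 1 := (QuotientGroup.eq_one_iff o).2 ho
      rcases hW a haA haN with rfl | rfl
      · exact ⟨0, by rw [map_mul, h4, mul_one, map_one, pow_zero]⟩
      · exact ⟨1, by rw [map_mul, h4, mul_one, pow_one]⟩) ((hpbN z).2 hzN)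
    ((hqbZ z).2 ((hA z).1 hzA).1)
  refine ⟨{ eP := Y.eP, hP := Y.hP, eN := Y.eN, hN := Y.hN
            E := Y.E.comp (QuotientGroup.mk' O) }, fun g => ?_, fun t ht => ?_, fun t ht => ?_⟩
  · show (Y.E (QuotientGroup.mk' O g)).r.1 = pr g
    rw [hY1]
    exact hpb1 g
  · show (Y.E (QuotientGroup.mk' O t)).r.2 = 1
    rw [hY1]
    exact (hqbZ t).2 ht
  · exact (QuotientGroup.eq_one_iff t).1 (hY2 _ ht)

end two

theorem dic_0 {p : ℕ} (hp : p.Prime) {G P H : Type} [Group G] [Finite G] [Group P] [Group H]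
    (ph : G →* H) (tp : ∀ t, ph t = 1 → ∃ k : ℕ, t ^ p ^ k = 1) (pr : G →* P)
    (prs : Function.Surjective pr)
    (hkp : pr.ker = Subgroup.closure {x : G | ¬ p ∣ orderOf x}) (k : ℕ)
    (hk : ph.ker ≤ Subgroup.upperCentralSeries G k) (j : ℕ)
    (hj : Subgroup.upperCentralSeries G j = ⊤ ∨
      Nonempty (G ⧸ Subgroup.upperCentralSeries G j ≃* Equiv.Perm (Fin 3)) ∨
      Nonempty (G ⧸ Subgroup.upperCentralSeries G j ≃* alternatingGroup (Fin 4))) :
    (∀ t, ph t = 1 → pr t = 1 → t = 1) ∨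
      (p = 2 ∧ ∃ Z : HZ p G P (alternatingGroup (Fin 4)), (∀ g, (Z.E g).r.1 = pr g) ∧
        (∀ t, ph t = 1 → (Z.E t).r.2 = 1) ∧ ∀ t, ph t = 1 → Z.E t = 1 → t = 1) := by
  have hT : ∀ t, ph t = 1 → t ∈ Subgroup.upperCentralSeries G j := by
    have h0 : Subgroup.upperCentralSeries G k ≤ Subgroup.upperCentralSeries G j := by
      rcases hj with h | ⟨⟨e⟩⟩ | ⟨⟨e⟩⟩
      · rw [h]
        exact le_top
      · exact H86.HS.ucs_le j (H86.HS.cen_of e H86.HS.s3_cen) k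
      · exact H86.HS.ucs_le j (H86.HS.cen_of e H86.HS.a4_cen) k
    exact fun t ht => h0 (hk ht)
  obtain ⟨A, -, hA⟩ := zp_sub (G := G) hp j
  obtain ⟨O, hOn, hO⟩ := zo_sub (G := G) hp j
  have hAN : ∀ a ∈ A, ∀ n ∈ pr.ker, a * n = n * a := by
    intro a ha n hn
    obtain ⟨h1, h2⟩ := (hA a).1 ha
    rw [hkp] at hn
    have h3 : Subgroup.closure {x : G | ¬ p ∣ orderOf x} ≤ Subgroup.centralizer {a} := by
      rw [Subgroup.closure_le]
      intro y hy
      rw [SetLike.mem_coe, Subgroup.mem_centralizer_singleton_iff]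
      exact hyp_comm hp j a y h1 h2 hy
    exact ((Subgroup.mem_centralizer_singleton_iff).1 (h3 hn)).symm
  have hcyc : (∀ S : Subgroup (G ⧸ Subgroup.upperCentralSeries G j), IsPGroup p S →
      IsCyclic S) → ∀ t, ph t = 1 → pr t = 1 → t = 1 := by
    intro hS t ht1 ht2
    obtain ⟨B⟩ := (inferInstance : Nonempty (Sylow p pr.ker))
    exact dic_w1 hp (Subgroup.upperCentralSeries G j) A pr.ker hkp hA hAN B
      (hS _ (dic_fp _ _ _ B.isPGroup')) t ((hA t).2 ⟨hT t ht1, tp t ht1⟩) ht2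
  rcases hj with h | ⟨⟨e⟩⟩ | ⟨⟨e⟩⟩
  · refine Or.inl (hcyc fun S hS => dic_cyc hp S hS fun hd => ?_)
    have h1 : Nat.card (G ⧸ Subgroup.upperCentralSeries G j) = 1 := by
      have h2 : (Subgroup.upperCentralSeries G j).index = 1 := by rw [h, Subgroup.index_top]
      exact h2
    rw [h1, Nat.dvd_one, Nat.pow_eq_one] at hd
    rcases hd with hd | hd
    · exact hp.ne_one hd
    · norm_num at hd
  · refine Or.inl (hcyc fun S hS => dic_cyc hp S hS fun hd => ?_)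
    have h1 : Nat.card (G ⧸ Subgroup.upperCentralSeries G j) = 6 := by
      rw [Nat.card_congr e.toEquiv, Nat.card_eq_fintype_card]
      decide
    rw [h1] at hd
    have h2 : p ^ 2 ≤ 6 := Nat.le_of_dvd (by norm_num) hd
    have h3 : p ≤ 2 := by
      by_contra h4
      nlinarith
    have h4 : p = 2 := le_antisymm h3 hp.two_le
    rw [h4] at hd
    norm_num at hd
  · by_cases hp2 : p = 2
    · subst hp2
      obtain ⟨z, hz2, hz⟩ := dic_w2 (Subgroup.upperCentralSeries G j) A pr.ker hkp hA hAN e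
      by_cases hW : ∀ w ∈ A, w ∈ pr.ker → w = 1
      · exact Or.inl fun t ht1 ht2 => hW t ((hA t).2 ⟨hT t ht1, tp t ht1⟩) ht2
      · push Not at hW
        obtain ⟨w, hwA, hwN, hw1⟩ := hW
        obtain rfl : w = z := (hz w hwA hwN).resolve_left hw1
        obtain ⟨Y, hY1, hY2, hY3⟩ := dic_hz (Subgroup.upperCentralSeries G j) A O pr.ker hkp hA
          hO hAN e pr prs rfl w hw1 hz2 hwA hwN hz
        refine Or.inr ⟨rfl, Y, hY1, fun t ht => hY2 t (hT t ht), fun t ht ht2 => ?_⟩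
        exact dic_pp hp t (tp t ht) ((hO t).1 (hY3 t ht2)).2
    · refine Or.inl (hcyc fun S hS => dic_cyc hp S hS fun hd => ?_)
      have h1 : Nat.card (G ⧸ Subgroup.upperCentralSeries G j) = 12 := by
        rw [Nat.card_congr e.toEquiv]
        exact alternatingGroup.card_of_card_eq_four (Nat.card_fin 4)
      rw [h1] at hd
      have h2 : p ^ 2 ≤ 12 := Nat.le_of_dvd (by norm_num) hd
      have h3 : p ≤ 3 := by
        by_contra h4
        nlinarith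
      have h4 := hp.two_le
      have h5 : p = 3 := by omega
      rw [h5] at hd
      norm_num at hd

theorem dic {p N : ℕ} (hp : p.Prime) {G P H : Type} [Group G] [Finite G] [Group P] [Group H]
    (Q : HU p N G P H) (hkp : Q.pr.ker = Subgroup.closure {x : G | ¬ p ∣ orderOf x}) (k : ℕ)
    (hk : Q.ph.ker ≤ Subgroup.upperCentralSeries G k) (j : ℕ)
    (hj : Subgroup.upperCentralSeries G j = ⊤ ∨
      Nonempty (G ⧸ Subgroup.upperCentralSeries G j ≃* Equiv.Perm (Fin 3)) ∨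
      Nonempty (G ⧸ Subgroup.upperCentralSeries G j ≃* alternatingGroup (Fin 4))) :
    (∀ t, Q.ph t = 1 → Q.pr t = 1 → t = 1) ∨
      (p = 2 ∧ ∃ Z : HZ p G P (alternatingGroup (Fin 4)), (∀ g, (Z.E g).r.1 = Q.pr g) ∧
        (∀ t, Q.ph t = 1 → (Z.E t).r.2 = 1) ∧ ∀ t, Q.ph t = 1 → Z.E t = 1 → t = 1) := by
  exact dic_0 hp Q.ph Q.tp Q.pr Q.prs hkp k hk j hj

/-- the four group in `A_4` -/
theorem a4_v : ∃ V : Subgroup (alternatingGroup (Fin 4)), V.Normal ∧ (∀ x ∈ V, x ^ 2 = 1) ∧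
    ¬ 2 ∣ V.index := by
  have h4 : Nat.card (Fin 4) = 4 := Nat.card_fin 4
  refine ⟨alternatingGroup.kleinFour (Fin 4), alternatingGroup.normal_kleinFour h4,
    fun x hx => ?_, ?_⟩
  · have h := Monoid.pow_exponent_eq_one (⟨x, hx⟩ : alternatingGroup.kleinFour (Fin 4))
    rw [alternatingGroup.exponent_kleinFour_of_card_eq_four h4] at h
    exact congrArg Subtype.val h
  · have h := (alternatingGroup.kleinFour (Fin 4)).card_mul_index
    rw [alternatingGroup.kleinFour_card_of_card_eq_four h4,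
      alternatingGroup.card_of_card_eq_four h4] at h
    omega

end H71.HT2
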