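import Pool.Agent.H71.HT2.Kga
import Pool.Agent.H71.HT2.Bse
import Pool.Agent.H71.HT2.Abs
import Pool.Agent.H77.WD.Tyf
import Pool.Agent.H51.AC2.Trn
import Pool.Agent.H96.HT2.Kpb

/-!
# [H71 HT2 KAP] the uniform upper bound for central products, `p = 2` (MP_b39724_nt, think 1829, (B))

PROOF. `S₁` from `bse K`. `MOne 2 K` from `z` (a power of `z` is a square root of `-1`, `2 ≤ k + 1 ≤ M`: `p ^ (M-2)`-th power of `z`, see `mone_of`/`prm_pow`). `Q'` from `dp_of L`. `Rα` = the finite set of representatives of `ty_fin` for `P` (`Nat.card P`, `IsPGroup 2 P`). `Eα` = the set of the `v` with `Rm L α v` (`uinr_fin`) for `α ∈ Rα`; `C₀ = ∏_{α ∈ Rα} nr Eα ≥ 1`. `C₁` from `bse`,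
`C₂` from `abs1` for `KH`, `ck`, `kq` (`ck_cen`, `hUs`) and `η`. The constant is `|Rα| * C₂ * (C₁ C₀ C₀)^η`-like (`nr (E ∪ Eα ∪ F) ≤ nr E * nr Eα * nr F`, `nr F ≤ C₁ nr (E ∪ Eα)`: use `abs1` with `η / 2`, or `η` replaced: the bound is `(C₁ C₀^2 (nr E)^2)^(η/2)`).
Given `E`, `Y`, `β`, `Rs`: `Rs` is the union over `α ∈ Rα` of the `φ` with `Teq D.S0 Q' (pr ∘ φ) α`. Fix `α` with at least one such `φ`, `φ⁰`. `φ₂ σ = (Z.E (φ⁰ σ)).r.2 = (Z.E (φ σ)).r.2` for all these `φ` (`ph (φ σ) = ph (φ⁰ σ)`, `φ σ (φ⁰ σ)⁻¹ ∈ ker ph`, `h2`). `ρ = (α, φ₂) : Γ → P × N₁`, `e = sm eP eN`. `ρ = 1` on `inr L v` for `v ∉ S0 ∪ E ∪ Eα` (`φ⁰ τ` is `1` or a power of a conjugate of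
`cl i`, in `ker ph`: `ing_inr`, `TyC`, `hq_cl`). `Kl (pb e ρ) (dec (Q'.P v))` for `v ∈ S0`: on `dec` the value of `pb e ρ` is `(Z.E (φ⁰ (σ τ))).z - ..`: `l σ = (Z.E (φ⁰ σ)).z`, `l (σ τ) = l σ + l τ + e (pr φ⁰ σ, φ₂ σ) (..)`, and `pr (φ⁰ σ) = α σ` there (`Teq`). `V' = (⊤ : Subgroup P).prod V` (normal, exponent `2^k`, index `V.index`).
`bse` gives `a, b, F, m`. `κ(φ) σ = ⟨(pr (φ σ), α σ, kc a σ, kc b σ), (Z.E (φ σ)).z - m σ⟩ : Γ → KH` is a homomorphism of finite type, injective in `φ` (`κ(φ)`, `φ₂` determine `Z.E ∘ φ`, and `ph ∘ φ = β`: `h3`). It is in `PQ L (ck ..) (kq ..) (E ∪ Eα ∪ F) Y`: `kq ∘ κ(φ) = pr ∘ φ` is surjective; outside `S0 ∪ E ∪ Eα ∪ F`, on `inr L v`: `κ(φ) τ = jj (pr (φ τ)) (Z.E (φ τ)).z` (`α τ = 1`, `kk a τ = kk b τ = 0`, `m τ = 0`),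
`kh_conj`, `jj_pow`: `φ` unramified at `v` gives `κ(φ)` unramified, `TyC Q.cl L φ i v` gives `TyC (ck ..) L κ(φ) i v`; a ramified prime of `κ(φ)` is a ramified prime of `φ`. `abs1` bounds the number of these `φ`.
-/

set_option autoImplicit false

open scoped NumberField
open IsDedekindDomain H38.ML
open scoped Classical

noncomputable section

namespace H71.HT2

open H63.MA H38.BB H38.BG H57.PC H57.BRA H63.BU H77.PC3 H57.CC H38.AS H77.S0T H77.FLD H77.PLF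
  H51.PF H51.F3

theorem kap {N M k : ℕ} {G P H N₁ : Type} [Group G] [Finite G] [Group P] [Finite P] [Group H]
    [Group N₁] [Finite N₁] (hN : 1 ≤ N) (Q : HU 2 N G P H) (hP : IsPGroup 2 P)
    (Z : HZ 2 G P N₁) (h1 : ∀ g, (Z.E g).r.1 = Q.pr g)
    (h2 : ∀ t, Q.ph t = 1 → (Z.E t).r.2 = 1) (h3 : ∀ t, Q.ph t = 1 → Z.E t = 1 → t = 1)
    (V : Subgroup N₁) (hVn : V.Normal)
    (hV : ∀ x ∈ V, x ^ (2 ^ k) = 1) (hPk : ∀ x : P, x ^ (2 ^ k) = 1) (hVi : ¬ 2 ∣ V.index)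
    (hk : 0 < k) (hM : k + 1 ≤ M) (hUs : PUs 2 M (KH Z.hP)) : QUb 2 M Q.toHQ :=
  H96.HT2.kap' hN Q hP Z h1 h2 h3 V hVn hV hPk hVi hk hM hUs

end H71.HT2
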