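import Pool.Agent.H71.HT2.Defs
import Pool.Agent.H48.MF.Ing

/-!
# [H71 HT2 QC1] the uniform upper bound if `ker pr ∩ ker ph = 1` (MP_b39724_nt, think 1829)

`cpq Q hi`: the images of the classes in `P`. PROOF. `pow`: clear. `ne`: `pr (cl i) = 1` and `ph (cl i) = 1` (`hq_cl`-like: `Q.hT`, `Subgroup.subset_normalClosure`; `Tc` is the normal closure of the classes) give `cl i = 1`. `uni`: `pr (cl i)`, `pr (cl j)` conjugate by `pr g` (`Q.prs`): `g (cl i) g⁻¹` and `cl j` have the same image under `pr` and `ph`, so they are equal (`hi` for the quotient), `Q.cl.uni`.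
`qc1`: `S₁ = ∅`, `C` from `hU`. `φ ↦ pr ∘ φ` is injective on the `φ` with `ph ∘ φ = β` (`hi` for `φ σ (φ' σ)⁻¹`), and `pr ∘ φ ∈ PU L (cpq Q hi) E Y` for `φ ∈ PU L Q.cl E Y` (`PU`: H77/.. or H51/PF; surjective, of finite type, typed outside `S0` and `E`: `TyC`; a prime ramified for `pr ∘ φ` is ramified for `φ`). `Finset.card_image_of_injOn`.
-/

set_option autoImplicit false

open scoped NumberField
open IsDedekindDomain H38.ML
open scoped Classical

noncomputable section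

namespace H71.HT2

open H63.MA H38.BB H38.BG H57.PC H57.BRA H63.BU H77.PC3 H57.CC H38.AS H77.S0T H77.FLD H77.PLF
  H51.PF H51.F3

variable {p N : ℕ} {G P H : Type} [Group G] [Group P] [Group H]

private theorem cph (Q : HU p N G P H) (i : Fin N) : Q.ph (Q.cl.g i) = 1 := by
  rw [← MonoidHom.mem_ker, Q.hT]
  exact Subgroup.subset_normalClosure ⟨i, rfl⟩

/-- the images of the classes in `P` -/
def cpq (Q : HU p N G P H) (hi : ∀ t, Q.ph t = 1 → Q.pr t = 1 → t = 1) : CL p N P where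
  g i := Q.pr (Q.cl.g i)
  pow i := by rw [← map_pow, Q.cl.pow, map_one]
  ne i := by
    intro h
    exact Q.cl.ne i (hi _ (cph Q i) h)
  uni i j h := by
    obtain ⟨c, hc⟩ := isConj_iff.1 h
    obtain ⟨g, rfl⟩ := Q.prs c
    refine Q.cl.uni i j (isConj_iff.2 ⟨g, ?_⟩)
    have h1 : g * Q.cl.g i * g⁻¹ * (Q.cl.g j)⁻¹ = 1 := by
      refine hi _ ?_ ?_
      · rw [map_mul, map_mul, map_mul, map_inv, map_inv, cph, cph, mul_one, mul_inv_cancel, inv_one,
          mul_one]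
      · rw [map_mul, map_mul, map_mul, map_inv, map_inv, hc, mul_inv_cancel]
    exact mul_inv_eq_one.1 h1

theorem qc1 {M : ℕ} (hp : p.Prime) (hN : 1 ≤ N) (Q : HU p N G P H)
    (hi : ∀ t, Q.ph t = 1 → Q.pr t = 1 → t = 1) (hU : PUb p M (cpq Q hi)) :
    QUb p M Q.toHQ := by
  have _ := hp
  have _ := hN
  intro K _
  refine ⟨∅, fun ζ hζ z hz D _ L η hη => ?_⟩
  obtain ⟨C, hC, h⟩ := hU K ζ hζ z hz D L η hη
  refine ⟨C, hC, fun E Y β hY Rs hRs => ?_⟩
  have hinj : Set.InjOn (fun φ : Gal(QBar/K) →* G => Q.pr.comp φ) Rs := by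
    intro φ hφ φ' hφ' he
    have h1 := (hRs φ hφ).2
    have h2 := (hRs φ' hφ').2
    refine MonoidHom.ext fun σ => ?_
    have h3 : φ σ * (φ' σ)⁻¹ = 1 := by
      refine hi _ ?_ ?_
      · have h4 := DFunLike.congr_fun (h1.trans h2.symm) σ
        change Q.ph (φ σ) = Q.ph (φ' σ) at h4
        rw [map_mul, map_inv, h4, mul_inv_cancel]
      · have h4 := DFunLike.congr_fun he σ
        change Q.pr (φ σ) = Q.pr (φ' σ) at h4
        rw [map_mul, map_inv, h4, mul_inv_cancel]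
    exact mul_inv_eq_one.1 h3
  have hcard : (Rs.image fun φ : Gal(QBar/K) →* G => Q.pr.comp φ).card = Rs.card :=
    Finset.card_image_of_injOn hinj
  rw [← hcard]
  refine h E Y hY _ fun ψ hψ => ?_
  obtain ⟨φ, hφ, rfl⟩ := Finset.mem_image.1 hψ
  obtain ⟨⟨hft, hs, ht, hT⟩, -⟩ := hRs φ hφ
  refine ⟨H38.ML.ft_comp Q.pr φ hft, Q.prs.comp hs, fun v hv hE => ?_, fun T hT' => hT T fun v hv =>
    ⟨(hT' v hv).1, (hT' v hv).2.1, fun h1 => (hT' v hv).2.2 fun τ hτ => ?_⟩⟩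
  · rcases ht v hv hE with h1 | ⟨i, hi1, hi2, hi3⟩
    · refine Or.inl fun τ hτ => ?_
      show Q.pr (φ τ) = 1
      rw [h1 τ hτ, map_one]
    · refine Or.inr ⟨i, hi1, Q.pr.map_isConj hi2, fun τ hτ => ?_⟩
      show Q.pr (φ τ) ^ p = 1
      rw [← map_pow, hi3 τ hτ, map_one]
  · show Q.pr (φ τ) = 1
    rw [h1 τ hτ, map_one]

end H71.HT2
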