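import Pool.Agent.H71.HT2.Fld
import Pool.Agent.H71.HT2.Dic
import Pool.Agent.H71.HT2.Kap
import Pool.Agent.H71.HT2.Qc1
import Pool.Agent.H51.HC.Fin
import Pool.Agent.H51.HC.Rbq

/-!
# H71-HT2-FIN: theorem HT for hypercentral `T`, from `APm3 p`, `APu3 p` (MP_b39724_nt, think 1829)

`T` = the subgroup generated by the elements of least index, `T ≤ Z_k(G)`.
* `hqu`: the uniform upper bound `QUb`, if `G / Z_j(G)` is `1`, `S_3` or `A_4`.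
* `fbp`: surjective homomorphisms to the fibre product of `G` and `UU Q` over `P`.
* `ht2_k`: the lower bound, `G / T` arbitrary, and the asymptotic formula, if `G / Z_j(G)` is `1`, `S_3` or `A_4`. `ht2_u`: the upper bound.
-/

set_option autoImplicit false

open scoped NumberField
open IsDedekindDomain Filter Topology H38.ML
open scoped Classical

noncomputable section

namespace H71.HT2

open H63.MA H38.BB H38.BG H57.PC H57.BRA H63.BU H77.PC3 H57.CC H38.AS H77.S0T H77.AB H77.GN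
  H77.UX H77.FLD H77.PLF H51.PF H51.NS H51.F3 H12.S3 H51.HC

/-- the condition on `G / T` -/
def CJ {n : ℕ} (G : Subgroup (Equiv.Perm (Fin n))) : Prop :=
  ∃ j : ℕ, Subgroup.upperCentralSeries G j = ⊤ ∨
    Nonempty (G ⧸ Subgroup.upperCentralSeries G j ≃* Equiv.Perm (Fin 3)) ∨
    Nonempty (G ⧸ Subgroup.upperCentralSeries G j ≃* alternatingGroup (Fin 4))

section one

variable {n p N : ℕ} {G : Subgroup (Equiv.Perm (Fin n))} {P H : Type} [Group P] [Group H]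

/-- the uniform upper bound -/
theorem hqu (hp : p.Prime) (hU : APu3 p) [Finite P] (hN : 1 ≤ N) (F : HG G p N P H) (k : ℕ)
    (hk : Subgroup.closure (Li G) ≤ Subgroup.upperCentralSeries G k) (hJ : CJ G) :
    ∃ M₀ : ℕ, ∀ M, M₀ ≤ M → QUb p M F.Q.toHQ := by
  obtain ⟨j, hj⟩ := hJ
  rcases dic hp F.Q F.kpr k (by rw [F.ker]; exact hk) j hj with hi | ⟨h2, Z, h1, h2', h3⟩
  · obtain ⟨M, -, hM⟩ := pun3 hp hU (H35.NS2.bl2_all hp) (H35.NS2.gp2_all hp) P F.pg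
    exact ⟨M, fun M' hM' => qc1 hp hN F.Q hi (pub_mono hp hM' (hM N _ hN))⟩
  · subst h2
    obtain ⟨V, hVn, hV, hVi⟩ := a4_v
    obtain ⟨κ, hκ⟩ := IsPGroup.iff_card.1 F.pg
    have : NeZero (2 : ℕ) := ⟨two_ne_zero⟩
    have hPk : ∀ x : P, x ^ (2 ^ (κ + 1)) = 1 := by
      intro x
      rw [pow_succ, pow_mul, ← hκ, pow_card_eq_one', one_pow]
    have hVk : ∀ x ∈ V, x ^ (2 ^ (κ + 1)) = 1 := by
      intro x hx
      rw [pow_succ', pow_mul, hV x hx, one_pow]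
    have hf : Finite (KH Z.hP) := kh_fin Z.hP
    obtain ⟨M₀, hM₀⟩ := pus_ex hp hU (KH Z.hP) (kh_pg hp F.pg Z.hP)
    refine ⟨M₀ + κ + 2, fun M hM => ?_⟩
    exact kap hN F.Q F.pg Z h1 h2' h3 V hVn hVk hPk hVi (Nat.succ_pos κ) (by omega)
      (hM₀ M (by omega))

/-- surjective homomorphisms to the fibre product -/
theorem fbp (F : HG G p N P H) (m : ℕ) (hm : 0 < m) :
    ∃ K₀ : IntermediateField ℚ QBar, NumberField K₀ ∧
      ∀ K : IntermediateField ℚ QBar, K₀ ≤ K → ∀ _ : NumberField K,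
        (∃ (φ₀ : Gal(QBar/K) →* G) (ψ₀ : Gal(QBar/K) →* UU F.Q), Function.Surjective φ₀ ∧ FT φ₀ ∧
          Function.Surjective ψ₀ ∧ FT ψ₀ ∧ ∀ σ, (ψ₀ σ).right = F.Q.pr (φ₀ σ)) ∧
        ∃ z : K, IsPrimitiveRoot z (Nat.card G * m) := by
  have : Finite (UU F.Q) := uu_fin F.Q
  have : NeZero m := ⟨hm.ne'⟩
  have : Finite (Multiplicative (ZMod m)) := inferInstanceAs (Finite (ZMod m))
  obtain ⟨X, hX⟩ : ∃ X : Subgroup (G × UU F.Q), X =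
      MonoidHom.eqLocus (F.Q.pr.comp (MonoidHom.fst G (UU F.Q)))
        ((SemidirectProduct.rightHom (φ := act F.Q)).comp (MonoidHom.snd G (UU F.Q))) := ⟨_, rfl⟩
  have hXm : ∀ x : G × UU F.Q, x ∈ X ↔ F.Q.pr x.1 = x.2.right := by
    intro x
    rw [hX]
    exact Iff.rfl
  obtain ⟨f, hf⟩ : ∃ f : X →* G, f = (MonoidHom.fst G (UU F.Q)).comp X.subtype := ⟨_, rfl⟩
  obtain ⟨g, hg⟩ : ∃ g : X →* UU F.Q, g = (MonoidHom.snd G (UU F.Q)).comp X.subtype := ⟨_, rfl⟩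
  have hfs : Function.Surjective f := by
    intro x
    refine ⟨⟨(x, SemidirectProduct.inr (F.Q.pr x)), (hXm _).2 rfl⟩, ?_⟩
    rw [hf]
    rfl
  have hgs : Function.Surjective g := by
    intro u
    obtain ⟨x, hx⟩ := F.Q.prs u.right
    refine ⟨⟨(x, u), (hXm _).2 hx⟩, ?_⟩
    rw [hg]
    rfl
  obtain ⟨K₀, hK₀, h0⟩ := akn (X × Multiplicative (ZMod m))
  refine ⟨K₀, hK₀, fun K hK hKn => ?_⟩
  obtain ⟨⟨ρ, hρ, E, hE, hEk⟩, ⟨z, hz⟩, -⟩ := h0 K hK hKn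
  have hft : ∀ {B : Type} [Group B] (q : X × Multiplicative (ZMod m) →* B), FT (q.comp ρ) := by
    intro B _ q
    refine ⟨E, hE, fun σ hσ => ?_⟩
    rw [MonoidHom.mem_ker, MonoidHom.comp_apply, MonoidHom.mem_ker.1 (hEk hσ), map_one]
  refine ⟨⟨(f.comp (MonoidHom.fst X _)).comp ρ, (g.comp (MonoidHom.fst X _)).comp ρ, ?_, hft _,
    ?_, hft _, fun σ => ?_⟩, ?_⟩
  · exact (hfs.comp Prod.fst_surjective).comp hρ
  · exact (hgs.comp Prod.fst_surjective).comp hρ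
  · have h1 := (hXm _).1 (ρ σ).1.2
    rw [hf, hg]
    exact h1.symm
  · obtain ⟨d, hd⟩ := Subgroup.card_dvd_of_surjective f hfs
    have h1 : Nat.card (X × Multiplicative (ZMod m)) = d * (Nat.card G * m) := by
      rw [Nat.card_prod, Nat.card_congr Multiplicative.toAdd, Nat.card_zmod, hd]
      ring
    exact ⟨z ^ d, hz.pow Nat.card_pos h1⟩

end one

/-- THEOREM HT, hypercentral `T`: the lower bound and the asymptotic formula -/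
theorem ht2_k (hA : ∀ p : ℕ, p.Prime → APm3 p) (hU : ∀ p : ℕ, p.Prime → APu3 p) (n : ℕ)
    (hn : 2 ≤ n) (G : Subgroup (Equiv.Perm (Fin n))) (hG : MulAction.IsPretransitive G (Fin n))
    (k : ℕ) (hk : Subgroup.closure (Li G) ≤ Subgroup.upperCentralSeries G k) (hC : CT G) :
    ∃ K₀ : IntermediateField ℚ (AlgebraicClosure ℚ), NumberField K₀ ∧
      ∀ K : IntermediateField ℚ (AlgebraicClosure ℚ), ∀ _ : NumberField K, K₀ ≤ K →
          (∃ c B₀ : ℝ, 0 < c ∧ ∀ B : ℝ, B₀ ≤ B →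
            ((⌈c * B ^ (1 / (Spec.indG G : ℝ)) *
              Real.log B ^ (Spec.betaAll K (AlgebraicClosure ℚ) G - 1)⌉₊ : ℕ) : ℕ∞) ≤
                Spec.nK K (AlgebraicClosure ℚ) G B) ∧ (CJ G → Asy G K) := by
  obtain ⟨p, N, P, H, iP, iH, fP, fH, hp, hN, hL, ⟨F⟩⟩ := hgfr n hn G hG k hk
  have hp0 := hp.pos
  have hfU : Finite (UU F.Q) := uu_fin F.Q
  have hpgU := uu_pg F.Q F.pg
  -- the P-level statements for `UU Q`
  obtain ⟨M₁, hM₁, hPL⟩ : ∃ M : ℕ, 2 ≤ M ∧ PLf p M (cU F.Q) := by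
    obtain ⟨M₁, hM₁, h₁⟩ := plf3 hp (hA p hp) (hU p hp) (H35.NS2.bl2_all hp)
      (H35.NS2.gp2_all hp) (UU F.Q) hpgU
    obtain ⟨M₂, hM₂, h₂⟩ := plfs hp (H35.NS2.apst2_all hp) (H35.NS2.bl2_all hp)
      (H35.NS2.gp2_all hp) (UU F.Q) hpgU
    rcases hC with hC | hC | hC
    · obtain ⟨h, h1, h2, h3⟩ := hL
      exact ⟨M₁, hM₁, h₁ N _ hN (c4_hg F (Or.inl fun h0 => hC h h1 h2 (h3.trans h0)))⟩
    · exact ⟨M₁, hM₁, h₁ N _ hN (c4_hg F (Or.inr hC))⟩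
    · exact ⟨M₂, hM₂, h₂ N _ hN (ser_hg hp F hC)⟩
  obtain ⟨M₂, hM₂⟩ := pus_ex hp (hU p hp) (UU F.Q) hpgU
  obtain ⟨M₃, hM₃⟩ : ∃ M₀ : ℕ, CJ G → ∀ M, M₀ ≤ M → QUb p M F.Q.toHQ := by
    by_cases hJ : CJ G
    · obtain ⟨M₀, h⟩ := hqu hp (hU p hp) hN F k hk hJ
      exact ⟨M₀, fun _ => h⟩
    · exact ⟨0, fun h => absurd h hJ⟩
  obtain ⟨M, hM⟩ : ∃ M, M = M₁ + M₂ + M₃ := ⟨_, rfl⟩
  have hM2 : 2 ≤ M := by omega
  have hLi : PLimT p M (cU F.Q) (Tc (cU F.Q)) := plim_mono hp (by omega) hPL.lim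
  have hPo : PPosT p M (cU F.Q) (Tc (cU F.Q)) := ppos_mono hp (by omega) hPL.pos
  have hUs : PUs p M (UU F.Q) := hM₂ M (by omega)
  obtain ⟨K₀, hK₀, h0⟩ := fbp F (p ^ M * 3) (by positivity)
  refine ⟨K₀, hK₀, fun K hKn hK => ?_⟩
  obtain ⟨⟨φ₀, ψ₀, hs, hφ₀, hs', hψ₀, hr⟩, z, hz⟩ := h0 K hK hKn
  have hm : 0 < Nat.card G * (p ^ M * 3) := by
    have : 0 < Nat.card G := Nat.card_pos
    positivity
  have hz1 : ∃ z : K, IsPrimitiveRoot z (Nat.card G) := ⟨z ^ (p ^ M * 3), hz.pow hm (by ring)⟩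
  have hzM : ∃ z : K, IsPrimitiveRoot z (p ^ M) := ⟨z ^ (Nat.card G * 3), hz.pow hm (by ring)⟩
  refine ⟨low_h hn hG hp hN F M hM2 hPo hUs φ₀ hs hφ₀ ψ₀ hs' hψ₀ hr hz1 hzM, fun hJ => ?_⟩
  obtain ⟨-, -, hmin, -, -⟩ := pidx_pos hn G hG
  have hJ' := hJ
  obtain ⟨j, hj⟩ := hJ'
  refine asy_h hn hG hp hN F M hM2 hLi hPo hUs (hM₃ hJ M (by omega)) φ₀ hs hφ₀ ψ₀ hs' hψ₀ hr hz1
    hzM 1 zero_le_one (rbq F.Q.ph F.Q.phs j ?_ hj (z ^ (Nat.card G * p ^ M))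
      (hz.pow hm (by ring))) fun g hg => ?_
  · rw [F.ker]
    refine hk.trans ?_
    rcases hj with h | ⟨⟨e⟩⟩ | ⟨⟨e⟩⟩
    · rw [h]
      exact le_top
    · exact H86.HS.ucs_le j (H86.HS.cen_of e H86.HS.s3_cen) k
    · exact H86.HS.ucs_le j (H86.HS.cen_of e H86.HS.a4_cen) k
  · have hne : g ≠ 1 := fun h => hg (by rw [h, map_one])
    have h1 : indG G ≤ ind (g : Equiv.Perm (Fin n)) := hmin g hne
    have h2 : indG G ≠ ind (g : Equiv.Perm (Fin n)) := fun h => hg (by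
      rw [← MonoidHom.mem_ker, F.ker]
      exact Subgroup.subset_closure ⟨hne, h.symm⟩)
    rw [one_mul]
    exact_mod_cast lt_of_le_of_ne h1 h2

/-- THEOREM HT, hypercentral `T`: the upper bound -/
theorem ht2_u (hU : ∀ p : ℕ, p.Prime → APu3 p) (n : ℕ)
    (hn : 2 ≤ n) (G : Subgroup (Equiv.Perm (Fin n))) (hG : MulAction.IsPretransitive G (Fin n))
    (k : ℕ) (hk : Subgroup.closure (Li G) ≤ Subgroup.upperCentralSeries G k) (hJ : CJ G) :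
    ∃ m : ℕ, 0 < m ∧ ∀ K : IntermediateField ℚ (AlgebraicClosure ℚ), ∀ _ : NumberField K,
      (∃ z : K, IsPrimitiveRoot z m) →
        ∃ C : ℝ, 0 < C ∧ ∀ B : ℝ, 3 ≤ B → Spec.nK K (AlgebraicClosure ℚ) G B ≤
          ((⌊C * (B ^ (1 / (Spec.indG G : ℝ)) *
            Real.log B ^ (Spec.betaAll K (AlgebraicClosure ℚ) G - 1))⌋₊ : ℕ) : ℕ∞) := by
  obtain ⟨p, N, P, H, iP, iH, fP, fH, hp, hN, hL, ⟨F⟩⟩ := hgfr n hn G hG k hk
  have hp0 := hp.pos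
  obtain ⟨M₀, hM₀⟩ := hqu hp (hU p hp) hN F k hk hJ
  obtain ⟨M, hM⟩ : ∃ M, M = M₀ + 2 := ⟨_, rfl⟩
  have hm : 0 < Nat.card G * (p ^ M * 3) := by
    have : 0 < Nat.card G := Nat.card_pos
    positivity
  refine ⟨_, hm, fun K hK hz => ?_⟩
  obtain ⟨z, hz⟩ := hz
  have hz1 : ∃ z : K, IsPrimitiveRoot z (Nat.card G) := ⟨z ^ (p ^ M * 3), hz.pow hm (by ring)⟩
  have hzM : ∃ z : K, IsPrimitiveRoot z (p ^ M) := ⟨z ^ (Nat.card G * 3), hz.pow hm (by ring)⟩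
  obtain ⟨-, -, hmin, -, -⟩ := pidx_pos hn G hG
  obtain ⟨j, hj⟩ := hJ
  refine upp_h hn hG hp F M (by omega) (hM₀ M (by omega)) hz1 hzM 1 zero_le_one
    (rbq F.Q.ph F.Q.phs j ?_ hj (z ^ (Nat.card G * p ^ M)) (hz.pow hm (by ring))) fun g hg => ?_
  · rw [F.ker]
    refine hk.trans ?_
    rcases hj with h | ⟨⟨e⟩⟩ | ⟨⟨e⟩⟩
    · rw [h]
      exact le_top
    · exact H86.HS.ucs_le j (H86.HS.cen_of e H86.HS.s3_cen) k
    · exact H86.HS.ucs_le j (H86.HS.cen_of e H86.HS.a4_cen) k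
  · have hne : g ≠ 1 := fun h => hg (by rw [h, map_one])
    have h1 : indG G ≤ ind (g : Equiv.Perm (Fin n)) := hmin g hne
    have h2 : indG G ≠ ind (g : Equiv.Perm (Fin n)) := fun h => hg (by
      rw [← MonoidHom.mem_ker, F.ker]
      exact Subgroup.subset_closure ⟨hne, h.symm⟩)
    rw [one_mul]
    exact_mod_cast lt_of_le_of_ne h1 h2

end H71.HT2
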