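import Pool.Agent.H71.HT2.Psi
import Pool.Agent.H71.HT2.Abs
import Pool.Agent.H51.HC.Low

/-!
# [H71 HT2 QLO] the lower bound (as `hlow`, H51/HC/Low.lean) (MP_b39724_nt, think 1829)

PROOF. `ard` for `φ₀.prod ψ₀ : Γ → G × UU Q` (finite: `uu_fin`) gives `D` with `φ₀`, `ψ₀` unramified outside `S0`, `S0` containing the primes over the order. `L`, `Q'` (`H51.AC2.dp_of`). By `cfl` it is enough to prove `LBd L Q.cl.g`. For large `X` the set `SYT L Q' (cU Q) (Tc (cU Q)) ψ₀ X` has at least `c₀ X (log X)^(N-1)` elements (`hPo`) and is finite (`pq_fin`: it is contained in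
`PQ L (cU Q) (ka Q) ∅ X`). For `ψ` in it: `(ψ σ).right = (ψ₀ σ).right = pr (φ₀ σ)` (`sep_hom`, as in ULM), `psi_ex` with `φb = φ₀`: `φ` with `psi Q φ₀ φ _ = ψ`; surjective (`hu_srj`, `ka_psi`), typed (`psi_ty`, `psi_un`). `ψ ↦ φ` is injective. The rest as in `hlow` (on the inertia groups outside `S0` the elements `φ τ` are in `T`: orders are powers of `p` by `Q.tp`, `hpI`).
-/

set_option autoImplicit false

open scoped NumberField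
open IsDedekindDomain H38.ML Filter Topology
open scoped Classical

noncomputable section

namespace H71.HT2

open H63.MA H38.BB H38.BG H57.PC H57.BRA H63.BU H77.PC3 H57.CC H38.AS H77.S0T H77.AB H77.GN
  H77.UX H77.FLD H77.PLF H51.PF H51.F3 H51.HC

section loc

variable {K' : Type} [Field K'] [NumberField K'] {Ω : Type} [Field Ω] [Algebra K' Ω]
  [IsAlgClosure K' Ω] {p N : ℕ} {ζ : K'} {G' P H : Type} [Group G'] [Group P] [Group H]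

/-- the second component is determined by the type at `S0` -/
theorem qlo_right [Finite G'] (hp : p.Prime) (hζ : IsPrimitiveRoot ζ p) (Q : HU p N G' P H)
    (hP : IsPGroup p P) {D : RD0 K' p ζ} (L : LDs D Ω) (Q' : DP K' Ω) (ψ₀ : Gal(Ω/K') →* UU Q)
    (h₀ : H38.ML.FT ψ₀) (hu : ∀ v, v ∉ D.S0 → ∀ τ ∈ inr L v, ψ₀ τ = 1) (Y : ℝ)
    (ψ : Gal(Ω/K') →* UU Q) (hψ : ψ ∈ SYT L Q' (cU Q) (Tc (cU Q)) ψ₀ Y) (σ : Gal(Ω/K')) :
    (ψ σ).right = (ψ₀ σ).right := by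
  have : Finite P := Finite.of_surjective _ Q.prs
  have : Finite (UU Q) := uu_fin Q
  obtain ⟨g1, g2, g3, g4, g5⟩ := hψ
  have hk : ∀ u : UU Q, u ∈ Tc (cU Q) → u.right = 1 := fun u hu' => by
    rw [tc_cU] at hu'
    exact MonoidHom.mem_ker.1 hu'
  have hq := sep_hom hp hζ D L Q' hP
    ((SemidirectProduct.rightHom (φ := act Q)).comp ψ₀)
    ((SemidirectProduct.rightHom (φ := act Q)).comp ψ)
    (ft_comp _ _ h₀) (ft_comp _ _ g1) ?_ ?_ ?_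
  · exact (DFunLike.congr_fun hq σ).symm
  · intro v hv τ hτ
    rw [MonoidHom.comp_apply, hu v hv τ hτ, map_one]
  · intro v hv τ hτ
    rcases g4 v hv with h | ⟨i, hi⟩
    · rw [MonoidHom.comp_apply, h τ hτ, map_one]
    · have h5 := (H48.MF.ing_inr hp hζ L hv ψ g1 fun τ' _ => uu_pg Q hP (ψ τ')).1 τ hτ
      have h6 : ψ (L.t v) ∈ Tc (cU Q) := by
        obtain ⟨c, hc⟩ := isConj_iff.1 hi.2.1.symm
        rw [← hc]
        exact (Subgroup.normalClosure_normal).conj_mem _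
          (Subgroup.subset_normalClosure (Set.mem_range_self i)) c
      exact hk _ ((Subgroup.zpowers_le.2 h6) h5)
  · intro v hv σ' hσ'
    obtain ⟨g, hg, h7⟩ := g3 v hv
    have h8 : (SemidirectProduct.rightHom (φ := act Q)) g = 1 := hk g hg
    change (SemidirectProduct.rightHom (φ := act Q)) (ψ₀ σ') =
      (SemidirectProduct.rightHom (φ := act Q)) (ψ σ')
    rw [h7 σ' hσ', map_mul, map_mul, map_inv, h8, one_mul, inv_one, mul_one]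

end loc

theorem qlo_sub {K' : Type} [Field K'] [NumberField K'] {Ω : Type} [Field Ω] [Algebra K' Ω]
    {p N : ℕ} {ζ : K'} {G' P H : Type} [Group G'] [Group P] [Group H] (Q : HU p N G' P H)
    {D : RD0 K' p ζ} (L : LDs D Ω) (Q' : DP K' Ω) (ψ₀ : Gal(Ω/K') →* UU Q) (Y : ℝ) :
    SYT L Q' (cU Q) (Tc (cU Q)) ψ₀ Y ⊆ PQ L (cU Q) (ka Q) ∅ Y := by
  rintro ψ ⟨h1, h2, -, h4, h5⟩
  exact ⟨h1, (ka_surj Q).comp h2, fun v hv _ => h4 v hv,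
    fun X hX => h5 X fun v hv => ⟨(hX v hv).1, (hX v hv).2.2⟩⟩

variable {n : ℕ} (G : Subgroup (Equiv.Perm (Fin n))) (K : IntermediateField ℚ QBar)
  [NumberField K]

theorem qlow (hn : 2 ≤ n) (hG : MulAction.IsPretransitive G (Fin n)) {p : ℕ} [NeZero p]
    (hp : p.Prime) (hp2 : MOne p K) {ζ : K} (hζ : IsPrimitiveRoot ζ p) {M : ℕ} {z₂ : K}
    (hz2 : IsPrimitiveRoot z₂ (p ^ M)) {N : ℕ} (hN : 1 ≤ N) {P H : Type} [Group P] [Group H]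
    (Q : HU p N G P H) (hP : IsPGroup p P) (hPo : PPosT p M (cU Q) (Tc (cU Q)))
    (hU : PUs p M (UU Q))
    (hI : ∀ h : G, (h ≠ 1 ∧ ind (h : Equiv.Perm (Fin n)) = indG G) ↔
      ∃ i, IsConj h (Q.cl.g i))
    (φ₀ : Gal(QBar/K) →* G) (hs : Function.Surjective φ₀) (hφ₀ : FT φ₀)
    (ψ₀ : Gal(QBar/K) →* UU Q) (hs' : Function.Surjective ψ₀) (hψ₀ : FT ψ₀)
    (hr : ∀ σ, (ψ₀ σ).right = Q.pr (φ₀ σ)) :
    ∃ c B₀ : ℝ, 0 < c ∧ ∀ B : ℝ, B₀ ≤ B →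
      ((⌈c * B ^ (1 / (indG G : ℝ)) * Real.log B ^ (N - 1)⌉₊ : ℕ) : ℕ∞) ≤
        Spec.nK K QBar G B := by
  have : Finite (UU Q) := uu_fin Q
  obtain ⟨ha, -, -, -, -⟩ := pidx_pos hn G hG
  obtain ⟨D, hD, hun⟩ := ard (Ω := QBar) hp hp2 hζ (φ₀.prod ψ₀) (ft_prod φ₀ ψ₀ hφ₀ hψ₀)
    (Nat.card G) Nat.card_pos
  obtain ⟨L⟩ := exists_LDs QBar hp hζ D.toRD0
  obtain ⟨Q', hLQ⟩ := H51.AC2.dp_of L
  have hu : ∀ v, v ∉ D.S0 → ∀ τ ∈ inr L v, φ₀ τ = 1 := fun v hv τ hτ =>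
    congrArg Prod.fst (hun L v hv τ hτ)
  have hu' : ∀ v, v ∉ D.S0 → ∀ τ ∈ inr L v, ψ₀ τ = 1 := fun v hv τ hτ =>
    congrArg Prod.snd (hun L v hv τ hτ)
  refine cfl hn G hG ha K D.toRD0 L Q.cl.g (fun h i hi => ((hI h).2 ⟨i, hi⟩).2) ?_
  obtain ⟨c₀, hc₀, hev⟩ := hPo K ζ hζ z₂ hz2 D L Q' hLQ ψ₀ hψ₀ hs' hu'
  obtain ⟨X₁, hX₁⟩ := eventually_atTop.1 hev
  refine ⟨c₀, max X₁ 3, hc₀, le_max_right _ _, fun X hX => ?_⟩
  have hfin : (SYT L Q' (cU Q) (Tc (cU Q)) ψ₀ X).Finite :=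
    (pq_fin hp hζ hz2 (uu_pg Q hP) hN (cU Q) (ka Q) (ka_cen Q) hU D L ∅ X).subset
      (qlo_sub Q L Q' ψ₀ X)
  have hex : ∀ ψ : Gal(QBar/K) →* UU Q, ψ ∈ SYT L Q' (cU Q) (Tc (cU Q)) ψ₀ X →
      ∃ (φ : Gal(QBar/K) →* G) (h : Q.ph.comp φ = Q.ph.comp φ₀), FT φ ∧
        psi Q φ₀ φ h = ψ := fun ψ hψ => psi_ex Q φ₀ hφ₀ ψ hψ.1 fun σ => by
      rw [qlo_right hp hζ Q hP L Q' ψ₀ hψ₀ hu' X ψ hψ σ, hr]
  obtain ⟨f, hf⟩ : ∃ f : (Gal(QBar/K) →* UU Q) → (Gal(QBar/K) →* G),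
      ∀ ψ ∈ SYT L Q' (cU Q) (Tc (cU Q)) ψ₀ X,
        ∃ h : Q.ph.comp (f ψ) = Q.ph.comp φ₀, FT (f ψ) ∧ psi Q φ₀ (f ψ) h = ψ := by
    have h0 : ∀ ψ : Gal(QBar/K) →* UU Q, ∃ φ : Gal(QBar/K) →* G,
        ψ ∈ SYT L Q' (cU Q) (Tc (cU Q)) ψ₀ X →
          ∃ h : Q.ph.comp φ = Q.ph.comp φ₀, FT φ ∧ psi Q φ₀ φ h = ψ := by
      intro ψ
      by_cases hψ : ψ ∈ SYT L Q' (cU Q) (Tc (cU Q)) ψ₀ X
      · obtain ⟨φ, hφ⟩ := hex ψ hψ
        exact ⟨φ, fun _ => hφ⟩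
      · exact ⟨1, fun h => absurd h hψ⟩
    exact ⟨fun ψ => (h0 ψ).choose, fun ψ => (h0 ψ).choose_spec⟩
  have hinj : Set.InjOn f hfin.toFinset := by
    intro ψ hψ ψ' hψ' he
    rw [Finset.mem_coe, Set.Finite.mem_toFinset] at hψ hψ'
    obtain ⟨h1, -, h2⟩ := hf ψ hψ
    obtain ⟨h1', -, h2'⟩ := hf ψ' hψ'
    rw [← h2, ← h2']
    simp only [he]
  refine ⟨hfin.toFinset.image f, ?_, fun φ hφ => ?_⟩
  · have h1 := hX₁ X ((le_max_left _ _).trans hX)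
    rw [Finset.card_image_of_injOn hinj, ← Set.ncard_eq_toFinset_card _ hfin, mul_assoc]
    exact h1
  · obtain ⟨ψ, hψ', rfl⟩ := Finset.mem_image.1 hφ
    have hψ : ψ ∈ SYT L Q' (cU Q) (Tc (cU Q)) ψ₀ X := (Set.Finite.mem_toFinset hfin).1 hψ'
    obtain ⟨h, hft, hps⟩ := hf ψ hψ
    obtain ⟨φ, hφe⟩ : ∃ φ, φ = f ψ := ⟨_, rfl⟩
    rw [← hφe] at h hft ⊢
    have hps' : psi Q φ₀ φ h = ψ := by
      rw [← hps]
      congr 1
    have hsur : Function.Surjective φ := by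
      refine hu_srj Q φ ?_ ?_
      · rw [← ka_psi Q φ₀ φ h, hps']
        exact (ka_surj Q).comp hψ.2.1
      · rw [h]
        exact Q.phs.comp hs
    have hty : ∀ v, v ∉ D.S0 → ∀ i, TyC Q.cl L φ i v ↔ TyC (cU Q) L ψ i v := by
      intro v hv i
      rw [← hps']
      exact psi_ty Q L φ₀ φ h v (hu v hv) i
    have hnr : ∀ v, v ∉ D.S0 → ((∀ τ ∈ inr L v, φ τ = 1) ↔ ∀ τ ∈ inr L v, ψ τ = 1) := by
      intro v hv
      rw [← hps']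
      exact psi_un Q L φ₀ φ h v (hu v hv)
    have h1 : φ ∈ PU L Q.cl ∅ X := by
      refine ⟨hft, hsur, fun v hv _ => ?_, fun S hS => ?_⟩
      · rcases hψ.2.2.2.1 v hv with h5 | ⟨i, hi⟩
        · exact Or.inl ((hnr v hv).2 h5)
        · exact Or.inr ⟨i, (hty v hv i).2 hi⟩
      · exact hψ.2.2.2.2 S fun v hv =>
          ⟨(hS v hv).1, fun h5 => (hS v hv).2.2 ((hnr v (hS v hv).1).2 h5)⟩
    -- on the inertia groups outside `S0` the orders are powers of `p`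
    have hpI : ∀ v, v ∉ D.S0 → ∀ τ ∈ inr L v, ∃ k : ℕ, φ τ ^ (p ^ k) = 1 := by
      intro v hv τ hτ
      refine Q.tp _ ?_
      have h3 := DFunLike.congr_fun h τ
      rw [MonoidHom.comp_apply, MonoidHom.comp_apply, hu v hv τ hτ, map_one] at h3
      exact h3
    refine ⟨h1.1, h1.2.1, H35.AC.nfs L ∅ φ, fun v hv => ((H35.AC.mem_nfs h1 v).1 hv).1, ?_,
      fun v hv => ?_, fun v hv hv2 => ?_⟩
    · have h2 := H35.AC.nfs_AF h1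
      rw [mem_AF] at h2
      exact h2
    · obtain ⟨h2, h3, h4⟩ := (H35.AC.mem_nfs h1 v).1 hv
      rcases h1.2.2.1 v h2 h3 with h5 | ⟨i, hi⟩
      · exact absurd (h5 _ (H35.AC.lt_mem L h2)) h4
      · exact ⟨i, φ (L.t v), hi.2.1, (H48.MF.ing_inr hp hζ L h2 φ h1.1 (hpI v h2)).1⟩
    · have h2 : φ (L.t v) = 1 := by
        by_contra h3
        exact hv2 ((H35.AC.mem_nfs h1 v).2 ⟨hv, Finset.notMem_empty v, h3⟩)
      exact (H48.MF.ing_inr hp hζ L hv φ h1.1 (hpI v hv)).2.2 h2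

end H71.HT2
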