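import Pool.Agent.H71.HT2.Hyp
import Pool.Agent.H71.HT2.Defs
import Pool.Agent.H51.HC.Fld

/-!
# [H71 HT2 HFR] the frame for `T ≤ Z_k(G)` (MP_b39724_nt, think 1829)

`HG G p N P H`: `Q : HU p N G P H`, `ker ph = T`, the classes are the classes of least index, `ker pr` = the subgroup generated by the elements of order prime to `p`.
PROOF of `hgfr`. `p` = the order of the elements of least index (`prime_of_least`, `trgh`), `T = closure (Li G)` a `p`-group (`tth_pgroup`), normal (`tt_normal`). `N₀ = closure {x | ¬ p ∣ orderOf x}`, normal (the set is stable under conjugation), `P = G ⧸ N₀` is a `p`-group: for `x : G` write `orderOf x = p^a m`, `x^(p^a) ∈ N₀`. `H = G ⧸ closure (Li G)` and the classes as in `hfrm` (H51/HC/Fld.lean; `ncl`;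
`Tc cl` = the normal closure of the range, see `hfrm`). `cen`: the `n` which commute with all `t ∈ T` form a subgroup containing the elements of order prime to `p` (`hyp_comm`). `sur`: `hsur`.
PROOF of `hsur`. `T_i = T ⊓ Z_i(G)`, normal in `G`. Claim: for all `i ≤ k` (downwards) every `y` of order prime to `p` is of the form `s t`, `s ∈ S`, `t ∈ T_i`. `i = k`: `T_k = T` and `S T = G` (`S.map ph = ⊤`). Step: `y = s t`, `t ∈ T_{i+1}`; modulo `T_i` the elements `s` and `t` commute (`⁅t, s⁆ ∈ T ⊓ Z_i`), so `y^n = s^n t^n` modulo `T_i` (induction on `n`; work in the quotient `G ⧸ T_i`), with `n = p^m`,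
`t^n = 1`: `y^(p^m) ∈ S T_i`; and `y` is a power of `y^(p^m)` (order prime to `p`; `S T_i = S ⊔ T_i` is a subgroup, `Subgroup.mem_sup_of_normal_right`). `i = 0`: `T_0 = 1`, `y ∈ S`. So `N₀ ≤ S`, and `S.map pr = ⊤` gives `S ⊔ N₀ = ⊤`.
-/

set_option autoImplicit false

open scoped Classical

noncomputable section

namespace H71.HT2

open H38.ML H38.BG H77.UX H51.PF H86.HT H77.PC3 H51.F3 H51.HC H63.MA H63.BU H77.S0T H77.GN

/-- the frame -/
structure HG {n : ℕ} (G : Subgroup (Equiv.Perm (Fin n))) (p N : ℕ) (P H : Type) [Group P]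
    [Group H] where
  Q : HU p N G P H
  pg : IsPGroup p P
  ker : Q.ph.ker = Subgroup.closure (Li G)
  cls : ∀ h : G, (h ≠ 1 ∧ ind (h : Equiv.Perm (Fin n)) = indG G) ↔ ∃ i, IsConj h (Q.cl.g i)
  kpr : Q.pr.ker = Subgroup.closure {x : G | ¬ p ∣ orderOf x}

/-- an element of order prime to `p` is a power of its `p ^ k`-th power -/
private theorem pw_pow {G : Type} [Group G] [Finite G] {p : ℕ} (hp : p.Prime) (x : G) (k : ℕ)
    (hx : ¬ p ∣ orderOf x) : ∃ m : ℕ, (x ^ p ^ k) ^ m = x :=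
  exists_pow_eq_self_of_coprime (Nat.Coprime.pow_left k ((Nat.Prime.coprime_iff_not_dvd hp).2 hx))

theorem hsur {G : Type} [Group G] [Finite G] {p : ℕ} (hp : p.Prime) (T : Subgroup G)
    (hT : T.Normal) (hTp : IsPGroup p T) (k : ℕ) (hk : T ≤ Subgroup.upperCentralSeries G k)
    (S : Subgroup G) (h1 : S ⊔ T = ⊤)
    (h2 : S ⊔ Subgroup.closure {x : G | ¬ p ∣ orderOf x} = ⊤) : S = ⊤ := by
  have key : ∀ j i : ℕ, i + j = k → ∀ y : G, ¬ p ∣ orderOf y →
      ∃ s ∈ S, ∃ t, t ∈ T ∧ t ∈ Subgroup.upperCentralSeries G i ∧ y = s * t := by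
    intro j
    induction j with
    | zero =>
      intro i hi y _
      have hy : y ∈ S ⊔ T := by
        rw [h1]
        exact Subgroup.mem_top _
      obtain ⟨s, hs, t, ht, rfl⟩ := (Subgroup.mem_sup_of_normal_right).1 hy
      refine ⟨s, hs, t, ht, ?_, rfl⟩
      have : i = k := by omega
      rw [this]
      exact hk ht
    | succ j ih =>
      intro i hi y hy
      obtain ⟨s, hs, t, htT, htZ, hyst⟩ := ih (i + 1) (by omega) y hy
      obtain ⟨A, hA⟩ : ∃ A, A = T ⊓ Subgroup.upperCentralSeries G i := ⟨_, rfl⟩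
      have hAn : A.Normal := by
        rw [hA]
        infer_instance
      obtain ⟨π, hπ⟩ : ∃ π : G →* G ⧸ A, π = QuotientGroup.mk' A := ⟨_, rfl⟩
      have hker : ∀ x, π x = 1 ↔ x ∈ A := by
        intro x
        rw [hπ]
        exact QuotientGroup.eq_one_iff x
      have hcA : t * s * t⁻¹ * s⁻¹ ∈ A := by
        rw [hA]
        refine ⟨?_, ?_⟩
        · have h3 : t * s * t⁻¹ * s⁻¹ = t * (s * t⁻¹ * s⁻¹) := by group
          rw [h3]
          exact T.mul_mem htT (hT.conj_mem _ (T.inv_mem htT) s)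
        · have h3 := Subgroup.mem_upperCentralSeries_succ_iff.1 htZ s
          rwa [commutatorElement_def] at h3
      have hcm : Commute (π s) (π t) := by
        have h3 := (hker _).2 hcA
        rw [map_mul, map_mul, map_mul, map_inv, map_inv] at h3
        have h4 : π t * π s = π s * π t := by
          calc π t * π s = (π t * π s * (π t)⁻¹ * (π s)⁻¹) * (π s * π t) := by group
            _ = π s * π t := by rw [h3, one_mul]
        exact h4.symm
      obtain ⟨m, hm⟩ := hTp ⟨t, htT⟩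
      have hm' : t ^ p ^ m = 1 := by
        have h3 := congrArg Subtype.val hm
        simpa using h3
      obtain ⟨r, hr⟩ := pw_pow hp y m hy
      have h5 : π y = π ((s ^ p ^ m) ^ r) := by
        rw [← hr, map_pow, map_pow, map_pow, map_pow]
        congr 1
        rw [hyst, map_mul, hcm.mul_pow, ← map_pow π t, hm', map_one, mul_one]
      refine ⟨(s ^ p ^ m) ^ r, S.pow_mem (S.pow_mem hs _) _, ((s ^ p ^ m) ^ r)⁻¹ * y, ?_⟩
      have h6 : ((s ^ p ^ m) ^ r)⁻¹ * y ∈ A := by
        rw [← hker, map_mul, map_inv, h5, inv_mul_cancel]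
      rw [hA] at h6
      exact ⟨h6.1, h6.2, by rw [mul_inv_cancel_left]⟩
  have hN : Subgroup.closure {x : G | ¬ p ∣ orderOf x} ≤ S := by
    rw [Subgroup.closure_le]
    intro y hy
    obtain ⟨s, hs, t, _, ht, hyst⟩ := key k 0 (by omega) y hy
    rw [Subgroup.upperCentralSeries_zero, Subgroup.mem_bot] at ht
    rw [hyst, ht, mul_one]
    exact hs
  rw [sup_of_le_left hN] at h2
  exact h2

/-- the subgroup generated by the elements of order prime to `p` is normal -/
private theorem clo_normal {G : Type} [Group G] (p : ℕ) :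
    (Subgroup.closure {x : G | ¬ p ∣ orderOf x}).Normal := by
  have h1 : {x : G | ¬ p ∣ orderOf x} = Group.conjugatesOfSet {x : G | ¬ p ∣ orderOf x} := by
    refine Set.Subset.antisymm Group.subset_conjugatesOfSet fun x hx => ?_
    obtain ⟨g, hg, hgx⟩ := Group.mem_conjugatesOfSet_iff.1 hx
    obtain ⟨c, rfl⟩ := isConj_iff.1 hgx
    show ¬ p ∣ orderOf (c * g * c⁻¹)
    have h2 : orderOf (c * g * c⁻¹) = orderOf g := (MulAut.conj c).orderOf_eq g
    rw [h2]
    exact hg
  have h2 : Subgroup.closure {x : G | ¬ p ∣ orderOf x} =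
      Subgroup.normalClosure {x : G | ¬ p ∣ orderOf x} := by
    unfold Subgroup.normalClosure
    rw [← h1]
  rw [h2]
  exact Subgroup.normalClosure_normal

/-- the quotient is a `p`-group -/
private theorem pw_mem {G : Type} [Group G] [Finite G] {p : ℕ} (hp : p.Prime) (x : G) :
    ∃ j : ℕ, x ^ p ^ j ∈ Subgroup.closure {x : G | ¬ p ∣ orderOf x} := by
  obtain ⟨a, m, hm, hx⟩ := Nat.exists_eq_pow_mul_and_not_dvd (orderOf_pos x).ne' p hp.ne_one
  refine ⟨a, Subgroup.subset_closure ?_⟩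
  show ¬ p ∣ orderOf (x ^ p ^ a)
  have h1 : orderOf (x ^ p ^ a) = m := by
    rw [orderOf_pow, hx, Nat.gcd_eq_right (Dvd.intro m rfl),
      Nat.mul_div_cancel_left m (pow_pos hp.pos a)]
  rw [h1]
  exact hm

/-- a subgroup which maps onto `G / ker` -/
private theorem sup_of_map {G H : Type} [Group G] [Group H] {f : G →* H} {T S : Subgroup G}
    (hT : f.ker = T) (h : S.map f = ⊤) : S ⊔ T = ⊤ := by
  refine (Subgroup.eq_top_iff' _).2 fun x => ?_
  have h4 : f x ∈ S.map f := by
    rw [h]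
    exact Subgroup.mem_top _
  obtain ⟨s, hs, h5⟩ := h4
  have h6 : s⁻¹ * x ∈ T := by
    rw [← hT, MonoidHom.mem_ker, map_mul, map_inv, h5, inv_mul_cancel]
  have h7 := (S ⊔ T).mul_mem (Subgroup.mem_sup_left hs) (Subgroup.mem_sup_right h6)
  rwa [mul_inv_cancel_left] at h7

theorem hgfr (n : ℕ) (hn : 2 ≤ n) (G : Subgroup (Equiv.Perm (Fin n)))
    (hG : MulAction.IsPretransitive G (Fin n)) (k : ℕ)
    (hk : Subgroup.closure (Li G) ≤ Subgroup.upperCentralSeries G k) :
    ∃ (p N : ℕ) (P H : Type) (_ : Group P) (_ : Group H) (_ : Finite P) (_ : Finite H),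
      p.Prime ∧ 1 ≤ N ∧
      (∃ h : G, h ≠ 1 ∧ Spec.ind (h : Equiv.Perm (Fin n)) = Spec.indG G ∧ orderOf h = p) ∧
      Nonempty (HG G p N P H) := by
  obtain ⟨ha, ⟨g₀, hg₀, hg₀'⟩, hmin, hcj, hJ⟩ := pidx_pos hn G hG
  obtain ⟨p, hpdef⟩ : ∃ p, p = orderOf g₀ := ⟨_, rfl⟩
  have hp : p.Prime := by
    rw [hpdef]
    exact prime_of_least G g₀ hg₀ hg₀'
  have : Fact p.Prime := ⟨hp⟩
  have hL : ∀ h ∈ Li G, h ^ p = 1 := by
    intro h hh
    rw [hpdef, trgh hn G hG k hk g₀ h ⟨hg₀, hg₀'⟩ hh]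
    exact pow_orderOf_eq_one h
  have hTn : (Subgroup.closure (Li G)).Normal := tt_normal hn G hG
  have hTp : IsPGroup p (Subgroup.closure (Li G)) := tth_pgroup G k hk hp hL
  have hTe : ∀ t ∈ Subgroup.closure (Li G), ∃ j : ℕ, t ^ p ^ j = 1 := by
    intro t ht
    obtain ⟨j, hj⟩ := hTp ⟨t, ht⟩
    refine ⟨j, ?_⟩
    have h3 := congrArg Subtype.val hj
    simpa using h3
  obtain ⟨N, g, hgΛ, uni, hI'⟩ := ncl G {h : G | h ≠ 1 ∧ ind (h : Equiv.Perm (Fin n)) = indG G}
    (fun h hh => hh.1) (by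
      rintro h ⟨h1, h2⟩ k hk
      refine ⟨?_, ?_⟩
      · intro hk1
        rw [hk1] at hk
        exact h1 (isConj_one_left.1 hk)
      · obtain ⟨x, rfl⟩ := isConj_iff.1 hk
        exact hcj h x h1 h2)
  have hcl : Subgroup.closure (Li G) = Subgroup.normalClosure (Set.range g) := by
    unfold Subgroup.normalClosure
    congr 1
    ext h
    rw [Group.mem_conjugatesOfSet_iff]
    constructor
    · intro hh
      obtain ⟨i, hi⟩ := (hI' h).1 hh
      exact ⟨g i, ⟨i, rfl⟩, hi.symm⟩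
    · rintro ⟨_, ⟨i, rfl⟩, hi⟩
      exact (hI' h).2 ⟨i, hi.symm⟩
  obtain ⟨N₀, hN₀⟩ : ∃ N₀, N₀ = Subgroup.closure {x : G | ¬ p ∣ orderOf x} := ⟨_, rfl⟩
  have hNn : N₀.Normal := by
    rw [hN₀]
    exact clo_normal p
  have hpg : ∀ x : G, ∃ j : ℕ, x ^ p ^ j ∈ N₀ := by
    intro x
    rw [hN₀]
    exact pw_mem hp x
  let Q₀ : HQ p N G (G ⧸ Subgroup.normalClosure (Set.range g)) :=
    { ph := QuotientGroup.mk' _
      phs := QuotientGroup.mk'_surjective _
      cl := ⟨g, fun i => hL _ (hgΛ i), fun i => (hgΛ i).1, uni⟩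
      hT := QuotientGroup.ker_mk' _
      tp := fun t ht => hTe t (by
        rw [hcl]
        exact (QuotientGroup.eq_one_iff t).1 ht) }
  let Q : HU p N G (G ⧸ N₀) (G ⧸ Subgroup.normalClosure (Set.range g)) :=
    { Q₀ with
      pr := QuotientGroup.mk' N₀
      prs := QuotientGroup.mk'_surjective N₀
      cen := fun x t hx ht => by
        have hx' : x ∈ N₀ := (QuotientGroup.eq_one_iff x).1 hx
        have ht' : t ∈ Subgroup.closure (Li G) := by
          rw [hcl]
          exact (QuotientGroup.eq_one_iff t).1 ht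
        have h3 : N₀ ≤ Subgroup.centralizer {t} := by
          rw [hN₀, Subgroup.closure_le]
          intro y hy
          rw [SetLike.mem_coe, Subgroup.mem_centralizer_singleton_iff]
          exact hyp_comm hp k t y (hk ht') (hTe t ht') hy
        exact Subgroup.mem_centralizer_singleton_iff.1 (h3 hx')
      sur := fun S h1 h2 => by
        refine hsur hp (Subgroup.closure (Li G)) hTn hTp k hk S ?_ ?_
        · refine sup_of_map ?_ h2
          rw [hcl]
          exact QuotientGroup.ker_mk' _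
        · rw [← hN₀]
          exact sup_of_map (QuotientGroup.ker_mk' _) h1 }
  refine ⟨p, N, G ⧸ N₀, G ⧸ Subgroup.normalClosure (Set.range g), inferInstance, inferInstance,
    inferInstance, inferInstance, hp, ?_, ⟨g₀, hg₀, hg₀', hpdef.symm⟩,
    ⟨⟨Q, ?_, ?_, fun h => ?_, ?_⟩⟩⟩
  · obtain ⟨i, -⟩ := (hI' g₀).1 ⟨hg₀, hg₀'⟩
    exact Nat.one_le_iff_ne_zero.2 fun h => by
      subst h
      exact i.elim0
  · intro x
    obtain ⟨y, rfl⟩ := QuotientGroup.mk'_surjective N₀ x
    obtain ⟨j, hj⟩ := hpg y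
    refine ⟨j, ?_⟩
    rw [← map_pow]
    exact (QuotientGroup.eq_one_iff _).2 hj
  · rw [hcl]
    exact QuotientGroup.ker_mk' _
  · exact hI' h
  · rw [← hN₀]
    exact QuotientGroup.ker_mk' _

end H71.HT2
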