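import Pool.Agent.H71.HT2.Sdp
import Pool.Agent.H71.HT2.Hfr
import Pool.Agent.H51.HC.Ser

/-!
# H71-HT2-SER: the conditions on `T` pass to `U = T ⋊ P` (MP_b39724_nt, think 1829)

* `ser_hg`: a full series. `c4_hg`: the condition `C4`.
-/

set_option autoImplicit false

open scoped Classical

noncomputable section

namespace H71.HT2

open H38.ML H38.BG H77.UX H51.PF H86.HT H77.PC3 H51.F3 H51.HC H12.S3 H63.MA H63.BU H77.S0T H77.GN

variable {n p N : ℕ} {G : Subgroup (Equiv.Perm (Fin n))} {P H : Type} [Group P] [Group H]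

theorem tc_map (Q : HU p N G P H) : Tc (cU Q) =
    (⊤ : Subgroup Q.ph.ker).map (SemidirectProduct.inl (φ := act Q)) := by
  rw [tc_cU]
  ext u
  constructor
  · intro hu
    refine ⟨u.left, trivial, ?_⟩
    apply SemidirectProduct.ext
    · rfl
    · exact (MonoidHom.mem_ker.1 hu).symm
  · rintro ⟨t, -, rfl⟩
    exact MonoidHom.mem_ker.2 rfl

theorem c4_hg (F : HG G p N P H)
    (h : p ≠ 2 ∨ (Subgroup.closure {h : G | h ≠ 1 ∧ Spec.ind (h : Equiv.Perm (Fin n)) =
      Spec.indG G}).lowerCentralSeries 3 = ⊥) : C4 (cU F.Q) := by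
  rcases h with h | h
  · exact Or.inl h
  · refine Or.inr ?_
    have h1 : (F.Q.ph.ker).lowerCentralSeries 3 = ⊥ := by
      rw [F.ker]
      exact h
    have h2 : F.Q.ph.ker = (⊤ : Subgroup F.Q.ph.ker).map F.Q.ph.ker.subtype := by
      rw [← MonoidHom.range_eq_map, Subgroup.range_subtype]
    have h3 : (⊤ : Subgroup F.Q.ph.ker).lowerCentralSeries 3 = ⊥ := by
      have h4 : ((⊤ : Subgroup F.Q.ph.ker).lowerCentralSeries 3).map F.Q.ph.ker.subtype = ⊥ := by
        rw [Subgroup.map_lowerCentralSeries, ← h2]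
        exact h1
      exact (Subgroup.map_eq_bot_iff_of_injective _ F.Q.ph.ker.subtype_injective).1 h4
    rw [tc_map, ← Subgroup.map_lowerCentralSeries, h3, Subgroup.map_bot]

theorem ser_hg (hp : p.Prime) (F : HG G p N P H) (hs : SerH G) :
    Ser (cU F.Q) (Tc (cU F.Q)) := by
  have : Fact p.Prime := ⟨hp⟩
  obtain ⟨r, T, h0, hr, hs⟩ := hs
  have hr' : T r = F.Q.ph.ker := hr.trans F.ker.symm
  have hle : ∀ i, i ≤ r → T i ≤ F.Q.ph.ker := by
    intro i hi
    have h1 : T i ≤ T r := by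
      induction hi using Nat.decreasingInduction with
      | self => exact le_rfl
      | of_succ k hk ih => exact ((hs k hk).1).trans ih
    exact h1.trans hr'.le
  have hnor : ∀ i, i ≤ r → (T i).Normal := by
    intro i hi
    rcases i with _ | j
    · rw [h0]
      infer_instance
    · exact (hs j (by omega)).2.1
  obtain ⟨b, hb⟩ : ∃ b : Subgroup G → Subgroup (UU F.Q), b = fun A =>
      (A.subgroupOf F.Q.ph.ker).map (SemidirectProduct.inl (φ := act F.Q)) := ⟨_, rfl⟩
  have hmem : ∀ (A : Subgroup G) (t : F.Q.ph.ker),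
      SemidirectProduct.inl t ∈ b A ↔ (t : G) ∈ A := by
    intro A t
    rw [hb]
    constructor
    · rintro ⟨s, hs1, hs2⟩
      have h1 := SemidirectProduct.inl_injective hs2
      rw [← h1]
      exact Subgroup.mem_subgroupOf.1 hs1
    · intro h
      exact ⟨t, Subgroup.mem_subgroupOf.2 h, rfl⟩
  have hcard : ∀ A : Subgroup G, A ≤ F.Q.ph.ker → Nat.card (b A) = Nat.card A := by
    intro A hA
    rw [hb]
    exact (Nat.card_congr (Subgroup.equivMapOfInjective _ _
      SemidirectProduct.inl_injective).toEquiv).symm.trans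
      (Nat.card_congr (Subgroup.subgroupOfEquivOfLe hA).toEquiv)
  have hbn : ∀ A : Subgroup G, A.Normal → (b A).Normal := by
    intro A hA
    refine ⟨fun x hx u => ?_⟩
    have h1 : ∃ t : F.Q.ph.ker, (t : G) ∈ A ∧ SemidirectProduct.inl t = x := by
      rw [hb] at hx
      obtain ⟨t, ht, h2⟩ := hx
      exact ⟨t, Subgroup.mem_subgroupOf.1 ht, h2⟩
    obtain ⟨t, ht, rfl⟩ := h1
    rw [uu_conj, hmem]
    obtain ⟨g, hg⟩ := F.Q.prs (ka F.Q u)
    rw [← hg, act_pr]
    exact hA.conj_mem _ ht g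
  have hbm : ∀ A B : Subgroup G, A ≤ B → b A ≤ b B := by
    intro A B hAB
    rw [hb]
    exact Subgroup.map_mono (Subgroup.subgroupOf_mono _ hAB)
  refine ⟨r, fun i => b (T (min i r)), ?_, ?_, fun i => ?_, fun i hi => ?_⟩
  · change b (T (min 0 r)) = ⊥
    rw [Nat.zero_min, h0, hb]
    simp only
    rw [Subgroup.bot_subgroupOf, Subgroup.map_bot]
  · change b (T (min r r)) = _
    rw [min_self, hr', hb, tc_map]
    simp only
    rw [Subgroup.subgroupOf_self]
  · exact hbn _ (hnor _ (min_le_right _ _))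
  · obtain ⟨h1, -, h3, h, h4, h5, h6, h7⟩ := hs i hi
    change b (T (min i r)) ≤ b (T (min (i + 1) r)) ∧
      Nat.card (b (T (min (i + 1) r))) = p * Nat.card (b (T (min i r))) ∧
      ∃ j, (cU F.Q).g j ∈ b (T (min (i + 1) r)) ∧ (cU F.Q).g j ∉ b (T (min i r))
    rw [min_eq_left hi.le, min_eq_left (Nat.succ_le_of_lt hi)]
    refine ⟨hbm _ _ h1, ?_, ?_⟩
    · have e1 : (T i).relIndex (T (i + 1)) * Nat.card (T i) = Nat.card (T (i + 1)) := by
        have e0 := Subgroup.relIndex_mul_relIndex ⊥ (T i) (T (i + 1)) bot_le h1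
        rw [Subgroup.relIndex_bot_left, Subgroup.relIndex_bot_left] at e0
        rw [mul_comm]
        exact e0
      have hTp : IsPGroup p (T (i + 1)) := by
        rintro ⟨x, hx⟩
        obtain ⟨k, hk⟩ := F.Q.tp x (MonoidHom.mem_ker.1 (hle (i + 1) hi hx))
        exact ⟨k, Subtype.ext hk⟩
      obtain ⟨k, hk⟩ := IsPGroup.iff_card.1 hTp
      have e3 : (T i).relIndex (T (i + 1)) ∣ p ^ k := by
        rw [← hk, ← e1]
        exact Dvd.intro _ rfl
      have e4 : (T i).relIndex (T (i + 1)) = p :=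
        (Nat.prime_dvd_prime_iff_eq h3 hp).1 (h3.dvd_of_dvd_pow e3)
      rw [hcard _ (hle (i + 1) hi), hcard _ (hle i hi.le), ← e1, e4]
    · obtain ⟨j, hj⟩ := (F.cls h).1 ⟨h4, h5⟩
      obtain ⟨x, hx⟩ := isConj_iff.1 hj
      have hn1 := hnor i hi.le
      have hn2 := hnor (i + 1) hi
      have g1 : F.Q.cl.g j ∈ T (i + 1) := by
        rw [← hx]
        exact hn2.conj_mem _ h6 _
      have g2 : F.Q.cl.g j ∉ T i := by
        intro h8
        apply h7
        have h9 := hn1.conj_mem _ h8 x⁻¹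
        have h10 : x⁻¹ * F.Q.cl.g j * x⁻¹⁻¹ = h := by
          rw [← hx]
          group
        rwa [h10] at h9
      refine ⟨j, ?_, ?_⟩
      · rw [cu_g, hmem]
        exact g1
      · rw [cu_g, hmem]
        exact g2

end H71.HT2
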