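import Pool.Agent.H71.HT2.Sdp
import Pool.Agent.H51.HC.Typ
import Pool.Agent.H51.PF.Tyt

/-!
# H71-HT2-PSI: the homomorphism to `U = T ⋊ P` of `φ`, with base `φb` (MP_b39724_nt, think 1829)

`psi Q φb φ : σ ↦ (φ σ (φb σ)⁻¹, pr (φb σ))` for `ph φ = ph φb`. `ka ∘ psi = pr ∘ φ`, injective in `φ`; every `ψ : Γ → U` with second component `pr ∘ φb` arises (`psi_ex`).
Types at the primes where `φb` is unramified (`psi_ty`), types at `S0` up to conjugation by `T` (`psi_tqt`).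
-/

set_option autoImplicit false

open scoped NumberField
open IsDedekindDomain H38.ML
open scoped Classical

noncomputable section

namespace H71.HT2

open H63.MA H38.BB H38.BG H57.PC H57.BRA H63.BU H77.PC3 H57.CC H38.AS H77.S0T H77.FLD H77.PLF
  H51.PF H51.F3

section grp

variable {p N : ℕ} {G P H : Type} [Group G] [Group P] [Group H] {Γ : Type} [Group Γ]

theorem psi_ker {Q : HU p N G P H} {φb φ : Γ →* G} (h : Q.ph.comp φ = Q.ph.comp φb) (σ : Γ) :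
    φ σ * (φb σ)⁻¹ ∈ Q.ph.ker := by
  have h1 : Q.ph (φ σ) = Q.ph (φb σ) := DFunLike.congr_fun h σ
  rw [MonoidHom.mem_ker, map_mul, map_inv, h1, mul_inv_cancel]

/-- the homomorphism to `T ⋊ P` -/
def psi (Q : HU p N G P H) (φb φ : Γ →* G) (h : Q.ph.comp φ = Q.ph.comp φb) : Γ →* UU Q :=
  MonoidHom.mk' (fun σ => ⟨⟨φ σ * (φb σ)⁻¹, psi_ker h σ⟩, Q.pr (φb σ)⟩) (by
    intro σ τ
    apply SemidirectProduct.ext
    · apply Subtype.ext
      show φ (σ * τ) * (φb (σ * τ))⁻¹ = φ σ * (φb σ)⁻¹ *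
        ((act Q (Q.pr (φb σ)) ⟨φ τ * (φb τ)⁻¹, psi_ker h τ⟩ : Q.ph.ker) : G)
      rw [act_pr, map_mul, map_mul]
      group
    · show Q.pr (φb (σ * τ)) = Q.pr (φb σ) * Q.pr (φb τ)
      rw [map_mul, map_mul])

theorem psi_left (Q : HU p N G P H) (φb φ : Γ →* G) (h : Q.ph.comp φ = Q.ph.comp φb) (σ : Γ) :
    ((psi Q φb φ h σ).left : G) = φ σ * (φb σ)⁻¹ := rfl

theorem psi_right (Q : HU p N G P H) (φb φ : Γ →* G) (h : Q.ph.comp φ = Q.ph.comp φb) (σ : Γ) :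
    (psi Q φb φ h σ).right = Q.pr (φb σ) := rfl

theorem ka_psi (Q : HU p N G P H) (φb φ : Γ →* G) (h : Q.ph.comp φ = Q.ph.comp φb) :
    (ka Q).comp (psi Q φb φ h) = Q.pr.comp φ := by
  ext σ
  show Q.pr ((psi Q φb φ h σ).left : G) * (psi Q φb φ h σ).right = Q.pr (φ σ)
  rw [psi_left, psi_right, map_mul, map_inv, inv_mul_cancel_right]

theorem psi_inj (Q : HU p N G P H) (φb φ φ' : Γ →* G) (h : Q.ph.comp φ = Q.ph.comp φb)
    (h' : Q.ph.comp φ' = Q.ph.comp φb) (he : psi Q φb φ h = psi Q φb φ' h') : φ = φ' := by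
  ext σ
  have h1 : ((psi Q φb φ h σ).left : G) = ((psi Q φb φ' h' σ).left : G) := by rw [he]
  rw [psi_left, psi_left] at h1
  exact mul_right_cancel h1

theorem psi_eq (Q : HU p N G P H) (φb φ : Γ →* G) (h : Q.ph.comp φ = Q.ph.comp φb) (σ : Γ)
    (hb : φb σ = 1) : psi Q φb φ h σ = SemidirectProduct.inl ⟨φ σ, by
      have h1 := psi_ker h σ
      rwa [hb, inv_one, mul_one] at h1⟩ := by
  apply SemidirectProduct.ext
  · apply Subtype.ext
    show φ σ * (φb σ)⁻¹ = φ σ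
    rw [hb, inv_one, mul_one]
  · show Q.pr (φb σ) = 1
    rw [hb, map_one]

theorem psi_one (Q : HU p N G P H) (φb φ : Γ →* G) (h : Q.ph.comp φ = Q.ph.comp φb) (σ : Γ)
    (hb : φb σ = 1) : psi Q φb φ h σ = 1 ↔ φ σ = 1 := by
  rw [psi_eq Q φb φ h σ hb]
  constructor
  · intro h1
    rw [← map_one (SemidirectProduct.inl (φ := act Q))] at h1
    exact congrArg Subtype.val (SemidirectProduct.inl_injective h1)
  · intro h1
    rw [← map_one (SemidirectProduct.inl (φ := act Q))]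
    congr 1
    exact Subtype.ext h1

theorem hu_srj (Q : HU p N G P H) (φ : Γ →* G) (h1 : Function.Surjective (Q.pr.comp φ))
    (h2 : Function.Surjective (Q.ph.comp φ)) : Function.Surjective φ := by
  rw [← MonoidHom.range_eq_top]
  refine Q.sur _ ?_ ?_
  · rw [← MonoidHom.range_comp]
    exact MonoidHom.range_eq_top.2 h1
  · rw [← MonoidHom.range_comp]
    exact MonoidHom.range_eq_top.2 h2

/-- every `ψ` with second component `pr ∘ φb` -/
theorem psi_sur (Q : HU p N G P H) (φb : Γ →* G) (ψ : Γ →* UU Q)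
    (hψ : ∀ σ, (ψ σ).right = Q.pr (φb σ)) :
    ∃ (φ : Γ →* G) (h : Q.ph.comp φ = Q.ph.comp φb), psi Q φb φ h = ψ := by
  obtain ⟨φ, hφ⟩ : ∃ φ : Γ →* G, ∀ σ, φ σ = ((ψ σ).left : G) * φb σ := by
    refine ⟨MonoidHom.mk' (fun σ => ((ψ σ).left : G) * φb σ) ?_, fun _ => rfl⟩
    intro σ τ
    have h1 : (ψ (σ * τ)).left = (ψ σ).left * act Q (ψ σ).right (ψ τ).left := by
      rw [map_mul]
      rfl
    rw [h1, Subgroup.coe_mul, hψ σ, act_pr, map_mul]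
    group
  have h : Q.ph.comp φ = Q.ph.comp φb := by
    ext σ
    rw [MonoidHom.comp_apply, MonoidHom.comp_apply, hφ, map_mul,
      MonoidHom.mem_ker.1 (ψ σ).left.2, one_mul]
  refine ⟨φ, h, MonoidHom.ext fun σ => ?_⟩
  apply SemidirectProduct.ext
  · apply Subtype.ext
    rw [psi_left, hφ, mul_inv_cancel_right]
  · rw [psi_right, hψ]

end grp

section loc

variable {K : Type} [Field K] [NumberField K] {Ω : Type} [Field Ω] [Algebra K Ω]
  {p N : ℕ} {ζ : K} {G P H : Type} [Group G] [Group P] [Group H]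

theorem psi_ft (Q : HU p N G P H) (φb φ : Gal(Ω/K) →* G) (h : Q.ph.comp φ = Q.ph.comp φb)
    (hb : H38.ML.FT φb) (hφ : H38.ML.FT φ) : H38.ML.FT (psi Q φb φ h) := by
  obtain ⟨E₁, hE₁, hE₁'⟩ := hb
  obtain ⟨E₂, hE₂, hE₂'⟩ := hφ
  refine ⟨E₁ ⊔ E₂, IntermediateField.finiteDimensional_sup E₁ E₂, fun u hu => ?_⟩
  have h3 : φb u = 1 := hE₁' (IntermediateField.fixingSubgroup_antitone le_sup_left hu)
  have h4 : φ u = 1 := hE₂' (IntermediateField.fixingSubgroup_antitone le_sup_right hu)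
  rw [MonoidHom.mem_ker, psi_one Q φb φ h u h3]
  exact h4

theorem psi_ex (Q : HU p N G P H) (φb : Gal(Ω/K) →* G) (hb : H38.ML.FT φb)
    (ψ : Gal(Ω/K) →* UU Q) (hf : H38.ML.FT ψ) (hψ : ∀ σ, (ψ σ).right = Q.pr (φb σ)) :
    ∃ (φ : Gal(Ω/K) →* G) (h : Q.ph.comp φ = Q.ph.comp φb), H38.ML.FT φ ∧
      psi Q φb φ h = ψ := by
  obtain ⟨φ, h, h1⟩ := psi_sur Q φb ψ hψ
  obtain ⟨E₁, hE₁, hE₁'⟩ := hb
  obtain ⟨E₂, hE₂, hE₂'⟩ := hf
  refine ⟨φ, h, ⟨E₁ ⊔ E₂, IntermediateField.finiteDimensional_sup E₁ E₂, fun u hu => ?_⟩, h1⟩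
  have h3 : φb u = 1 := hE₁' (IntermediateField.fixingSubgroup_antitone le_sup_left hu)
  have h4 : ψ u = 1 := hE₂' (IntermediateField.fixingSubgroup_antitone le_sup_right hu)
  rw [MonoidHom.mem_ker, ← psi_one Q φb φ h u h3, h1]
  exact h4

theorem lt_mem2 {D : RD0 K p ζ} (L : LDs D Ω) {v : Pl K} (hv : v ∉ D.S0) : L.t v ∈ inr L v := by
  unfold inr LDs.t
  rw [dif_pos hv, dif_pos hv]
  exact (L.ld v hv).ht

theorem psi_ty (Q : HU p N G P H) {D : RD0 K p ζ} (L : LDs D Ω) (φb φ : Gal(Ω/K) →* G)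
    (h : Q.ph.comp φ = Q.ph.comp φb) (v : Pl K) (hb : ∀ τ ∈ inr L v, φb τ = 1) (i : Fin N) :
    TyC Q.cl L φ i v ↔ TyC (cU Q) L (psi Q φb φ h) i v := by
  by_cases hv : D.Gd v
  · have hvS : v ∉ D.S0 := hv.1
    have ht := lt_mem2 L hvS
    have h1 : IsConj (φ (L.t v)) (Q.cl.g i) ↔ IsConj (psi Q φb φ h (L.t v)) ((cU Q).g i) := by
      rw [psi_eq Q φb φ h _ (hb _ ht), cu_conj]
    have h2 : ∀ τ ∈ inr L v, φ τ ^ p = 1 ↔ psi Q φb φ h τ ^ p = 1 := fun τ hτ => by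
      have hp1 : τ ^ p ∈ inr L v := Subgroup.pow_mem _ hτ p
      rw [← map_pow, ← map_pow, psi_one Q φb φ h _ (hb _ hp1)]
    unfold TyC
    rw [h1]
    constructor
    · rintro ⟨g1, g2, g3⟩
      exact ⟨g1, g2, fun τ hτ => (h2 τ hτ).1 (g3 τ hτ)⟩
    · rintro ⟨g1, g2, g3⟩
      exact ⟨g1, g2, fun τ hτ => (h2 τ hτ).2 (g3 τ hτ)⟩
  · exact ⟨fun h0 => absurd h0.1 hv, fun h0 => absurd h0.1 hv⟩

theorem psi_un (Q : HU p N G P H) {D : RD0 K p ζ} (L : LDs D Ω) (φb φ : Gal(Ω/K) →* G)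
    (h : Q.ph.comp φ = Q.ph.comp φb) (v : Pl K) (hb : ∀ τ ∈ inr L v, φb τ = 1) :
    (∀ τ ∈ inr L v, φ τ = 1) ↔ ∀ τ ∈ inr L v, psi Q φb φ h τ = 1 :=
  ⟨fun h1 τ hτ => (psi_one Q φb φ h τ (hb τ hτ)).2 (h1 τ hτ),
    fun h1 τ hτ => (psi_one Q φb φ h τ (hb τ hτ)).1 (h1 τ hτ)⟩

theorem psi_tqt (Q : HU p N G P H) (S : Finset (Pl K)) (Q' : DP K Ω) (φb φ φ₁ : Gal(Ω/K) →* G)
    (h : Q.ph.comp φ = Q.ph.comp φb) (h₁ : Q.ph.comp φ₁ = Q.ph.comp φb) :
    TqT S Q' Q.ph.ker φ φ₁ ↔ TqT S Q' (Tc (cU Q)) (psi Q φb φ h) (psi Q φb φ₁ h₁) := by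
  have hcj : ∀ (g : Q.ph.ker) (σ : Gal(Ω/K)),
      (psi Q φb φ h σ = SemidirectProduct.inl g * psi Q φb φ₁ h₁ σ *
        (SemidirectProduct.inl g : UU Q)⁻¹) ↔ φ σ = g * φ₁ σ * (g : G)⁻¹ := by
    intro g σ
    have h2 : SemidirectProduct.inl g * psi Q φb φ₁ h₁ σ * (SemidirectProduct.inl g : UU Q)⁻¹ =
        ⟨g * (psi Q φb φ₁ h₁ σ).left * act Q (psi Q φb φ₁ h₁ σ).right g⁻¹,
          (psi Q φb φ₁ h₁ σ).right⟩ := by
      rw [← map_inv]
      apply SemidirectProduct.ext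
      · show g * act Q 1 (psi Q φb φ₁ h₁ σ).left *
          act Q (1 * (psi Q φb φ₁ h₁ σ).right) g⁻¹ = _
        rw [map_one, MulAut.one_apply, one_mul]
      · show 1 * (psi Q φb φ₁ h₁ σ).right * 1 = _
        rw [one_mul, mul_one]
    rw [h2]
    constructor
    · intro h3
      have h4 := congrArg (fun u : UU Q => (u.left : G)) h3
      simp only [Subgroup.coe_mul, psi_left, psi_right, act_pr, Subgroup.coe_inv] at h4
      have h5 : φ σ = φ σ * (φb σ)⁻¹ * φb σ := by rw [inv_mul_cancel_right]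
      rw [h5, h4]
      group
    · intro h3
      apply SemidirectProduct.ext
      · apply Subtype.ext
        simp only [Subgroup.coe_mul, psi_left, psi_right, act_pr, Subgroup.coe_inv]
        rw [h3]
        group
      · rw [psi_right, psi_right]
  constructor
  · intro h1 v hv
    obtain ⟨g, hg, h2⟩ := h1 v hv
    refine ⟨SemidirectProduct.inl ⟨g, hg⟩, ?_, fun σ hσ => (hcj ⟨g, hg⟩ σ).2 (h2 σ hσ)⟩
    rw [tc_cU]
    exact MonoidHom.mem_ker.2 rfl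
  · intro h1 v hv
    obtain ⟨u, hu, h2⟩ := h1 v hv
    rw [tc_cU] at hu
    have h3 : u = SemidirectProduct.inl u.left := by
      apply SemidirectProduct.ext
      · rfl
      · exact MonoidHom.mem_ker.1 hu
    refine ⟨u.left, u.left.2, fun σ hσ => (hcj u.left σ).1 ?_⟩
    rw [← h3]
    exact h2 σ hσ

end loc

end H71.HT2
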