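import Pool.Agent.H71.HT2.Abs
import Pool.Agent.H71.HT2.Psi
import Pool.Agent.H51.HC.Syh

/-!
# [H71 HT2 ULM] the limit for the fibres (MP_b39724_nt, think 1829)

PROOF of `ulm`. `K, ζ, z, D, L, Q', φ₁, φb` as in `QLim`, `ψ₁ = psi Q φb φ₁ _`, `ψ = psi Q φb φ _` for `φ ∈ SYQ L Q' Q φ₁ Y` (`ph φ = ph φ₁ = ph φb`). The map `φ ↦ ψ` is injective (`psi_inj`). Its image is the set of the `ψ` of finite type with `(ψ σ).right = pr (φb σ)`, `ka ∘ ψ` surjective, `TqT D.S0 Q' (Tc (cU Q)) ψ ψ₁` (`psi_tqt`), typed outside `S0` (`psi_ty`,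
`psi_un`: `φb` is unramified there), norms `≤ Y`: `psi_ex`; `φ` is surjective because `pr φ = ka ψ` (`ka_psi`) and `ph φ = ph φb` are (`hu_srj`, `hs`). It is the disjoint union of
(A) the surjective `ψ`: this is `SYT L Q' (cU Q) (Tc (cU Q)) ψ₁ Y`: for `ψ` in this set `(ψ σ).right = pr (φb σ)`: `sep_hom` (H51/HC/Sep.lean) for the two homomorphisms `rightHom ∘ ψ`, `rightHom ∘ ψ₁ = pr ∘ φb` to the `p`-group `P` (unramified outside `S0`: the elements `ψ τ` are powers of `ψ (t_v)`, `H48.MF.ing_inr`, `tc_cU`; `φb τ = 1`), see `syh_hd` in H51/HC/Syh.lean.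
(B) the others: in `PQ L (cU Q) (ka Q) ∅ Y`, not surjective, and `Tc (cU Q) ⊔ ψ.range = ⊤`: `Tc (cU Q) = ker rightHom` (`tc_cU`) and `rightHom ∘ ψ = pr ∘ φb` is surjective.
Finite: `pq_fin`. Number of (A) divided by `Y (log Y)^(N-1)`: `hL`; number of (B): `abs2` with `E = ∅`, `nr ∅ = 1`: at most `C Y (1 + log Y)^(N-1) / (1 + log Y)`, divided by `Y (log Y)^(N-1)` it tends to `0` (`1 + log Y ≤ 2 log Y` for `Y ≥ 3`).
-/

set_option autoImplicit false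

open scoped NumberField
open IsDedekindDomain H38.ML Filter Topology
open scoped Classical

noncomputable section

namespace H71.HT2

open H63.MA H38.BB H38.BG H57.PC H57.BRA H63.BU H77.PC3 H57.CC H38.AS H77.S0T H77.FLD H77.PLF
  H51.PF H51.F3 H51.HC

section loc

variable {K : Type} [Field K] [NumberField K] {Ω : Type} [Field Ω] [Algebra K Ω]
  {p N : ℕ} {ζ : K} {G P H : Type} [Group G] [Group P] [Group H]

/-- the image of the fibre -/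
private def CS {D : RD0 K p ζ} (L : LDs D Ω) (Q' : DP K Ω) (Q : HU p N G P H)
    (φb : Gal(Ω/K) →* G) (ψ₁ : Gal(Ω/K) →* UU Q) (Y : ℝ) : Set (Gal(Ω/K) →* UU Q) :=
  {ψ | H38.ML.FT ψ ∧ (∀ σ, (ψ σ).right = Q.pr (φb σ)) ∧ Function.Surjective ((ka Q).comp ψ) ∧
    TqT D.S0 Q' (Tc (cU Q)) ψ ψ₁ ∧
    (∀ v, v ∉ D.S0 → (∀ τ ∈ inr L v, ψ τ = 1) ∨ ∃ i, TyC (cU Q) L ψ i v) ∧
    ∀ X : Finset (Pl K), (∀ v ∈ X, v ∉ D.S0 ∧ ¬ ∀ τ ∈ inr L v, ψ τ = 1) →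
      ∏ v ∈ X, (nm v : ℝ) ≤ Y}

private theorem cs_iff {D : RD0 K p ζ} (L : LDs D Ω) (Q' : DP K Ω) (Q : HU p N G P H)
    (φ₁ φb : Gal(Ω/K) →* G) (hb : H38.ML.FT φb) (hs : Function.Surjective φb)
    (he : Q.ph.comp φ₁ = Q.ph.comp φb) (hu : ∀ v, v ∉ D.S0 → ∀ τ ∈ inr L v, φb τ = 1) (Y : ℝ)
    (φ : Gal(Ω/K) →* G) (h : Q.ph.comp φ = Q.ph.comp φb) (hφ : H38.ML.FT φ) :
    φ ∈ SYQ L Q' Q.toHQ φ₁ Y ↔ psi Q φb φ h ∈ CS L Q' Q φb (psi Q φb φ₁ he) Y := by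
  constructor
  · rintro ⟨⟨h1, h2, h3, h4, h5⟩, -⟩
    refine ⟨psi_ft Q φb φ h hb h1, fun σ => rfl, ?_, (psi_tqt Q D.S0 Q' φb φ φ₁ h he).1 h3,
      fun v hv => ?_, fun X hX => ?_⟩
    · rw [ka_psi]
      exact Q.prs.comp h2
    · rcases h4 v hv with h6 | ⟨i, hi⟩
      · exact Or.inl ((psi_un Q L φb φ h v (hu v hv)).1 h6)
      · exact Or.inr ⟨i, (psi_ty Q L φb φ h v (hu v hv) i).1 hi⟩
    · refine h5 X fun v hv => ⟨(hX v hv).1, fun h6 => (hX v hv).2 ?_⟩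
      exact (psi_un Q L φb φ h v (hu v (hX v hv).1)).1 h6
  · rintro ⟨-, -, g2, g3, g4, g5⟩
    refine ⟨⟨hφ, ?_, (psi_tqt Q D.S0 Q' φb φ φ₁ h he).2 g3, fun v hv => ?_, fun X hX => ?_⟩,
      h.trans he.symm⟩
    · refine hu_srj Q φ ?_ ?_
      · rw [← ka_psi Q φb φ h]
        exact g2
      · rw [h]
        exact Q.phs.comp hs
    · rcases g4 v hv with h6 | ⟨i, hi⟩
      · exact Or.inl ((psi_un Q L φb φ h v (hu v hv)).2 h6)
      · exact Or.inr ⟨i, (psi_ty Q L φb φ h v (hu v hv) i).2 hi⟩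
    · refine g5 X fun v hv => ⟨(hX v hv).1, fun h6 => (hX v hv).2 ?_⟩
      exact (psi_un Q L φb φ h v (hu v (hX v hv).1)).2 h6

private theorem syt_right [IsAlgClosure K Ω] [Finite G] (hp : p.Prime) (hζ : IsPrimitiveRoot ζ p)
    (Q : HU p N G P H) (hP : IsPGroup p P) {D : RD0 K p ζ} (L : LDs D Ω) (Q' : DP K Ω)
    (φb : Gal(Ω/K) →* G) (hb : H38.ML.FT φb) (hu : ∀ v, v ∉ D.S0 → ∀ τ ∈ inr L v, φb τ = 1)
    (ψ₁ : Gal(Ω/K) →* UU Q) (h₁ : ∀ σ, (ψ₁ σ).right = Q.pr (φb σ)) (Y : ℝ)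
    (ψ : Gal(Ω/K) →* UU Q) (hψ : ψ ∈ SYT L Q' (cU Q) (Tc (cU Q)) ψ₁ Y) (σ : Gal(Ω/K)) :
    (ψ σ).right = Q.pr (φb σ) := by
  haveI : Finite P := Finite.of_surjective _ Q.prs
  haveI : Finite (UU Q) := uu_fin Q
  have hUp : IsPGroup p (UU Q) := uu_pg Q hP
  obtain ⟨g1, g2, g3, g4, g5⟩ := hψ
  have hq := sep_hom hp hζ D L Q' hP ((SemidirectProduct.rightHom (φ := act Q)).comp ψ)
    (Q.pr.comp φb) (ft_comp _ _ g1) (ft_comp _ _ hb) ?_ ?_ ?_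
  · exact DFunLike.congr_fun hq σ
  · intro v hv τ hτ
    rcases g4 v hv with h | ⟨i, hi⟩
    · show (SemidirectProduct.rightHom (φ := act Q)) (ψ τ) = 1
      rw [h τ hτ, map_one]
    · have h5 := (H48.MF.ing_inr hp hζ L hv ψ g1 fun τ' _ => hUp (ψ τ')).1 τ hτ
      have h6 : ψ (L.t v) ∈ Tc (cU Q) := by
        obtain ⟨c, hc⟩ := isConj_iff.1 hi.2.1.symm
        rw [← hc]
        exact (Subgroup.normalClosure_normal).conj_mem _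
          (Subgroup.subset_normalClosure (Set.mem_range_self i)) c
      have h7 : ψ τ ∈ Tc (cU Q) := (Subgroup.zpowers_le.2 h6) h5
      rw [tc_cU] at h7
      exact MonoidHom.mem_ker.1 h7
  · intro v hv τ hτ
    show Q.pr (φb τ) = 1
    rw [hu v hv τ hτ, map_one]
  · intro v hv σ' hσ'
    obtain ⟨g, hg, h7⟩ := g3 v hv
    rw [tc_cU] at hg
    have h8 : (SemidirectProduct.rightHom (φ := act Q)) g = 1 := MonoidHom.mem_ker.1 hg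
    show (SemidirectProduct.rightHom (φ := act Q)) (ψ σ') = Q.pr (φb σ')
    rw [h7 σ' hσ', map_mul, map_mul, map_inv, h8, one_mul, inv_one, mul_one]
    exact h₁ σ'

private theorem cs_split [IsAlgClosure K Ω] [Finite G] (hp : p.Prime) (hζ : IsPrimitiveRoot ζ p)
    (Q : HU p N G P H) (hP : IsPGroup p P) {D : RD0 K p ζ} (L : LDs D Ω) (Q' : DP K Ω)
    (φb : Gal(Ω/K) →* G) (hb : H38.ML.FT φb) (hu : ∀ v, v ∉ D.S0 → ∀ τ ∈ inr L v, φb τ = 1)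
    (ψ₁ : Gal(Ω/K) →* UU Q) (h₁ : ∀ σ, (ψ₁ σ).right = Q.pr (φb σ)) (Y : ℝ) :
    CS L Q' Q φb ψ₁ Y = SYT L Q' (cU Q) (Tc (cU Q)) ψ₁ Y ∪
      {ψ | ψ ∈ CS L Q' Q φb ψ₁ Y ∧ ¬ Function.Surjective ψ} := by
  ext ψ
  constructor
  · intro h
    by_cases hsj : Function.Surjective ψ
    · left
      obtain ⟨g1, g2, g3, g4, g5, g6⟩ := h
      exact ⟨g1, hsj, g4, g5, g6⟩
    · right
      exact ⟨h, hsj⟩
  · rintro (h | h)
    · have hr := syt_right hp hζ Q hP L Q' φb hb hu ψ₁ h₁ Y ψ h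
      obtain ⟨g1, g2, g3, g4, g5⟩ := h
      exact ⟨g1, hr, (ka_surj Q).comp g2, g3, g4, g5⟩
    · exact h.1

private theorem cs_pq {D : RD0 K p ζ} (L : LDs D Ω) (Q' : DP K Ω) (Q : HU p N G P H)
    (φb : Gal(Ω/K) →* G) (ψ₁ : Gal(Ω/K) →* UU Q) (Y : ℝ) (ψ : Gal(Ω/K) →* UU Q)
    (h : ψ ∈ CS L Q' Q φb ψ₁ Y) : ψ ∈ PQ L (cU Q) (ka Q) ∅ Y := by
  obtain ⟨g1, g2, g3, g4, g5, g6⟩ := h
  exact ⟨g1, g3, fun v hv _ => g5 v hv, fun T hT => g6 T fun v hv => ⟨(hT v hv).1, (hT v hv).2.2⟩⟩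

private theorem cs_top {D : RD0 K p ζ} (L : LDs D Ω) (Q' : DP K Ω) (Q : HU p N G P H)
    (φb : Gal(Ω/K) →* G) (hs : Function.Surjective φb) (ψ₁ : Gal(Ω/K) →* UU Q) (Y : ℝ)
    (ψ : Gal(Ω/K) →* UU Q) (h : ψ ∈ CS L Q' Q φb ψ₁ Y) : Tc (cU Q) ⊔ ψ.range = ⊤ := by
  obtain ⟨g1, g2, g3, g4, g5, g6⟩ := h
  rw [eq_top_iff]
  intro u _
  obtain ⟨g, hg⟩ := Q.prs u.right
  obtain ⟨σ, hσ⟩ := hs g
  have h1 : (ψ σ).right = u.right := by rw [g2 σ, hσ, hg]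
  have h2 : u = (u * (ψ σ)⁻¹) * ψ σ := by group
  rw [h2]
  refine Subgroup.mul_mem _ (Subgroup.mem_sup_left ?_) (Subgroup.mem_sup_right ⟨σ, rfl⟩)
  rw [tc_cU, MonoidHom.mem_ker, map_mul, map_inv]
  have h3 : (SemidirectProduct.rightHom (φ := act Q)) u = u.right := rfl
  have h4 : (SemidirectProduct.rightHom (φ := act Q)) (ψ σ) = (ψ σ).right := rfl
  rw [h3, h4, h1, mul_inv_cancel]

end loc

theorem ulm {p N M : ℕ} {G P H : Type} [Group G] [Group P] [Group H] [Finite G] (hp : p.Prime)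
    (Q : HU p N G P H) (hP : IsPGroup p P) (hN : 1 ≤ N)
    (hL : PLimT p M (cU Q) (Tc (cU Q))) (hU : PUs p M (UU Q)) : QLim p M Q.toHQ := by
  intro K _ ζ hζ z hz D L Q' hLQ φ₁ φb h₁ hb hs he hu
  haveI : Finite P := Finite.of_surjective _ Q.prs
  haveI : Finite (UU Q) := uu_fin Q
  have hUp : IsPGroup p (UU Q) := uu_pg Q hP
  obtain ⟨ψ₁, hψ₁⟩ : ∃ ψ₁, ψ₁ = psi Q φb φ₁ he := ⟨_, rfl⟩
  have hr₁ : ∀ σ, (ψ₁ σ).right = Q.pr (φb σ) := fun σ => by rw [hψ₁, psi_right]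
  have hf₁ : H38.ML.FT ψ₁ := by
    rw [hψ₁]
    exact psi_ft Q φb φ₁ he hb h₁
  have hfin : ∀ Y, (CS L Q' Q φb ψ₁ Y).Finite := fun Y =>
    (pq_fin hp hζ hz hUp hN (cU Q) (ka Q) (fun g hg i => ka_cen Q g hg i) hU D L ∅ Y).subset
      fun ψ hψ => cs_pq L Q' Q φb ψ₁ Y ψ hψ
  -- the injection
  obtain ⟨F, hF⟩ : ∃ F : (Gal(QBar/K) →* G) → (Gal(QBar/K) →* UU Q),
      ∀ φ (h : Q.ph.comp φ = Q.ph.comp φb), F φ = psi Q φb φ h :=
    ⟨fun φ => if h : Q.ph.comp φ = Q.ph.comp φb then psi Q φb φ h else 1, fun φ h => dif_pos h⟩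
  have hinj : ∀ Y, Set.InjOn F (SYQ L Q' Q.toHQ φ₁ Y) := by
    intro Y φ hφ φ' hφ' h
    have e1 : Q.ph.comp φ = Q.ph.comp φb := hφ.2.trans he
    have e2 : Q.ph.comp φ' = Q.ph.comp φb := hφ'.2.trans he
    rw [hF φ e1, hF φ' e2] at h
    exact psi_inj Q φb φ φ' e1 e2 h
  have himg : ∀ Y, F '' (SYQ L Q' Q.toHQ φ₁ Y) = CS L Q' Q φb ψ₁ Y := by
    intro Y
    ext ψ
    rw [Set.mem_image]
    constructor
    · rintro ⟨φ, hφ, h⟩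
      have e1 : Q.ph.comp φ = Q.ph.comp φb := hφ.2.trans he
      rw [hF φ e1] at h
      rw [← h, hψ₁]
      exact (cs_iff L Q' Q φ₁ φb hb hs he hu Y φ e1 hφ.1.1).1 hφ
    · intro hψ
      obtain ⟨φ, h, h2, h3⟩ := psi_ex Q φb hb ψ hψ.1 hψ.2.1
      refine ⟨φ, (cs_iff L Q' Q φ₁ φb hb hs he hu Y φ h h2).2 ?_, by rw [hF φ h, h3]⟩
      rw [h3, ← hψ₁]
      exact hψ
  refine ⟨fun Y => Set.Finite.of_finite_image (by rw [himg Y]; exact hfin Y) (hinj Y), ?_⟩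
  obtain ⟨L₀, hL₀⟩ := hL K ζ hζ z hz D L Q' hLQ ψ₁ hf₁
  refine ⟨L₀, ?_⟩
  obtain ⟨B, hB⟩ : ∃ B : ℝ → Set (Gal(QBar/K) →* UU Q),
      ∀ Y, B Y = {ψ | ψ ∈ CS L Q' Q φb ψ₁ Y ∧ ¬ Function.Surjective ψ} := ⟨_, fun _ => rfl⟩
  have hBf : ∀ Y, (B Y).Finite := fun Y => (hfin Y).subset fun ψ hψ => by
    rw [hB] at hψ
    exact hψ.1
  have hspl : ∀ Y, CS L Q' Q φb ψ₁ Y = SYT L Q' (cU Q) (Tc (cU Q)) ψ₁ Y ∪ B Y := fun Y => by
    rw [hB]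
    exact cs_split hp hζ Q hP L Q' φb hb hu ψ₁ hr₁ Y
  have hAf : ∀ Y, (SYT L Q' (cU Q) (Tc (cU Q)) ψ₁ Y).Finite := fun Y =>
    (hfin Y).subset (by rw [hspl Y]; exact Set.subset_union_left)
  have hcard : ∀ Y, ((SYQ L Q' Q.toHQ φ₁ Y).ncard : ℝ) =
      ((SYT L Q' (cU Q) (Tc (cU Q)) ψ₁ Y).ncard : ℝ) + ((B Y).ncard : ℝ) := by
    intro Y
    rw [← (hinj Y).ncard_image, himg Y, hspl Y, Set.ncard_union_eq ?_ (hAf Y) (hBf Y), Nat.cast_add]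
    rw [Set.disjoint_left]
    intro ψ h2 h3
    rw [hB] at h3
    exact h3.2 h2.2.1
  obtain ⟨C, hC0, hC⟩ := abs2 hp hζ hz hUp hN (cU Q) (ka Q) (fun g hg i => ka_cen Q g hg i) hU D L
    1 one_pos
  have hBb : ∀ Y : ℝ, 3 ≤ Y → ((B Y).ncard : ℝ) / (Y * Real.log Y ^ (N - 1)) ≤
      C * 2 ^ (N - 1) / (1 + Real.log Y) := by
    intro Y hY
    have hl : 1 ≤ Real.log Y := by
      rw [Real.le_log_iff_exp_le (by linarith)]
      exact le_trans (le_of_lt (lt_trans Real.exp_one_lt_d9 (by norm_num))) hY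
    have h3 := hC ∅ Y (by linarith) (hBf Y).toFinset (fun ψ hψ => by
      rw [Set.Finite.mem_toFinset, hB] at hψ
      exact ⟨cs_pq L Q' Q φb ψ₁ Y ψ hψ.1, hψ.2, cs_top L Q' Q φb hs ψ₁ Y ψ hψ.1⟩)
    have h4 : nr (∅ : Finset (Pl K)) = 1 := Finset.prod_empty
    rw [← Set.ncard_eq_toFinset_card _ (hBf Y), h4, Real.one_rpow, mul_one] at h3
    have h5 : (1 + Real.log Y) ^ (N - 1) ≤ (2 * Real.log Y) ^ (N - 1) :=
      pow_le_pow_left₀ (by linarith) (by linarith) _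
    have h6 : 0 < Y * Real.log Y ^ (N - 1) := by positivity
    have h7 : 0 < 1 + Real.log Y := by linarith
    rw [div_le_div_iff₀ h6 h7]
    calc ((B Y).ncard : ℝ) * (1 + Real.log Y) ≤ C * Y * (1 + Real.log Y) ^ (N - 1) := h3
      _ ≤ C * Y * (2 * Real.log Y) ^ (N - 1) := by
        apply mul_le_mul_of_nonneg_left h5
        have : 0 ≤ Y := by linarith
        positivity
      _ = C * 2 ^ (N - 1) * (Y * Real.log Y ^ (N - 1)) := by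
        rw [mul_pow]; ring
  have hB0 : Tendsto (fun Y : ℝ => ((B Y).ncard : ℝ) / (Y * Real.log Y ^ (N - 1))) atTop (𝓝 0) := by
    have h8 : Tendsto (fun Y : ℝ => C * 2 ^ (N - 1) / (1 + Real.log Y)) atTop (𝓝 0) :=
      Tendsto.div_atTop tendsto_const_nhds (tendsto_atTop_add_const_left _ _ Real.tendsto_log_atTop)
    refine tendsto_of_tendsto_of_tendsto_of_le_of_le' tendsto_const_nhds h8 ?_ ?_
    · filter_upwards [eventually_ge_atTop (3 : ℝ)] with Y hY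
      have hl : 0 ≤ Real.log Y := Real.log_nonneg (by linarith)
      have : 0 ≤ Y := by linarith
      positivity
    · filter_upwards [eventually_ge_atTop (3 : ℝ)] with Y hY
      exact hBb Y hY
  have h9 := hL₀.add hB0
  rw [add_zero] at h9
  refine h9.congr fun Y => ?_
  rw [hcard Y, add_div]

end H71.HT2
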