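import Pool.Agent.H71.HT2.Qlm
import Pool.Agent.H71.HT2.Qlo
import Pool.Agent.H71.HT2.Ulm
import Pool.Agent.H71.HT2.Ser
import Pool.Agent.H51.HC.Fld

/-!
# H71-HT2-FLD: fields over one `K`, hypercentral `T` (MP_b39724_nt, think 1829)

* `hg_bet`: the number of classes. `low_h`: the lower bound, `asy_h`: the asymptotic formula, `upp_h`: the upper bound over one `K` (as `low_k`, `asy_k`, `upp_k`, H51/HC/Fld.lean).
* `pus_ex`: `PUs p M P` for large `M`.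
-/

set_option autoImplicit false

open scoped NumberField
open IsDedekindDomain Filter Topology H38.ML
open scoped Classical

noncomputable section

namespace H71.HT2

open H63.MA H38.BB H38.BG H57.PC H57.BRA H63.BU H77.PC3 H57.CC H38.AS H77.S0T H77.AB H77.GN
  H77.UX H77.FLD H77.PLF H51.PF H51.NS H51.F3 H12.S3 H51.HC

section pus

theorem pus_ex {p : ℕ} (hp : p.Prime) (hU : APu3 p) (P : Type) [Group P] [Finite P]
    (hP : IsPGroup p P) : ∃ M₀ : ℕ, ∀ M, M₀ ≤ M → PUs p M P := by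
  have h1 : ∀ J : Subgroup P, ∃ M : ℕ, ∀ (N : ℕ) (c : CL p N J), 1 ≤ N → PUb p M c := by
    intro J
    obtain ⟨M, -, hM⟩ := pun3 hp hU (H35.NS2.bl2_all hp) (H35.NS2.gp2_all hp) J
      (hP.to_subgroup J)
    exact ⟨M, fun N c hN => hM N c hN⟩
  choose f hf using h1
  have : Fintype (Subgroup P) := Fintype.ofFinite _
  refine ⟨∑ J, f J, fun M hM J N c hN => ?_⟩
  have h2 : f J ≤ ∑ J, f J := Finset.single_le_sum (fun _ _ => Nat.zero_le _)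
    (Finset.mem_univ J)
  exact pub_mono hp (h2.trans hM) (hf J N c hN)

theorem pus_mono {p : ℕ} (hp : p.Prime) {M M' : ℕ} (h : M ≤ M') {P : Type} [Group P]
    (hU : PUs p M P) : PUs p M' P := fun J N c hN => pub_mono hp h (hU J N c hN)

theorem ppos_mono {p : ℕ} (hp : p.Prime) {M M' : ℕ} (h : M ≤ M') {P : Type} [Group P] {N : ℕ}
    {c : CL p N P} {T : Subgroup P} (hL : PPosT p M c T) : PPosT p M' c T := by
  intro K _ ζ hζ z hz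
  obtain ⟨z', hz'⟩ := H51.AC2.prm_pow hp hz h
  exact hL K ζ hζ z' hz'

end pus

section one

variable {n p N : ℕ} {G : Subgroup (Equiv.Perm (Fin n))} {P H : Type} [Group P] [Group H]

variable {K : IntermediateField ℚ (AlgebraicClosure ℚ)} [hKf : NumberField K]

/-- the number of classes -/
theorem hg_bet (F : HG G p N P H) (hz : ∃ z : K, IsPrimitiveRoot z (Nat.card G)) :
    Spec.betaAll K QBar G = N := by
  obtain ⟨z, hz⟩ := hz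
  exact lbet G K z hz F.Q.cl.g F.Q.cl.uni F.cls

theorem low_h (hn : 2 ≤ n) (hG : MulAction.IsPretransitive G (Fin n)) (hp : p.Prime)
    (hN : 1 ≤ N) (F : HG G p N P H) (M : ℕ) (hM : 2 ≤ M)
    (hPo : PPosT p M (cU F.Q) (Tc (cU F.Q))) (hU : PUs p M (UU F.Q))
    (φ₀ : Gal(QBar/K) →* G) (hs : Function.Surjective φ₀) (hφ₀ : FT φ₀)
    (ψ₀ : Gal(QBar/K) →* UU F.Q) (hs' : Function.Surjective ψ₀) (hψ₀ : FT ψ₀)
    (hr : ∀ σ, (ψ₀ σ).right = F.Q.pr (φ₀ σ))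
    (hz : ∃ z : K, IsPrimitiveRoot z (Nat.card G)) (hz₂ : ∃ z : K, IsPrimitiveRoot z (p ^ M)) :
    ∃ c B₀ : ℝ, 0 < c ∧ ∀ B : ℝ, B₀ ≤ B →
      ((⌈c * B ^ (1 / (Spec.indG G : ℝ)) *
        Real.log B ^ (Spec.betaAll K QBar G - 1)⌉₊ : ℕ) : ℕ∞) ≤ Spec.nK K QBar G B := by
  have : NeZero p := ⟨hp.ne_zero⟩
  have : Fact p.Prime := ⟨hp⟩
  obtain ⟨z₂, hz2⟩ := hz₂
  have hp2 : MOne p K := mone_of hp hM hz2
  obtain ⟨ζ, hζ⟩ : ∃ ζ : K, IsPrimitiveRoot ζ p := by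
    refine ⟨z₂ ^ p ^ (M - 1), hz2.pow (pow_pos hp.pos _) ?_⟩
    rw [← pow_succ]
    congr 1
    omega
  rw [hg_bet F hz]
  exact qlow G K hn hG hp hp2 hζ hz2 hN F.Q F.pg hPo hU F.cls φ₀ hs hφ₀ ψ₀ hs' hψ₀ hr

/-- the asymptotic formula over one `K` -/
theorem asy_h (hn : 2 ≤ n) (hG : MulAction.IsPretransitive G (Fin n)) (hp : p.Prime)
    (hN : 1 ≤ N) (F : HG G p N P H) (M : ℕ) (hM : 2 ≤ M)
    (hLi : PLimT p M (cU F.Q) (Tc (cU F.Q)))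
    (hPo : PPosT p M (cU F.Q) (Tc (cU F.Q))) (hU : PUs p M (UU F.Q)) (hQ : QUb p M F.Q.toHQ)
    (φ₀ : Gal(QBar/K) →* G) (hs : Function.Surjective φ₀) (hφ₀ : FT φ₀)
    (ψ₀ : Gal(QBar/K) →* UU F.Q) (hs' : Function.Surjective ψ₀) (hψ₀ : FT ψ₀)
    (hr : ∀ σ, (ψ₀ σ).right = F.Q.pr (φ₀ σ))
    (hz : ∃ z : K, IsPrimitiveRoot z (Nat.card G)) (hz₂ : ∃ z : K, IsPrimitiveRoot z (p ^ M))
    (θ : ℝ) (hθ : 0 ≤ θ) (hRB : H86.HT.RBt K QBar H θ)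
    (hr' : ∀ g : G, F.Q.ph g ≠ 1 → θ * (indG G : ℝ) < (ind (g : Equiv.Perm (Fin n)) : ℝ)) :
    Asy G K := by
  have : NeZero p := ⟨hp.ne_zero⟩
  have : Fact p.Prime := ⟨hp⟩
  obtain ⟨c₁, B₀, hc₁, hlo⟩ := low_h hn hG hp hN F M hM hPo hU φ₀ hs hφ₀ ψ₀ hs' hψ₀ hr hz hz₂
  obtain ⟨z₂, hz2⟩ := hz₂
  have hp2 : MOne p K := mone_of hp hM hz2
  obtain ⟨ζ, hζ⟩ : ∃ ζ : K, IsPrimitiveRoot ζ p := by
    refine ⟨z₂ ^ p ^ (M - 1), hz2.pow (pow_pos hp.pos _) ?_⟩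
    rw [← pow_succ]
    congr 1
    omega
  obtain ⟨c₀, hc₀, hnk⟩ := nk2 G hG
  have i₀ : Fin n := ⟨0, by omega⟩
  obtain ⟨hfin, c, hcl⟩ := qlim G K hn hG hp hp2 hζ hz2 F.Q F.pg hQ
    (ulm hp F.Q F.pg hN hLi hU) θ hθ hRB hr' F.cls i₀
  have hβ := hg_bet F hz
  have hk : ∀ B : ℝ, ∃ k : ℕ, Spec.nK K QBar G B = (k : ℕ∞) ∧
      k * c₀ = (CfinS G K i₀ B).ncard := fun B => hnk K hKf i₀ B (hfin B)
  choose k hk1 hk2 using hk
  have hc₀R : (0 : ℝ) < (c₀ : ℝ) := by exact_mod_cast hc₀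
  have hlim : Tendsto (fun B : ℝ => (k B : ℝ) /
        (B ^ (1 / (Spec.indG G : ℝ)) * Real.log B ^ (Spec.betaAll K QBar G - 1)))
        atTop (𝓝 (c / (c₀ : ℝ))) := by
    refine (hcl.div_const (c₀ : ℝ)).congr fun B => ?_
    rw [← hk2 B, hβ]
    push_cast
    have : H38.ML.indG G = Spec.indG G := rfl
    rw [this]
    field_simp
  refine ⟨c / (c₀ : ℝ), ?_, k, hk1, hlim⟩
  refine lt_of_lt_of_le hc₁ (ge_of_tendsto hlim ?_)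
  filter_upwards [eventually_ge_atTop B₀, eventually_gt_atTop 1] with B hB hB1
  have h1 := hlo B hB
  rw [show Spec.nK K (AlgebraicClosure ℚ) G B = (k B : ℕ∞) from hk1 B] at h1
  rw [hβ] at h1 ⊢
  have h2 : (⌈c₁ * B ^ (1 / (indG G : ℝ)) * Real.log B ^ (N - 1)⌉₊ : ℕ) ≤ k B := by
    exact_mod_cast h1
  have h3 : c₁ * B ^ (1 / (indG G : ℝ)) * Real.log B ^ (N - 1) ≤ (k B : ℝ) :=
    (Nat.le_ceil _).trans (by exact_mod_cast h2)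
  have hP : 0 < B ^ (1 / (Spec.indG G : ℝ)) * Real.log B ^ (N - 1) :=
    mul_pos (Real.rpow_pos_of_pos (by linarith) _) (pow_pos (Real.log_pos hB1) _)
  rw [le_div_iff₀ hP, ← mul_assoc]
  exact h3

/-- the upper bound over one `K` -/
theorem upp_h (hn : 2 ≤ n) (hG : MulAction.IsPretransitive G (Fin n)) (hp : p.Prime)
    (F : HG G p N P H) (M : ℕ) (hM : 2 ≤ M) (hQ : QUb p M F.Q.toHQ)
    (hz : ∃ z : K, IsPrimitiveRoot z (Nat.card G)) (hz₂ : ∃ z : K, IsPrimitiveRoot z (p ^ M))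
    (θ : ℝ) (hθ : 0 ≤ θ) (hRB : H86.HT.RBt K QBar H θ)
    (hr : ∀ g : G, F.Q.ph g ≠ 1 → θ * (indG G : ℝ) < (ind (g : Equiv.Perm (Fin n)) : ℝ)) :
    ∃ C : ℝ, 0 < C ∧ ∀ B : ℝ, 3 ≤ B → Spec.nK K QBar G B ≤
      ((⌊C * (B ^ (1 / (Spec.indG G : ℝ)) *
        Real.log B ^ (Spec.betaAll K QBar G - 1))⌋₊ : ℕ) : ℕ∞) := by
  have : NeZero p := ⟨hp.ne_zero⟩
  have : Fact p.Prime := ⟨hp⟩
  obtain ⟨z₂, hz2⟩ := hz₂
  have hp2 : MOne p K := mone_of hp hM hz2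
  obtain ⟨ζ, hζ⟩ : ∃ ζ : K, IsPrimitiveRoot ζ p := by
    refine ⟨z₂ ^ p ^ (M - 1), hz2.pow (pow_pos hp.pos _) ?_⟩
    rw [← pow_succ]
    congr 1
    omega
  obtain ⟨c₀, hc₀, hnk⟩ := nk2 G hG
  have i₀ : Fin n := ⟨0, by omega⟩
  obtain ⟨hfin, C, hC, hcl⟩ := qup G K hn hG hp hp2 hζ hz2 F.Q F.pg hQ θ hθ hRB hr F.cls i₀
  have hβ := hg_bet F hz
  refine ⟨C, hC, fun B hB => ?_⟩
  obtain ⟨k, hk1, hk2⟩ := hnk K hKf i₀ B (hfin B)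
  rw [show Spec.nK K QBar G B = (k : ℕ∞) from hk1, hβ]
  refine Nat.cast_le.2 (Nat.le_floor (le_trans ?_ (hcl B hB)))
  have h1 : k ≤ (CfinS G K i₀ B).ncard := by
    rw [show (CfinS G K i₀ B).ncard = k * c₀ from hk2.symm]
    exact Nat.le_mul_of_pos_right _ hc₀
  exact_mod_cast h1

end one

end H71.HT2
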