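import Pool.Agent.H86.HT.Gtr

/-!
# [H71 HT2 HYP] hypercentral elements (MP_b39724_nt, think 1829)

PROOFS. `hyp_comm`: `x ∈ Z_k(G)` of `p`-power order, `y` of order prime to `p`; induction on `k`: Let `A_i` = the statement for `i`. For `x ∈ Z_{i+1}` the commutator `c = ⁅y, x⁆` is in `Z_i` (`Subgroup.mem_upperCentralSeries_succ_iff`). CAREFUL: `c` need not be of `p`-power order a priori; use the quotient instead: work in the subgroup `B = closure {x, y}`; `B` is ... SIMPLER: `Z_k(G)` is nilpotent, so its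
`p`-elements form a subgroup `A` (the Sylow `p`-subgroup, normal; characteristic in `Z_k(G)`, so normal in `G`), so `c = y x y⁻¹ x⁻¹ ∈ A`, and `A` is a `p`-group. Let `A_i = A ∩ Z_i(G)`: `⁅y, A_{i+1}⁆ ≤ A_i`. By induction `y` centralises `A_i`. For `x ∈ A_{i+1}`: `y x y⁻¹ = c x` with `c ∈ A_i` centralised by `y`, so `y^n x y^{-n} = c^n x` for all `n`
(induction on `n`), with `n = orderOf y`: `c^n = 1`, and `c` has `p`-power order, `n` is prime to `p`: `c = 1`.
(The version with a given normal `p`-subgroup `A ≤ Z_k(G)` is `hyp_comm'`; `hyp_comm` from it with `A` = the elements of `p`-power order of `Z_k(G)`: `zp_sub`, a subgroup because `Z_k(G)` is nilpotent: `Group.isNilpotent` of `upperCentralSeries G k`, `nil_mem`/`nil_comm` in H77/UX or H51/PF, normal since conjugation preserves `Z_k(G)` and orders.)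
`hyp_cmm`: as `nil_cmm` (H86/HT/Gtr.lean) with `T ≤ Z_k(G)`: `g` is a product of its primary parts, of orders powers of primes `≠ q` (or: `g ∈ Z_k(G)` of order prime to `q`, `s` of `q`-power order; the elements of order prime to `q` of `Z_k(G)` form a normal subgroup `A'` of order prime to `q`, same proof as `hyp_comm'` with the roles of the orders exchanged: state `hyp_comm'` for coprime orders: all elements of
`A` have order prime to `orderOf y`). `trgh`: as `trgy` (H86/HT/Gtr.lean, copy the proof) with `hyp_cmm` in the place of `nil_cmm`. `tth_pgroup`: `T ≤ Z_k(G)` is nilpotent and generated by elements of order dividing `p`: in the nilpotent group `Z_k(G)` the elements of `p`-power order form a subgroup (`nil_mem`).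
-/

set_option autoImplicit false

open scoped Classical

noncomputable section

namespace H71.HT2

open H38.ML H77.UX H51.PF H86.HT

section grp

variable {G : Type} [Group G]

private theorem uc_nil (k : ℕ) : Group.IsNilpotent (Subgroup.upperCentralSeries G k) := by
  rw [Subgroup.nilpotent_iff_finite_ascending_central_series]
  refine ⟨k, fun i => (Subgroup.upperCentralSeries G i).subgroupOf (Subgroup.upperCentralSeries G k), ⟨?_, ?_⟩, ?_⟩
  · ext x
    simp
  · intro x n hx g
    rw [Subgroup.mem_subgroupOf] at hx ⊢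
    have h1 := Subgroup.mem_upperCentralSeries_succ_iff.1 hx (g : G)
    simpa [commutatorElement_def] using h1
  · ext x
    simp

/-- a normal subgroup `A ≤ Z_k(G)` of order prime to the order of `y` commutes with `y` -/
theorem hyp_comm' [Finite G] (A : Subgroup G) (hA : A.Normal) (k : ℕ)
    (hk : A ≤ Subgroup.upperCentralSeries G k) (y : G)
    (hy : ∀ a ∈ A, (orderOf a).Coprime (orderOf y)) (x : G) (hx : x ∈ A) : y * x = x * y := by
  have key : ∀ i : ℕ, ∀ x ∈ A, x ∈ Subgroup.upperCentralSeries G i → y * x = x * y := by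
    intro i
    induction i with
    | zero =>
      intro x _ hx
      rw [Subgroup.upperCentralSeries_zero, Subgroup.mem_bot] at hx
      rw [hx, mul_one, one_mul]
    | succ i ih =>
      intro x hxA hx
      obtain ⟨c, hc⟩ : ∃ c, c = y * x * y⁻¹ * x⁻¹ := ⟨_, rfl⟩
      have hcA : c ∈ A := by
        rw [hc]
        exact A.mul_mem (hA.conj_mem x hxA y) (A.inv_mem hxA)
      have hcZ : c ∈ Subgroup.upperCentralSeries G i := by
        have h1 := Subgroup.mem_upperCentralSeries_succ_iff.1 hx y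
        rw [commutatorElement_def] at h1
        have h2 : c = (x * y * x⁻¹ * y⁻¹)⁻¹ := by
          rw [hc]
          group
        rw [h2]
        exact Subgroup.inv_mem _ h1
      have hyc := ih c hcA hcZ
      have hyx : y * x = c * x * y := by
        rw [hc]
        group
      have hn : ∀ n : ℕ, y ^ n * x = c ^ n * x * y ^ n := by
        intro n
        induction n with
        | zero => simp
        | succ n ihn =>
          have h3 : y * c ^ n = c ^ n * y := by
            have h4 : Commute y c := hyc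
            exact h4.pow_right n
          calc y ^ (n + 1) * x = y * (y ^ n * x) := by rw [pow_succ', mul_assoc]
            _ = y * c ^ n * (x * y ^ n) := by rw [ihn]; group
            _ = c ^ n * (y * x) * y ^ n := by rw [h3]; group
            _ = c ^ (n + 1) * x * y ^ (n + 1) := by rw [hyx, pow_succ c, pow_succ' y]; group
      have h5 := hn (orderOf y)
      rw [pow_orderOf_eq_one, one_mul, mul_one] at h5
      have h6 : c ^ orderOf y = 1 := by
        have h7 : 1 * x = c ^ orderOf y * x := by rw [one_mul]; exact h5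
        exact (mul_right_cancel h7).symm
      have h8 : orderOf c ∣ orderOf y := orderOf_dvd_of_pow_eq_one h6
      have h9 : orderOf c = 1 := Nat.Coprime.eq_one_of_dvd (hy c hcA) h8
      have h10 : c = 1 := orderOf_eq_one_iff.1 h9
      rw [hyx, h10, one_mul]
  exact key k x hx (hk hx)

/-- the elements of order a power of `p` of `Z_k(G)` -/
theorem zp_sub [Finite G] {p : ℕ} (hp : p.Prime) (k : ℕ) : ∃ A : Subgroup G, A.Normal ∧
    ∀ x, x ∈ A ↔ x ∈ Subgroup.upperCentralSeries G k ∧ ∃ j : ℕ, x ^ p ^ j = 1 := by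
  have : Fact p.Prime := ⟨hp⟩
  have hnil := uc_nil (G := G) k
  obtain ⟨S⟩ : Nonempty (Sylow p (Subgroup.upperCentralSeries G k)) := inferInstance
  have hmem : ∀ x, x ∈ (S : Subgroup (Subgroup.upperCentralSeries G k)).map (Subgroup.upperCentralSeries G k).subtype ↔
      x ∈ Subgroup.upperCentralSeries G k ∧ ∃ j : ℕ, x ^ p ^ j = 1 := by
    intro x
    constructor
    · rintro ⟨z, hz, rfl⟩
      refine ⟨z.2, ?_⟩
      obtain ⟨j, hj⟩ := S.isPGroup' ⟨z, hz⟩
      refine ⟨j, ?_⟩
      have h1 : z ^ p ^ j = 1 := congrArg Subtype.val hj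
      have h2 := congrArg Subtype.val h1
      simpa using h2
    · rintro ⟨hx, j, hj⟩
      refine ⟨⟨x, hx⟩, ?_, rfl⟩
      exact nil_mem hnil hp S ⟨j, Subtype.ext (by simpa using hj)⟩
  refine ⟨_, ⟨fun x hx g => ?_⟩, hmem⟩
  rw [hmem] at hx ⊢
  obtain ⟨h1, j, hj⟩ := hx
  refine ⟨(inferInstance : (Subgroup.upperCentralSeries G k).Normal).conj_mem x h1 g, j, ?_⟩
  rw [conj_pow, hj, mul_one, mul_inv_cancel]

/-- the elements of order prime to `p` of `Z_k(G)` -/
theorem zo_sub [Finite G] {p : ℕ} (hp : p.Prime) (k : ℕ) : ∃ A : Subgroup G, A.Normal ∧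
    ∀ x, x ∈ A ↔ x ∈ Subgroup.upperCentralSeries G k ∧ ¬ p ∣ orderOf x := by
  have : Fact p.Prime := ⟨hp⟩
  have hnil := uc_nil (G := G) k
  have hno : ∀ (x g : G), orderOf (g * x * g⁻¹) = orderOf x := by
    intro x g
    have h1 : g * x * g⁻¹ = MulAut.conj g x := by rw [MulAut.conj_apply]
    rw [h1]
    exact MulEquiv.orderOf_eq _ _
  by_cases hd : p ∣ Nat.card (Subgroup.upperCentralSeries G k)
  · obtain ⟨S⟩ : Nonempty (Sylow p (Subgroup.upperCentralSeries G k)) := inferInstance
    obtain ⟨f, -, hf⟩ := nil_split hnil hp hd S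
    have hmem : ∀ x, x ∈ f.ker.map (Subgroup.upperCentralSeries G k).subtype ↔
        x ∈ Subgroup.upperCentralSeries G k ∧ ¬ p ∣ orderOf x := by
      intro x
      constructor
      · rintro ⟨z, hz, rfl⟩
        refine ⟨z.2, ?_⟩
        have h1 := hf z hz
        rwa [← Subgroup.orderOf_coe z] at h1
      · rintro ⟨hx, hxp⟩
        refine ⟨⟨x, hx⟩, ?_, rfl⟩
        change f ⟨x, hx⟩ = 1
        have h1 : orderOf (f ⟨x, hx⟩) ∣ orderOf x := by
          have h2 := orderOf_map_dvd f (⟨x, hx⟩ : Subgroup.upperCentralSeries G k)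
          rwa [← Subgroup.orderOf_coe (⟨x, hx⟩ : Subgroup.upperCentralSeries G k)] at h2
        obtain ⟨j, hj⟩ := S.isPGroup' (f ⟨x, hx⟩)
        obtain ⟨i, -, hi⟩ := (Nat.dvd_prime_pow hp).1 (orderOf_dvd_of_pow_eq_one hj)
        rcases Nat.eq_zero_or_pos i with h4 | h4
        · rw [h4, pow_zero] at hi
          exact orderOf_eq_one_iff.1 hi
        · exact absurd ((hi ▸ dvd_pow_self p h4.ne').trans h1) hxp
    refine ⟨_, ⟨fun x hx g => ?_⟩, hmem⟩
    rw [hmem] at hx ⊢
    refine ⟨(inferInstance : (Subgroup.upperCentralSeries G k).Normal).conj_mem x hx.1 g, ?_⟩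
    rw [hno]
    exact hx.2
  · refine ⟨Subgroup.upperCentralSeries G k, inferInstance, fun x => ⟨fun hx => ⟨hx, fun h => hd ?_⟩, fun h => h.1⟩⟩
    have h1 : orderOf (⟨x, hx⟩ : Subgroup.upperCentralSeries G k) ∣ Nat.card (Subgroup.upperCentralSeries G k) :=
      orderOf_dvd_natCard _
    rw [← Subgroup.orderOf_coe (⟨x, hx⟩ : Subgroup.upperCentralSeries G k)] at h1
    exact h.trans h1

theorem hyp_comm [Finite G] {p : ℕ} (hp : p.Prime) (k : ℕ) (x y : G)
    (hx : x ∈ Subgroup.upperCentralSeries G k) (hxp : ∃ j : ℕ, x ^ p ^ j = 1)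
    (hy : ¬ p ∣ orderOf y) : y * x = x * y := by
  obtain ⟨A, hA, hm⟩ := zp_sub (G := G) hp k
  refine hyp_comm' A hA k (fun a ha => ((hm a).1 ha).1) y (fun a ha => ?_) x ((hm x).2 ⟨hx, hxp⟩)
  obtain ⟨j, hj⟩ := ((hm a).1 ha).2
  exact Nat.Coprime.coprime_dvd_left (orderOf_dvd_of_pow_eq_one hj)
    (Nat.Coprime.pow_left j ((Nat.Prime.coprime_iff_not_dvd hp).2 hy))

theorem hyp_cmm [Finite G] (k : ℕ) {q : ℕ} (hq : q.Prime) (s g : G)
    (hs : ∃ j : ℕ, s ^ q ^ j = 1) (hg : g ∈ Subgroup.upperCentralSeries G k)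
    (hqg : ¬ q ∣ orderOf g) : s * g = g * s := by
  obtain ⟨A, hA, hm⟩ := zo_sub (G := G) hq k
  refine hyp_comm' A hA k (fun a ha => ((hm a).1 ha).1) s (fun a ha => ?_) g ((hm g).2 ⟨hg, hqg⟩)
  obtain ⟨j, hj⟩ := hs
  exact (Nat.Coprime.coprime_dvd_left (orderOf_dvd_of_pow_eq_one hj)
    (Nat.Coprime.pow_left j ((Nat.Prime.coprime_iff_not_dvd hq).2 ((hm a).1 ha).2))).symm

end grp

section perm

variable {n : ℕ} {G : Subgroup (Equiv.Perm (Fin n))}

/-- the elements of least index have the same order -/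
theorem trgh (hn : 2 ≤ n) (G : Subgroup (Equiv.Perm (Fin n)))
    (hG : MulAction.IsPretransitive G (Fin n)) (k : ℕ)
    (hk : TT G ≤ Subgroup.upperCentralSeries G k) (g g' : G) (hg0 : g ∈ Li G)
    (hg0' : g' ∈ Li G) : orderOf g = orderOf g' := by
  by_contra hne
  obtain ⟨hg, h⟩ := hg0
  obtain ⟨hg', h'⟩ := hg0'
  have hcm : ∀ (q : ℕ) (_ : q.Prime) (z : G), z ∈ Li G → ¬ q ∣ orderOf z →
      ∀ s : G, (∃ j : ℕ, s ^ q ^ j = 1) → s * z = z * s := fun q hq z hz hqz s hs =>
    hyp_cmm k hq s z hs (hk (Subgroup.subset_closure hz)) hqz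
  have hl := prime_of_least G g hg h
  have hl' := prime_of_least G g' hg' h'
  have ho : orderOf (g : Equiv.Perm (Fin n)) = orderOf g := Subgroup.orderOf_coe g
  have ho' : orderOf (g' : Equiv.Perm (Fin n)) = orderOf g' := Subgroup.orderOf_coe g'
  have i1 := ind_prime (g : Equiv.Perm (Fin n)) (by rw [ho]; exact hl)
  have i2 := ind_prime (g' : Equiv.Perm (Fin n)) (by rw [ho']; exact hl')
  rw [ho] at i1
  rw [ho'] at i2
  have hn0 : n ≠ 0 := by omega
  have hgL : g ∈ Li G := ⟨hg, h⟩
  have hgL' : g' ∈ Li G := ⟨hg', h'⟩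
  change ind (g : Equiv.Perm (Fin n)) = indG G at h
  change ind (g' : Equiv.Perm (Fin n)) = indG G at h'
  set l := orderOf g with hldef
  set l' := orderOf g' with hldef'
  set I := indG G with hI
  rw [h] at i1
  rw [h'] at i2
  set m := n - Fx (g : Equiv.Perm (Fin n)) with hm
  set v := n.factorization l with hv
  have hnl : l ^ v ∣ n := Nat.ordProj_dvd n l
  have hI0 : 0 < I := by
    rw [← h]
    exact ind_pos _ (fun h => hg (Subtype.ext h))
  -- `l ^ v ∣ I`
  have hll' : ¬ l ∣ l' := fun hd => hne ((Nat.prime_dvd_prime_iff_eq hl hl').1 hd)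
  have d1 : l ^ v ∣ Fx (g' : Equiv.Perm (Fin n)) :=
    dvd_Fy hn0 hG hl g' (hcm l hl g' hgL' hll')
  have d2 : l ^ v ∣ l' * I := by
    rw [i2]
    exact Dvd.dvd.mul_left (Nat.dvd_sub hnl d1) _
  have d3 : l ^ v ∣ I :=
    (Nat.Coprime.pow_left v ((Nat.Prime.coprime_iff_not_dvd hl).2 hll')).dvd_of_dvd_mul_left d2
  -- `l ^ (v + 1) ∣ m`
  have hl1 : 1 < l := hl.one_lt
  have d4 : l ^ (v + 1) ∣ m := by
    have h1 : l ^ (v + 1) ∣ (l - 1) * m := by
      rw [← i1, pow_succ, mul_comm]
      exact Nat.mul_dvd_mul_left l d3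
    have h2 : ¬ l ∣ l - 1 := fun hd => by
      have := Nat.le_of_dvd (by omega) hd
      omega
    exact (Nat.Coprime.pow_left (v + 1) ((Nat.Prime.coprime_iff_not_dvd hl).2 h2)).dvd_of_dvd_mul_left h1
  have hm0 : m ≠ 0 := by
    intro h0
    rw [h0, mul_zero] at i1
    rcases Nat.mul_eq_zero.1 i1 with h1 | h1
    · omega
    · omega
  have hln : l * n ∣ m := by
    rw [← Nat.factorization_le_iff_dvd (by positivity) hm0]
    intro q
    by_cases hq : q.Prime
    · rw [Nat.factorization_mul (by omega) hn0, Finsupp.add_apply]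
      by_cases hql : q = l
      · rw [hql, hl.factorization_self, ← hv]
        have := (hl.pow_dvd_iff_le_factorization hm0).1 d4
        omega
      · have h1 : l.factorization q = 0 := by
          rw [Nat.Prime.factorization hl, Finsupp.single_apply, if_neg (Ne.symm hql)]
        rw [h1, zero_add]
        have h2 : q ^ n.factorization q ∣ m := by
          rw [hm]
          refine Nat.dvd_sub (Nat.ordProj_dvd n q) (dvd_Fy hn0 hG hq g (hcm q hq g hgL ?_))
          rw [← hldef]
          exact fun hd => hql ((Nat.prime_dvd_prime_iff_eq hq hl).1 hd)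
        exact (hq.pow_dvd_iff_le_factorization hm0).1 h2
    · rw [Nat.factorization_eq_zero_of_not_prime _ hq]
      exact Nat.zero_le _
  have h1 := Nat.le_of_dvd (Nat.pos_of_ne_zero hm0) hln
  have h2 : m ≤ n := Nat.sub_le _ _
  nlinarith

/-- `T` is a `p`-group -/
theorem tth_pgroup (G : Subgroup (Equiv.Perm (Fin n))) (k : ℕ)
    (hk : TT G ≤ Subgroup.upperCentralSeries G k) {p : ℕ} (hp : p.Prime)
    (hL : ∀ h ∈ Li G, h ^ p = 1) : IsPGroup p (TT G) := by
  obtain ⟨A, -, hm⟩ := zp_sub (G := G) hp k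
  have h1 : TT G ≤ A := by
    rw [Subgroup.closure_le]
    intro h hh
    exact (hm h).2 ⟨hk (Subgroup.subset_closure hh), 1, by rw [pow_one, hL h hh]⟩
  rintro ⟨x, hx⟩
  obtain ⟨j, hj⟩ := ((hm x).1 (h1 hx)).2
  exact ⟨j, Subtype.ext hj⟩

end perm

end H71.HT2
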