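import Pool.Agent.H71.HT2.Sdp

/-!
# [H71 HT2 KGA] the `p`-group `KH` (MP_b39724_nt, think 1829)

`Z : HZ p G P N₁`: a homomorphism `Z.E` of `G` to the extension `Xt (sm eP eN)` of `P × N₁`, with first coordinate `pr` (`h1`), the elements `t` with `ph t = 1` have second coordinate `1` (`h2`), `Z.E` is injective on them (`h3`). `eH eP` is the cocycle `eP x₁ y₁ - eP x₂ y₂ - x₃ y₄` on `P × P × C_p × C_p`, `KH` the extension.
PROOFS. `eH_coc`: `linear_combination` of the cocycle identities of `eP` (see `sm_coc`) and bilinearity. `kh_pg`: `|KH| = |P|^2 p^3` (see `uu_pg` in Sdp.lean; `Xt` is equivalent to `R × ZMod p`) or from exponents. `jj x z = ⟨(x, 1, 1, 1), z⟩` and `ii x z = ⟨(x, 1), z⟩ : Xt (sm eP eN)` multiply by the same formula (`xt_mul`): `(x, z) (y, w) = (x y, z + w + eP x y)`.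
For `u` with `ph u = 1`: `Z.E u = ii (pr u) (Z.E u).z` (`h1`, `h2`).
`ck`: `g i = jj (Z.E (cl i)).r.1 (Z.E (cl i)).z`; `pow`, `jj_pow`: `(ii x z)^n = ii (x^n) (w n)` and `(jj x z)^n = jj (x^n) (w n)` with the same `w n` (induction on `n`), and `(Z.E u)^n = 1` if `u^n = 1`; `ne`: `jj x z = 1` gives `Z.E (cl i) = 1`, `cl i = 1` by `h3`, `Q.cl.ne`; `uni`: let `k jj(x, z) k⁻¹ = jj(x', z')`, `k = ⟨(k₁, k₂, s, t), w⟩`; then also
`jj(k₁, 0) jj(x, z) jj(k₁, 0)⁻¹ = jj(x', z')` (`jj(k₁, 0)⁻¹ k` is in `ker kq`, so it commutes with `jj(x, z)`: `jj_cen`), so `ii(k₁, 0) ii(x, z) ii(k₁, 0)⁻¹ = ii(x', z')` (same formulas). Choose `g : G` with `pr g = k₁` (`prs`): `Z.E g = ii(k₁, 0) * c`, `c = (ii(k₁, 0))⁻¹ * Z.E g` has first coordinate `1` and commutes with `ii(x, z)`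
(`⟨(1, y), w⟩ * ii(x, z) = ⟨(x, y), w + z⟩ = ii(x, z) * ⟨(1, y), w⟩`), so `Z.E (g (cl i) g⁻¹) = Z.E (cl j)`, both in `ker ph`: `g (cl i) g⁻¹ = cl j` by `h3`, and `Q.cl.uni`. `jj_cen`: `eH (1, k₂, s, t) (x, 1, 1, 1) = eP 1 x - eP k₂ 1 - s * 0 = 0`, in the other order `eP x 1 - eP 1 k₂ - 0 * t = 0`. `kh_conj`: `u = g (cl i) g⁻¹` (or
inverse): `Z.E g = ii(g₁, 0) * c`, `c` commutes with `Z.E (cl i) = ii(..)`: `Z.E u = ii(g₁, 0) (Z.E (cl i)) ii(g₁, 0)⁻¹`, the same formula for `jj`.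
-/

set_option autoImplicit false

open scoped Classical

noncomputable section

namespace H71.HT2

open H57.BRA H77.PC3

section coc

variable {p : ℕ} {P : Type} [Group P]

/-- the cocycle `eP x₁ y₁ - eP x₂ y₂ - x₃ y₄` -/
def eH (eP : P → P → ZMod p)
    (x y : P × P × Multiplicative (ZMod p) × Multiplicative (ZMod p)) : ZMod p :=
  eP x.1 y.1 - eP x.2.1 y.2.1 - Multiplicative.toAdd x.2.2.1 * Multiplicative.toAdd y.2.2.2

theorem eH_coc {eP : P → P → ZMod p} (hP : Coc p eP) : Coc p (eH eP) where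
  l1 a := by
    show eP 1 a.1 - eP 1 a.2.1 - Multiplicative.toAdd (1 : Multiplicative (ZMod p)) *
      Multiplicative.toAdd a.2.2.2 = 0
    rw [hP.l1, hP.l1, toAdd_one, zero_mul, sub_zero, sub_zero]
  r1 a := by
    show eP a.1 1 - eP a.2.1 1 - Multiplicative.toAdd a.2.2.1 *
      Multiplicative.toAdd (1 : Multiplicative (ZMod p)) = 0
    rw [hP.r1, hP.r1, toAdd_one, mul_zero, sub_zero, sub_zero]
  co a b c := by
    show eP b.1 c.1 - eP b.2.1 c.2.1 -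
        Multiplicative.toAdd b.2.2.1 * Multiplicative.toAdd c.2.2.2 +
        (eP a.1 (b.1 * c.1) - eP a.2.1 (b.2.1 * c.2.1) - Multiplicative.toAdd a.2.2.1 *
          (Multiplicative.toAdd b.2.2.2 + Multiplicative.toAdd c.2.2.2)) =
      eP (a.1 * b.1) c.1 - eP (a.2.1 * b.2.1) c.2.1 -
        (Multiplicative.toAdd a.2.2.1 + Multiplicative.toAdd b.2.2.1) *
          Multiplicative.toAdd c.2.2.2 +
        (eP a.1 b.1 - eP a.2.1 b.2.1 -
          Multiplicative.toAdd a.2.2.1 * Multiplicative.toAdd b.2.2.2)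
    linear_combination hP.co a.1 b.1 c.1 - hP.co a.2.1 b.2.1 c.2.1

/-- the `p`-group -/
abbrev KH {eP : P → P → ZMod p} (hP : Coc p eP) : Type := Xt (eH eP) (eH_coc hP)

theorem kh_fin [NeZero p] [Finite P] {eP : P → P → ZMod p} (hP : Coc p eP) : Finite (KH hP) := by
  have h0 : Finite (Multiplicative (ZMod p)) := inferInstanceAs (Finite (ZMod p))
  refine Finite.of_injective (β := (P × P × Multiplicative (ZMod p) × Multiplicative (ZMod p)) ×
    ZMod p) (fun x : KH hP => (x.r, x.z)) ?_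
  intro x y h
  exact Xt.ext (Prod.ext_iff.1 h).1 (Prod.ext_iff.1 h).2

theorem kh_pow_r {eP : P → P → ZMod p} (hP : Coc p eP) (x : KH hP) (n : ℕ) :
    (x ^ n).r = x.r ^ n := by
  induction n with
  | zero =>
    rw [pow_zero, pow_zero]
    rfl
  | succ n ih =>
    rw [pow_succ, pow_succ, ← ih]
    rfl

theorem kh_pow_one {eP : P → P → ZMod p} (hP : Coc p eP) (x : KH hP) (h : x.r = 1) (n : ℕ) :
    x ^ n = ⟨1, n * x.z⟩ := by
  induction n with
  | zero =>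
    rw [pow_zero, Nat.cast_zero, zero_mul]
    rfl
  | succ n ih =>
    rw [pow_succ, ih]
    apply Xt.ext
    · show 1 * x.r = 1
      rw [h, one_mul]
    · show (n : ZMod p) * x.z + x.z + eH eP 1 x.r = ((n + 1 : ℕ) : ZMod p) * x.z
      rw [(eH_coc hP).l1, Nat.cast_succ]
      ring

theorem kh_pg (hp : p.Prime) (hG : IsPGroup p P) {eP : P → P → ZMod p} (hP : Coc p eP) :
    IsPGroup p (KH hP) := by
  have hc : ∀ c : Multiplicative (ZMod p), c ^ p = 1 := by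
    intro c
    apply Multiplicative.toAdd.injective
    rw [toAdd_pow, toAdd_one, nsmul_eq_mul, CharP.cast_eq_zero, zero_mul]
  intro x
  obtain ⟨i, hi⟩ := hG x.r.1
  obtain ⟨j, hj⟩ := hG x.r.2.1
  have h1 : x.r ^ p ^ (i + j + 1) = 1 := by
    refine Prod.ext ?_ (Prod.ext ?_ (Prod.ext ?_ ?_))
    · show x.r.1 ^ p ^ (i + j + 1) = 1
      rw [show i + j + 1 = i + (j + 1) from by omega, pow_add, pow_mul, hi, one_pow]
    · show x.r.2.1 ^ p ^ (i + j + 1) = 1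
      rw [show i + j + 1 = j + (i + 1) from by omega, pow_add, pow_mul, hj, one_pow]
    · show x.r.2.2.1 ^ p ^ (i + j + 1) = 1
      rw [pow_succ', pow_mul, hc, one_pow]
    · show x.r.2.2.2 ^ p ^ (i + j + 1) = 1
      rw [pow_succ', pow_mul, hc, one_pow]
  refine ⟨i + j + 1 + 1, ?_⟩
  have h2 : (x ^ p ^ (i + j + 1)).r = 1 := by rw [kh_pow_r, h1]
  rw [pow_succ, pow_mul, kh_pow_one hP _ h2, CharP.cast_eq_zero, zero_mul]
  rfl

/-- the first coordinate -/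
def kq {eP : P → P → ZMod p} (hP : Coc p eP) : KH hP →* P where
  toFun x := x.r.1
  map_one' := rfl
  map_mul' _ _ := rfl

/-- the elements `(x, z)` -/
def jj {eP : P → P → ZMod p} (hP : Coc p eP) (x : P) (z : ZMod p) : KH hP := ⟨(x, 1, 1, 1), z⟩

theorem jj_rel {eP : P → P → ZMod p} (hP : Coc p eP) (k : KH hP) (x x' : P) (z z' : ZMod p) :
    k * jj hP x z = jj hP x' z' * k ↔
      k.r.1 * x = x' * k.r.1 ∧ z + eP k.r.1 x = z' + eP x' k.r.1 := by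
  have e1 : (k * jj hP x z).r = (k.r.1 * x, k.r.2.1, k.r.2.2.1, k.r.2.2.2) := by
    refine Prod.ext rfl (Prod.ext ?_ (Prod.ext ?_ ?_))
    · exact mul_one k.r.2.1
    · exact mul_one k.r.2.2.1
    · exact mul_one k.r.2.2.2
  have e2 : (jj hP x' z' * k).r = (x' * k.r.1, k.r.2.1, k.r.2.2.1, k.r.2.2.2) := by
    refine Prod.ext rfl (Prod.ext ?_ (Prod.ext ?_ ?_))
    · exact one_mul k.r.2.1
    · exact one_mul k.r.2.2.1
    · exact one_mul k.r.2.2.2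
  have e3 : (k * jj hP x z).z = k.z + z + eP k.r.1 x := by
    show k.z + z + (eP k.r.1 x - eP k.r.2.1 1 - Multiplicative.toAdd k.r.2.2.1 *
      Multiplicative.toAdd (1 : Multiplicative (ZMod p))) = _
    rw [hP.r1, toAdd_one, mul_zero, sub_zero, sub_zero]
  have e4 : (jj hP x' z' * k).z = z' + k.z + eP x' k.r.1 := by
    show z' + k.z + (eP x' k.r.1 - eP 1 k.r.2.1 -
      Multiplicative.toAdd (1 : Multiplicative (ZMod p)) * Multiplicative.toAdd k.r.2.2.2) = _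
    rw [hP.l1, toAdd_one, zero_mul, sub_zero, sub_zero]
  constructor
  · intro h
    have h1 := congrArg Xt.r h
    have h2 := congrArg Xt.z h
    rw [e1, e2] at h1
    rw [e3, e4] at h2
    exact ⟨(Prod.ext_iff.1 h1).1, by linear_combination h2⟩
  · rintro ⟨h1, h2⟩
    apply Xt.ext
    · rw [e1, e2, h1]
    · rw [e3, e4]
      linear_combination h2

theorem jj_cen {eP : P → P → ZMod p} (hP : Coc p eP) (x : P) (z : ZMod p) (k : KH hP)
    (hk : kq hP k = 1) : k * jj hP x z = jj hP x z * k := by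
  have hk1 : k.r.1 = 1 := hk
  rw [jj_rel, hk1, hP.l1, hP.r1, one_mul, mul_one]
  exact ⟨rfl, rfl⟩

end coc

section frame

variable {p N : ℕ} {G P H N₁ : Type} [Group G] [Group P] [Group H] [Group N₁]

/-- the elements `(x, z)` of the extension of `P × N₁` -/
def ii (Z : HZ p G P N₁) (x : P) (z : ZMod p) : Xt (sm Z.eP Z.eN) (sm_coc Z.hP Z.hN) := ⟨(x, 1), z⟩

theorem ii_rel (Z : HZ p G P N₁) (a : Xt (sm Z.eP Z.eN) (sm_coc Z.hP Z.hN)) (x x' : P)
    (z z' : ZMod p) : a * ii Z x z = ii Z x' z' * a ↔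
      a.r.1 * x = x' * a.r.1 ∧ z + Z.eP a.r.1 x = z' + Z.eP x' a.r.1 := by
  have e1 : (a * ii Z x z).r = (a.r.1 * x, a.r.2) := Prod.ext rfl (mul_one a.r.2)
  have e2 : (ii Z x' z' * a).r = (x' * a.r.1, a.r.2) := Prod.ext rfl (one_mul a.r.2)
  have e3 : (a * ii Z x z).z = a.z + z + Z.eP a.r.1 x := by
    show a.z + z + (Z.eP a.r.1 x + Z.eN a.r.2 1) = _
    rw [Z.hN.r1, add_zero]
  have e4 : (ii Z x' z' * a).z = z' + a.z + Z.eP x' a.r.1 := by
    show z' + a.z + (Z.eP x' a.r.1 + Z.eN 1 a.r.2) = _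
    rw [Z.hN.l1, add_zero]
  constructor
  · intro h
    have h1 := congrArg Xt.r h
    have h2 := congrArg Xt.z h
    rw [e1, e2] at h1
    rw [e3, e4] at h2
    exact ⟨(Prod.ext_iff.1 h1).1, by linear_combination h2⟩
  · rintro ⟨h1, h2⟩
    apply Xt.ext
    · rw [e1, e2, h1]
    · rw [e3, e4]
      linear_combination h2

/-- the second coordinates of the powers -/
def wn (eP : P → P → ZMod p) (x : P) (z : ZMod p) : ℕ → ZMod p
  | 0 => 0
  | n + 1 => wn eP x z n + z + eP (x ^ n) x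

theorem jj_powf {eP : P → P → ZMod p} (hP : Coc p eP) (x : P) (z : ZMod p) (n : ℕ) :
    jj hP x z ^ n = jj hP (x ^ n) (wn eP x z n) := by
  induction n with
  | zero =>
    rw [pow_zero, pow_zero]
    rfl
  | succ n ih =>
    rw [pow_succ, ih]
    apply Xt.ext
    · refine Prod.ext ?_ (Prod.ext ?_ (Prod.ext ?_ ?_))
      · exact (pow_succ x n).symm
      · exact mul_one (1 : P)
      · exact mul_one (1 : Multiplicative (ZMod p))
      · exact mul_one (1 : Multiplicative (ZMod p))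
    · show wn eP x z n + z + (eP (x ^ n) x - eP 1 1 -
        Multiplicative.toAdd (1 : Multiplicative (ZMod p)) *
          Multiplicative.toAdd (1 : Multiplicative (ZMod p))) = wn eP x z n + z + eP (x ^ n) x
      rw [hP.l1, toAdd_one, mul_zero, sub_zero, sub_zero]

theorem ii_powf (Z : HZ p G P N₁) (x : P) (z : ZMod p) (n : ℕ) :
    ii Z x z ^ n = ii Z (x ^ n) (wn Z.eP x z n) := by
  induction n with
  | zero =>
    rw [pow_zero, pow_zero]
    rfl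
  | succ n ih =>
    rw [pow_succ, ih]
    apply Xt.ext
    · refine Prod.ext ?_ ?_
      · exact (pow_succ x n).symm
      · exact mul_one (1 : N₁)
    · show wn Z.eP x z n + z + (Z.eP (x ^ n) x + Z.eN 1 1) = wn Z.eP x z n + z + Z.eP (x ^ n) x
      rw [Z.hN.l1, add_zero]

theorem ker_ii (Q : HU p N G P H) (Z : HZ p G P N₁)
    (h2 : ∀ t, Q.ph t = 1 → (Z.E t).r.2 = 1) (u : G) (hu : Q.ph u = 1) :
    Z.E u = ii Z (Z.E u).r.1 (Z.E u).z :=
  Xt.ext (Prod.ext rfl (h2 u hu)) rfl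

theorem jj_pow0 (Q : HU p N G P H) (Z : HZ p G P N₁)
    (h2 : ∀ t, Q.ph t = 1 → (Z.E t).r.2 = 1) (u : G) (hu : Q.ph u = 1) (n : ℕ)
    (h : u ^ n = 1) : jj Z.hP (Z.E u).r.1 (Z.E u).z ^ n = 1 := by
  have h3 : Z.E u ^ n = 1 := by rw [← map_pow, h, map_one]
  rw [ker_ii Q Z h2 u hu, ii_powf] at h3
  have h4 := congrArg Xt.r h3
  have h5 := congrArg Xt.z h3
  rw [jj_powf]
  have h6 : (Z.E u).r.1 ^ n = 1 := (Prod.ext_iff.1 h4).1
  have h7 : wn Z.eP (Z.E u).r.1 (Z.E u).z n = 0 := h5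
  rw [h6, h7]
  rfl

/-- the classes in `KH` -/
def ck (Q : HU p N G P H) (Z : HZ p G P N₁) (h1 : ∀ g, (Z.E g).r.1 = Q.pr g)
    (h2 : ∀ t, Q.ph t = 1 → (Z.E t).r.2 = 1) (h3 : ∀ t, Q.ph t = 1 → Z.E t = 1 → t = 1) :
    CL p N (KH Z.hP) where
  g i := jj Z.hP (Z.E (Q.cl.g i)).r.1 (Z.E (Q.cl.g i)).z
  pow i := jj_pow0 Q Z h2 _ (hq_cl Q.toHQ i) p (Q.cl.pow i)
  ne i h := by
    have h4 := congrArg Xt.r h
    have h5 : (Z.E (Q.cl.g i)).z = 0 := congrArg Xt.z h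
    have h6 : (Z.E (Q.cl.g i)).r.1 = 1 := (Prod.ext_iff.1 h4).1
    refine Q.cl.ne i (h3 _ (hq_cl Q.toHQ i) ?_)
    exact Xt.ext (Prod.ext h6 (h2 _ (hq_cl Q.toHQ i))) h5
  uni i j h := by
    obtain ⟨k, hk⟩ := isConj_iff.1 h
    rw [mul_inv_eq_iff_eq_mul, jj_rel] at hk
    obtain ⟨g, hg⟩ := Q.prs k.r.1
    have h4 : Z.E g * Z.E (Q.cl.g i) = Z.E (Q.cl.g j) * Z.E g := by
      rw [ker_ii Q Z h2 _ (hq_cl Q.toHQ i), ker_ii Q Z h2 _ (hq_cl Q.toHQ j), ii_rel, h1 g, hg]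
      exact hk
    have h5 : g * Q.cl.g i * g⁻¹ * (Q.cl.g j)⁻¹ = 1 := by
      apply h3
      · rw [map_mul, map_mul, map_mul, map_inv, map_inv, hq_cl Q.toHQ i, hq_cl Q.toHQ j, mul_one,
          mul_inv_cancel, inv_one, mul_one]
      · rw [map_mul, map_mul, map_mul, map_inv, map_inv, h4, mul_inv_cancel_right,
          mul_inv_cancel]
    exact Q.cl.uni i j (isConj_iff.2 ⟨g, mul_inv_eq_one.1 h5⟩)

theorem ck_cen (Q : HU p N G P H) (Z : HZ p G P N₁) (h1 : ∀ g, (Z.E g).r.1 = Q.pr g)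
    (h2 : ∀ t, Q.ph t = 1 → (Z.E t).r.2 = 1) (h3 : ∀ t, Q.ph t = 1 → Z.E t = 1 → t = 1)
    (k : KH Z.hP) (hk : kq Z.hP k = 1) (i : Fin N) :
    k * (ck Q Z h1 h2 h3).g i = (ck Q Z h1 h2 h3).g i * k :=
  jj_cen _ _ _ k hk

theorem kh_conj (Q : HU p N G P H) (Z : HZ p G P N₁) (h1 : ∀ g, (Z.E g).r.1 = Q.pr g)
    (h2 : ∀ t, Q.ph t = 1 → (Z.E t).r.2 = 1) (h3 : ∀ t, Q.ph t = 1 → Z.E t = 1 → t = 1)
    (u : G) (i : Fin N) (hu : IsConj u (Q.cl.g i)) :
    IsConj (jj Z.hP (Z.E u).r.1 (Z.E u).z) ((ck Q Z h1 h2 h3).g i) := by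
  obtain ⟨g, hg⟩ := isConj_iff.1 hu
  have hu1 : Q.ph u = 1 := by
    have h4 := congrArg Q.ph hg
    rw [map_mul, map_mul, map_inv, hq_cl Q.toHQ i, mul_inv_eq_one] at h4
    exact mul_eq_left.1 h4
  have h4 : Z.E g * Z.E u = Z.E (Q.cl.g i) * Z.E g := by
    rw [← map_mul, ← map_mul, ← hg, inv_mul_cancel_right]
  rw [ker_ii Q Z h2 u hu1, ker_ii Q Z h2 _ (hq_cl Q.toHQ i), ii_rel] at h4
  refine isConj_iff.2 ⟨jj Z.hP (Z.E g).r.1 0, ?_⟩
  rw [mul_inv_eq_iff_eq_mul]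
  exact (jj_rel Z.hP _ _ _ _ _).2 h4

theorem jj_pow (Q : HU p N G P H) (Z : HZ p G P N₁) (h1 : ∀ g, (Z.E g).r.1 = Q.pr g)
    (h2 : ∀ t, Q.ph t = 1 → (Z.E t).r.2 = 1) (u : G) (hu : Q.ph u = 1) (n : ℕ)
    (h : u ^ n = 1) : jj Z.hP (Z.E u).r.1 (Z.E u).z ^ n = 1 :=
  jj_pow0 Q Z h2 u hu n h

end frame

end H71.HT2
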