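import Pool.Agent.H24.RK.Has

/-!
# [H71 HT2 KLP] a class of a `p`-group becomes trivial over `K(a^{1/p})`, `a` ramified where `ρ` is (MP_b39724_nt, think 1829)

`ρ : Γ → R` with `ρ σ ^ (p ^ k) = 1` for all `σ`, `pb e ρ` trivial on the decomposition groups at `S`; at the other primes `ρ` is unramified or `kk a` is ramified.
PROOF of `klp_loc`. `P` over `v`, `¬ Above p v`. `ψ = (ρ, kc a) : Γ → R × Multiplicative (ZMod p)` of finite type; the image of the inertia group has exponent `p ^ (k + 1)`, so its order is a power of `p` and `cyc` (H38/BG/TCyc.lean; see the proof of `comk`, H24/RK/Loc.lean) gives `τ₀ ∈ P.inertia` with `ψ τ ∈ zpowers (ψ τ₀)` for all `τ ∈ P.inertia`. By `hra`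
`kk a τ₀ ≠ 0`. Let `kk a τ = 0`: `ψ τ = ψ τ₀ ^ j`, `j kk a τ₀ = 0`, so `p ∣ j` and `ρ τ = (ρ τ₃) ^ p`, `τ₃ = τ₀ ^ (j/p)`.
PROOF of `klp`. If `ρ` is unramified at all primes outside `S` (in particular if `a` is a `p`-th power, then `kk a = 0`: `kk_eq_zero_iff`): `hasfK` over `K`, `LTK` is clear (`ρ τ = 1`). In general, if `a` is not a `p`-th power: `bca_exists` gives `M = K(a^{1/p})`; `hasfK` over `M` (see the proof of `kil`, H24/RK/Kil.lean, with `D.S0` replaced by `S`) for `ρ.comp (rsK K M Ω)`: for `F'`, `τ'` over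
`M`, `τ = rsK τ' ∈ P.inertia` (`bcp_inertia`), `FrP` for `rsK F'` (`bcp_frp`), `kk a τ = 0` (`bca_range`): if `ρ` is unramified at `P` clear (`iv_one_left`, `iv_swap`); otherwise `ρ τ = (ρ τ₃) ^ p` and `ρ F`, `ρ τ₃` commute: `ltrK` (H24/RK/Ltr.lean) with the local data `exists_unif v`, `exists_LD`, `frob_univK` (as in `hasK_step`), so `iv e (ρ F) (ρ τ) = p iv e (ρ F) (ρ τ₃) = 0`
(`iv_pow_right`, `ZMod.natCast_self`). The result is `Tv (pb e (ρ.comp (rsK K M Ω)))`; back to `K` as in `kil` (`bca_lev'`, `bca_range`).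
-/

set_option autoImplicit false

open scoped NumberField Pointwise
open IsDedekindDomain

noncomputable section

namespace H71.HT2

open H63.MA H38.BB H38.BG H57.PC H57.BRA H89.BRG H24.RK

variable {K : Type} [Field K] [NumberField K] {Ω : Type} [Field Ω] [Algebra K Ω] [IsAlgClosure K Ω]
  {p : ℕ} {ζ : K}

theorem klp_loc {k : ℕ} (hp : p.Prime) (hζ : IsPrimitiveRoot ζ p) {R : Type} [Group R]
    [Finite R] {ρ : Gal(Ω/K) →* R} (hρ : H38.ML.FT ρ) (hx : ∀ σ, ρ σ ^ (p ^ k) = 1) (a : Kˣ)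
    (v : Pl K) (hv : ¬ Above p v) (P : Ideal (𝓞 Ω)) (hP : P.IsPrime)
    (hPv : P.under (𝓞 K) = v.asIdeal) (hra : ∃ τ ∈ P.inertia Gal(Ω/K), kk p ζ a τ ≠ 0)
    (τ : Gal(Ω/K)) (hτ : τ ∈ P.inertia Gal(Ω/K)) (ha : kk p ζ a τ = 0) :
    ∃ τ₃ ∈ P.inertia Gal(Ω/K), ρ τ = ρ τ₃ ^ p := by
  have hpf : Fact p.Prime := ⟨hp⟩
  have hp0 : NeZero p := ⟨hp.ne_zero⟩
  have hfm : Finite (Multiplicative (ZMod p)) := inferInstanceAs (Finite (ZMod p))
  obtain ⟨ψ, hψ⟩ : ∃ ψ : Gal(Ω/K) →* Multiplicative (ZMod p) × R, ψ = (kc p ζ Ω a).prod ρ := ⟨_, rfl⟩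
  have hft : H38.ML.FT ψ := by
    rw [hψ]
    exact gtame_ft_prod _ _ (kc_is (Ω := Ω) hp hζ a).1 hρ
  have hval : ∀ σ, ψ σ = (kc p ζ Ω a σ, ρ σ) := by
    intro σ
    rw [hψ]
    rfl
  have hcp : ∀ y : Multiplicative (ZMod p), y ^ p = 1 := by
    intro y
    apply Multiplicative.toAdd.injective
    rw [toAdd_pow, nsmul_eq_mul, CharP.cast_eq_zero, zero_mul]
    rfl
  have hpow : ∀ σ : Gal(Ω/K), ψ σ ^ (p ^ (k + 1)) = 1 := by
    intro σ
    rw [hval, Prod.pow_mk]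
    apply Prod.ext
    · show kc p ζ Ω a σ ^ (p ^ (k + 1)) = 1
      rw [pow_succ', pow_mul, hcp, one_pow]
    · show ρ σ ^ (p ^ (k + 1)) = 1
      rw [pow_succ, pow_mul, hx, one_pow]
  have hpg : IsPGroup p ((P.inertia Gal(Ω/K)).map ψ) := by
    rintro ⟨x, hx'⟩
    obtain ⟨σ, hσ, rfl⟩ := Subgroup.mem_map.1 hx'
    exact ⟨k + 1, Subtype.ext (hpow σ)⟩
  obtain ⟨n1, hn⟩ := IsPGroup.iff_card.1 hpg
  have hc : ((Nat.card ((P.inertia Gal(Ω/K)).map ψ) : ℕ) : 𝓞 K) ∉ v.asIdeal := by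
    rw [hn, Nat.cast_pow]
    intro h
    exact hv (v.isPrime.mem_of_pow_mem n1 h)
  obtain ⟨τ₀, hτ₀, hcyc⟩ := cyc v P hP hPv ψ hft hc
  -- the values of the Kummer character
  have hkk : ∀ (σ : Gal(Ω/K)) (i : ℤ), ψ σ = ψ τ₀ ^ i → kk p ζ a σ = (i : ZMod p) * kk p ζ a τ₀ ∧ ρ σ = ρ τ₀ ^ i := by
    intro σ i h
    rw [hval, hval] at h
    have h1 : kc p ζ Ω a σ = kc p ζ Ω a τ₀ ^ i := congrArg Prod.fst h
    have h2 : ρ σ = ρ τ₀ ^ i := congrArg Prod.snd h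
    refine ⟨?_, h2⟩
    show Multiplicative.toAdd (kc p ζ Ω a σ) = (i : ZMod p) * Multiplicative.toAdd (kc p ζ Ω a τ₀)
    rw [h1, toAdd_zpow, zsmul_eq_mul]
  have hne : kk p ζ a τ₀ ≠ 0 := by
    intro h0
    obtain ⟨τ₁, hτ₁, h1⟩ := hra
    obtain ⟨i, hi⟩ := Subgroup.mem_zpowers_iff.1 (hcyc τ₁ hτ₁)
    apply h1
    rw [(hkk τ₁ i hi.symm).1, h0, mul_zero]
  obtain ⟨i, hi⟩ := Subgroup.mem_zpowers_iff.1 (hcyc τ hτ)
  obtain ⟨h1, h2⟩ := hkk τ i hi.symm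
  rw [ha] at h1
  rcases mul_eq_zero.1 h1.symm with h3 | h3
  · obtain ⟨m, hm⟩ := (ZMod.intCast_zmod_eq_zero_iff_dvd i p).1 h3
    refine ⟨τ₀ ^ m, zpow_mem hτ₀ m, ?_⟩
    rw [h2, hm, map_zpow, ← zpow_natCast, ← zpow_mul, mul_comm]
  · exact absurd h3 hne

theorem klp {k : ℕ} (hk : 0 < k) (hp : p.Prime) (hp2 : MOne p K) (hζ : IsPrimitiveRoot ζ p)
    (hz : Zn p (k + 1) K) {R : Type} [Group R] [Finite R] {e : R → R → ZMod p} (he : Coc p e)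
    {ρ : Gal(Ω/K) →* R} (hρ : H38.ML.FT ρ) (hx : ∀ σ, ρ σ ^ (p ^ k) = 1)
    (S : Finset (Pl K)) (hSa : ∀ v, Above p v → v ∈ S)
    (hSd : ∀ v ∈ S, ∀ P : Ideal (𝓞 Ω), P.IsPrime → P.under (𝓞 K) = v.asIdeal →
      Kl (pb e ρ) (Dc K P : Set Gal(Ω/K)))
    (a : Kˣ)
    (hra : ∀ v, v ∉ S → ∀ P : Ideal (𝓞 Ω), P.IsPrime → P.under (𝓞 K) = v.asIdeal →
      (∀ τ ∈ P.inertia Gal(Ω/K), ρ τ = 1) ∨ ∃ τ ∈ P.inertia Gal(Ω/K), kk p ζ a τ ≠ 0) :
    Kl (pb e ρ) {σ : Gal(Ω/K) | kk p ζ a σ = 0} := by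
  classical
  have hpf : Fact p.Prime := ⟨hp⟩
  have hun : ∀ {L : Type} [Field L] [NumberField L] [Algebra L Ω] (φ : Gal(Ω/L) →* R) (P : Ideal (𝓞 Ω)),
      (∀ τ ∈ P.inertia Gal(Ω/L), φ τ = 1) → LTK k e φ P := by
    intro L _ _ _ φ P h
    refine ⟨fun τ hτ => by rw [h τ hτ, one_pow], fun F _ τ hτ => ?_⟩
    rw [h τ hτ]
    exact ⟨by rw [mul_one, one_mul], by rw [iv_swap, iv_one_left he, neg_zero]⟩
  by_cases hpa : IsPow p a
  · have h0 : ∀ σ : Gal(Ω/K), kk p ζ a σ = 0 := (kk_eq_zero_iff hp hζ a).2 hpa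
    obtain ⟨l, hl, hl2⟩ := hasfK hk hp he hζ hp2 hz ρ hρ S hSa hSd (fun v hv P hP hPv => by
      rcases hra v hv P hP hPv with h | ⟨τ, _, h⟩
      · exact hun ρ P h
      · exact absurd (h0 τ) h)
    exact ⟨l, hl, fun σ _ τ _ => hl2 σ τ⟩
  · obtain ⟨M, _, _, _, _, _, ⟨H⟩⟩ := bca_exists Ω hp hζ hpa
    have hclo : IsAlgClosure M Ω := bca_clo K M Ω
    have hM : Tv (pb e (ρ.comp (rsK K M Ω))) := by
      have hfin : {w : Pl M | ∃ v ∈ S, Over w v}.Finite := by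
        have h1 : {w : Pl M | ∃ v ∈ S, Over w v} = ⋃ v ∈ S, {w : Pl M | Over w v} := by
          ext w
          simp only [Set.mem_ofPred_eq, Set.mem_iUnion, exists_prop]
        rw [h1]
        exact Set.Finite.biUnion S.finite_toSet fun v _ => over_finite v
      have hmem : ∀ w : Pl M, w ∈ hfin.toFinset ↔ ∃ v ∈ S, Over w v := by
        intro w
        rw [Set.Finite.mem_toFinset]
        rfl
      refine hasfK hk hp he (GBase_zeta hζ) (mone_map hp2 M) (hz.map M)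
        (ρ.comp (rsK K M Ω)) (bca_ft hρ) hfin.toFinset
        (fun w hw => ?_) (fun w hw P hP hPw => ?_) (fun w hw => ?_)
      · obtain ⟨v, hv⟩ := exists_below (K := K) w
        exact (hmem w).2 ⟨v, hSa v ((above_over hv p).1 hw), hv⟩
      · obtain ⟨v, hvS, hv⟩ := (hmem w).1 hw
        exact dc_kl_rs (hSd v hvS P hP (bcp_under hv hPw))
      · obtain ⟨v, hwv⟩ := exists_below (K := K) w
        have hvS : v ∉ S := fun h => hw ((hmem w).2 ⟨v, h, hwv⟩)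
        have hv : ¬ Above p v := fun h => hvS (hSa v h)
        intro P hP hPw
        have hPv := bcp_under hwv hPw
        rcases hra v hvS P hP hPv with h | hra'
        · exact hun _ P fun τ hτ => h _ (bcp_inertia hτ)
        · obtain ⟨π, hπ⟩ := H63.MA.exists_unif v
          obtain ⟨Lv⟩ := exists_LD Ω hp hζ hv hπ
          obtain ⟨F, _, hF⟩ := frob_univK hp hζ hz hv hπ Lv
          obtain ⟨h1, h2⟩ := ltrK hp hζ he hρ hv hπ Lv hF (fun τ _ => hx τ) P hP hPv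
          refine ⟨fun τ hτ => h1 _ (bcp_inertia hτ), fun F' hF' τ' hτ' => ?_⟩
          have hF'' := bcp_frp hwv hPw hF'
          have hτ'' := bcp_inertia (K := K) hτ'
          refine ⟨(h2 (rsK K M Ω F') hF'' (rsK K M Ω τ') hτ'').1, ?_⟩
          change iv e (ρ (rsK K M Ω F')) (ρ (rsK K M Ω τ')) = 0
          obtain ⟨τ₃, h3, h4⟩ := klp_loc hp hζ hρ hx a v hv P hP hPv hra' (rsK K M Ω τ') hτ''
            ((bca_range hp hζ H _).2 ⟨τ', rfl⟩)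
          rw [h4, iv_pow_right he (h2 (rsK K M Ω F') hF'' τ₃ h3).1, ZMod.natCast_self, zero_mul]
    obtain ⟨l', hl1, hl2⟩ := hM
    obtain ⟨l, hl3, hl4⟩ := bca_lev' (K := K) (L := M) hl1
    refine ⟨l, hl3, fun σ hσ τ hτ => ?_⟩
    obtain ⟨σ', rfl⟩ := (bca_range hp hζ H σ).1 hσ
    obtain ⟨τ', rfl⟩ := (bca_range hp hζ H τ).1 hτ
    rw [← map_mul, hl4, hl4, hl4]
    exact hl2 σ' τ'

end H71.HT2
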