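import Pool.Agent.H71.HT2.Qut
import Pool.Agent.H51.HC.Lim

/-!
# [H71 HT2 QLM] the number of surjective homomorphisms (as `hlim`, `hup`, H51/HC/Lim.lean, copy) (MP_b39724_nt, think 1829)

CHANGES. `S₁` from `qut`; `D` from `exists_RD_of` with the places over `n!` and `S₁`. `qesp`, `qut` in the place of `hesp`, `hut`; `hHB` from `rblt_fin` and `rblt_of` for every `E`. `Q.ph (Q.cl.g i) = 1`: `hq_cl`.
-/

set_option autoImplicit false

open scoped NumberField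
open IsDedekindDomain Filter Topology H38.ML
open scoped Classical

noncomputable section

namespace H71.HT2

open H63.MA H38.BB H38.BG H57.PC H57.BRA H63.BU H77.PC3 H57.CC H38.AS H77.S0T H77.AB H77.GN
  H77.UX H77.FLD H77.PLF H51.PF H51.F3

variable {n : ℕ} (G : Subgroup (Equiv.Perm (Fin n))) (K : IntermediateField ℚ QBar)
  [NumberField K]

theorem qlim (hn : 2 ≤ n) (hG : MulAction.IsPretransitive G (Fin n))
    {p : ℕ} [NeZero p] (hp : p.Prime) (hp2 : MOne p K) {ζ : K}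
    (hζ : IsPrimitiveRoot ζ p) {M : ℕ} {z₂ : K} (hz2 : IsPrimitiveRoot z₂ (p ^ M)) {N : ℕ}
    {P H : Type} [Group P] [Group H] (Q : HU p N G P H) (hP : IsPGroup p P)
    (hU : QUb p M Q.toHQ) (hLm : QLim p M Q.toHQ)
    (θ : ℝ) (hθ : 0 ≤ θ) (hRB : H86.HT.RBt K QBar H θ)
    (hr : ∀ g : G, Q.ph g ≠ 1 → θ * (indG G : ℝ) < (ind (g : Equiv.Perm (Fin n)) : ℝ))
    (hI : ∀ h : G, (h ≠ 1 ∧ ind (h : Equiv.Perm (Fin n)) = indG G) ↔
      ∃ i, IsConj h (Q.cl.g i))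
    (i₀ : Fin n) :
    (∀ B, (CfinS G K i₀ B).Finite) ∧ ∃ c : ℝ, Tendsto (fun B : ℝ =>
      ((CfinS G K i₀ B).ncard : ℝ) / (B ^ (1 / (indG G : ℝ)) * Real.log B ^ (N - 1)))
        atTop (𝓝 c) := by
  obtain ⟨ha, -, hmin, -, hJ⟩ := pidx_pos hn G hG
  have hfac : {v : Pl K | ((n.factorial : ℕ) : 𝓞 K) ∈ v.asIdeal}.Finite :=
    finite_above (K := K) (Nat.factorial_ne_zero n)
  obtain ⟨S₁, hS₁⟩ := qut hp hζ hz2 Q.toHQ hU
  obtain ⟨D, hD0'⟩ := H38.BB.exists_RD_of K hp hp2 hζ (hfac.toFinset ∪ S₁)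
  have hD0 : ∀ v ∈ hfac.toFinset, v ∈ D.S0 := fun v hv => hD0' v (Finset.mem_union_left _ hv)
  have hDS : S₁ ⊆ D.S0 := fun v hv => hD0' v (Finset.mem_union_right _ hv)
  have hD : ∀ v : Pl K, ((n.factorial : ℕ) : 𝓞 K) ∈ v.asIdeal → v ∈ D.S0 := fun v hv =>
    hD0 v (by
      rw [Set.Finite.mem_toFinset]
      exact hv)
  have hS : ∀ v : Pl K, ((Nat.card G : ℕ) : 𝓞 K) ∈ v.asIdeal → v ∈ D.S0 := fun v hv => by
    apply hD v
    obtain ⟨k, hk⟩ := esp_dvd G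
    rw [hk]
    push_cast
    exact Ideal.mul_mem_right _ _ hv
  obtain ⟨Q'⟩ := exists_DP K QBar
  obtain ⟨r, hr1, hr2, hr3⟩ := H51.HC.rmin hn G hG Q.ph θ (fun g hg h => by
    obtain ⟨i, hi⟩ := (hI g).1 ⟨hg, h⟩
    obtain ⟨x, hx⟩ := isConj_iff.1 hi
    have h1 := hq_cl Q.toHQ i
    rw [← hx, map_mul, map_mul, map_inv] at h1
    have h2 : Q.ph g = (Q.ph x)⁻¹ * (Q.ph x * Q.ph g * (Q.ph x)⁻¹) * Q.ph x := by group
    rw [h2, h1]
    group) hr
  obtain ⟨L, hLQ⟩ := lds_of hp hζ D.toRD0 Q'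
  obtain ⟨⟨wt, hw1, hw2, hw3⟩, C, hC, hup⟩ := hS₁ D hDS L θ hθ
    (H51.HC.rblt_of _ _ _ θ hRB) hS (indG G) r ha hr1 hr2
    (fun H => n - orbs (H.map G.subtype))
    (fun H hH => by
      have := hJ H hH
      omega)
    (fun g hg h => by
      refine (hI g).1 ⟨hg, le_antisymm ?_ (hmin g hg)⟩
      have h1 : (Subgroup.zpowers g).map G.subtype =
          Subgroup.zpowers (g : Equiv.Perm (Fin n)) := by
        rw [MonoidHom.map_zpowers]
        rfl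
      rw [h1] at h
      exact h)
    hr3
  -- the sets are finite
  have hfin : ∀ B, (CfinS G K i₀ B).Finite := by
    have h1 : ∀ B, 3 ≤ B → (CfinS G K i₀ B).Finite := by
      intro B hB
      by_contra hinf
      obtain ⟨F, hF1, hF2⟩ := Set.Infinite.exists_subset_card_eq hinf
        (⌊C * (B ^ (1 / (indG G : ℝ)) * Real.log B ^ (N - 1))⌋₊ + 1)
      have h2 := hup B hB F (by
        intro φ hφ
        obtain ⟨h3, h4, h5⟩ := hF1 hφ
        exact ⟨h3, h4, fun T hT => (dsm_lo hn G hG K D.toRD0 L i₀ φ h4 h3 T hT).trans h5⟩)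
      rw [hF2] at h2
      push_cast at h2
      have h3 := Nat.lt_floor_add_one (C * (B ^ (1 / (indG G : ℝ)) * Real.log B ^ (N - 1)))
      linarith
    intro B
    refine (h1 (max B 3) (le_max_right _ _)).subset fun φ hφ =>
      ⟨hφ.1, hφ.2.1, hφ.2.2.trans (le_max_left _ _)⟩
  refine ⟨hfin, ?_⟩
  have hE := fun E => qesp hn G hG hp K hp2 hζ hz2 Q hP hLm
    (fun D L E => H86.HT.rblt_fin D.toRD0 L H θ (H51.HC.rblt_of _ _ _ θ hRB) E)
    (fun h i hi => ((hI h).2 ⟨i, hi⟩).2) ha D hD L Q' hLQ i₀ E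
  choose hEf c hEc using hE
  have hdm : ∀ (B : ℝ) (E : Finset (Pl K)), 3 ≤ B →
      ((NE3 G K L Q.cl i₀ E B).ncard : ℝ) ≤
        wt E * (B ^ (1 / (indG G : ℝ)) * Real.log B ^ (N - 1)) := by
    intro B E hB
    have h4 := hw3 B E hB (hEf E B).toFinset (by
      intro φ hφ
      rw [Set.Finite.mem_toFinset] at hφ
      obtain ⟨h5, h6, h7, h8⟩ := hφ
      exact ⟨h5, h6, fun T hT =>
        (dsm_lo hn G hG K D.toRD0 L i₀ φ h6 h5 T hT).trans h7, h8⟩)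
    rw [Set.ncard_eq_toFinset_card _ (hEf E B)]
    exact h4
  -- the sum over `E`
  have hsum : ∀ B : ℝ, ((CfinS G K i₀ B).ncard : ℝ) =
      ∑' E : Finset (Pl K), ((NE3 G K L Q.cl i₀ E B).ncard : ℝ) := by
    intro B
    have hex : ∀ φ : Gal(QBar/K) →* G, ∃ E : Finset (Pl K), FT φ →
        ∀ v, v ∈ E ↔ NeC Q.cl L φ v := by
      intro φ
      by_cases h : FT φ
      · have h5 : {v : Pl K | NeC Q.cl L φ v}.Finite :=
          (H63.BU.uinr_fin L φ h).subset fun v hv => hv.1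
        refine ⟨h5.toFinset, fun _ v => ?_⟩
        rw [Set.Finite.mem_toFinset]
        rfl
      · exact ⟨∅, fun h' => absurd h' h⟩
    choose Ef hEf2 using hex
    have hNE : ∀ E, NE3 G K L Q.cl i₀ E B = {φ ∈ CfinS G K i₀ B | Ef φ = E} := by
      intro E
      ext φ
      constructor
      · rintro ⟨h1, h2, h3, h4⟩
        refine ⟨⟨h1, h2, h3⟩, ?_⟩
        ext v
        rw [hEf2 φ h1 v, h4 v]
      · rintro ⟨⟨h1, h2, h3⟩, h4⟩
        refine ⟨h1, h2, h3, fun v => ?_⟩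
        rw [← h4]
        exact hEf2 φ h1 v
    rw [tsum_eq_sum (s := (hfin B).toFinset.image Ef)]
    · rw [Set.ncard_eq_toFinset_card _ (hfin B), Finset.card_eq_sum_card_image Ef]
      push_cast
      refine Finset.sum_congr rfl fun E _ => ?_
      congr 1
      rw [hNE E, ← Set.ncard_coe_finset]
      congr 1
      ext φ
      simp
    · intro E hE'
      rw [hNE E]
      have : {φ ∈ CfinS G K i₀ B | Ef φ = E} = ∅ := by
        rw [Set.eq_empty_iff_forall_notMem]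
        rintro φ ⟨h1, h2⟩
        apply hE'
        rw [Finset.mem_image]
        exact ⟨φ, (hfin B).mem_toFinset.2 h1, h2⟩
      rw [this, Set.ncard_empty, Nat.cast_zero]
  refine ⟨∑' E, c E, ?_⟩
  have hdom := tendsto_tsum_of_dominated_convergence (𝓕 := (atTop : Filter ℝ))
    (f := fun B E => ((NE3 G K L Q.cl i₀ E B).ncard : ℝ) /
      (B ^ (1 / (indG G : ℝ)) * Real.log B ^ (N - 1))) (g := c) (bound := wt) hw1
    (fun E => hEc E) (by
      filter_upwards [eventually_ge_atTop (3 : ℝ)] with B hB E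
      have hlog : 0 < Real.log B := Real.log_pos (by linarith)
      have hP : 0 < B ^ (1 / (indG G : ℝ)) * Real.log B ^ (N - 1) :=
        mul_pos (Real.rpow_pos_of_pos (by linarith) _) (pow_pos hlog _)
      rw [Real.norm_of_nonneg (div_nonneg (Nat.cast_nonneg _) hP.le), div_le_iff₀ hP]
      exact hdm B E hB)
  refine hdom.congr fun B => ?_
  rw [hsum B, tsum_div_const]

theorem qup (hn : 2 ≤ n) (hG : MulAction.IsPretransitive G (Fin n))
    {p : ℕ} [NeZero p] (hp : p.Prime) (hp2 : MOne p K) {ζ : K}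
    (hζ : IsPrimitiveRoot ζ p) {M : ℕ} {z₂ : K} (hz2 : IsPrimitiveRoot z₂ (p ^ M)) {N : ℕ}
    {P H : Type} [Group P] [Group H] (Q : HU p N G P H) (hP : IsPGroup p P)
    (hU : QUb p M Q.toHQ)
    (θ : ℝ) (hθ : 0 ≤ θ) (hRB : H86.HT.RBt K QBar H θ)
    (hr : ∀ g : G, Q.ph g ≠ 1 → θ * (indG G : ℝ) < (ind (g : Equiv.Perm (Fin n)) : ℝ))
    (hI : ∀ h : G, (h ≠ 1 ∧ ind (h : Equiv.Perm (Fin n)) = indG G) ↔
      ∃ i, IsConj h (Q.cl.g i))
    (i₀ : Fin n) :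
    (∀ B, (CfinS G K i₀ B).Finite) ∧ ∃ C : ℝ, 0 < C ∧ ∀ B : ℝ, 3 ≤ B →
      ((CfinS G K i₀ B).ncard : ℝ) ≤ C * (B ^ (1 / (indG G : ℝ)) * Real.log B ^ (N - 1)) := by
  obtain ⟨ha, -, hmin, -, hJ⟩ := pidx_pos hn G hG
  have hfac : {v : Pl K | ((n.factorial : ℕ) : 𝓞 K) ∈ v.asIdeal}.Finite :=
    finite_above (K := K) (Nat.factorial_ne_zero n)
  obtain ⟨S₁, hS₁⟩ := qut hp hζ hz2 Q.toHQ hU
  obtain ⟨D, hD0'⟩ := H38.BB.exists_RD_of K hp hp2 hζ (hfac.toFinset ∪ S₁)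
  have hD0 : ∀ v ∈ hfac.toFinset, v ∈ D.S0 := fun v hv => hD0' v (Finset.mem_union_left _ hv)
  have hDS : S₁ ⊆ D.S0 := fun v hv => hD0' v (Finset.mem_union_right _ hv)
  have hD : ∀ v : Pl K, ((n.factorial : ℕ) : 𝓞 K) ∈ v.asIdeal → v ∈ D.S0 := fun v hv =>
    hD0 v (by
      rw [Set.Finite.mem_toFinset]
      exact hv)
  have hS : ∀ v : Pl K, ((Nat.card G : ℕ) : 𝓞 K) ∈ v.asIdeal → v ∈ D.S0 := fun v hv => by
    apply hD v
    obtain ⟨k, hk⟩ := esp_dvd G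
    rw [hk]
    push_cast
    exact Ideal.mul_mem_right _ _ hv
  obtain ⟨Q'⟩ := exists_DP K QBar
  obtain ⟨r, hr1, hr2, hr3⟩ := H51.HC.rmin hn G hG Q.ph θ (fun g hg h => by
    obtain ⟨i, hi⟩ := (hI g).1 ⟨hg, h⟩
    obtain ⟨x, hx⟩ := isConj_iff.1 hi
    have h1 := hq_cl Q.toHQ i
    rw [← hx, map_mul, map_mul, map_inv] at h1
    have h2 : Q.ph g = (Q.ph x)⁻¹ * (Q.ph x * Q.ph g * (Q.ph x)⁻¹) * Q.ph x := by group
    rw [h2, h1]
    group) hr
  obtain ⟨L, hLQ⟩ := lds_of hp hζ D.toRD0 Q'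
  obtain ⟨-, C, hC, hup⟩ := hS₁ D hDS L θ hθ
    (H51.HC.rblt_of _ _ _ θ hRB) hS (indG G) r ha hr1 hr2
    (fun H => n - orbs (H.map G.subtype))
    (fun H hH => by
      have := hJ H hH
      omega)
    (fun g hg h => by
      refine (hI g).1 ⟨hg, le_antisymm ?_ (hmin g hg)⟩
      have h1 : (Subgroup.zpowers g).map G.subtype =
          Subgroup.zpowers (g : Equiv.Perm (Fin n)) := by
        rw [MonoidHom.map_zpowers]
        rfl
      rw [h1] at h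
      exact h)
    hr3
  have hF : ∀ B, 3 ≤ B → ∀ F : Finset (Gal(QBar/K) →* G), ↑F ⊆ CfinS G K i₀ B →
      (F.card : ℝ) ≤ C * (B ^ (1 / (indG G : ℝ)) * Real.log B ^ (N - 1)) := by
    intro B hB F hF1
    refine hup B hB F fun φ hφ => ?_
    obtain ⟨h3, h4, h5⟩ := hF1 hφ
    exact ⟨h3, h4, fun T hT => (dsm_lo hn G hG K D.toRD0 L i₀ φ h4 h3 T hT).trans h5⟩
  have hfin : ∀ B, 3 ≤ B → (CfinS G K i₀ B).Finite := by
    intro B hB
    by_contra hinf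
    obtain ⟨F, hF1, hF2⟩ := Set.Infinite.exists_subset_card_eq hinf
      (⌊C * (B ^ (1 / (indG G : ℝ)) * Real.log B ^ (N - 1))⌋₊ + 1)
    have h2 := hF B hB F hF1
    rw [hF2] at h2
    push_cast at h2
    have h3 := Nat.lt_floor_add_one (C * (B ^ (1 / (indG G : ℝ)) * Real.log B ^ (N - 1)))
    linarith
  refine ⟨fun B => (hfin (max B 3) (le_max_right _ _)).subset fun φ hφ =>
      ⟨hφ.1, hφ.2.1, hφ.2.2.trans (le_max_left _ _)⟩, C, hC, fun B hB => ?_⟩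
  rw [Set.ncard_eq_toFinset_card _ (hfin B hB)]
  exact hF B hB _ (by
    intro φ hφ
    exact (hfin B hB).mem_toFinset.1 hφ)

end H71.HT2
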