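import Pool.Agent.H71.HT2.Uty
import Pool.Agent.H51.HC.Esp

/-!
# [H71 HT2 QSP] the number of homomorphisms with given untyped primes (as `hesp`, H51/HC/Esp.lean, copy) (MP_b39724_nt, think 1829)

CHANGES. `𝓑` = the finite set `HB D L H E` (`hHB`). If `φ ∈ NE3 G K L Q.cl i₀ E B` then `ph ∘ φ ∈ 𝓑` (outside `S0 ∪ E` the prime is typed or unramified; typed: `ph (φ (t_v)) = 1` and `(ph (φ τ))^p = 1` on inertia, so `ph (φ τ) = 1` by `H48.MF.ing_inr` for `ph ∘ φ`: `qty_un` below). For every `β ∈ 𝓑` for which there is a surjective `φ` of finite type with `ph ∘ φ = β`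
choose one, `φb β`. `D'` from `exists_RD_of` with `D.S0 ∪ E ∪` the ramified primes of the `φb β` (finite: `H63.BU.uinr_fin`; for all inertia groups over a prime: use the local data `L'` of `D'`: `S0'` has to contain all `v` at which `φb β` is ramified, `uinr_fin` for `L`, the places in `D.S0` are in `S0'`; the groups `inr L' v` and `inr L v` are inertia groups over the same `v`: with
`hL' : LQ L' Q'` and `hLQ : LQ L Q'` they are equal outside `S0'`, see `esc_iff` and its proof). The representatives: for every `β` with `φb β` the set `R₀` of `utyp` with `A φ` = typed outside `S0'`; `R` = `cfin_reps` of the union. `hesp` needs the limit only for `φ₁ ∈ RE`: for these `ph ∘ φ₁ = β ∈ 𝓑` has a base `φb β`, surjective and unramified outside `S0'`, so `hLm` (`QLim`)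
gives both finiteness and limit. (In the cover of `NE3` only `φ` with `ph φ ∈ 𝓑` and with a base occur: `φ` itself is surjective.) `SYQ` in the place of `SYH`.
-/

set_option autoImplicit false

open scoped NumberField
open IsDedekindDomain Filter Topology H38.ML
open scoped Classical

noncomputable section

namespace H71.HT2

open H63.MA H38.BB H38.BG H57.PC H57.BRA H63.BU H77.PC3 H57.CC H38.AS H77.S0T H77.FLD H77.PLF
  H51.PF H51.F3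

/-- typed primes are unramified for `ph ∘ φ` -/
theorem qty_un {K : Type} [Field K] [NumberField K] {Ω : Type} [Field Ω] [Algebra K Ω]
    [IsAlgClosure K Ω] {p N : ℕ} {ζ : K} {G H : Type} [Group G] [Group H] [Finite G]
    (hp : p.Prime) (hζ : IsPrimitiveRoot ζ p) (Q : HQ p N G H) {D : RD0 K p ζ} (L : LDs D Ω)
    (φ : Gal(Ω/K) →* G) (hφ : H38.ML.FT φ) (i : Fin N) (v : Pl K) (h : TyC Q.cl L φ i v) :
    ∀ τ ∈ inr L v, Q.ph (φ τ) = 1 := by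
  obtain ⟨h1, h2, h3⟩ := h
  have : Finite H := Finite.of_surjective _ Q.phs
  have h0 : Q.ph (Q.cl.g i) = 1 := by
    have h5 : Q.cl.g i ∈ Q.ph.ker := by
      rw [Q.hT]
      exact Subgroup.subset_normalClosure ⟨i, rfl⟩
    exact h5
  have h4 := Q.ph.map_isConj h2
  rw [h0, isConj_one_left] at h4
  have h5 := (H48.MF.ing_inr hp hζ L h1.1 (Q.ph.comp φ) (H38.ML.ft_comp _ _ hφ) fun τ hτ =>
    ⟨1, by rw [pow_one, MonoidHom.comp_apply, ← map_pow, h3 τ hτ, map_one]⟩).2.2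
  exact h5 h4

theorem qesp {n : ℕ} (hn : 2 ≤ n) (G : Subgroup (Equiv.Perm (Fin n)))
    (hG : MulAction.IsPretransitive G (Fin n))
    {p : ℕ} [NeZero p] (hp : p.Prime) (K : IntermediateField ℚ QBar)
    [NumberField K] (hp2 : MOne p K) {ζ : K} (hζ : IsPrimitiveRoot ζ p) {M : ℕ} {z₂ : K}
    (hz2 : IsPrimitiveRoot z₂ (p ^ M)) {N : ℕ} {P H : Type} [Group P] [Group H]
    (Q : HU p N G P H) (hP : IsPGroup p P) (hLm : QLim p M Q.toHQ)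
    (hHB : ∀ (D : RD K p ζ) (L : LDs D.toRD0 QBar) (E : Finset (Pl K)),
      (H51.TC.HB D.toRD0 L H E).Finite)
    (hI : ∀ (h : G) (i : Fin N), IsConj h (Q.cl.g i) →
      ind (h : Equiv.Perm (Fin n)) = indG G)
    (ha : 0 < indG G) (D : RD K p ζ)
    (hD : ∀ v : Pl K, ((n.factorial : ℕ) : 𝓞 K) ∈ v.asIdeal → v ∈ D.S0)
    (L : LDs D.toRD0 QBar) (Q' : DP K QBar) (hLQ : LQ L Q') (i₀ : Fin n)
    (E : Finset (Pl K)) :
    (∀ B, (NE3 G K L Q.cl i₀ E B).Finite) ∧ ∃ c : ℝ, Tendsto (fun B : ℝ =>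
      ((NE3 G K L Q.cl i₀ E B).ncard : ℝ) / (B ^ (1 / (indG G : ℝ)) * Real.log B ^ (N - 1)))
        atTop (𝓝 c) := by
  have haR : (0 : ℝ) < (indG G : ℝ) := by exact_mod_cast ha
  by_cases hE : ∃ v ∈ E, v ∈ D.S0
  · -- no homomorphisms
    obtain ⟨v, hvE, hvS⟩ := hE
    have hemp : ∀ B, NE3 G K L Q.cl i₀ E B = ∅ := by
      intro B
      rw [Set.eq_empty_iff_forall_notMem]
      rintro φ ⟨-, -, -, h⟩
      exact ((h v).1 hvE).1.1 hvS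
    refine ⟨fun B => by rw [hemp]; exact Set.finite_empty, 0, ?_⟩
    refine tendsto_const_nhds.congr fun B => ?_
    rw [hemp, Set.ncard_empty, Nat.cast_zero, zero_div]
  push Not at hE
  -- the bases
  have hB := hHB D L E
  obtain ⟨hasb, hhasb⟩ : ∃ hasb : (Gal(QBar/K) →* H) → Prop, ∀ β, hasb β ↔
      ∃ φ : Gal(QBar/K) →* G, FT φ ∧ Function.Surjective φ ∧ Q.ph.comp φ = β := ⟨_, fun _ => Iff.rfl⟩
  have hexb : ∀ β : Gal(QBar/K) →* H, ∃ φ : Gal(QBar/K) →* G, hasb β →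
      FT φ ∧ Function.Surjective φ ∧ Q.ph.comp φ = β := by
    intro β
    by_cases h : hasb β
    · obtain ⟨φ, hφ⟩ := (hhasb β).1 h
      exact ⟨φ, fun _ => hφ⟩
    · exact ⟨1, fun h' => absurd h' h⟩
  choose fb hfb using hexb
  obtain ⟨Bf, hBf⟩ : ∃ Bf : Finset (Gal(QBar/K) →* H), ∀ β, β ∈ Bf ↔
      β ∈ H51.TC.HB D.toRD0 L H E ∧ hasb β := by
    refine ⟨hB.toFinset.filter hasb, fun β => ?_⟩
    rw [Finset.mem_filter, Set.Finite.mem_toFinset]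
  have hexr : ∀ β : Gal(QBar/K) →* H, ∃ F : Finset (Pl K), β ∈ Bf → ∀ v, Rm L (fb β) v → v ∈ F := by
    intro β
    by_cases h : β ∈ Bf
    · have hfin : {v : Pl K | Rm L (fb β) v}.Finite :=
        H63.BU.uinr_fin L (fb β) (hfb β ((hBf β).1 h).2).1
      exact ⟨hfin.toFinset, fun _ v hv => (Set.Finite.mem_toFinset _).2 hv⟩
    · exact ⟨∅, fun h' => absurd h' h⟩
  choose Fr hFr using hexr
  obtain ⟨D', hD'⟩ := exists_RD_of K hp hp2 hζ (D.S0 ∪ E ∪ Bf.biUnion Fr)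
  have hDD : ∀ v ∈ D.S0, v ∈ D'.S0 := fun v hv =>
    hD' v (Finset.mem_union_left _ (Finset.mem_union_left _ hv))
  have hED : ∀ v ∈ E, v ∈ D'.S0 := fun v hv =>
    hD' v (Finset.mem_union_left _ (Finset.mem_union_right _ hv))
  have hFD : ∀ β ∈ Bf, ∀ v, Rm L (fb β) v → v ∈ D'.S0 := fun β hβ v hv =>
    hD' v (Finset.mem_union_right _ (Finset.mem_biUnion.2 ⟨β, hβ, hFr β hβ v hv⟩))
  have hD2 : ∀ v : Pl K, ((n.factorial : ℕ) : 𝓞 K) ∈ v.asIdeal → v ∈ D'.S0 := fun v hv =>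
    hDD v (hD v hv)
  have hS2 : ∀ v : Pl K, ((Nat.card G : ℕ) : 𝓞 K) ∈ v.asIdeal → v ∈ D'.S0 := fun v hv => by
    apply hD2 v
    obtain ⟨k, hk⟩ := esp_dvd G
    rw [hk]
    push_cast
    exact Ideal.mul_mem_right _ _ hv
  obtain ⟨L', hL'⟩ := lds_of hp hζ D'.toRD0 Q'
  obtain ⟨d, hd1, hd2⟩ := H48.KV.dsc_form hn G hG K D'.S0 hD2 Q' i₀
  have hfbun : ∀ β ∈ Bf, ∀ v, v ∉ D'.S0 → ∀ τ ∈ inr L' v, fb β τ = 1 := by
    intro β hβ v hv τ hτ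
    by_contra h
    rw [← esa_inr hDD L L' Q' hLQ hL' v hv] at hτ
    exact hv (hFD β hβ v ⟨fun h' => hv (hDD v h'), τ, hτ, h⟩)
  have hexu : ∀ β : Gal(QBar/K) →* H, ∃ Rf : Finset (Gal(QBar/K) →* G), β ∈ Bf →
      (∀ φ ∈ Rf, H38.ML.FT φ ∧ (∀ v, Rm L' φ v → ∃ i, TyC Q.cl L' φ i v) ∧ Q.ph.comp φ = β) ∧
      ∀ φ : Gal(QBar/K) →* G, H38.ML.FT φ → (∀ v, Rm L' φ v → ∃ i, TyC Q.cl L' φ i v) →
        Q.ph.comp φ = β → ∃ φ' ∈ Rf, Teq D'.S0 Q' φ φ' := by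
    intro β
    by_cases h : β ∈ Bf
    · obtain ⟨hb1, -, hb3⟩ := hfb β ((hBf β).1 h).2
      obtain ⟨Rf, hRf1, hRf2⟩ := utyp hp hp2 hζ Q hP D'.toRD0 L' Q' (fb β) hb1
        (fun φ => ∀ v, Rm L' φ v → ∃ i, TyC Q.cl L' φ i v)
      refine ⟨Rf, fun _ => ⟨fun φ hφ => ?_, fun φ h1 h2 h3 => ?_⟩⟩
      · obtain ⟨h1, h2, h3⟩ := hRf1 φ hφ
        exact ⟨h1, h2, h3.trans hb3⟩
      · exact hRf2 φ h1 h2 (h3.trans hb3.symm)
    · exact ⟨∅, fun h' => absurd h' h⟩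
  choose Rf hRf using hexu
  obtain ⟨R₀, hR0⟩ : ∃ R₀ : Finset (Gal(QBar/K) →* G), R₀ = Bf.biUnion Rf := ⟨_, rfl⟩
  have hR1 : ∀ φ ∈ R₀, (H38.ML.FT φ ∧ ∀ v, Rm L' φ v → ∃ i, TyC Q.cl L' φ i v) ∧
      Q.ph.comp φ ∈ Bf := by
    intro φ hφ
    rw [hR0, Finset.mem_biUnion] at hφ
    obtain ⟨β, hβ, h⟩ := hφ
    obtain ⟨h1, h2, h3⟩ := (hRf β hβ).1 φ h
    exact ⟨⟨h1, h2⟩, by rw [h3]; exact hβ⟩
  have hR2 : ∀ φ : Gal(QBar/K) →* G, H38.ML.FT φ → (∀ v, Rm L' φ v → ∃ i, TyC Q.cl L' φ i v) →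
      Q.ph.comp φ ∈ Bf → ∃ φ' ∈ R₀, Teq D'.S0 Q' φ φ' ∧ Q.ph.comp φ = Q.ph.comp φ' := by
    intro φ h1 h2 h3
    obtain ⟨φ', h4, h5⟩ := (hRf _ h3).2 φ h1 h2 rfl
    refine ⟨φ', ?_, h5, ((hRf _ h3).1 φ' h4).2.2.symm⟩
    rw [hR0, Finset.mem_biUnion]
    exact ⟨_, h3, h4⟩
  obtain ⟨Rl, hRl⟩ : ∃ Rl : (Gal(QBar/K) →* G) → (Gal(QBar/K) →* G) → Prop, ∀ φ φ', Rl φ φ' ↔
      TqT D'.S0 Q' Q.ph.ker φ φ' ∧ Q.ph.comp φ = Q.ph.comp φ' := ⟨_, fun _ _ => Iff.rfl⟩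
  have hr : ∀ φ : Gal(QBar/K) →* G, Rl φ φ := fun φ => (hRl _ _).2 ⟨tqt_refl _ _ _ _, rfl⟩
  have hs : ∀ φ φ' : Gal(QBar/K) →* G, Rl φ φ' → Rl φ' φ := fun _ _ h =>
    (hRl _ _).2 ⟨tqt_symm ((hRl _ _).1 h).1, ((hRl _ _).1 h).2.symm⟩
  have ht : ∀ φ φ' φ'' : Gal(QBar/K) →* G, Rl φ φ' → Rl φ' φ'' → Rl φ φ'' := fun _ _ _ h h' =>
    (hRl _ _).2 ⟨tqt_trans ((hRl _ _).1 h).1 ((hRl _ _).1 h').1,
      ((hRl _ _).1 h).2.trans ((hRl _ _).1 h').2⟩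
  obtain ⟨R, hRR, hR3, hR4⟩ := cfin_reps Rl hr hs ht R₀
  have hRmQ : ∀ (φ : Gal(QBar/K) →* G) (v : Pl K),
      Rm L' φ v ↔ v ∉ D'.S0 ∧ v ∈ H38.WM.Rm Q' φ := by
    intro φ v
    constructor
    · rintro ⟨hv, τ, hτ, h⟩
      refine ⟨hv, τ, ?_, h⟩
      rw [inr, dif_pos hv, hL' v hv] at hτ
      exact hτ
    · rintro ⟨hv, τ, hτ, h⟩
      refine ⟨hv, τ, ?_, h⟩
      rw [inr, dif_pos hv, hL' v hv]
      exact hτ
  -- typed homomorphisms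
  have hdok : ∀ φ : Gal(QBar/K) →* G, FT φ → (∀ v, Rm L' φ v → ∃ i, TyC Q.cl L' φ i v) →
      ∀ v, v ∉ D'.S0 → v ∈ H38.WM.Rm Q' φ →
        n - orbs ((((Q'.P v).inertia Gal(QBar/K)).map φ).map G.subtype) = H38.ML.indG G := by
    intro φ hft hty v hvS hv
    obtain ⟨i, hi⟩ := hty v ((hRmQ φ v).2 ⟨hvS, hv⟩)
    have h1 := esc_exp G hp hζ Q.cl hI L' φ hft v i hi
    rw [inr, dif_pos hvS, hL' v hvS] at h1
    exact h1
  have hdeq : ∀ φ φ' : Gal(QBar/K) →* G, Function.Surjective φ → FT φ → Function.Surjective φ' →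
      FT φ' → Rl φ φ' → d φ = d φ' := by
    intro φ φ' h1 h2 h3 h4 h5
    refine hd2 φ φ' h1 h2 h3 h4 fun v hv => ?_
    obtain ⟨r, -, hr⟩ := ((hRl _ _).1 h5).1 v hv
    exact ⟨r, hr⟩
  -- the constants
  have hex : ∀ φ₁ : Gal(QBar/K) →* G, ∃ e : ℕ, 0 < e ∧ ∀ φ, FT φ → Function.Surjective φ →
      (∀ v, Rm L' φ v → ∃ i, TyC Q.cl L' φ i v) → Rl φ φ₁ → d φ = e := by
    intro φ₁
    by_cases h : ∃ φ₂ : Gal(QBar/K) →* G, FT φ₂ ∧ Function.Surjective φ₂ ∧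
        (∀ v, Rm L' φ₂ v → ∃ i, TyC Q.cl L' φ₂ i v) ∧ Rl φ₂ φ₁
    · obtain ⟨φ₂, h1, h2, h0, h3⟩ := h
      exact ⟨d φ₂, (hd1 φ₂ h2 h1 (hdok φ₂ h1 h0)).1, fun φ h4 h5 _ h6 => hdeq φ φ₂ h5 h4 h2 h1
        (ht _ _ _ h6 (hs _ _ h3))⟩
    · push Not at h
      exact ⟨1, one_pos, fun φ h4 h5 h0 h6 => absurd h6 (h φ h4 h5 h0)⟩
  choose e he0 he using hex
  -- the condition on the discriminant
  have hdisc : ∀ φ₁ φ : Gal(QBar/K) →* G, FT φ → Function.Surjective φ →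
      (∀ v, Rm L' φ v → ∃ i, TyC Q.cl L' φ i v) → Rl φ φ₁ →
      ∀ B : ℝ, 0 ≤ B → ((H38.ML.relDisc K (fieldOf i₀ φ) : ℝ) ≤ B ↔
        φ ∈ SYQ L' Q' Q.toHQ φ₁ ((B / (e φ₁ : ℝ)) ^ (1 / (H38.ML.indG G : ℝ)))) := by
    intro φ₁ φ h1 h2 hty h3 B hB
    have hfin : {v : Pl K | Rm L' φ v}.Finite := H63.BU.uinr_fin L' φ h1
    have hTf : ∀ v, v ∈ hfin.toFinset ↔ Rm L' φ v := by
      intro v
      rw [Set.Finite.mem_toFinset]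
      rfl
    have h4 := (hd1 φ h2 h1 (hdok φ h1 hty)).2 hfin.toFinset
      (fun v => (hTf v).trans (hRmQ φ v))
    have hepos : (0 : ℝ) < (e φ₁ : ℝ) := by exact_mod_cast he0 φ₁
    have h5 : (H38.ML.relDisc K (fieldOf i₀ φ) : ℝ) =
        (e φ₁ : ℝ) * (∏ v ∈ hfin.toFinset, (nm v : ℝ)) ^ H38.ML.indG G := by
      rw [h4, he φ₁ φ h1 h2 hty h3]
      push_cast
      rfl
    have hP0 : (0 : ℝ) ≤ ∏ v ∈ hfin.toFinset, (nm v : ℝ) :=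
      Finset.prod_nonneg fun v _ => Nat.cast_nonneg _
    have h6 : (H38.ML.relDisc K (fieldOf i₀ φ) : ℝ) ≤ B ↔ ∏ v ∈ hfin.toFinset, (nm v : ℝ) ≤
        (B / (e φ₁ : ℝ)) ^ (1 / (H38.ML.indG G : ℝ)) := by
      rw [h5, mul_comm, ← le_div_iff₀ hepos, one_div, ← Real.rpow_natCast]
      rw [Real.le_rpow_inv_iff_of_pos hP0 (div_nonneg hB hepos.le) haR]
    rw [h6]
    constructor
    · intro h7
      refine ⟨⟨h1, h2, ((hRl _ _).1 h3).1, fun v hv => ?_, fun X hX => ?_⟩, ((hRl _ _).1 h3).2⟩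
      · by_cases h : ∀ τ ∈ inr L' v, φ τ = 1
        · exact Or.inl h
        · push Not at h
          exact Or.inr (hty v ⟨hv, h⟩)
      · have hsub : X ⊆ hfin.toFinset := by
          intro v hv
          rw [hTf]
          obtain ⟨h8, h9⟩ := hX v hv
          push Not at h9
          exact ⟨h8, h9⟩
        refine le_trans ?_ h7
        rw [← Finset.prod_sdiff hsub]
        exact le_mul_of_one_le_left (Finset.prod_nonneg fun v _ => Nat.cast_nonneg _)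
          (one_le_nr _)
    · rintro ⟨⟨-, -, -, -, h7⟩, -⟩
      refine h7 hfin.toFinset fun v hv => ?_
      rw [hTf] at hv
      obtain ⟨h8, τ, hτ, h9⟩ := hv
      exact ⟨h8, fun h => h9 (h τ hτ)⟩
  -- the classes with the right behaviour at `S0'`
  obtain ⟨RE, hRE⟩ : ∃ RE : Finset (Gal(QBar/K) →* G),
    RE = R.filter fun φ₁ => ∀ v ∈ D'.S0, (v ∈ E ↔ NeC Q.cl L φ₁ v) := ⟨_, rfl⟩
  have htyd : ∀ φ₁ φ : Gal(QBar/K) →* G, ∀ Y, φ ∈ SYQ L' Q' Q.toHQ φ₁ Y →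
      ∀ v, Rm L' φ v → ∃ i, TyC Q.cl L' φ i v := by
    rintro φ₁ φ Y ⟨⟨-, -, -, h4, -⟩, -⟩ v ⟨hv, τ, hτ, h9⟩
    rcases h4 v hv with h | h
    · exact absurd (h τ hτ) h9
    · exact h
  have hcover : ∀ B : ℝ, 0 ≤ B → NE3 G K L Q.cl i₀ E B = ⋃ φ₁ ∈ RE,
      SYQ L' Q' Q.toHQ φ₁ ((B / (e φ₁ : ℝ)) ^ (1 / (H38.ML.indG G : ℝ))) := by
    intro B hB
    ext φ
    simp only [Set.mem_iUnion, exists_prop]
    constructor
    · rintro ⟨h1, h2, h3, h4⟩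
      obtain ⟨h5, h6⟩ := (esc_iff hp hζ hDD L L' Q' hLQ hL' Q.cl φ h1 E hED).1 h4
      have hmem : Q.ph.comp φ ∈ Bf := by
        refine (hBf _).2 ⟨⟨H38.ML.ft_comp _ _ h1, fun v hv hvE τ hτ => ?_⟩,
          (hhasb _).2 ⟨φ, h1, h2, rfl⟩⟩
        by_cases h : ∀ τ ∈ inr L v, φ τ = 1
        · rw [MonoidHom.comp_apply, h τ hτ, map_one]
        · push Not at h
          have hn : ¬ NeC Q.cl L φ v := fun h' => hvE ((h4 v).2 h')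
          by_cases hT : ∃ i, TyC Q.cl L φ i v
          · obtain ⟨i, hi⟩ := hT
            exact qty_un hp hζ Q.toHQ L φ h1 i v hi τ hτ
          · push Not at hT
            exact absurd ⟨⟨hv, h⟩, hT⟩ hn
      obtain ⟨φ₂, h7, h8⟩ := hR2 φ h1 h5 hmem
      obtain ⟨φ₁, h9, h10⟩ := hR3 φ₂ h7
      have h11 := ht _ _ _ ((hRl _ _).2 ⟨tqt_teq Q.ph.ker h8.1, h8.2⟩) h10
      refine ⟨φ₁, ?_, (hdisc φ₁ φ h1 h2 h5 h11 B hB).1 h3⟩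
      rw [hRE, Finset.mem_filter]
      refine ⟨h9, fun v hv => ?_⟩
      rw [h6 v hv, nec_tqt L Q' hLQ Q.cl D'.S0 Q.ph.ker φ φ₁ ((hRl _ _).1 h11).1 v hv]
    · rintro ⟨φ₁, h6, h7⟩
      rw [hRE] at h6
      obtain ⟨h8, h9⟩ := Finset.mem_filter.1 h6
      have hty := htyd φ₁ φ _ h7
      have h7' : Rl φ φ₁ := (hRl _ _).2 ⟨h7.1.2.2.1, h7.2⟩
      refine ⟨h7.1.1, h7.1.2.1, (hdisc φ₁ φ h7.1.1 h7.1.2.1 hty h7' B hB).2 h7, ?_⟩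
      rw [esc_iff hp hζ hDD L L' Q' hLQ hL' Q.cl φ h7.1.1 E hED]
      refine ⟨hty, fun v hv => ?_⟩
      rw [h9 v hv, nec_tqt L Q' hLQ Q.cl D'.S0 Q.ph.ker φ φ₁ h7.1.2.2.1 v hv]
  have hlim : ∀ φ₁ ∈ R, (∀ X, (SYQ L' Q' Q.toHQ φ₁ X : Set (Gal(QBar/K) →* G)).Finite) ∧
      ∃ l : ℝ, Tendsto (fun X : ℝ =>
        ((SYQ L' Q' Q.toHQ φ₁ X).ncard : ℝ) / (X * Real.log X ^ (N - 1))) atTop (𝓝 l) := by
    intro φ₁ h₁
    obtain ⟨⟨h1, -⟩, h2⟩ := hR1 φ₁ (hRR h₁)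
    obtain ⟨hb1, hb2, hb3⟩ := hfb _ ((hBf _).1 h2).2
    exact hLm K ζ hζ z₂ hz2 D' L' Q' hL' φ₁ (fb (Q.ph.comp φ₁)) h1 hb1 hb2 hb3.symm (hfbun _ h2)
  have hfinX : ∀ φ₁ ∈ R, ∀ X, (SYQ L' Q' Q.toHQ φ₁ X : Set (Gal(QBar/K) →* G)).Finite :=
    fun φ₁ h₁ X => (hlim φ₁ h₁).1 X
  have hREm : ∀ φ₁ ∈ RE, φ₁ ∈ R := fun φ₁ h => by
    rw [hRE] at h
    exact (Finset.mem_filter.1 h).1
  refine ⟨fun B => ?_, ?_⟩
  · have h1 : NE3 G K L Q.cl i₀ E B ⊆ NE3 G K L Q.cl i₀ E (max B 0) := fun φ hφ =>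
      ⟨hφ.1, hφ.2.1, hφ.2.2.1.trans (le_max_left _ _), hφ.2.2.2⟩
    refine Set.Finite.subset ?_ h1
    rw [hcover _ (le_max_right _ _)]
    exact Set.Finite.biUnion (Finset.finite_toSet _) fun φ₁ h => hfinX _ (hREm _ h) _
  · have hl : ∀ φ₁ : Gal(QBar/K) →* G, ∃ l : ℝ, φ₁ ∈ R → Tendsto (fun X : ℝ =>
        ((SYQ L' Q' Q.toHQ φ₁ X).ncard : ℝ) / (X * Real.log X ^ (N - 1))) atTop (𝓝 l) := by
      intro φ₁
      by_cases h : φ₁ ∈ R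
      · obtain ⟨l, hl⟩ := (hlim φ₁ h).2
        exact ⟨l, fun _ => hl⟩
      · exact ⟨0, fun h' => absurd h' h⟩
    choose l hl using hl
    refine ⟨∑ φ₁ ∈ RE, l φ₁ * ((e φ₁ : ℝ) ^ (-(1 / (H38.ML.indG G : ℝ))) *
      (1 / (H38.ML.indG G : ℝ)) ^ (N - 1)), ?_⟩
    have hsum := tendsto_finsetSum RE fun φ₁ hφ₁ =>
      cfin_lim (fun X => ((SYQ L' Q' Q.toHQ φ₁ X).ncard : ℝ)) (l φ₁) (N - 1)
        (hl φ₁ (hREm φ₁ hφ₁))
        (H38.ML.indG G : ℝ) haR (e φ₁ : ℝ) (by exact_mod_cast he0 φ₁)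
    refine hsum.congr' ?_
    filter_upwards [eventually_ge_atTop 0] with B hB
    rw [← Finset.sum_div]
    congr 1
    rw [hcover B hB]
    have hfX : ∀ φ₁, ∃ F : Finset (Gal(QBar/K) →* G), φ₁ ∈ RE →
        (F : Set (Gal(QBar/K) →* G)) =
          SYQ L' Q' Q.toHQ φ₁ ((B / (e φ₁ : ℝ)) ^ (1 / (H38.ML.indG G : ℝ))) := by
      intro φ₁
      by_cases h : φ₁ ∈ RE
      · exact ⟨(hfinX φ₁ (hREm φ₁ h) _).toFinset, fun _ => Set.Finite.coe_toFinset _⟩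
      · exact ⟨∅, fun h' => absurd h' h⟩
    choose F hF using hfX
    have h1 : (⋃ φ₁ ∈ RE, SYQ L' Q' Q.toHQ φ₁ ((B / (e φ₁ : ℝ)) ^ (1 / (H38.ML.indG G : ℝ))) :
        Set (Gal(QBar/K) →* G)) = ((RE.biUnion F : Finset (Gal(QBar/K) →* G)) :
          Set (Gal(QBar/K) →* G)) := by
      rw [Finset.coe_biUnion]
      refine Set.iUnion₂_congr fun φ₁ h => ?_
      rw [hF φ₁ h]
    rw [h1, Set.ncard_coe_finset, Finset.card_biUnion]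
    · push_cast
      refine Finset.sum_congr rfl fun φ₁ h => ?_
      rw [← hF φ₁ h, Set.ncard_coe_finset]
    · intro φ₁ h1 φ₂ h2 hne
      refine Finset.disjoint_left.2 fun φ hφ hφ' => ?_
      rw [← Finset.mem_coe, hF φ₁ h1] at hφ
      rw [← Finset.mem_coe, hF φ₂ h2] at hφ'
      exact hne (hR4 φ₁ (hREm φ₁ h1) φ₂ (hREm φ₂ h2)
        (ht _ _ _ (hs _ _ ((hRl _ _).2 ⟨hφ.1.2.2.1, hφ.2⟩)) ((hRl _ _).2 ⟨hφ'.1.2.2.1, hφ'.2⟩)))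

end H71.HT2
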