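import Pool.Agent.H71.HT2.Qsp
import Pool.Agent.H86.HT.Wty
import Pool.Agent.H86.HT.Cny
import Pool.Agent.H86.HT.Hut

/-!
# [H71 HT2 QUT] domination from `QUb` (as `hut`, H86/HT/Hut.lean, copy with `QUb` in the place of `PUb`) (MP_b39724_nt, think 1829)

CHANGES. `S₁` from `hU K`. For given `E`, `A ⊆ E` (the primes of `E` where `β = ph ∘ φ` is ramified), `β ∈ HB D L H A`: the `φ` with these data are in `PU L Q.cl E (UZ B a r A E)` with `ph ∘ φ = β` (no injection into the homomorphisms to `P` is needed), so `QUb` bounds their number. `qty_un` in the place of `hx_ty`.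
-/

set_option autoImplicit false

open scoped NumberField
open IsDedekindDomain H38.ML
open scoped Classical

noncomputable section

namespace H71.HT2

open H63.MA H38.BB H38.BG H57.PC H57.BRA H63.BU H77.PC3 H57.CC H38.AS H77.S0T H77.AB H77.FLD
  H77.PLF H51.PF H51.F3 H51.TC H86.HT

/-- the weight of a set `A` in `E` -/
private def qutw {K : Type} [Field K] [NumberField K] (a r : ℕ) (A E : Finset (Pl K)) : ℝ :=
  (∏ v ∈ A, (nm v : ℝ) ^ (-((r : ℝ) / (a : ℝ)))) *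
    ∏ v ∈ E \ A, (nm v : ℝ) ^ (-((co a v : ℝ) / (a : ℝ)))

private theorem qut_cnt {K : IntermediateField ℚ QBar} [NumberField K] {p : ℕ} {ζ : K} {N : ℕ}
    {G H : Type} [Group G] [Finite G] [Group H] (hp : p.Prime)
    (hζ : IsPrimitiveRoot ζ p) (Q : HQ p N G H)
    (D : RD K p ζ) (L : LDs D.toRD0 QBar)
    (hU : ∀ η : ℝ, 0 < η → ∃ C : ℝ, 0 < C ∧ ∀ (E : Finset (Pl K)) (Y : ℝ) (β : Gal(QBar/K) →* H), 1 ≤ Y →
      ∀ Rs : Finset (Gal(QBar/K) →* G), (∀ φ ∈ Rs, φ ∈ PU L Q.cl E Y ∧ Q.ph.comp φ = β) →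
        (Rs.card : ℝ) ≤ C * nr E ^ η * Y * (1 + Real.log Y) ^ (N - 1))
    (θ : ℝ) (hRB : RBLt D.toRD0 L H θ)
    (hS : ∀ v : Pl K, ((Nat.card G : ℕ) : 𝓞 K) ∈ v.asIdeal → v ∈ D.S0) (a r : ℕ) (ha : 0 < a)
    (har : a < r) (ix : Subgroup G → ℕ) (h1 : ∀ J, J ≠ ⊥ → a ≤ ix J)
    (h2 : ∀ g : G, g ≠ 1 → ix (Subgroup.zpowers g) ≤ a → ∃ i, IsConj g (Q.cl.g i))
    (h3 : ∀ J : Subgroup G, ¬ J ≤ Q.ph.ker → r ≤ ix J) (η : ℝ) (hη : 0 < η) :
    ∃ C : ℝ, 0 < C ∧ ∀ (B : ℝ) (E : Finset (Pl K)), 3 ≤ B → ∀ Rs : Finset (Gal(QBar/K) →* G),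
      (∀ φ ∈ Rs, H38.ML.FT φ ∧ Function.Surjective φ ∧ (∀ T : Finset (Pl K),
        (∀ v ∈ T, v ∉ D.S0) → ∏ v ∈ T, (nm v : ℝ) ^ ix ((inr L v).map φ) ≤ B) ∧
        ∀ v, v ∈ E ↔ Rm L φ v ∧ ∀ i, ¬ TyC Q.cl L φ i v) →
      (Rs.card : ℝ) ≤ C * (nr E ^ η * ∑ A ∈ E.powerset, ((HB D.toRD0 L H A).ncard : ℝ) *
        qutw a r A E) * (B ^ (1 / (a : ℝ)) * Real.log B ^ (N - 1)) := by
  have haR : (0 : ℝ) < (a : ℝ) := by exact_mod_cast ha
  have ha1 : (1 : ℝ) ≤ (a : ℝ) := by exact_mod_cast ha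
  obtain ⟨C₂, hC₂, hub⟩ := hU η hη
  refine ⟨C₂ * 2 ^ (N - 1), by positivity, ?_⟩
  intro B E hB Rs hRs
  have hB1 : 1 ≤ B := by linarith
  have hB0 : 0 < B := by linarith
  have hlog1 : 1 ≤ Real.log B := by
    rw [Real.le_log_iff_exp_le hB0]
    exact Real.exp_one_lt_three.le.trans hB
  have hnr := one_le_nr E
  -- the data of a homomorphism
  obtain ⟨eA, heA⟩ : ∃ eA : (Gal(QBar/K) →* G) → Finset (Pl K),
      eA = fun φ => E.filter fun v => ∃ τ ∈ inr L v, Q.ph (φ τ) ≠ 1 := ⟨_, rfl⟩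
  obtain ⟨eβ, heβ⟩ : ∃ eβ : (Gal(QBar/K) →* G) → (Gal(QBar/K) →* H),
      eβ = fun φ => Q.ph.comp φ := ⟨_, rfl⟩
  have hty : ∀ φ ∈ Rs, ∀ v, v ∉ D.S0 → v ∉ E →
      (∀ τ ∈ inr L v, φ τ = 1) ∨ ∃ i, TyC Q.cl L φ i v := by
    intro φ hφ v hv hvE
    obtain ⟨-, -, -, r4⟩ := hRs φ hφ
    by_cases h : ∀ τ ∈ inr L v, φ τ = 1
    · exact Or.inl h
    · right
      by_contra hcon
      push Not at hcon h
      exact hvE ((r4 v).2 ⟨⟨hv, h⟩, hcon⟩)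
  have hmem : ∀ φ ∈ Rs, eA φ ∈ E.powerset ∧ eβ φ ∈ HB D.toRD0 L H (eA φ) := by
    intro φ hφ
    obtain ⟨r1, -, -, -⟩ := hRs φ hφ
    subst heA heβ
    refine ⟨Finset.mem_powerset.2 (Finset.filter_subset _ _), ft_comp _ _ r1,
      fun v hv hvA τ hτ => ?_⟩
    rw [MonoidHom.comp_apply]
    by_cases hvE : v ∈ E
    · by_contra hne
      exact hvA (Finset.mem_filter.2 ⟨hvE, τ, hτ, hne⟩)
    · rcases hty φ hφ v hv hvE with h | ⟨i, hi⟩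
      · rw [h τ hτ, map_one]
      · exact qty_un hp hζ Q L φ r1 i v hi τ hτ
  have hcn : ∀ φ ∈ Rs, ∀ f : Fin N → Finset (Pl K), (∀ i v, v ∈ f i ↔ TyC Q.cl L φ i v) →
      ∏ i, nr (f i) ≤ UZ B a r (eA φ) E ∧ Dj f ∧ 1 ≤ UZ B a r (eA φ) E := by
    intro φ hφ f hf
    obtain ⟨r1, -, r2, r3⟩ := hRs φ hφ
    obtain ⟨g1, g2, -, g3, -⟩ := cny_nr hp hζ D.toRD0 L Q.cl hS a r ha har.le ix h1 h2 φ r1 B r2 f
      (eA φ) E hf r3 (Finset.mem_powerset.1 (hmem φ hφ).1) fun v hv => by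
        refine h3 _ fun hle => ?_
        subst heA
        obtain ⟨-, τ, hτ, hne⟩ := Finset.mem_filter.1 hv
        exact hne (hle (Subgroup.mem_map_of_mem φ hτ))
    exact ⟨g1, g2, g3⟩
  have hsets : ∀ φ ∈ Rs, ∃ f : Fin N → Finset (Pl K), ∀ i v, v ∈ f i ↔ TyC Q.cl L φ i v := by
    intro φ hφ
    obtain ⟨f, -, hf, -⟩ := csets L Q.cl φ (hRs φ hφ).1
    exact ⟨f, hf⟩
  -- membership in `PU`
  have hPU : ∀ φ ∈ Rs, φ ∈ PU L Q.cl E (UZ B a r (eA φ) E) := by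
    intro φ hφ
    obtain ⟨r1, r2, r3, r4⟩ := hRs φ hφ
    obtain ⟨f, hf⟩ := hsets φ hφ
    obtain ⟨g1, g2, -⟩ := hcn φ hφ f hf
    refine ⟨r1, r2, fun v hv hvE => hty φ hφ v hv hvE, fun T hT => ?_⟩
    have hsub : T ⊆ Finset.univ.biUnion f := by
      intro v hv
      obtain ⟨g5, g6, g7⟩ := hT v hv
      rcases hty φ hφ v g5 g6 with h | ⟨i, hi⟩
      · exact absurd h g7
      · exact Finset.mem_biUnion.2 ⟨i, Finset.mem_univ _, (hf i v).2 hi⟩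
    calc ∏ v ∈ T, (nm v : ℝ) ≤ ∏ v ∈ Finset.univ.biUnion f, (nm v : ℝ) := by
          rw [← Finset.prod_sdiff hsub]
          refine le_mul_of_one_le_left (Finset.prod_nonneg fun v _ => Nat.cast_nonneg _) ?_
          exact one_le_nr _
      _ = ∏ i, nr (f i) := by
          rw [Finset.prod_biUnion fun i _ j _ hij => g2 i j hij]
          rfl
      _ ≤ _ := g1
  -- one fibre
  have hfib : ∀ (A : Finset (Pl K)) (β : Gal(QBar/K) →* H),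
      ((Rs.filter fun φ => eA φ = A ∧ eβ φ = β).card : ℝ) ≤
        C₂ * nr E ^ η * UZ B a r A E * (2 * Real.log B) ^ (N - 1) := by
    intro A β
    have hUA := uz_le B hB1 a r A E
    have hUA0 : 0 ≤ UZ B a r A E := hUA.1
    rcases (Rs.filter fun φ => eA φ = A ∧ eβ φ = β).eq_empty_or_nonempty with h0 | ⟨φ₀, hφ₀⟩
    · rw [h0, Finset.card_empty, Nat.cast_zero]
      positivity
    · obtain ⟨hφ₀, hA₀, -⟩ := Finset.mem_filter.1 hφ₀
      obtain ⟨f₀, hf₀⟩ := hsets φ₀ hφ₀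
      obtain ⟨-, -, hUY1⟩ := hcn φ₀ hφ₀ f₀ hf₀
      rw [hA₀] at hUY1
      have hlogU : Real.log (UZ B a r A E) ≤ Real.log B := by
        have h5 : UZ B a r A E ≤ B := by
          refine hUA.2.trans ?_
          calc B ^ (1 / (a : ℝ)) ≤ B ^ (1 : ℝ) := by
                refine Real.rpow_le_rpow_of_exponent_le hB1 ?_
                rw [div_le_one haR]
                exact ha1
            _ = B := Real.rpow_one B
        exact Real.log_le_log (by linarith) h5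
      have hlogU0 : 0 ≤ Real.log (UZ B a r A E) := Real.log_nonneg hUY1
      have h6 : (1 + Real.log (UZ B a r A E)) ^ (N - 1) ≤ (2 * Real.log B) ^ (N - 1) :=
        pow_le_pow_left₀ (by linarith) (by linarith) _
      refine (hub E (UZ B a r A E) β hUY1 _ fun φ hφ => ?_).trans
        (mul_le_mul_of_nonneg_left h6 (by positivity))
      obtain ⟨hφ, e1, e2⟩ := Finset.mem_filter.1 hφ
      have := hPU φ hφ
      rw [e1] at this
      subst heβ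
      exact ⟨this, e2⟩
  -- the sum over the fibres
  have hfinH : ∀ A, (HB D.toRD0 L H A).Finite := fun A => rblt_fin D.toRD0 L H θ hRB A
  have hsum : (Rs.card : ℝ) ≤ ∑ A ∈ E.powerset, ∑ β ∈ (hfinH A).toFinset,
      ((Rs.filter fun φ => eA φ = A ∧ eβ φ = β).card : ℝ) := by
    have h7 : Rs.card ≤ ∑ A ∈ E.powerset, ∑ β ∈ (hfinH A).toFinset,
        (Rs.filter fun φ => eA φ = A ∧ eβ φ = β).card := by
      rw [Finset.card_eq_sum_card_fiberwise (f := eA) (s := Rs) (t := E.powerset)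
        fun φ hφ => Finset.mem_coe.2 (hmem φ hφ).1]
      refine Finset.sum_le_sum fun A _ => ?_
      rw [Finset.card_eq_sum_card_fiberwise (f := eβ) (t := (hfinH A).toFinset)
        fun φ hφ => by
          obtain ⟨hφ, e1⟩ := Finset.mem_filter.1 (Finset.mem_coe.1 hφ)
          rw [Finset.mem_coe, Set.Finite.mem_toFinset, ← e1]
          exact (hmem φ hφ).2]
      refine Finset.sum_le_sum fun β _ => le_of_eq ?_
      rw [Finset.filter_filter]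
    exact_mod_cast h7
  refine hsum.trans ?_
  have h8 : ∑ A ∈ E.powerset, ∑ β ∈ (hfinH A).toFinset,
      ((Rs.filter fun φ => eA φ = A ∧ eβ φ = β).card : ℝ) ≤
      ∑ A ∈ E.powerset, ((HB D.toRD0 L H A).ncard : ℝ) *
        (C₂ * nr E ^ η * UZ B a r A E * (2 * Real.log B) ^ (N - 1)) := by
    refine Finset.sum_le_sum fun A _ => ?_
    refine (Finset.sum_le_sum fun β _ => hfib A β).trans ?_
    rw [Finset.sum_const, nsmul_eq_mul, Set.ncard_eq_toFinset_card _ (hfinH A)]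
  refine h8.trans (le_of_eq ?_)
  rw [Finset.mul_sum, Finset.mul_sum, Finset.sum_mul]
  refine Finset.sum_congr rfl fun A _ => ?_
  have e2 : UZ B a r A E = B ^ (1 / (a : ℝ)) * qutw a r A E := rfl
  rw [e2, mul_pow]
  ring

theorem qut {K : IntermediateField ℚ QBar} [NumberField K] {p : ℕ} {ζ : K} {N : ℕ}
    {G H : Type} [Group G] [Finite G] [Group H] (hp : p.Prime)
    (hζ : IsPrimitiveRoot ζ p) {M : ℕ} {z₂ : K} (hz2 : IsPrimitiveRoot z₂ (p ^ M))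
    (Q : HQ p N G H) (hU : QUb p M Q) :
    ∃ S₁ : Finset (Pl K), ∀ (D : RD K p ζ) (_ : S₁ ⊆ D.S0) (L : LDs D.toRD0 QBar) (θ : ℝ)
      (_ : 0 ≤ θ) (_ : RBLt D.toRD0 L H θ)
      (_ : ∀ v : Pl K, ((Nat.card G : ℕ) : 𝓞 K) ∈ v.asIdeal → v ∈ D.S0) (a r : ℕ) (_ : 0 < a)
      (_ : a < r) (_ : θ < (r : ℝ) / (a : ℝ))
      (ix : Subgroup G → ℕ) (_ : ∀ J, J ≠ ⊥ → a ≤ ix J)
      (_ : ∀ g : G, g ≠ 1 → ix (Subgroup.zpowers g) ≤ a → ∃ i, IsConj g (Q.cl.g i))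
      (_ : ∀ J : Subgroup G, ¬ J ≤ Q.ph.ker → r ≤ ix J),
      (∃ wt : Finset (Pl K) → ℝ, Summable wt ∧ (∀ E, 0 ≤ wt E) ∧
        ∀ (B : ℝ) (E : Finset (Pl K)), 3 ≤ B → ∀ Rs : Finset (Gal(QBar/K) →* G),
        (∀ φ ∈ Rs, H38.ML.FT φ ∧ Function.Surjective φ ∧ (∀ T : Finset (Pl K),
          (∀ v ∈ T, v ∉ D.S0) → ∏ v ∈ T, (nm v : ℝ) ^ ix ((inr L v).map φ) ≤ B) ∧
          ∀ v, v ∈ E ↔ Rm L φ v ∧ ∀ i, ¬ TyC Q.cl L φ i v) →
        (Rs.card : ℝ) ≤ wt E * (B ^ (1 / (a : ℝ)) * Real.log B ^ (N - 1))) ∧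
      ∃ C : ℝ, 0 < C ∧ ∀ B : ℝ, 3 ≤ B → ∀ Rs : Finset (Gal(QBar/K) →* G),
        (∀ φ ∈ Rs, H38.ML.FT φ ∧ Function.Surjective φ ∧ ∀ T : Finset (Pl K),
          (∀ v ∈ T, v ∉ D.S0) → ∏ v ∈ T, (nm v : ℝ) ^ ix ((inr L v).map φ) ≤ B) →
        (Rs.card : ℝ) ≤ C * (B ^ (1 / (a : ℝ)) * Real.log B ^ (N - 1)) := by
  obtain ⟨S₁, hS1⟩ := hU K
  refine ⟨S₁, fun D hDS L θ hθ hRB hS a r ha har hr ix h1 h2 h3 => ?_⟩
  obtain ⟨η, hη, hsm⟩ := wty D.toRD0 L H θ hθ hRB a r ha har hr 1 zero_le_one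
  obtain ⟨C, hC, hcnt⟩ := qut_cnt hp hζ Q D L (fun η hη => hS1 ζ hζ z₂ hz2 D hDS L η hη) θ hRB hS a r ha har ix h1 h2 h3 η hη
  have hw0 : ∀ A E : Finset (Pl K), 0 ≤ qutw a r A E := fun A E =>
    mul_nonneg (Finset.prod_nonneg fun v _ => Real.rpow_nonneg (Nat.cast_nonneg _) _)
      (Finset.prod_nonneg fun v _ => Real.rpow_nonneg (Nat.cast_nonneg _) _)
  obtain ⟨w, hw⟩ : ∃ w : Finset (Pl K) → ℝ, w = fun E => nr E ^ η *
      ∑ A ∈ E.powerset, ((HB D.toRD0 L H A).ncard : ℝ) * qutw a r A E := ⟨_, rfl⟩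
  have hwn : ∀ E, 0 ≤ w E := by
    intro E
    have hnr := one_le_nr E
    rw [hw]
    exact mul_nonneg (Real.rpow_nonneg (by linarith) _)
      (Finset.sum_nonneg fun A _ => mul_nonneg (Nat.cast_nonneg _) (hw0 A E))
  have hws : Summable w := by
    rw [hw]
    refine hsm.congr fun E => ?_
    rw [one_pow, one_mul]
    rfl
  have hcnt' : ∀ (B : ℝ) (E : Finset (Pl K)), 3 ≤ B → ∀ Rs : Finset (Gal(QBar/K) →* G),
      (∀ φ ∈ Rs, H38.ML.FT φ ∧ Function.Surjective φ ∧ (∀ T : Finset (Pl K),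
        (∀ v ∈ T, v ∉ D.S0) → ∏ v ∈ T, (nm v : ℝ) ^ ix ((inr L v).map φ) ≤ B) ∧
        ∀ v, v ∈ E ↔ Rm L φ v ∧ ∀ i, ¬ TyC Q.cl L φ i v) →
      (Rs.card : ℝ) ≤ C * w E * (B ^ (1 / (a : ℝ)) * Real.log B ^ (N - 1)) := by
    intro B E hB Rs hRs
    rw [hw]
    exact hcnt B E hB Rs hRs
  refine ⟨⟨fun E => C * w E, hws.mul_left C, fun E => mul_nonneg hC.le (hwn E), hcnt'⟩,
    C * (∑' E, w E) + 1, by
      have : 0 ≤ ∑' E, w E := tsum_nonneg hwn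
      positivity, fun B hB Rs hRs => ?_⟩
  have hex : ∀ φ : Gal(QBar/K) →* G, ∃ E : Finset (Pl K), φ ∈ Rs →
      ∀ v, v ∈ E ↔ Rm L φ v ∧ ∀ i, ¬ TyC Q.cl L φ i v := by
    intro φ
    by_cases hφ : φ ∈ Rs
    · obtain ⟨-, E, -, hE⟩ := csets L Q.cl φ (hRs φ hφ).1
      exact ⟨E, fun _ => hE⟩
    · exact ⟨∅, fun h => absurd h hφ⟩
  choose e he using hex
  have hlog : 0 ≤ Real.log B := Real.log_nonneg (by linarith)
  have hX : 0 ≤ B ^ (1 / (a : ℝ)) * Real.log B ^ (N - 1) :=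
    mul_nonneg (Real.rpow_nonneg (by linarith) _) (pow_nonneg hlog _)
  rw [Finset.card_eq_sum_card_image e]
  push_cast
  calc ∑ E ∈ Rs.image e, ((Rs.filter fun φ => e φ = E).card : ℝ) ≤
      ∑ E ∈ Rs.image e, C * w E * (B ^ (1 / (a : ℝ)) * Real.log B ^ (N - 1)) := by
        refine Finset.sum_le_sum fun E _ => hcnt' B E hB _ ?_
        intro φ hφ
        obtain ⟨hφ, hE⟩ := Finset.mem_filter.1 hφ
        obtain ⟨r1, r2, r3⟩ := hRs φ hφ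
        refine ⟨r1, r2, r3, ?_⟩
        rw [← hE]
        exact he φ hφ
    _ = C * (∑ E ∈ Rs.image e, w E) * (B ^ (1 / (a : ℝ)) * Real.log B ^ (N - 1)) := by
        rw [Finset.mul_sum, Finset.sum_mul]
    _ ≤ C * (∑' E, w E) * (B ^ (1 / (a : ℝ)) * Real.log B ^ (N - 1)) :=
        mul_le_mul_of_nonneg_right (mul_le_mul_of_nonneg_left
          (hws.sum_le_tsum _ fun E _ => hwn E) hC.le) hX
    _ ≤ _ := mul_le_mul_of_nonneg_right (by linarith) hX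

end H71.HT2
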