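import Pool.Agent.H71.HT2.Defs

/-!
# H71-HT2-SDP: the group `U = T ⋊ P` (MP_b39724_nt, think 1829)

`Q : HU p N G P H`, `T = Q.ph.ker`, `P` acts on `T` by conjugation with a lift to `G` (`ker pr` centralises `T`).
* `act`, `UU Q = T ⋊ P`, `ka (d, x) = pr d * x`; conjugation with `u` on `T` depends only on `ka u` (`uu_conj`).
* `cU`: the classes in `UU Q` (`cu_conj`), `tc_cU`: their normal closure is `T`.
-/

set_option autoImplicit false

open scoped Classical

noncomputable section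

namespace H71.HT2

open H77.PC3 H51.F3

variable {p N : ℕ} {G P H : Type} [Group G] [Group P] [Group H]

/-- the action of `P` on `T` -/
def act (Q : HU p N G P H) : P →* MulAut Q.ph.ker :=
  Q.pr.liftOfSurjective Q.prs ⟨MulAut.conjNormal, fun n hn => by
    rw [MonoidHom.mem_ker]
    ext t
    rw [MulAut.conjNormal_apply, MulAut.one_apply, Q.cen n t (MonoidHom.mem_ker.1 hn) t.2,
      mul_inv_cancel_right]⟩

theorem act_pr (Q : HU p N G P H) (g : G) (t : Q.ph.ker) :
    ((act Q (Q.pr g) t : Q.ph.ker) : G) = g * t * g⁻¹ := by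
  have h1 : act Q (Q.pr g) = MulAut.conjNormal g := by
    unfold act
    exact MonoidHom.liftOfRightInverse_comp_apply _ _ (Function.rightInverse_surjInv Q.prs) _ g
  rw [h1, MulAut.conjNormal_apply]

/-- the group `T ⋊ P` -/
abbrev UU (Q : HU p N G P H) : Type := Q.ph.ker ⋊[act Q] P

/-- `(d, x) ↦ pr d * x` -/
def ka (Q : HU p N G P H) : UU Q →* P :=
  SemidirectProduct.lift (Q.pr.comp Q.ph.ker.subtype) (MonoidHom.id P) (by
    intro x
    ext t
    obtain ⟨g, rfl⟩ := Q.prs x
    show Q.pr ((act Q (Q.pr g) t : Q.ph.ker) : G) = Q.pr g * Q.pr t * (Q.pr g)⁻¹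
    rw [act_pr, map_mul, map_mul, map_inv])

theorem ka_apply (Q : HU p N G P H) (u : UU Q) : ka Q u = Q.pr u.left * u.right := rfl

theorem ka_surj (Q : HU p N G P H) : Function.Surjective (ka Q) := fun x =>
  ⟨SemidirectProduct.inr x, by
    rw [ka_apply]
    show Q.pr ((1 : Q.ph.ker) : G) * x = x
    rw [Subgroup.coe_one, map_one, one_mul]⟩

theorem uu_conj (Q : HU p N G P H) (u : UU Q) (t : Q.ph.ker) :
    u * SemidirectProduct.inl t * u⁻¹ = SemidirectProduct.inl (act Q (ka Q u) t) := by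
  have h1 : act Q (ka Q u) t = u.left * act Q u.right t * u.left⁻¹ := by
    apply Subtype.ext
    obtain ⟨g, hg⟩ := Q.prs u.right
    rw [ka_apply, ← hg, ← map_mul, act_pr, Subgroup.coe_mul, Subgroup.coe_mul, act_pr,
      Subgroup.coe_inv]
    group
  rw [h1]
  apply SemidirectProduct.ext
  · show u.left * act Q u.right t * act Q (u.right * 1) (act Q u.right⁻¹ u.left⁻¹) =
      u.left * act Q u.right t * u.left⁻¹
    rw [mul_one, ← MulAut.mul_apply, ← map_mul, mul_inv_cancel, map_one, MulAut.one_apply]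
  · show u.right * 1 * u.right⁻¹ = 1
    rw [mul_one, mul_inv_cancel]

theorem uu_conj_g (Q : HU p N G P H) (g : G) (t : Q.ph.ker) :
    ∃ u : UU Q, ka Q u = Q.pr g ∧
      u * SemidirectProduct.inl t * u⁻¹ = SemidirectProduct.inl (act Q (Q.pr g) t) := by
  obtain ⟨u, hu⟩ := ka_surj Q (Q.pr g)
  exact ⟨u, hu, by rw [uu_conj, hu]⟩

theorem hq_cl (Q : HQ p N G H) (i : Fin N) : Q.ph (Q.cl.g i) = 1 := by
  have h1 : Q.cl.g i ∈ Q.ph.ker := by
    rw [Q.hT]
    exact Subgroup.subset_normalClosure ⟨i, rfl⟩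
  exact MonoidHom.mem_ker.1 h1

/-- conjugacy of elements of `T` in `UU Q` and in `G` -/
theorem inl_conj (Q : HU p N G P H) (s t : Q.ph.ker) :
    IsConj (SemidirectProduct.inl s : UU Q) (SemidirectProduct.inl t) ↔ IsConj (s : G) (t : G) := by
  constructor
  · intro h
    obtain ⟨u, hu⟩ := isConj_iff.1 h
    rw [uu_conj] at hu
    have h1 := SemidirectProduct.inl_injective hu
    obtain ⟨g, hg⟩ := Q.prs (ka Q u)
    refine isConj_iff.2 ⟨g, ?_⟩
    rw [← act_pr Q g s, hg, h1]
  · intro h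
    obtain ⟨g, hg⟩ := isConj_iff.1 h
    obtain ⟨u, -, hu⟩ := uu_conj_g Q g s
    refine isConj_iff.2 ⟨u, ?_⟩
    rw [hu]
    congr 1
    apply Subtype.ext
    rw [act_pr, hg]

/-- the classes in `UU Q` -/
def cU (Q : HU p N G P H) : CL p N (UU Q) where
  g i := SemidirectProduct.inl ⟨Q.cl.g i, MonoidHom.mem_ker.2 (hq_cl Q.toHQ i)⟩
  pow i := by
    rw [← map_pow, ← map_one (SemidirectProduct.inl (φ := act Q))]
    congr 1
    apply Subtype.ext
    rw [Subgroup.coe_pow, Subgroup.coe_one]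
    exact Q.cl.pow i
  ne i h := by
    rw [← map_one (SemidirectProduct.inl (φ := act Q))] at h
    have h1 := congrArg Subtype.val (SemidirectProduct.inl_injective h)
    exact Q.cl.ne i h1
  uni i j h := Q.cl.uni i j ((inl_conj Q _ _).1 h)

theorem cu_g (Q : HU p N G P H) (i : Fin N) : (cU Q).g i =
    SemidirectProduct.inl ⟨Q.cl.g i, MonoidHom.mem_ker.2 (hq_cl Q.toHQ i)⟩ := rfl

theorem cu_conj (Q : HU p N G P H) (t : Q.ph.ker) (i : Fin N) :
    IsConj (SemidirectProduct.inl t : UU Q) ((cU Q).g i) ↔ IsConj (t : G) (Q.cl.g i) := by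
  rw [cu_g, inl_conj]

/-- the elements with `ka u = 1` centralise the classes -/
theorem ka_cen (Q : HU p N G P H) (u : UU Q) (hu : ka Q u = 1) (i : Fin N) :
    u * (cU Q).g i = (cU Q).g i * u := by
  have h1 := uu_conj Q u ⟨Q.cl.g i, MonoidHom.mem_ker.2 (hq_cl Q.toHQ i)⟩
  rw [hu, map_one, MulAut.one_apply, ← cu_g, mul_inv_eq_iff_eq_mul] at h1
  exact h1

theorem tc_cU (Q : HU p N G P H) : Tc (cU Q) = (SemidirectProduct.rightHom (φ := act Q)).ker := by
  apply le_antisymm
  · refine Subgroup.normalClosure_le_normal ?_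
    rintro _ ⟨i, rfl⟩
    exact MonoidHom.mem_ker.2 rfl
  · intro u hu
    have h1 : u = SemidirectProduct.inl u.left := by
      apply SemidirectProduct.ext
      · rfl
      · exact MonoidHom.mem_ker.1 hu
    obtain ⟨S, hS⟩ : ∃ S : Subgroup Q.ph.ker, S = (Tc (cU Q)).comap SemidirectProduct.inl :=
      ⟨_, rfl⟩
    have h2 : Q.ph.ker ≤ S.map Q.ph.ker.subtype := by
      have hn : (S.map Q.ph.ker.subtype).Normal := by
        refine ⟨fun x hx g => ?_⟩
        obtain ⟨t, ht, rfl⟩ := hx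
        refine ⟨act Q (Q.pr g) t, ?_, by rw [Subgroup.subtype_apply, act_pr]; rfl⟩
        rw [hS]
        obtain ⟨w, -, hw⟩ := uu_conj_g Q g t
        show SemidirectProduct.inl (act Q (Q.pr g) t) ∈ Tc (cU Q)
        rw [← hw]
        rw [hS] at ht
        exact Subgroup.normalClosure_normal.conj_mem _ ht w
      refine Q.hT.le.trans (Subgroup.normalClosure_le_normal ?_)
      rintro _ ⟨i, rfl⟩
      refine ⟨⟨Q.cl.g i, MonoidHom.mem_ker.2 (hq_cl Q.toHQ i)⟩, ?_, rfl⟩
      rw [hS]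
      exact Subgroup.subset_normalClosure ⟨i, rfl⟩
    obtain ⟨t, ht, h3⟩ := h2 u.left.2
    have h4 : t = u.left := Subtype.ext h3
    rw [h1, ← h4]
    rw [hS] at ht
    exact ht

theorem uu_fin (Q : HU p N G P H) [Finite G] : Finite (UU Q) := by
  have h1 : Finite P := Finite.of_surjective _ Q.prs
  exact Finite.of_equiv _ (SemidirectProduct.equivProd (φ := act Q)).symm

theorem uu_pg (Q : HU p N G P H) (hP : IsPGroup p P) : IsPGroup p (UU Q) := by
  intro u
  obtain ⟨k, hk⟩ := hP u.right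
  have h1 : (u ^ p ^ k).right = 1 := by
    have h2 := map_pow (SemidirectProduct.rightHom (φ := act Q)) u (p ^ k)
    rw [SemidirectProduct.rightHom_eq_right] at h2
    rw [h2]
    exact hk
  have h3 : u ^ p ^ k = SemidirectProduct.inl (u ^ p ^ k).left := by
    apply SemidirectProduct.ext
    · rfl
    · exact h1
  obtain ⟨j, hj⟩ := Q.tp _ (MonoidHom.mem_ker.1 (u ^ p ^ k).left.2)
  refine ⟨k + j, ?_⟩
  rw [pow_add, pow_mul, h3, ← map_pow]
  have h4 : (u ^ p ^ k).left ^ p ^ j = 1 := by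
    apply Subtype.ext
    rw [Subgroup.coe_pow, Subgroup.coe_one]
    exact hj
  rw [h4, map_one]

end H71.HT2
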