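import Pool.Agent.H71.HT2.Psi
import Pool.Agent.H77.WD.Tyf

/-!
# [H71 HT2 UTY] finitely many types over a given `ph φ` (MP_b39724_nt, think 1829)

PROOF. `ty_fin` (H77/WD/Tyf.lean) for the finite `p`-group `UU Q` (`uu_fin`, `uu_pg`): `Rs`. For every `α ∈ Rs` for which there is a `φ` of finite type with `A φ`, `ph φ = ph φb` and `Teq D.S0 Q' (psi Q φb φ _) α` choose one. Two `φ` with the same `α` agree on the decomposition groups at `S0`: `φ σ = (psi ..).left * φb σ`. (As `hxty`, H51/HC/Xty.lean.)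
-/

set_option autoImplicit false

open scoped NumberField
open IsDedekindDomain H38.ML
open scoped Classical

noncomputable section

namespace H71.HT2

open H63.MA H38.BB H38.BG H57.PC H57.BRA H63.BU H77.PC3 H57.CC H38.AS H77.S0T H77.FLD H77.PLF
  H51.PF H51.F3

theorem utyp {K : Type} [Field K] [NumberField K] {Ω : Type} [Field Ω] [Algebra K Ω]
    [IsAlgClosure K Ω] {p N : ℕ} {ζ : K} {G P H : Type} [Group G] [Group P] [Group H] [Finite G]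
    (hp : p.Prime) (hp2 : MOne p K) (hζ : IsPrimitiveRoot ζ p) (Q : HU p N G P H)
    (hP : IsPGroup p P) (D : RD0 K p ζ) (L : LDs D Ω) (Q' : DP K Ω) (φb : Gal(Ω/K) →* G)
    (hb : H38.ML.FT φb) (A : (Gal(Ω/K) →* G) → Prop) :
    ∃ R₀ : Finset (Gal(Ω/K) →* G),
      (∀ φ ∈ R₀, H38.ML.FT φ ∧ A φ ∧ Q.ph.comp φ = Q.ph.comp φb) ∧
      ∀ φ : Gal(Ω/K) →* G, H38.ML.FT φ → A φ → Q.ph.comp φ = Q.ph.comp φb →
        ∃ φ' ∈ R₀, Teq D.S0 Q' φ φ' := by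
  have : NeZero p := ⟨hp.ne_zero⟩
  have hUf : Finite (UU Q) := uu_fin Q
  obtain ⟨Rs, -, hR2⟩ := H77.WD.ty_fin hp hp2 hζ D L Q' _ (UU Q) rfl (uu_pg Q hP)
  set J : Set (Gal(Ω/K) →* UU Q) := {x | x ∈ Rs ∧
    ∃ (φ : Gal(Ω/K) →* G) (h : Q.ph.comp φ = Q.ph.comp φb), H38.ML.FT φ ∧ A φ ∧
      Teq D.S0 Q' (psi Q φb φ h) x} with hJ
  have hJf : J.Finite := Set.Finite.subset Rs.finite_toSet fun x hx => hx.1
  have hch : ∀ x : J, ∃ (φ : Gal(Ω/K) →* G) (h : Q.ph.comp φ = Q.ph.comp φb),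
      H38.ML.FT φ ∧ A φ ∧ Teq D.S0 Q' (psi Q φb φ h) x.1 := fun x => x.2.2
  choose F hF0 hF1 hF2 hF3 using hch
  have hfin : Finite J := hJf
  have hrf : (Set.range F).Finite := Set.finite_range F
  refine ⟨hrf.toFinset, fun φ hφ => ?_, fun φ hφ hA h => ?_⟩
  · rw [Set.Finite.mem_toFinset] at hφ
    obtain ⟨x, rfl⟩ := hφ
    exact ⟨hF1 x, hF2 x, hF0 x⟩
  · obtain ⟨α, hα, h1⟩ := hR2 (psi Q φb φ h) (psi_ft Q φb φ h hb hφ)
    obtain ⟨x, hx⟩ : ∃ x : J, x.1 = α := ⟨⟨α, hα, φ, h, hφ, hA, h1⟩, rfl⟩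
    refine ⟨F x, (Set.Finite.mem_toFinset _).2 ⟨x, rfl⟩, fun v hv σ hσ => ?_⟩
    have h3 := h1 v hv σ hσ
    have h4 := hF3 x v hv σ hσ
    rw [hx] at h4
    have h5 : psi Q φb φ h σ = psi Q φb (F x) (hF0 x) σ := h3.trans h4.symm
    have h6 := congrArg (fun u : UU Q => (u.left : G)) h5
    rw [psi_left, psi_left] at h6
    exact mul_right_cancel h6

end H71.HT2
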